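import Pool.Agent.Work.MP_de7025_lc.F.E1

set_option autoImplicit false

/-!
# F/E4 (S-M): the pairing polynomial `pr a b = (a + b) ^ 2 + b`

PROOF. Injective: if `a + b < c + d` then `a + b + 1 ≤ c + d` and `pr a b < (a + b + 1) ^ 2 ≤ pr c d` (`(a + b) ^ 2 + b < (a + b) ^ 2 + 2 (a + b) + 1`); so `a + b = c + d`, then `b = d` (cancel) and `a = c`.
The same for natural numbers (`nlinarith`). Casts: `push_cast`. `pr_code_inj`, `kf` etc.: codes of terms have first component `0, 1, 2, 3`, requests `4, 5, 6` (injectivity of `pr` on `ℕ`).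
`code_inj`: induction on the term.
-/

namespace Pool.Agent.Work.MP_de7025_lc.F

variable {A : ArStr.{0}} [IsE A]

section gen

variable {N : Type} [CommSemiring N] [LinearOrder N] [IsStrictOrderedRing N]
  [CanonicallyOrderedAdd N]

private theorem g_lt (hd : ∀ x y : N, x < y → x + 1 ≤ y) {a b c d : N} (h : a + b < c + d) :
    pr a b < pr c d := by
  have h1 := hd _ _ h
  have h2 : b ≤ a + b := le_add_self
  have h3 : (a + b) * (a + b) + b ≤ (a + b) * (a + b) + (a + b) := add_le_add le_rfl h2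
  have h4 : (a + b) * (a + b) + (a + b) < (a + b + 1) * (a + b + 1) := by
    have e : (a + b + 1) * (a + b + 1) = (a + b) * (a + b) + (a + b) + (a + b + 1) := by ring
    rw [e]
    exact lt_add_of_pos_right _ (lt_of_lt_of_le zero_lt_one le_add_self)
  have h5 : (a + b + 1) * (a + b + 1) ≤ (c + d) * (c + d) := mul_le_mul' h1 h1
  have h6 : (c + d) * (c + d) ≤ (c + d) * (c + d) + d := le_self_add
  exact (h3.trans_lt h4).trans_le (h5.trans h6)

private theorem g_inj (hd : ∀ x y : N, x < y → x + 1 ≤ y) {a b c d : N} (h : pr a b = pr c d) :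
    a = c ∧ b = d := by
  rcases lt_trichotomy (a + b) (c + d) with h1 | h1 | h1
  · exact absurd h (g_lt hd h1).ne
  · have h2 : (a + b) * (a + b) + b = (c + d) * (c + d) + d := h
    rw [h1] at h2
    have h3 : b = d := add_left_cancel h2
    subst h3
    exact ⟨add_right_cancel h1, rfl⟩
  · exact absurd h (g_lt hd h1).ne'

private theorem g_sq (hd : ∀ x y : N, x < y → x + 1 ≤ y) (x : N) : x ≤ x * x := by
  rcases eq_or_ne x 0 with rfl | h
  · rw [mul_zero]
  · have h1 : 0 < x := pos_iff_ne_zero.2 h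
    have h2 := hd _ _ h1
    rw [zero_add] at h2
    calc x = x * 1 := (mul_one x).symm
      _ ≤ x * x := mul_le_mul' le_rfl h2

private theorem g_left (hd : ∀ x y : N, x < y → x + 1 ≤ y) (a b : N) : a ≤ pr a b :=
  ((le_self_add : a ≤ a + b).trans (g_sq hd _)).trans le_self_add

end gen

private theorem hdA (x y : A.C) (h : x < y) : x + 1 ≤ y := (add_one_le_iff' x y).2 h

theorem pr_inj {a b c d : A.C} (h : pr a b = pr c d) : a = c ∧ b = d := g_inj hdA h

theorem pr_inj_nat {a b c d : ℕ} (h : pr a b = pr c d) : a = c ∧ b = d :=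
  g_inj (fun _ _ h => h) h

theorem le_pr_left (a b : A.C) : a ≤ pr a b := g_left hdA a b

theorem le_pr_right (a b : A.C) : b ≤ pr a b := le_add_self

theorem le_pr_left_nat (a b : ℕ) : a ≤ pr a b := g_left (fun _ _ h => h) a b

theorem le_pr_right_nat (a b : ℕ) : b ≤ pr a b := Nat.le_add_left _ _

theorem pr_mono {a b c d : A.C} (h : a ≤ c) (h' : b ≤ d) : pr a b ≤ pr c d :=
  add_le_add (mul_le_mul' (add_le_add h h') (add_le_add h h')) h'

theorem pr_lt {a b c d : A.C} (h : a ≤ c) (h' : b < d) : pr a b < pr c d :=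
  add_lt_add_of_le_of_lt (mul_le_mul' (add_le_add h h'.le) (add_le_add h h'.le)) h'

theorem pr_lt_left {a b c d : A.C} (h : a < c) (h' : b ≤ d) : pr a b < pr c d :=
  g_lt hdA (add_lt_add_of_lt_of_le h h')

theorem cast_pr (a b : ℕ) : ((pr a b : ℕ) : A.C) = pr (a : A.C) (b : A.C) := by
  unfold pr
  push_cast
  rfl

theorem cast_W (k a b : ℕ) : ((W k a b : ℕ) : A.C) = W (k : A.C) (a : A.C) (b : A.C) := by
  unfold W
  rw [Nat.cast_add, Nat.cast_one, cast_pr, cast_pr]

@[fun_prop]
theorem pr.dfn {Γ : Type} [Ctx A Γ] {f g : Γ → A.C} (hf : DfnM A f) (hg : DfnM A g) :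
    DfnM A (fun x => pr (f x) (g x)) := by
  unfold pr
  fun_prop

@[fun_prop]
theorem W.dfn {Γ : Type} [Ctx A Γ] {f g h : Γ → A.C} (hf : DfnM A f) (hg : DfnM A g)
    (hh : DfnM A h) : DfnM A (fun x => W (f x) (g x) (h x)) := by
  unfold W
  fun_prop

theorem code_inj {s t : RT} (h : s.code = t.code) : s = t := by
  induction s generalizing t with
  | atom i =>
    cases t with
    | atom j => rw [Fin.ext (pr_inj_nat h).2]
    | nand _ _ => exact absurd (pr_inj_nat h).1 (by decide)
    | comp _ _ => exact absurd (pr_inj_nat h).1 (by decide)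
    | conv _ => exact absurd (pr_inj_nat h).1 (by decide)
  | nand u v ihu ihv =>
    cases t with
    | atom j => exact absurd (pr_inj_nat h).1 (by decide)
    | nand u' v' =>
      obtain ⟨h1, h2⟩ := pr_inj_nat (pr_inj_nat h).2
      rw [ihu h1, ihv h2]
    | comp _ _ => exact absurd (pr_inj_nat h).1 (by decide)
    | conv _ => exact absurd (pr_inj_nat h).1 (by decide)
  | comp u v ihu ihv =>
    cases t with
    | atom j => exact absurd (pr_inj_nat h).1 (by decide)
    | nand _ _ => exact absurd (pr_inj_nat h).1 (by decide)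
    | comp u' v' =>
      obtain ⟨h1, h2⟩ := pr_inj_nat (pr_inj_nat h).2
      rw [ihu h1, ihv h2]
    | conv _ => exact absurd (pr_inj_nat h).1 (by decide)
  | conv u ihu =>
    cases t with
    | atom j => exact absurd (pr_inj_nat h).1 (by decide)
    | nand _ _ => exact absurd (pr_inj_nat h).1 (by decide)
    | comp _ _ => exact absurd (pr_inj_nat h).1 (by decide)
    | conv u' => rw [ihu (pr_inj_nat h).2]

private theorem code_fst (t : RT) : ∃ k m, k < 4 ∧ t.code = pr k m := by
  cases t with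
  | atom i => exact ⟨0, _, by decide, rfl⟩
  | nand u v => exact ⟨1, _, by decide, rfl⟩
  | comp u v => exact ⟨2, _, by decide, rfl⟩
  | conv u => exact ⟨3, _, by decide, rfl⟩

theorem code_ne_kf (t : RT) (i : ℕ) : t.code ≠ kf i := by
  obtain ⟨k, m, hk, e⟩ := code_fst t
  rw [e]
  intro h
  have h1 : k = 4 := (pr_inj_nat h).1
  omega

theorem code_ne_kp (t : RT) : t.code ≠ kp := by
  obtain ⟨k, m, hk, e⟩ := code_fst t
  rw [e]
  intro h
  have h1 : k = 5 := (pr_inj_nat h).1
  omega

theorem code_ne_kd (t : RT) : t.code ≠ kd := by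
  obtain ⟨k, m, hk, e⟩ := code_fst t
  rw [e]
  intro h
  have h1 : k = 6 := (pr_inj_nat h).1
  omega

theorem kf_inj {i j : ℕ} (h : kf i = kf j) : i = j := (pr_inj_nat h).2

theorem kf_ne_kp (i : ℕ) : kf i ≠ kp := by
  intro h
  exact absurd (pr_inj_nat h).1 (by decide)

theorem kf_ne_kd (i : ℕ) : kf i ≠ kd := by
  intro h
  exact absurd (pr_inj_nat h).1 (by decide)

theorem kp_ne_kd : kp ≠ kd := by
  intro h
  exact absurd (pr_inj_nat h).1 (by decide)

end Pool.Agent.Work.MP_de7025_lc.F
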