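import Pool.Agent.Work.MP_de7025_lc.F.Game
import Pool.Agent.Work.MP_de7025_lc.F.E4

set_option autoImplicit false

/-!
# F/U1 (M): the numbers are a model of `U`

PROOF. Both for `ℕ` and for `A.C` (prove it for a commutative semiring `N` with: `pr` injective, addition cancellative, `x + 1 ≠ 0`, `x + 1 = y + 1 → x = y`, every `x` is `0` or a successor). `NR 1`, `NR 2` are total functions: the projections of
`d = pr x y` (injectivity), and `0` if `d` is not a pair. Clauses of `axCl`: `simp [axCl, Viol, pp, mm, ...]` and then each one is immediate: `NR 0` is equality; `NR 5`, `NR 6` are functions of the projections;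
`(x, y + 1)`: `x + (y + 1) = (x + y) + 1`, `x * (y + 1) = x * y + x`. For a clause one may prove first `NR 5 d c ↔ ∀ x y, NR 1 d x → NR 2 d y → c = x + y`.
`tot`: the functions are total. `pair`: `d = pr a b`. `pred`: `a = 0` or `a = w + 1`.
-/

namespace Pool.Agent.Work.MP_de7025_lc.F

section gen

variable {N : Type} [CommSemiring N]

private theorem nr_fun (hinj : ∀ a b c d : N, pr a b = pr c d → a = c ∧ b = d) :
    ∃ p1 p2 : N → N, (∀ x y, p1 (pr x y) = x) ∧ (∀ x y, p2 (pr x y) = y) ∧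
      (∀ d x, NR 1 d x ↔ x = p1 d) ∧ (∀ d x, NR 2 d x ↔ x = p2 d) ∧
      (∀ d c, NR 5 d c ↔ c = p1 d + p2 d) ∧ (∀ d c, NR 6 d c ↔ c = p1 d * p2 d) := by
  classical
  have key : ∀ d : N, ∃ q : N × N, (∀ x, ((∃ y, d = pr x y) ∨ (x = 0 ∧ ¬ ∃ x' y', d = pr x' y')) ↔
      x = q.1) ∧ (∀ y, ((∃ x, d = pr x y) ∨ (y = 0 ∧ ¬ ∃ x' y', d = pr x' y')) ↔ y = q.2) ∧
      (∀ x y, d = pr x y → q = (x, y)) := by
    intro d
    by_cases h : ∃ x' y', d = pr x' y'
    · obtain ⟨x, y, rfl⟩ := h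
      refine ⟨(x, y), fun x1 => ⟨?_, ?_⟩, fun y1 => ⟨?_, ?_⟩, fun x1 y1 e => ?_⟩
      · rintro (⟨y1, e⟩ | ⟨-, e⟩)
        · exact (hinj _ _ _ _ e).1.symm
        · exact absurd ⟨x, y, rfl⟩ e
      · rintro rfl
        exact Or.inl ⟨y, rfl⟩
      · rintro (⟨x1, e⟩ | ⟨-, e⟩)
        · exact (hinj _ _ _ _ e).2.symm
        · exact absurd ⟨x, y, rfl⟩ e
      · rintro rfl
        exact Or.inl ⟨x, rfl⟩
      · obtain ⟨e1, e2⟩ := hinj _ _ _ _ e
        rw [e1, e2]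
    · refine ⟨(0, 0), fun x1 => ⟨?_, ?_⟩, fun y1 => ⟨?_, ?_⟩, fun x1 y1 e => ?_⟩
      · rintro (⟨y1, e⟩ | ⟨e, -⟩)
        · exact absurd ⟨x1, y1, e⟩ h
        · exact e
      · intro e
        exact Or.inr ⟨e, h⟩
      · rintro (⟨x1, e⟩ | ⟨e, -⟩)
        · exact absurd ⟨x1, y1, e⟩ h
        · exact e
      · intro e
        exact Or.inr ⟨e, h⟩
      · exact absurd ⟨x1, y1, e⟩ h
  choose q hq1 hq2 hq3 using key
  refine ⟨fun d => (q d).1, fun d => (q d).2, fun x y => ?_, fun x y => ?_, hq1, hq2,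
    fun d c => ?_, fun d c => ?_⟩
  · beta_reduce
    rw [hq3 _ x y rfl]
  · beta_reduce
    rw [hq3 _ x y rfl]
  · constructor
    · rintro ⟨x, y, hx, hy, rfl⟩
      rw [(hq1 d x).1 hx, (hq2 d y).1 hy]
    · intro e
      exact ⟨_, _, (hq1 d _).2 rfl, (hq2 d _).2 rfl, e⟩
  · constructor
    · rintro ⟨x, y, hx, hy, rfl⟩
      rw [(hq1 d x).1 hx, (hq2 d y).1 hy]
    · intro e
      exact ⟨_, _, (hq1 d _).2 rfl, (hq2 d _).2 rfl, e⟩

private theorem uax_gen (hinj : ∀ a b c d : N, pr a b = pr c d → a = c ∧ b = d)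
    (hcan : ∀ a b : N, a + 1 = b + 1 → a = b) (h0 : ∀ a : N, a + 1 ≠ 0)
    (hpred : ∀ a : N, a = 0 ∨ ∃ w, a = w + 1) : UAx (numStr N) := by
  obtain ⟨p1, p2, e1, e2, r1, r2, r5, r6⟩ := nr_fun hinj
  have r0 : ∀ a b : N, NR 0 a b ↔ a = b := fun _ _ => Iff.rfl
  have r3 : ∀ a b : N, NR 3 a b ↔ b = 0 := fun _ _ => Iff.rfl
  have r4 : ∀ a b : N, NR 4 a b ↔ b = a + 1 := fun _ _ => Iff.rfl
  have ev : ∀ (i : Fin 7) (a b : N), (RT.atom i).eval (numStr N) a b ↔ NR i a b :=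
    fun _ _ _ => Iff.rfl
  constructor
  · have key : ∀ cl ∈ axCl, ∀ v : Fin 9 → N, ¬ ∀ f ∈ cl,
        (if f.s = true then f.t.eval (numStr N) (v f.i) (v f.j)
          else ¬ f.t.eval (numStr N) (v f.i) (v f.j)) := by
      unfold axCl
      simp only [List.forall_mem_cons, and_true, List.not_mem_nil,
        false_imp_iff, implies_true, pp, mm, if_true, Bool.false_eq_true, if_false, ev,
        r0, r1, r2, r3, r4, r5, r6]
      refine ⟨?_, ?_, ?_, ?_, ?_, ?_, ?_, ?_, ?_, ?_, ?_, ?_, ?_, ?_, ?_, ?_, ?_, ?_, ?_, ?_, ?_,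
        ?_, ?_⟩ <;> intro v
      · exact fun h => h trivial
      · rintro ⟨h1, h2⟩
        exact h2 h1.symm
      · rintro ⟨h1, h2, h3⟩
        exact h3 (h1.trans h2)
      · rintro ⟨h1, h2, h3, h4⟩
        exact h4 (by rw [← h1, ← h2, h3])
      · rintro ⟨h1, h2, h3, h4⟩
        exact h4 (by rw [← h1, ← h2, h3])
      · rintro ⟨h1, h2, h3, h4⟩
        exact h4 (by rw [← h2, h3])
      · rintro ⟨h1, h2, h3, h4⟩
        exact h4 (by rw [← h1, ← h2, h3])
      · rintro ⟨h1, h2, h3, h4⟩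
        exact h4 (by rw [← h1, ← h2, h3])
      · rintro ⟨h1, h2, h3, h4⟩
        exact h4 (by rw [← h1, ← h2, h3])
      · rintro ⟨h1, h2, h3⟩
        exact h3 (h1.trans h2.symm)
      · rintro ⟨h1, h2, h3⟩
        exact h3 (h1.trans h2.symm)
      · rintro ⟨h1, h2, h3⟩
        exact h3 (h1.trans h2.symm)
      · rintro ⟨h1, h2, h3⟩
        exact h3 (h1.trans h2.symm)
      · rintro ⟨h1, h2, h3⟩
        exact h3 (h1.trans h2.symm)
      · rintro ⟨h1, h2, h3⟩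
        exact h3 (h1.trans h2.symm)
      · rintro ⟨h1, h2⟩
        exact h0 _ (h1.symm.trans h2)
      · rintro ⟨h1, h2, h3⟩
        exact h3 (hcan _ _ (h1.symm.trans h2))
      · rintro ⟨h1, h2, h3, h4, h5, h6⟩
        exact h6 (by rw [← h3, ← h4, h1, h2, h5])
      · rintro ⟨h1, h2, h3, h4, h5, h6⟩
        exact h6 (by rw [← h3, ← h4, h1, h2, h5])
      · rintro ⟨h1, h2, h3, h4, h5⟩
        exact h5 (by rw [h1, ← h3, h4, add_zero, h2])
      · rintro ⟨h1, h2, h3, h4, h5, h6, h7, h8⟩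
        exact h8 (by rw [h7, h6, ← h1, ← h2, ← h3, ← h4, h5, add_assoc])
      · rintro ⟨h1, h2, h3, h4⟩
        exact h4 (by rw [h1, ← h2, h3, mul_zero])
      · rintro ⟨h1, h2, h3, h4, h5, h6, h7, h8, h9, h10, h11⟩
        exact h11 (by
          rw [h7, h10, ← h8, ← h9, h6, ← h1, ← h2, ← h3, ← h4, h5, mul_add, mul_one])
    rintro cl hcl ⟨v, -, hv⟩
    exact key cl hcl v hv
  · intro i hi
    change ∀ a : N, ∃ b : N, NR i a b
    intro a
    fin_cases i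
    · exact absurd rfl hi
    · exact ⟨_, (r1 a _).2 rfl⟩
    · exact ⟨_, (r2 a _).2 rfl⟩
    · exact ⟨0, rfl⟩
    · exact ⟨a + 1, rfl⟩
    · exact ⟨_, (r5 a _).2 rfl⟩
    · exact ⟨_, (r6 a _).2 rfl⟩
  · change ∀ a b : N, ∃ d : N, NR 1 d a ∧ NR 2 d b
    intro a b
    exact ⟨pr a b, (r1 _ _).2 (e1 a b).symm, (r2 _ _).2 (e2 a b).symm⟩
  · change ∀ a : N, NR 3 a a ∨ ∃ w : N, NR 4 w a
    intro a
    rcases hpred a with h | ⟨w, h⟩
    · exact Or.inl h
    · exact Or.inr ⟨w, h⟩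

end gen

theorem num_UAx_nat : UAx (numStr ℕ) := by
  refine uax_gen (fun _ _ _ _ h => pr_inj_nat h) (fun a b h => by omega) (fun a => by omega)
    (fun a => ?_)
  rcases a with _ | a
  · exact Or.inl rfl
  · exact Or.inr ⟨a, rfl⟩

variable {A : ArStr.{0}} [IsE A]

theorem num_UAx : UAx (numStr A.C) := by
  refine uax_gen (fun _ _ _ _ h => pr_inj h) (fun a b h => add_right_cancel h)
    (fun a h => ?_) (fun a => ?_)
  · have h1 : (1 : A.C) ≤ 0 := by
      rw [← h]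
      exact le_add_self
    exact absurd h1 (not_le.2 zero_lt_one)
  · by_cases h : a = 0
    · exact Or.inl h
    · exact Or.inr ((pos_iff_exists a).1 (pos_iff_ne_zero.2 h))

end Pool.Agent.Work.MP_de7025_lc.F
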