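import Pool.Agent.Work.MP_de7025_lc.F.F2
import Pool.Agent.Work.MP_de7025_lc.F.U1

set_option autoImplicit false

/-!
# F/F3 (M): no interpretation of EFA in models of `U`

PROOF. Suppose `Hall`. `μ`, `r` from `exists_mu`, `exists_root`; `L` built and containing `r, μ` and `needL J` (`exists_built`); `n` from `exists_code`. `K0 = numStr ℕ` (`num_UAx_nat`), `A0` with `DefU`, a model of EFA. By `loeb` for every `m : ℕ` there is `t_m` with `TblX J n t_m m` in `A0`.
Let `T m k a b := TT t_m k a b` for natural numbers `k, a, b` (casts). `Tab L (T m) (· < m)`: `tblX_iff` and `tab_transfer` with `f = Nat.cast` (`cast_W`, `Nat.cast_lt`). If `hh J n < m` then `T m r.code (hh J n) (hh J n)`. `tab_limit` gives a table `T'` on all of `ℕ` with `T' r.code (hh J n) (hh J n)`.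
`K' = tabStr T' (fun _ => True) _` is a model of `U` and `r.eval` holds at `hh J n` (`tab_truth`). `Hall` gives `A'`, `Rep'`; `num_hh` (with `ν a = ⟨a, trivial⟩`): `hh J n` represents `n`. By `exists_root`: `¬ ∀ y, ∃ t, TblX J n t y` in `A'`, contradiction to `loeb` for `K'`.
-/

namespace Pool.Agent.Work.MP_de7025_lc.F

theorem no_RInt (J : RInt) : ¬ ∀ K : UStr, UAx K →
    ∃ (A : ArStr.{0}) (Rep : K.C → A.C → Prop), EFA A ∧ DefU J K A Rep := by
  intro Hall
  obtain ⟨μ, Hμ⟩ := exists_mu J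
  obtain ⟨r, Hr⟩ := exists_root J
  obtain ⟨L, hL, hS⟩ := exists_built (r :: μ :: needL J)
  have hr : r ∈ L := hS r (by simp)
  have hμ : μ ∈ L := hS μ (by simp)
  have hneed : ∀ x ∈ needL J, x ∈ L := fun x hx => hS x (by simp [hx])
  obtain ⟨n, hn⟩ := exists_code L r
  have hcl : Closed L := hL.closed
  have hz : tZ J ∈ L := hneed _ (by simp [needL])
  have hs : tS J ∈ L := hneed _ (by simp [needL])
  obtain ⟨A, Rep, hA, hJ⟩ := Hall (numStr ℕ) num_UAx_nat
  have : IsE A := ⟨hA⟩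
  have hloeb : ∀ m : ℕ, ∃ t : A.C, TblX J (n : A.C) t (m : A.C) := fun m =>
    loeb hL hneed hr hμ hn Hr Hμ Hall num_UAx_nat hJ m
  choose t ht using hloeb
  have hT : ∀ m, Tab L (fun k a b : ℕ => TT (t m) (k : A.C) (a : A.C) (b : A.C))
      (fun a => a < m) := by
    intro m
    have h1 := ((tblX_iff hcl hn (t m) (m : A.C)).mp (ht m)).1
    refine tab_transfer hcl (fun a : ℕ => (a : A.C)) (H2 := fun a => a < (m : A.C)) ?_ ?_ ?_ h1
    · intro a ha
      exact Nat.cast_lt.mpr ha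
    · intro s _ a c _ _
      exact Iff.rfl
    · intro k _ a c _ _ _
      exact cast_W k a c
  obtain ⟨T', hT', hlim⟩ := tab_limit hcl
    (fun m k a b : ℕ => TT (t m) (k : A.C) (a : A.C) (b : A.C)) hT
  have hr' : T' r.code (hh J n) (hh J n) := by
    refine hlim _ _ _ ⟨hh J n + 1, fun y hy => ?_⟩
    exact ((tblX_iff hcl hn (t y) (y : A.C)).mp (ht y)).2 (Nat.cast_lt.mpr hy)
  have hne : ∃ a : ℕ, (fun _ : ℕ => True) a := ⟨0, trivial⟩
  obtain ⟨hU, htr⟩ := tab_truth hcl hne hT' (fun _ _ _ _ _ _ => trivial)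
  obtain ⟨A', Rep', hA', hJ'⟩ := Hall (tabStr T' (fun _ => True) hne) hU
  have : IsE A' := ⟨hA'⟩
  have hrep : Rep' ⟨hh J n, trivial⟩ (n : A'.C) :=
    num_hh hcl hz hs hT' hU (fun a => ⟨a, trivial⟩)
      (fun s hs' a c => (htr s hs' ⟨a, trivial⟩ ⟨c, trivial⟩).symm) hJ' n
  have h1 : r.eval (tabStr T' (fun _ => True) hne) ⟨hh J n, trivial⟩ ⟨hh J n, trivial⟩ :=
    (htr r hr ⟨hh J n, trivial⟩ ⟨hh J n, trivial⟩).mpr hr'
  have h2 := (Hr _ hU A' Rep' hJ' _ _ hrep _).mp h1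
  exact h2 (fun y => loeb hL hneed hr hμ hn Hr Hμ Hall hU hJ' y)

end Pool.Agent.Work.MP_de7025_lc.F
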