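import Pool.Agent.Work.MP_de7025_lc.F.Tab0

set_option autoImplicit false

/-!
# F/U2 (M): evaluation of combined terms, congruence

PROOF. Unfold; `axCl` clauses by `simp [axCl, Viol, pp, mm]` (instantiate the nine variables with `![...]`, unused ones with anything; it may be convenient to prove first a general lemma:
for `cl ∈ axCl` and all `v : Fin 9 → K.C` not all facts of `cl` hold). `eval_congr`: induction on the term; atoms: the congruence clauses for `1, ..., 6`, symmetry and transitivity for `0`.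
`eval_one`: `E a b ∨ ¬ E a b`. `eval_diag`: `∃ c, t a c ∧ E a c` iff `t a a` by congruence and reflexivity.
-/

namespace Pool.Agent.Work.MP_de7025_lc.F

theorem eval_neg (K : UStr) (t : RT) (a b : K.C) : t.neg.eval K a b ↔ ¬ t.eval K a b := by
  simp [RT.neg, RT.eval]

theorem eval_and (K : UStr) (s t : RT) (a b : K.C) :
    (s.and t).eval K a b ↔ s.eval K a b ∧ t.eval K a b := by
  rw [RT.and, eval_neg, RT.eval, not_not]

theorem eval_or (K : UStr) (s t : RT) (a b : K.C) :
    (s.or t).eval K a b ↔ s.eval K a b ∨ t.eval K a b := by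
  rw [RT.or, RT.eval, eval_neg, eval_neg]
  tauto

theorem eval_one (K : UStr) (a b : K.C) : RT.one.eval K a b := by
  rw [RT.one, RT.eval, eval_neg]
  tauto

private theorem noV {K : UStr} (h : UAx K) {cl : List Pat} (hcl : cl ∈ axCl) (v : Fin 9 → K.C)
    (hv : ∀ f ∈ cl, if f.s = true then f.t.eval K (v f.i) (v f.j)
      else ¬ f.t.eval K (v f.i) (v f.j)) : False :=
  h.uni cl hcl ⟨v, fun _ => trivial, hv⟩


theorem UAx.refl {K : UStr} (h : UAx K) (a : K.C) : K.R 0 a a := by
  by_contra hc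
  refine noV h (cl := [mm 0 0 0]) (by
    repeat (first | exact List.mem_cons_self | apply List.mem_cons_of_mem)) (fun _ => a) ?_
  simpa [mm, RT.eval] using hc

theorem UAx.symm {K : UStr} (h : UAx K) {a b : K.C} (h1 : K.R 0 a b) : K.R 0 b a := by
  by_contra hc
  refine noV h (cl := [pp 0 0 1, mm 0 1 0]) (by
    repeat (first | exact List.mem_cons_self | apply List.mem_cons_of_mem)) ![a, b, a, a, a, a, a, a, a] ?_
  simpa [mm, pp, RT.eval] using ⟨h1, hc⟩

theorem UAx.trans {K : UStr} (h : UAx K) {a b c : K.C} (h1 : K.R 0 a b) (h2 : K.R 0 b c) :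
    K.R 0 a c := by
  by_contra hc
  refine noV h (cl := [pp 0 0 1, pp 0 1 2, mm 0 0 2]) (by
    repeat (first | exact List.mem_cons_self | apply List.mem_cons_of_mem)) ![a, b, c, a, a, a, a, a, a] ?_
  simpa [mm, pp, RT.eval] using ⟨h1, h2, hc⟩

private theorem congr_atom {K : UStr} (h : UAx K) (i : Fin 7) {a a' b b' : K.C} (h1 : K.R 0 a a')
    (h2 : K.R 0 b b') (h3 : K.R i a b) : K.R i a' b' := by
  by_contra hc
  fin_cases i
  · exact hc (h.trans (h.symm h1) (h.trans h3 h2))
  · refine noV h (cl := [pp 0 0 1, pp 0 2 3, pp 1 0 2, mm 1 1 3]) (by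
    repeat (first | exact List.mem_cons_self | apply List.mem_cons_of_mem))
      ![a, a', b, b', a, a, a, a, a] ?_
    simpa [mm, pp, RT.eval] using ⟨h1, h2, h3, hc⟩
  · refine noV h (cl := [pp 0 0 1, pp 0 2 3, pp 2 0 2, mm 2 1 3]) (by
    repeat (first | exact List.mem_cons_self | apply List.mem_cons_of_mem))
      ![a, a', b, b', a, a, a, a, a] ?_
    simpa [mm, pp, RT.eval] using ⟨h1, h2, h3, hc⟩
  · refine noV h (cl := [pp 0 0 1, pp 0 2 3, pp 3 0 2, mm 3 1 3]) (by
    repeat (first | exact List.mem_cons_self | apply List.mem_cons_of_mem))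
      ![a, a', b, b', a, a, a, a, a] ?_
    simpa [mm, pp, RT.eval] using ⟨h1, h2, h3, hc⟩
  · refine noV h (cl := [pp 0 0 1, pp 0 2 3, pp 4 0 2, mm 4 1 3]) (by
    repeat (first | exact List.mem_cons_self | apply List.mem_cons_of_mem))
      ![a, a', b, b', a, a, a, a, a] ?_
    simpa [mm, pp, RT.eval] using ⟨h1, h2, h3, hc⟩
  · refine noV h (cl := [pp 0 0 1, pp 0 2 3, pp 5 0 2, mm 5 1 3]) (by
    repeat (first | exact List.mem_cons_self | apply List.mem_cons_of_mem))
      ![a, a', b, b', a, a, a, a, a] ?_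
    simpa [mm, pp, RT.eval] using ⟨h1, h2, h3, hc⟩
  · refine noV h (cl := [pp 0 0 1, pp 0 2 3, pp 6 0 2, mm 6 1 3]) (by
    repeat (first | exact List.mem_cons_self | apply List.mem_cons_of_mem))
      ![a, a', b, b', a, a, a, a, a] ?_
    simpa [mm, pp, RT.eval] using ⟨h1, h2, h3, hc⟩

theorem eval_congr {K : UStr} (h : UAx K) (t : RT) {a a' b b' : K.C} (h1 : K.R 0 a a')
    (h2 : K.R 0 b b') (h3 : t.eval K a b) : t.eval K a' b' := by
  induction t generalizing a a' b b' with
  | atom i => exact congr_atom h i h1 h2 h3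
  | nand s t ihs iht =>
    intro hc
    exact h3 ⟨ihs (h.symm h1) (h.symm h2) hc.1, iht (h.symm h1) (h.symm h2) hc.2⟩
  | comp s t ihs iht =>
    obtain ⟨c, hc1, hc2⟩ := h3
    exact ⟨c, ihs h1 (h.refl c) hc1, iht (h.refl c) h2 hc2⟩
  | conv t ih => exact ih h2 h1 h3

theorem eval_diag {K : UStr} (h : UAx K) (t : RT) (a b : K.C) :
    t.diag.eval K a b ↔ t.eval K a a := by
  constructor
  · rintro ⟨c, hc1, -⟩
    rw [eval_and] at hc1
    exact eval_congr h t (h.refl a) (h.symm hc1.2) hc1.1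
  · intro h1
    exact ⟨a, (eval_and K t _ a a).2 ⟨h1, h.refl a⟩, eval_one K a b⟩

/-- `R i` is a function modulo `E` -/
theorem UAx.fn {K : UStr} (h : UAx K) {i : Fin 7} (hi : i ≠ 0) {a b b' : K.C} (h1 : K.R i a b)
    (h2 : K.R i a b') : K.R 0 b b' := by
  by_contra hc
  fin_cases i
  · exact hi rfl
  · refine noV h (cl := [pp 1 0 1, pp 1 0 2, mm 0 1 2]) (by
    repeat (first | exact List.mem_cons_self | apply List.mem_cons_of_mem))
      ![a, b, b', a, a, a, a, a, a] ?_
    simpa [mm, pp, RT.eval] using ⟨h1, h2, hc⟩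
  · refine noV h (cl := [pp 2 0 1, pp 2 0 2, mm 0 1 2]) (by
    repeat (first | exact List.mem_cons_self | apply List.mem_cons_of_mem))
      ![a, b, b', a, a, a, a, a, a] ?_
    simpa [mm, pp, RT.eval] using ⟨h1, h2, hc⟩
  · refine noV h (cl := [pp 3 0 1, pp 3 2 3, mm 0 1 3]) (by
    repeat (first | exact List.mem_cons_self | apply List.mem_cons_of_mem))
      ![a, b, a, b', a, a, a, a, a] ?_
    simpa [mm, pp, RT.eval] using ⟨h1, h2, hc⟩
  · refine noV h (cl := [pp 4 0 1, pp 4 0 2, mm 0 1 2]) (by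
    repeat (first | exact List.mem_cons_self | apply List.mem_cons_of_mem))
      ![a, b, b', a, a, a, a, a, a] ?_
    simpa [mm, pp, RT.eval] using ⟨h1, h2, hc⟩
  · refine noV h (cl := [pp 5 0 1, pp 5 0 2, mm 0 1 2]) (by
    repeat (first | exact List.mem_cons_self | apply List.mem_cons_of_mem))
      ![a, b, b', a, a, a, a, a, a] ?_
    simpa [mm, pp, RT.eval] using ⟨h1, h2, hc⟩
  · refine noV h (cl := [pp 6 0 1, pp 6 0 2, mm 0 1 2]) (by
    repeat (first | exact List.mem_cons_self | apply List.mem_cons_of_mem))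
      ![a, b, b', a, a, a, a, a, a] ?_
    simpa [mm, pp, RT.eval] using ⟨h1, h2, hc⟩

/-- the element representing `n` may be replaced by an equal one -/
theorem DefU.congr {J : RInt} {K : UStr} {A : ArStr.{0}} {Rep : K.C → A.C → Prop} (hK : UAx K)
    (hJ : DefU J K A Rep) {a b : K.C} {n : A.C} (h1 : K.R 0 a b) (h2 : Rep a n) : Rep b n := by
  have h3 : J.dom.eval K b b := eval_congr hK _ h1 h1 ((hJ.dom a).2 ⟨n, h2⟩)
  obtain ⟨m, hm⟩ := (hJ.dom b).1 h3
  have h4 : J.eq.eval K a b := eval_congr hK _ (hK.refl a) h1 ((hJ.eq a a n n h2 h2).2 rfl)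
  have h5 : n = m := (hJ.eq a b n m h2 hm).1 h4
  rw [h5]
  exact hm

end Pool.Agent.Work.MP_de7025_lc.F
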