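import Pool.Agent.Work.MP_de7025_lc.F.S0
import Pool.Agent.Work.MP_de7025_lc.F.U2

set_option autoImplicit false

/-!
# F/S1 (M): the quotient of a model of `U` is a model of Q

PROOF. `C` = quotient of `K.C` by `R 0` (an equivalence relation), `q` = the class map. `zero` = class of any `b` with `R 3 a b` (all such `b` are equal: clause `z is constant`). `succ x` = class of any `b` with `R 4 a b`, `q a = x` (`UAx.tot`, `UAx.fn`, congruence). `add x y` = class of any `c` with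
`R 5 d c`, where `R 1 d a`, `R 2 d b`, `q a = x`, `q b = y` (`UAx.pair`, `UAx.tot`; independent of the choices: the clause `R 5 depends only on the pair`, congruence). `mul` the same. `le x y := ∃ z, add x z = y`. The axioms of Q are the remaining clauses of `axCl` and `UAx.pred`
(`R 3 a a` says `q a = zero`). To use a clause: `hK.uni cl h` applied to the assignment `![...]`; `simp [axCl]` shows the membership.
-/

namespace Pool.Agent.Work.MP_de7025_lc.F

private theorem noV {K : UStr} (h : UAx K) {cl : List Pat} (hcl : cl ∈ axCl) (v : Fin 9 → K.C)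
    (hv : ∀ f ∈ cl, if f.s = true then f.t.eval K (v f.i) (v f.j)
      else ¬ f.t.eval K (v f.i) (v f.j)) : False :=
  h.uni cl hcl ⟨v, fun _ => trivial, hv⟩

private theorem congrA {K : UStr} (h : UAx K) (i : Fin 7) {a a' b b' : K.C} (h1 : K.R 0 a a')
    (h2 : K.R 0 b b') (h3 : K.R i a b) : K.R i a' b' :=
  eval_congr h (.atom i) h1 h2 h3

private theorem c3 {K : UStr} (h : UAx K) {a b c d : K.C} (h1 : K.R 3 a b) (h2 : K.R 3 c d) :
    K.R 0 b d := by
  by_contra hc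
  refine noV h (cl := [pp 3 0 1, pp 3 2 3, mm 0 1 3]) (by
    repeat (first | exact List.mem_cons_self | apply List.mem_cons_of_mem))
      ![a, b, c, d, a, a, a, a, a] ?_
  simpa [mm, pp, RT.eval] using ⟨h1, h2, hc⟩

private theorem c43 {K : UStr} (h : UAx K) {a b c : K.C} (h1 : K.R 4 a b) (h2 : K.R 3 c b) :
    False := by
  refine noV h (cl := [pp 4 0 1, pp 3 2 1]) (by
    repeat (first | exact List.mem_cons_self | apply List.mem_cons_of_mem))
      ![a, b, c, a, a, a, a, a, a] ?_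
  simpa [mm, pp, RT.eval] using ⟨h1, h2⟩

private theorem c44 {K : UStr} (h : UAx K) {a b c : K.C} (h1 : K.R 4 a b) (h2 : K.R 4 c b) :
    K.R 0 a c := by
  by_contra hc
  refine noV h (cl := [pp 4 0 1, pp 4 2 1, mm 0 0 2]) (by
    repeat (first | exact List.mem_cons_self | apply List.mem_cons_of_mem))
      ![a, b, c, a, a, a, a, a, a] ?_
  simpa [mm, pp, RT.eval] using ⟨h1, h2, hc⟩

private theorem c5 {K : UStr} (h : UAx K) {d a b d' c : K.C} (h1 : K.R 1 d a) (h2 : K.R 2 d b)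
    (h3 : K.R 1 d' a) (h4 : K.R 2 d' b) (h5 : K.R 5 d c) : K.R 5 d' c := by
  by_contra hc
  refine noV h (cl := [pp 1 0 1, pp 2 0 2, pp 1 3 1, pp 2 3 2, pp 5 0 4, mm 5 3 4]) (by
    repeat (first | exact List.mem_cons_self | apply List.mem_cons_of_mem))
      ![d, a, b, d', c, a, a, a, a] ?_
  simpa [mm, pp, RT.eval] using ⟨h1, h2, h3, h4, h5, hc⟩

private theorem c6 {K : UStr} (h : UAx K) {d a b d' c : K.C} (h1 : K.R 1 d a) (h2 : K.R 2 d b)
    (h3 : K.R 1 d' a) (h4 : K.R 2 d' b) (h5 : K.R 6 d c) : K.R 6 d' c := by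
  by_contra hc
  refine noV h (cl := [pp 1 0 1, pp 2 0 2, pp 1 3 1, pp 2 3 2, pp 6 0 4, mm 6 3 4]) (by
    repeat (first | exact List.mem_cons_self | apply List.mem_cons_of_mem))
      ![d, a, b, d', c, a, a, a, a] ?_
  simpa [mm, pp, RT.eval] using ⟨h1, h2, h3, h4, h5, hc⟩

private theorem a0 {K : UStr} (h : UAx K) {d c a b : K.C} (h1 : K.R 5 d c) (h2 : K.R 1 d a)
    (h3 : K.R 2 d b) (h4 : K.R 3 b b) : K.R 0 c a := by
  by_contra hc
  refine noV h (cl := [pp 5 0 1, pp 1 0 2, pp 2 0 3, pp 3 3 3, mm 0 1 2]) (by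
    repeat (first | exact List.mem_cons_self | apply List.mem_cons_of_mem))
      ![d, c, a, b, a, a, a, a, a] ?_
  simpa [mm, pp, RT.eval] using ⟨h1, h2, h3, h4, hc⟩

private theorem as {K : UStr} (h : UAx K) {d d' a b b' c c' : K.C} (h1 : K.R 1 d a)
    (h2 : K.R 2 d b) (h3 : K.R 1 d' a) (h4 : K.R 2 d' b') (h5 : K.R 4 b b') (h6 : K.R 5 d c)
    (h7 : K.R 5 d' c') : K.R 4 c c' := by
  by_contra hc
  refine noV h (cl := [pp 1 0 2, pp 2 0 3, pp 1 1 2, pp 2 1 4, pp 4 3 4, pp 5 0 5, pp 5 1 6,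
    mm 4 5 6]) (by
    repeat (first | exact List.mem_cons_self | apply List.mem_cons_of_mem))
      ![d, d', a, b, b', c, c', a, a] ?_
  simpa [mm, pp, RT.eval] using ⟨h1, h2, h3, h4, h5, h6, h7, hc⟩

private theorem m0 {K : UStr} (h : UAx K) {d c b : K.C} (h1 : K.R 6 d c)
    (h3 : K.R 2 d b) (h4 : K.R 3 b b) : K.R 3 c c := by
  by_contra hc
  refine noV h (cl := [pp 6 0 1, pp 2 0 3, pp 3 3 3, mm 3 1 1]) (by
    repeat (first | exact List.mem_cons_self | apply List.mem_cons_of_mem))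
      ![d, c, b, b, b, b, b, b, b] ?_
  simpa [mm, pp, RT.eval] using ⟨h1, h3, h4, hc⟩

private theorem ms {K : UStr} (h : UAx K) {d d' a b b' c c' e f : K.C} (h1 : K.R 1 d a)
    (h2 : K.R 2 d b) (h3 : K.R 1 d' a) (h4 : K.R 2 d' b') (h5 : K.R 4 b b') (h6 : K.R 6 d c)
    (h7 : K.R 6 d' c') (h8 : K.R 1 e c) (h9 : K.R 2 e a) (h10 : K.R 5 e f) : K.R 0 c' f := by
  by_contra hc
  refine noV h (cl := [pp 1 0 2, pp 2 0 3, pp 1 1 2, pp 2 1 4, pp 4 3 4, pp 6 0 5, pp 6 1 6,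
    pp 1 7 5, pp 2 7 2, pp 5 7 8, mm 0 6 8]) (by
    repeat (first | exact List.mem_cons_self | apply List.mem_cons_of_mem))
      ![d, d', a, b, b', c, c', e, f] ?_
  simpa [mm, pp, RT.eval] using ⟨h1, h2, h3, h4, h5, h6, h7, h8, h9, h10, hc⟩

theorem exists_QM (K : UStr) (hK : UAx K) : ∃ (A : QStr) (q : K.C → A.C), IsQM K A q := by
  classical
  let st : Setoid K.C := ⟨K.R 0, ⟨hK.refl, fun h => hK.symm h, fun h h' => hK.trans h h'⟩⟩
  let Q : Type := Quotient st
  let q : K.C → Q := fun a => Quotient.mk st a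
  have hq : ∀ a b, q a = q b ↔ K.R 0 a b := fun a b => Quotient.eq (r := st)
  have hsur : ∀ x : Q, ∃ a, q a = x := fun x => Quotient.exists_rep x
  obtain ⟨a₀⟩ := K.ne
  obtain ⟨b₀, hb₀⟩ := hK.tot 3 (by decide) a₀
  have ex4 : ∀ x : Q, ∃ y : Q, ∀ a b, q a = x → K.R 4 a b → q b = y := by
    intro x
    obtain ⟨a, rfl⟩ := hsur x
    obtain ⟨b, hb⟩ := hK.tot 4 (by decide) a
    refine ⟨q b, fun a' b' h1 h2 => ?_⟩
    rw [hq] at h1 ⊢
    exact hK.fn (i := 4) (by decide) (congrA hK 4 h1 (hK.refl _) h2) hb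
  have ex5 : ∀ x y : Q, ∃ z : Q, ∀ d a b c, q a = x → q b = y → K.R 1 d a → K.R 2 d b →
      K.R 5 d c → q c = z := by
    intro x y
    obtain ⟨a, rfl⟩ := hsur x
    obtain ⟨b, rfl⟩ := hsur y
    obtain ⟨d, h1, h2⟩ := hK.pair a b
    obtain ⟨c, hc⟩ := hK.tot 5 (by decide) d
    refine ⟨q c, fun d' a' b' c' ha hb h3 h4 h5 => ?_⟩
    rw [hq] at ha hb ⊢
    have h6 : K.R 5 d c' := c5 hK (congrA hK 1 (hK.refl _) ha h3) (congrA hK 2 (hK.refl _) hb h4)
      h1 h2 h5
    exact hK.fn (i := 5) (by decide) h6 hc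
  have ex6 : ∀ x y : Q, ∃ z : Q, ∀ d a b c, q a = x → q b = y → K.R 1 d a → K.R 2 d b →
      K.R 6 d c → q c = z := by
    intro x y
    obtain ⟨a, rfl⟩ := hsur x
    obtain ⟨b, rfl⟩ := hsur y
    obtain ⟨d, h1, h2⟩ := hK.pair a b
    obtain ⟨c, hc⟩ := hK.tot 6 (by decide) d
    refine ⟨q c, fun d' a' b' c' ha hb h3 h4 h5 => ?_⟩
    rw [hq] at ha hb ⊢
    have h6 : K.R 6 d c' := c6 hK (congrA hK 1 (hK.refl _) ha h3) (congrA hK 2 (hK.refl _) hb h4)
      h1 h2 h5
    exact hK.fn (i := 6) (by decide) h6 hc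
  choose sc hsc using ex4
  choose ad had using ex5
  choose ml hml using ex6
  have r3 : ∀ a b, K.R 3 a b ↔ q b = q b₀ := by
    intro a b
    rw [hq]
    constructor
    · intro h
      exact c3 hK h hb₀
    · intro h
      obtain ⟨b', hb'⟩ := hK.tot 3 (by decide) a
      exact congrA hK 3 (hK.refl a) (hK.trans (c3 hK hb' hb₀) (hK.symm h)) hb'
  have r4 : ∀ a b, K.R 4 a b ↔ sc (q a) = q b := by
    intro a b
    constructor
    · intro h
      exact (hsc (q a) a b rfl h).symm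
    · intro h
      obtain ⟨b', hb'⟩ := hK.tot 4 (by decide) a
      have h1 : q b' = q b := (hsc (q a) a b' rfl hb').trans h
      rw [hq] at h1
      exact congrA hK 4 (hK.refl a) h1 hb'
  have r5 : ∀ d a b c, K.R 1 d a → K.R 2 d b → (K.R 5 d c ↔ ad (q a) (q b) = q c) := by
    intro d a b c h1 h2
    constructor
    · intro h
      exact (had (q a) (q b) d a b c rfl rfl h1 h2 h).symm
    · intro h
      obtain ⟨c', hc'⟩ := hK.tot 5 (by decide) d
      have h3 : q c' = q c := (had (q a) (q b) d a b c' rfl rfl h1 h2 hc').trans h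
      rw [hq] at h3
      exact congrA hK 5 (hK.refl d) h3 hc'
  have r6 : ∀ d a b c, K.R 1 d a → K.R 2 d b → (K.R 6 d c ↔ ml (q a) (q b) = q c) := by
    intro d a b c h1 h2
    constructor
    · intro h
      exact (hml (q a) (q b) d a b c rfl rfl h1 h2 h).symm
    · intro h
      obtain ⟨c', hc'⟩ := hK.tot 6 (by decide) d
      have h3 : q c' = q c := (hml (q a) (q b) d a b c' rfl rfl h1 h2 hc').trans h
      rw [hq] at h3
      exact congrA hK 6 (hK.refl d) h3 hc'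
  let A : QStr :=
    { C := Q
      zero := q b₀
      succ := sc
      add := ad
      mul := ml
      le := fun x y => ∃ z, ad x z = y }
  have h33 : K.R 3 b₀ b₀ := (r3 b₀ b₀).2 rfl
  have hA : QAx A := by
    refine ⟨?_, ?_, ?_, ?_, ?_, ?_, ?_, ?_⟩
    · intro x hx
      obtain ⟨a, rfl⟩ := hsur x
      obtain ⟨b, hb⟩ := hK.tot 4 (by decide) a
      have h1 : sc (q a) = q b := (r4 a b).1 hb
      have h2 : q b = q b₀ := h1.symm.trans hx
      exact c43 hK hb ((r3 b b).2 h2)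
    · intro x y hxy
      obtain ⟨a, rfl⟩ := hsur x
      obtain ⟨a', rfl⟩ := hsur y
      obtain ⟨b, hb⟩ := hK.tot 4 (by decide) a
      have h1 : sc (q a) = q b := (r4 a b).1 hb
      have h2 : sc (q a') = q b := Eq.trans (Eq.symm hxy) h1
      exact (hq _ _).2 (c44 hK hb ((r4 a' b).2 h2))
    · intro x hx
      obtain ⟨a, rfl⟩ := hsur x
      rcases hK.pred a with h | ⟨w, h⟩
      · exact absurd ((r3 a a).1 h) hx
      · exact ⟨q w, ((r4 w a).1 h).symm⟩
    · intro x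
      obtain ⟨a, rfl⟩ := hsur x
      obtain ⟨d, h1, h2⟩ := hK.pair a b₀
      obtain ⟨c, hc⟩ := hK.tot 5 (by decide) d
      have h3 : ad (q a) (q b₀) = q c := (r5 d a b₀ c h1 h2).1 hc
      exact h3.trans ((hq _ _).2 (a0 hK hc h1 h2 h33))
    · intro x y
      obtain ⟨a, rfl⟩ := hsur x
      obtain ⟨b, rfl⟩ := hsur y
      obtain ⟨b', hb'⟩ := hK.tot 4 (by decide) b
      obtain ⟨d, h1, h2⟩ := hK.pair a b
      obtain ⟨d', h3, h4⟩ := hK.pair a b'
      obtain ⟨c, hc⟩ := hK.tot 5 (by decide) d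
      obtain ⟨c', hc'⟩ := hK.tot 5 (by decide) d'
      have e1 : sc (q b) = q b' := (r4 b b').1 hb'
      have e2 : ad (q a) (q b) = q c := (r5 d a b c h1 h2).1 hc
      have e3 : ad (q a) (q b') = q c' := (r5 d' a b' c' h3 h4).1 hc'
      have e4 : sc (q c) = q c' := (r4 c c').1 (as hK h1 h2 h3 h4 hb' hc hc')
      show ad (q a) (sc (q b)) = sc (ad (q a) (q b))
      rw [e1, e2, e3, e4]
    · intro x
      obtain ⟨a, rfl⟩ := hsur x
      obtain ⟨d, h1, h2⟩ := hK.pair a b₀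
      obtain ⟨c, hc⟩ := hK.tot 6 (by decide) d
      have h3 : ml (q a) (q b₀) = q c := (r6 d a b₀ c h1 h2).1 hc
      exact h3.trans ((r3 c c).1 (m0 hK hc h2 h33))
    · intro x y
      obtain ⟨a, rfl⟩ := hsur x
      obtain ⟨b, rfl⟩ := hsur y
      obtain ⟨b', hb'⟩ := hK.tot 4 (by decide) b
      obtain ⟨d, h1, h2⟩ := hK.pair a b
      obtain ⟨d', h3, h4⟩ := hK.pair a b'
      obtain ⟨c, hc⟩ := hK.tot 6 (by decide) d
      obtain ⟨c', hc'⟩ := hK.tot 6 (by decide) d'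
      obtain ⟨e, h5, h6⟩ := hK.pair c a
      obtain ⟨f, hf⟩ := hK.tot 5 (by decide) e
      have e1 : sc (q b) = q b' := (r4 b b').1 hb'
      have e2 : ml (q a) (q b) = q c := (r6 d a b c h1 h2).1 hc
      have e3 : ml (q a) (q b') = q c' := (r6 d' a b' c' h3 h4).1 hc'
      have e4 : ad (q c) (q a) = q f := (r5 e c a f h5 h6).1 hf
      have e5 : q c' = q f := (hq _ _).2 (ms hK h1 h2 h3 h4 hb' hc hc' h5 h6 hf)
      show ml (q a) (sc (q b)) = ad (ml (q a) (q b)) (q a)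
      rw [e1, e2, e3, e4, e5]
    · intro x y
      exact Iff.rfl
  exact ⟨A, q, hA, hsur, fun a b => (hq a b).symm, r3, r4, r5, r6⟩

end Pool.Agent.Work.MP_de7025_lc.F
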