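import Pool.Agent.Work.MP_de7025_lc.F.S0
import Pool.Agent.Work.MP_de7025_lc.F.U2

set_option autoImplicit false

/-!
# F/S3 (S-M): coded assignments

PROOF. `cod_ex`: `p` and `q` are total (`UAx.tot`), so for every `i` there is `x` with `(pth i).eval K a x` (induction on `i`). `cod_fn`: `pth i` is functional modulo `E` (`UAx.fn`, `eval_congr`). `cod_cons`: `R 1 d x`, `R 2 d a` (`UAx.pair`); `pth 0 = atom 1`, `pth (i + 1) = comp (atom 2) (pth i)`.
`cod_fin`: induction on `m`: for `m + 1` take a code of `fun i => f (i + 1)` up to `m` and `cod_cons` with `f 0`.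
-/

namespace Pool.Agent.Work.MP_de7025_lc.F

private theorem pth_ex {K : UStr} (hK : UAx K) (i : ℕ) : ∀ a : K.C, ∃ x, (pth i).eval K a x := by
  induction i with
  | zero => exact fun a => hK.tot 1 (by decide) a
  | succ i ih =>
    intro a
    obtain ⟨b, hb⟩ := hK.tot 2 (by decide) a
    obtain ⟨x, hx⟩ := ih b
    exact ⟨x, b, hb, hx⟩

private theorem pth_fn {K : UStr} (hK : UAx K) (i : ℕ) : ∀ a a' x x' : K.C, K.R 0 a a' →
    (pth i).eval K a x → (pth i).eval K a' x' → K.R 0 x x' := by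
  induction i with
  | zero =>
    intro a a' x x' h h1 h2
    have h3 : K.R 1 a x' := eval_congr hK (.atom 1) (hK.symm h) (hK.refl x') h2
    exact hK.fn (by decide) h1 h3
  | succ i ih =>
    rintro a a' x x' h ⟨c, hc, hcx⟩ ⟨c', hc', hcx'⟩
    have h3 : K.R 2 a c' := eval_congr hK (.atom 2) (hK.symm h) (hK.refl c') hc'
    exact ih c c' x x' (hK.fn (by decide) hc h3) hcx hcx'

theorem cod_ex {K : UStr} (hK : UAx K) {A : QStr} {q : K.C → A.C} (h : IsQM K A q) (a : K.C) :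
    ∃ E : ℕ → A.C, Cod K q a E := by
  choose x hx using fun i => pth_ex hK i a
  exact ⟨fun i => q (x i), fun i => ⟨x i, hx i, rfl⟩⟩

theorem cod_fn {K : UStr} (hK : UAx K) {A : QStr} {q : K.C → A.C} (h : IsQM K A q) {a : K.C}
    {E E' : ℕ → A.C} (h1 : Cod K q a E) (h2 : Cod K q a E') : E = E' := by
  funext i
  obtain ⟨x, hx, hxE⟩ := h1 i
  obtain ⟨x', hx', hxE'⟩ := h2 i
  rw [← hxE, ← hxE']
  exact (h.r0 x x').1 (pth_fn hK i a a x x' (hK.refl a) hx hx')

theorem cod_cons {K : UStr} (hK : UAx K) {A : QStr} {q : K.C → A.C} (h : IsQM K A q) {a : K.C}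
    {E : ℕ → A.C} (h1 : Cod K q a E) (x : A.C) :
    ∃ d, K.R 2 d a ∧ Cod K q d (fun i => Nat.casesOn i x E) := by
  obtain ⟨b, hb⟩ := h.sur x
  obtain ⟨d, hd1, hd2⟩ := hK.pair b a
  refine ⟨d, hd2, fun i => ?_⟩
  cases i with
  | zero => exact ⟨b, hd1, hb⟩
  | succ i =>
    obtain ⟨y, hy, hyE⟩ := h1 i
    exact ⟨y, ⟨a, hd2, hy⟩, hyE⟩

theorem cod_fin {K : UStr} (hK : UAx K) {A : QStr} {q : K.C → A.C} (h : IsQM K A q) (m : ℕ)
    (f : ℕ → A.C) : ∃ (a : K.C) (E : ℕ → A.C), Cod K q a E ∧ ∀ i, i < m → E i = f i := by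
  induction m generalizing f with
  | zero =>
    obtain ⟨a, -⟩ := h.sur A.zero
    obtain ⟨E, hE⟩ := cod_ex hK h a
    exact ⟨a, E, hE, fun i hi => absurd hi (Nat.not_lt_zero i)⟩
  | succ m ih =>
    obtain ⟨a, E, hE, hEf⟩ := ih fun i => f (i + 1)
    obtain ⟨d, -, hd⟩ := cod_cons hK h hE (f 0)
    refine ⟨d, _, hd, fun i hi => ?_⟩
    cases i with
    | zero => rfl
    | succ i => exact hEf i (Nat.lt_of_succ_lt_succ hi)

end Pool.Agent.Work.MP_de7025_lc.F
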