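import Pool.Agent.Work.MP_de7025_lc.F.S2
import Pool.Agent.Work.MP_de7025_lc.F.S3

set_option autoImplicit false

/-!
# F/S4 (M): binary and ternary formulas

PROOF. The relation `eqv i j := comp (pth i) (conv (pth j))` holds for `(a, c)` iff the entries number `i` of `a` and number `j` of `c` are equal (up to `E`, so modulo `q`; `cod_fn`, `eval_congr`: `∃ x, pth i a x ∧ pth j c x`).
`bin`: `comp (and C1 (conv (trQ χ))) (conv C2)` where `C1 (a, c)` = conjunction of `eqv i i` for `i < d`, `C2 (b, c)` = conjunction of `eqv i (d + i)` for `i < d` (a finite conjunction starting with `one`): `∃ c, C1 a c ∧ (trQ χ) c a ∧ C2 b c`.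
`ter`: the relation of `(d0, z)` with `R 1 d0 a`, `R 2 d0 b`: `C1' (d0, c)` = conjunction of `comp (atom 1) (eqv i i)` and `comp (atom 2) (eqv i (d + i))` for `i < d`, and for `z` the conjunction of `eqv i (2 d + i)`.
-/

namespace Pool.Agent.Work.MP_de7025_lc.F

private theorem S4_pth_fn {K : UStr} (hK : UAx K) (i : ℕ) : ∀ {a x y : K.C},
    (pth i).eval K a x → (pth i).eval K a y → K.R 0 x y := by
  induction i with
  | zero => intro a x y h1 h2; exact hK.fn (i := 1) (by decide) h1 h2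
  | succ i ih =>
    rintro a x y ⟨c, hc1, hc2⟩ ⟨c', hc1', hc2'⟩
    have h1 : K.R 0 c c' := hK.fn (i := 2) (by decide) hc1 hc1'
    exact ih (eval_congr hK _ h1 (hK.refl x) hc2) hc2'

private def S4_eqv (i j : ℕ) : RT := .comp (pth i) (.conv (pth j))

private def S4_all (f : ℕ → RT) : ℕ → RT
  | 0 => RT.one
  | n + 1 => (S4_all f n).and (f n)

private theorem S4_all_eval (K : UStr) (f : ℕ → RT) (n : ℕ) (a b : K.C) :
    (S4_all f n).eval K a b ↔ ∀ i, i < n → (f i).eval K a b := by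
  induction n with
  | zero =>
    constructor
    · intro _ i hi
      omega
    · intro _
      exact eval_one K a b
  | succ n ih =>
    rw [S4_all, eval_and, ih]
    constructor
    · rintro ⟨h1, h2⟩ i hi
      rcases Nat.lt_succ_iff_lt_or_eq.1 hi with h | h
      · exact h1 i h
      · subst h; exact h2
    · intro h
      exact ⟨fun i hi => h i (by omega), h n (by omega)⟩

private theorem S4_eqv_eval {K : UStr} (hK : UAx K) {A : QStr} {q : K.C → A.C} (h : IsQM K A q)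
    {a c : K.C} {E E' : ℕ → A.C} (ha : Cod K q a E) (hc : Cod K q c E') (i j : ℕ) :
    (S4_eqv i j).eval K a c ↔ E' j = E i := by
  obtain ⟨x, hx1, hx2⟩ := ha i
  obtain ⟨y, hy1, hy2⟩ := hc j
  constructor
  · rintro ⟨z, hz1, hz2⟩
    have h1 : q x = q z := (h.r0 x z).1 (S4_pth_fn hK i hx1 hz1)
    have h2 : q y = q z := (h.r0 y z).1 (S4_pth_fn hK j hy1 hz2)
    rw [← hx2, ← hy2, h1, h2]
  · intro he
    have h1 : q y = q x := by rw [hx2, hy2, he]
    have h2 : K.R 0 y x := (h.r0 y x).2 h1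
    exact ⟨x, hx1, eval_congr hK (pth j) (hK.refl c) h2 hy1⟩

private theorem S4_step {K : UStr} (hK : UAx K) {i : Fin 7} (hi : i ≠ 0) {d a : K.C}
    (hd : K.R i d a) (t : RT) (c : K.C) :
    (RT.comp (.atom i) t).eval K d c ↔ t.eval K a c := by
  constructor
  · rintro ⟨a', h1, h2⟩
    exact eval_congr hK t (hK.fn hi h1 hd) (hK.refl c) h2
  · intro h
    exact ⟨a, hd, h⟩

theorem exists_bin (χ : QFm) (d : ℕ) : ∃ r : RT, ∀ (K : UStr), UAx K → ∀ (A : QStr)
    (q : K.C → A.C), IsQM K A q → ∀ (a b : K.C) (e1 e2 : ℕ → A.C), Cod K q a e1 → Cod K q b e2 →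
    (r.eval K a b ↔ ∃ (c : K.C) (E : ℕ → A.C), Cod K q c E ∧ (∀ i, i < d → E i = e1 i) ∧
      (∀ i, i < d → E (d + i) = e2 i) ∧ χ.Holds A E) := by
  obtain ⟨t, ht⟩ := exists_trQ χ
  refine ⟨.comp ((S4_all (fun i => S4_eqv i i) d).and (.conv t))
    (.conv (S4_all (fun i => S4_eqv i (d + i)) d)), ?_⟩
  intro K hK A q h a b e1 e2 ha hb
  constructor
  · rintro ⟨c, h1, h2⟩
    rw [eval_and, S4_all_eval] at h1
    obtain ⟨E, hE⟩ := cod_ex hK h c
    have h3 := (S4_all_eval K (fun i => S4_eqv i (d + i)) d b c).1 h2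
    refine ⟨c, E, hE, fun i hi => ?_, fun i hi => ?_, ?_⟩
    · exact (S4_eqv_eval hK h ha hE i i).1 (h1.1 i hi)
    · exact (S4_eqv_eval hK h hb hE i (d + i)).1 (h3 i hi)
    · exact (ht K hK A q h E c hE a).1 h1.2
  · rintro ⟨c, E, hE, h1, h2, h3⟩
    refine ⟨c, ?_, ?_⟩
    · rw [eval_and, S4_all_eval]
      refine ⟨fun i hi => ?_, ?_⟩
      · exact (S4_eqv_eval hK h ha hE i i).2 (h1 i hi)
      · exact (ht K hK A q h E c hE a).2 h3
    · refine (S4_all_eval K (fun i => S4_eqv i (d + i)) d b c).2 fun i hi => ?_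
      exact (S4_eqv_eval hK h hb hE i (d + i)).2 (h2 i hi)

theorem exists_ter (χ : QFm) (d : ℕ) : ∃ r : RT, ∀ (K : UStr), UAx K → ∀ (A : QStr)
    (q : K.C → A.C), IsQM K A q → ∀ (d0 a b z : K.C) (e1 e2 e3 : ℕ → A.C), K.R 1 d0 a → K.R 2 d0 b →
    Cod K q a e1 → Cod K q b e2 → Cod K q z e3 →
    (r.eval K d0 z ↔ ∃ (c : K.C) (E : ℕ → A.C), Cod K q c E ∧ (∀ i, i < d → E i = e1 i) ∧
      (∀ i, i < d → E (d + i) = e2 i) ∧ (∀ i, i < d → E (d + d + i) = e3 i) ∧
      χ.Holds A E) := by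
  obtain ⟨t, ht⟩ := exists_trQ χ
  refine ⟨.comp ((RT.and (S4_all (fun i => .comp (.atom 1) (S4_eqv i i)) d)
    (S4_all (fun i => .comp (.atom 2) (S4_eqv i (d + i))) d)).and (.conv t))
    (.conv (S4_all (fun i => S4_eqv i (d + d + i)) d)), ?_⟩
  intro K hK A q h d0 a b z e1 e2 e3 hd1 hd2 ha hb hz
  constructor
  · rintro ⟨c, h1, h2⟩
    rw [eval_and, eval_and, S4_all_eval, S4_all_eval] at h1
    obtain ⟨E, hE⟩ := cod_ex hK h c
    have h3 := (S4_all_eval K (fun i => S4_eqv i (d + d + i)) d z c).1 h2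
    refine ⟨c, E, hE, fun i hi => ?_, fun i hi => ?_, fun i hi => ?_, ?_⟩
    · exact (S4_eqv_eval hK h ha hE i i).1 ((S4_step hK (by decide) hd1 _ _).1 (h1.1.1 i hi))
    · exact (S4_eqv_eval hK h hb hE i (d + i)).1 ((S4_step hK (by decide) hd2 _ _).1 (h1.1.2 i hi))
    · exact (S4_eqv_eval hK h hz hE i (d + d + i)).1 (h3 i hi)
    · exact (ht K hK A q h E c hE d0).1 h1.2
  · rintro ⟨c, E, hE, h1, h2, h3, h4⟩
    refine ⟨c, ?_, ?_⟩
    · rw [eval_and, eval_and, S4_all_eval, S4_all_eval]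
      refine ⟨⟨fun i hi => ?_, fun i hi => ?_⟩, ?_⟩
      · exact (S4_step hK (by decide) hd1 _ _).2 ((S4_eqv_eval hK h ha hE i i).2 (h1 i hi))
      · exact (S4_step hK (by decide) hd2 _ _).2 ((S4_eqv_eval hK h hb hE i (d + i)).2 (h2 i hi))
      · exact (ht K hK A q h E c hE d0).2 h4
    · refine (S4_all_eval K (fun i => S4_eqv i (d + d + i)) d z c).2 fun i hi => ?_
      exact (S4_eqv_eval hK h hz hE i (d + d + i)).2 (h3 i hi)

end Pool.Agent.Work.MP_de7025_lc.F
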