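import Pool.Agent.Work.MP_de7025_lc.F.S7
import Pool.Agent.Work.MP_de7025_lc.F.S4
import Pool.Agent.Work.MP_de7025_lc.F.S1

/-!
# F/S8 (M): an interpretation of Basic Law V in Q gives an interpretation of EFA in models of `U`

PROOF. `I` from `InterpretsEFA` (here a hypothesis). For `K`: `A0`, `q` from `exists_QM`; `M` from the hypothesis, with `rO, rR`; `A` with `EFA A` and `Defines I M A`, the injection `e : A.C → M.Obj`. `Rep a n := ∃ E, Cod K q a E ∧ rO (fun j => E j) (e n)`.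
`J.dom = trQ (and domO χ)`, `χ` = closed formula of `I.dom` for `r = 1`; `J.zero = trQ χ_zero` (`r = 1`); `J.eq = bin eqO` with `d = dO`; `J.succ, J.exp, J.le = bin χ` (`r = 2`, `d = dO`); `J.add, J.mul = ter χ` (`r = 3`, `d = dO`).
`ex`: `surO` and `cod_fin` with `m = dO`. `fn`: `cod_fn`, `fnO`, `e` injective. `dom`: `domO` says that the first block represents an object `o`, then `χ ↔ ∃ n, e n = o` (the truth of `I.dom` depends only on `v.o 0`). `bin`: given codes of `e1, e2`, a `c` with prescribed entries below `2 dO` exists (`cod_fin`), and the truth of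
`eqO`, `χ` at any such `E` is the same (`exists_closed` with `X` = the statement wanted; blocks `k * dO`, `k < 2`; note `d + i = 1 * dO + i`). `ter`: the same with three blocks.
-/

set_option autoImplicit false

namespace Pool.Agent.Work.MP_de7025_lc.F

private theorem s8_one (ι : BLI) (φ : Fm) : ∃ χ : QFm, ∀ (A : QStr) (M : Str.{0})
    (rO : (Fin ι.dO → A.C) → M.Obj → Prop) (rR : ∀ n, (Fin (ι.dR n) → A.C) → M.Rel n → Prop),
    DefR ι A M rO rR → ∀ (E : ℕ → A.C) (o : M.Obj) (X : Prop), rO (fun j => E j) o →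
    (∀ v : Asg M, v.o 0 = o → (φ.Holds v ↔ X)) → (χ.Holds A E ↔ X) := by
  obtain ⟨χ, hχ⟩ := exists_closed ι φ 1 le_rfl
  refine ⟨χ, fun A M rO rR hd E o X h1 h2 => hχ A M rO rR hd E (fun _ => o) X ?_ ?_⟩
  · intro k hk
    obtain rfl : k = 0 := by omega
    have e : (fun j : Fin ι.dO => E (0 * ι.dO + j)) = fun j : Fin ι.dO => E j := by
      funext j
      rw [Nat.zero_mul, Nat.zero_add]
    rw [e]
    exact h1
  · intro v hv
    exact h2 v (hv 0 Nat.one_pos)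

/-- two blocks -/
private theorem s8_bin (ι : BLI) (χ : QFm) : ∃ r : RT, ∀ (K : UStr), UAx K → ∀ (A : QStr)
    (q : K.C → A.C), IsQM K A q → ∀ (a b : K.C) (E1 E2 : ℕ → A.C) (X : Prop),
    Cod K q a E1 → Cod K q b E2 →
    (∀ E : ℕ → A.C, (∀ j : Fin ι.dO, E j = E1 j) → (∀ j : Fin ι.dO, E (ι.dO + j) = E2 j) →
      (χ.Holds A E ↔ X)) → (r.eval K a b ↔ X) := by
  obtain ⟨r, hr⟩ := exists_bin χ ι.dO
  refine ⟨r, fun K hK A q hq a b E1 E2 X h1 h2 h3 => ?_⟩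
  rw [hr K hK A q hq a b E1 E2 h1 h2]
  constructor
  · rintro ⟨c, E, -, h4, h5, h6⟩
    exact (h3 E (fun j => h4 j j.2) (fun j => h5 j j.2)).1 h6
  · intro hX
    obtain ⟨c, E, hc, hE⟩ := cod_fin hK hq (ι.dO + ι.dO)
      (fun i => if i < ι.dO then E1 i else E2 (i - ι.dO))
    have e1 : ∀ i, i < ι.dO → E i = E1 i := by
      intro i hi
      rw [hE i (by omega), if_pos hi]
    have e2 : ∀ i, i < ι.dO → E (ι.dO + i) = E2 i := by
      intro i hi
      rw [hE (ι.dO + i) (by omega), if_neg (by omega)]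
      congr 1
      omega
    exact ⟨c, E, hc, e1, e2, (h3 E (fun j => e1 j j.2) (fun j => e2 j j.2)).2 hX⟩

private theorem s8_two (ι : BLI) (φ : Fm) : ∃ r : RT, ∀ (K : UStr), UAx K → ∀ (A : QStr)
    (q : K.C → A.C), IsQM K A q → ∀ (M : Str.{0}) (rO : (Fin ι.dO → A.C) → M.Obj → Prop)
    (rR : ∀ n, (Fin (ι.dR n) → A.C) → M.Rel n → Prop), DefR ι A M rO rR →
    ∀ (a b : K.C) (E1 E2 : ℕ → A.C) (o1 o2 : M.Obj) (X : Prop),
    Cod K q a E1 → Cod K q b E2 → rO (fun j => E1 j) o1 → rO (fun j => E2 j) o2 →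
    (∀ v : Asg M, v.o 0 = o1 → v.o 1 = o2 → (φ.Holds v ↔ X)) → (r.eval K a b ↔ X) := by
  obtain ⟨χ, hχ⟩ := exists_closed ι φ 2 (by norm_num)
  obtain ⟨r, hr⟩ := s8_bin ι χ
  refine ⟨r, fun K hK A q hq M rO rR hd a b E1 E2 o1 o2 X h1 h2 h3 h4 h5 => ?_⟩
  refine hr K hK A q hq a b E1 E2 X h1 h2 fun E e1 e2 => ?_
  refine hχ A M rO rR hd E (fun k => if k = 0 then o1 else o2) X ?_ ?_
  · intro k hk
    obtain rfl | rfl : k = 0 ∨ k = 1 := by omega
    · have e : (fun j : Fin ι.dO => E (0 * ι.dO + j)) = fun j : Fin ι.dO => E1 j := by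
        funext j
        rw [Nat.zero_mul, Nat.zero_add, e1]
      rw [e]
      exact h3
    · have e : (fun j : Fin ι.dO => E (1 * ι.dO + j)) = fun j : Fin ι.dO => E2 j := by
        funext j
        rw [Nat.one_mul, e2]
      rw [e]
      exact h4
  · intro v hv
    exact h5 v (hv 0 (by norm_num)) (hv 1 (by norm_num))

private theorem s8_three (ι : BLI) (φ : Fm) : ∃ r : RT, ∀ (K : UStr), UAx K → ∀ (A : QStr)
    (q : K.C → A.C), IsQM K A q → ∀ (M : Str.{0}) (rO : (Fin ι.dO → A.C) → M.Obj → Prop)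
    (rR : ∀ n, (Fin (ι.dR n) → A.C) → M.Rel n → Prop), DefR ι A M rO rR →
    ∀ (d0 a b z : K.C) (E1 E2 E3 : ℕ → A.C) (o1 o2 o3 : M.Obj) (X : Prop),
    K.R 1 d0 a → K.R 2 d0 b → Cod K q a E1 → Cod K q b E2 → Cod K q z E3 →
    rO (fun j => E1 j) o1 → rO (fun j => E2 j) o2 → rO (fun j => E3 j) o3 →
    (∀ v : Asg M, v.o 0 = o1 → v.o 1 = o2 → v.o 2 = o3 → (φ.Holds v ↔ X)) →
    (r.eval K d0 z ↔ X) := by
  obtain ⟨χ, hχ⟩ := exists_closed ι φ 3 (by norm_num)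
  obtain ⟨r, hr⟩ := exists_ter χ ι.dO
  refine ⟨r, fun K hK A q hq M rO rR hd d0 a b z E1 E2 E3 o1 o2 o3 X k1 k2 h1 h2 h3 h4 h5 h6 h7 =>
    ?_⟩
  have key : ∀ E : ℕ → A.C, (∀ i, i < ι.dO → E i = E1 i) → (∀ i, i < ι.dO → E (ι.dO + i) = E2 i) →
      (∀ i, i < ι.dO → E (ι.dO + ι.dO + i) = E3 i) → (χ.Holds A E ↔ X) := by
    intro E e1 e2 e3
    refine hχ A M rO rR hd E (fun k => if k = 0 then o1 else if k = 1 then o2 else o3) X ?_ ?_
    · intro k hk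
      obtain rfl | rfl | rfl : k = 0 ∨ k = 1 ∨ k = 2 := by omega
      · have e : (fun j : Fin ι.dO => E (0 * ι.dO + j)) = fun j : Fin ι.dO => E1 j := by
          funext j
          rw [Nat.zero_mul, Nat.zero_add, e1 j j.2]
        rw [e]
        exact h4
      · have e : (fun j : Fin ι.dO => E (1 * ι.dO + j)) = fun j : Fin ι.dO => E2 j := by
          funext j
          rw [Nat.one_mul, e2 j j.2]
        rw [e]
        exact h5
      · have e : (fun j : Fin ι.dO => E (2 * ι.dO + j)) = fun j : Fin ι.dO => E3 j := by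
          funext j
          rw [Nat.two_mul, e3 j j.2]
        rw [e]
        exact h6
    · intro v hv
      exact h7 v (hv 0 (by norm_num)) (hv 1 (by norm_num)) (hv 2 (by norm_num))
  rw [hr K hK A q hq d0 a b z E1 E2 E3 k1 k2 h1 h2 h3]
  constructor
  · rintro ⟨c, E, -, e1, e2, e3, h8⟩
    exact (key E e1 e2 e3).1 h8
  · intro hX
    obtain ⟨c, E, hc, hE⟩ := cod_fin hK hq (ι.dO + ι.dO + ι.dO)
      (fun i => if i < ι.dO then E1 i else if i < ι.dO + ι.dO then E2 (i - ι.dO)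
        else E3 (i - (ι.dO + ι.dO)))
    have e1 : ∀ i, i < ι.dO → E i = E1 i := by
      intro i hi
      rw [hE i (by omega), if_pos hi]
    have e2 : ∀ i, i < ι.dO → E (ι.dO + i) = E2 i := by
      intro i hi
      rw [hE (ι.dO + i) (by omega), if_neg (by omega), if_pos (by omega)]
      congr 1
      omega
    have e3 : ∀ i, i < ι.dO → E (ι.dO + ι.dO + i) = E3 i := by
      intro i hi
      rw [hE (ι.dO + ι.dO + i) (by omega), if_neg (by omega), if_neg (by omega)]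
      congr 1
      omega
    exact ⟨c, E, hc, e1, e2, e3, (key E e1 e2 e3).2 hX⟩

theorem exists_RInt (ι : BLI) (I : Interp)
    (hI : ∀ M : Str.{0}, DeltaBL M → ∃ A : ArStr.{0}, EFA A ∧ Defines I M A)
    (h : ∀ A : QStr, QAx A → ∃ M : Str.{0}, DeltaBL M ∧ DefBL ι A M) :
    ∃ J : RInt, ∀ K : UStr, UAx K →
      ∃ (A : ArStr.{0}) (Rep : K.C → A.C → Prop), EFA A ∧ DefU J K A Rep := by
  obtain ⟨χd, hχd⟩ := s8_one ι I.dom
  obtain ⟨χz, hχz⟩ := s8_one ι I.zero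
  obtain ⟨rd, hrd⟩ := exists_trQ (QFm.and ι.domO χd)
  obtain ⟨rz, hrz⟩ := exists_trQ χz
  obtain ⟨re, hre⟩ := s8_bin ι ι.eqO
  obtain ⟨rs, hrs⟩ := s8_two ι I.succ
  obtain ⟨rx, hrx⟩ := s8_two ι I.exp
  obtain ⟨rl, hrl⟩ := s8_two ι I.le
  obtain ⟨ra, hra⟩ := s8_three ι I.add
  obtain ⟨rm, hrm⟩ := s8_three ι I.mul
  refine ⟨⟨rd, re, rz, rs, ra, rm, rx, rl⟩, fun K hK => ?_⟩
  obtain ⟨A0, q, hq⟩ := exists_QM K hK
  obtain ⟨M, hM, rO, rR, hd⟩ := h A0 hq.qax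
  obtain ⟨A, hA, e, einj, hdom, hzero, hsucc, hadd, hmul, hexp, hle⟩ := hI M hM
  refine ⟨A, fun a n => ∃ E : ℕ → A0.C, Cod K q a E ∧ rO (fun j => E j) (e n), hA, ?_⟩
  constructor
  · -- ex
    intro n
    obtain ⟨x, hx⟩ := hd.surO (e n)
    obtain ⟨a, E, hE, hE'⟩ := cod_fin hK hq ι.dO (fun i => if h : i < ι.dO then x ⟨i, h⟩ else A0.zero)
    refine ⟨a, E, hE, ?_⟩
    have e1 : (fun j : Fin ι.dO => E j) = x := by
      funext j
      rw [hE' j j.2, dif_pos j.2]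
    rw [e1]
    exact hx
  · -- fn
    rintro a n m ⟨E, hE, h1⟩ ⟨E', hE', h2⟩
    obtain rfl := cod_fn hK hq hE hE'
    exact einj (hd.fnO _ _ _ h1 h2)
  · -- dom
    intro a
    obtain ⟨E, hE⟩ := cod_ex hK hq a
    show rd.eval K a a ↔ _
    rw [hrd K hK A0 q hq E a hE a]
    show ι.domO.Holds A0 E ∧ χd.Holds A0 E ↔ _
    rw [hd.domO E (fun j => E j) (fun _ => rfl)]
    constructor
    · rintro ⟨⟨o, ho⟩, h1⟩
      have h2 := (hχd A0 M rO rR hd E o (∃ n, e n = o) ho (fun v hv => by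
        rw [hdom v, hv])).1 h1
      obtain ⟨n, rfl⟩ := h2
      exact ⟨n, E, hE, ho⟩
    · rintro ⟨n, E', hE', h1⟩
      obtain rfl := cod_fn hK hq hE hE'
      refine ⟨⟨e n, h1⟩, (hχd A0 M rO rR hd E (e n) True h1 (fun v hv => ?_)).2 trivial⟩
      rw [hdom v, hv]
      exact ⟨fun _ => trivial, fun _ => ⟨n, rfl⟩⟩
  · -- eq
    rintro a b n m ⟨E1, h1, h2⟩ ⟨E2, h3, h4⟩
    refine hre K hK A0 q hq a b E1 E2 _ h1 h3 fun E e1 e2 => ?_
    rw [hd.eqO E (fun j => E1 j) (fun j => E2 j) (e n) (e m) e1 e2 h2 h4]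
    exact einj.eq_iff
  · -- zero
    rintro a n ⟨E, hE, h1⟩
    show rz.eval K a a ↔ _
    rw [hrz K hK A0 q hq E a hE a]
    refine hχz A0 M rO rR hd E (e n) _ h1 fun v hv => ?_
    rw [hzero v n hv]
    exact eq_comm
  · -- succ
    rintro a b n m ⟨E1, h1, h2⟩ ⟨E2, h3, h4⟩
    exact hrs K hK A0 q hq M rO rR hd a b E1 E2 (e n) (e m) _ h1 h3 h2 h4
      fun v v1 v2 => hsucc v n m v1 v2
  · -- add
    rintro d a b c n m k h5 h6 ⟨E1, h1, h2⟩ ⟨E2, h3, h4⟩ ⟨E3, h7, h8⟩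
    exact hra K hK A0 q hq M rO rR hd d a b c E1 E2 E3 (e n) (e m) (e k) _ h5 h6 h1 h3 h7 h2 h4 h8
      fun v v1 v2 v3 => hadd v n m k v1 v2 v3
  · -- mul
    rintro d a b c n m k h5 h6 ⟨E1, h1, h2⟩ ⟨E2, h3, h4⟩ ⟨E3, h7, h8⟩
    exact hrm K hK A0 q hq M rO rR hd d a b c E1 E2 E3 (e n) (e m) (e k) _ h5 h6 h1 h3 h7 h2 h4 h8
      fun v v1 v2 v3 => hmul v n m k v1 v2 v3
  · -- exp
    rintro a b n m ⟨E1, h1, h2⟩ ⟨E2, h3, h4⟩
    exact hrx K hK A0 q hq M rO rR hd a b E1 E2 (e n) (e m) _ h1 h3 h2 h4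
      fun v v1 v2 => hexp v n m v1 v2
  · -- le
    rintro a b n m ⟨E1, h1, h2⟩ ⟨E2, h3, h4⟩
    exact hrl K hK A0 q hq M rO rR hd a b E1 E2 (e n) (e m) _ h1 h3 h2 h4
      fun v v1 v2 => hle v n m v1 v2

end Pool.Agent.Work.MP_de7025_lc.F
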