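import Pool.Agent.Work.MP_de7025_lc.F.Ring

set_option autoImplicit false

/-!
# F/Defs: relation terms, structures, tables (fixed file)

The theory `U`: structures with binary relations `R 0, ..., R 6`, where `R 0` is a congruence `E` and `R 1, ..., R 6`
are (graphs of) unary functions modulo `E`: `p` and `q` (projections of pairs), `z` (constant with value `0`), `s` (successor),
`R 5` is `d ↦ p d + q d` and `R 6` is `d ↦ p d * q d`.
-/

namespace Pool.Agent.Work.MP_de7025_lc.F

/-- pairing polynomial -/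
def pr {N : Type} [Add N] [Mul N] (a b : N) : N := (a + b) * (a + b) + b

/-- relation terms -/
inductive RT
  | atom (i : Fin 7)
  | nand (s t : RT)
  | comp (s t : RT)
  | conv (t : RT)
deriving DecidableEq

namespace RT

/-- code of a relation term -/
def code : RT → ℕ
  | atom i => pr 0 i.val
  | nand s t => pr 1 (pr s.code t.code)
  | comp s t => pr 2 (pr s.code t.code)
  | conv t => pr 3 t.code

/-- complement -/
def neg (t : RT) : RT := nand t t

/-- intersection -/
def and (s t : RT) : RT := neg (nand s t)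

/-- union -/
def or (s t : RT) : RT := nand (neg s) (neg t)

/-- the full relation -/
def one : RT := nand (atom 0) (neg (atom 0))

/-- `diag t a b ↔ t a a` -/
def diag (t : RT) : RT := comp (and t (atom 0)) one

end RT

/-- a structure with binary relations `R i` -/
structure UStr where
  /-- the elements -/
  C : Type
  /-- the relations -/
  R : Fin 7 → C → C → Prop
  ne : Nonempty C

/-- value of a relation term -/
def RT.eval (K : UStr) : RT → K.C → K.C → Prop
  | .atom i, a, b => K.R i a b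
  | .nand s t, a, b => ¬ (s.eval K a b ∧ t.eval K a b)
  | .comp s t, a, b => ∃ c, s.eval K a c ∧ t.eval K c b
  | .conv t, a, b => t.eval K b a

/-! ### clauses -/

/-- the signed fact `± t (v i) (v j)` -/
structure Pat where
  s : Bool
  t : RT
  i : Fin 9
  j : Fin 9

/-- some assignment of elements of `H` to the nine variables makes all facts of `cl` present in `D` -/
def Viol {N : Type} (D : Bool → RT → N → N → Prop) (H : N → Prop) (cl : List Pat) : Prop :=
  ∃ v : Fin 9 → N, (∀ i, H (v i)) ∧ ∀ f ∈ cl, D f.s f.t (v f.i) (v f.j)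

/-- positive atomic fact -/
def pp (i : Fin 7) (a b : Fin 9) : Pat := ⟨true, .atom i, a, b⟩

/-- negative atomic fact -/
def mm (i : Fin 7) (a b : Fin 9) : Pat := ⟨false, .atom i, a, b⟩

/-- the forbidden patterns for the atoms: the universal axioms of `U` -/
def axCl : List (List Pat) :=
  [ [mm 0 0 0],                                                    -- E is reflexive
    [pp 0 0 1, mm 0 1 0],                                           -- symmetric
    [pp 0 0 1, pp 0 1 2, mm 0 0 2],                                  -- transitive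
    [pp 0 0 1, pp 0 2 3, pp 1 0 2, mm 1 1 3],                         -- congruence
    [pp 0 0 1, pp 0 2 3, pp 2 0 2, mm 2 1 3],
    [pp 0 0 1, pp 0 2 3, pp 3 0 2, mm 3 1 3],
    [pp 0 0 1, pp 0 2 3, pp 4 0 2, mm 4 1 3],
    [pp 0 0 1, pp 0 2 3, pp 5 0 2, mm 5 1 3],
    [pp 0 0 1, pp 0 2 3, pp 6 0 2, mm 6 1 3],
    [pp 1 0 1, pp 1 0 2, mm 0 1 2],                                  -- functional
    [pp 2 0 1, pp 2 0 2, mm 0 1 2],
    [pp 4 0 1, pp 4 0 2, mm 0 1 2],
    [pp 5 0 1, pp 5 0 2, mm 0 1 2],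
    [pp 6 0 1, pp 6 0 2, mm 0 1 2],
    [pp 3 0 1, pp 3 2 3, mm 0 1 3],                                  -- z is constant
    [pp 4 0 1, pp 3 2 1],                                           -- s x ≠ 0
    [pp 4 0 1, pp 4 2 1, mm 0 0 2],                                  -- s is injective
    [pp 1 0 1, pp 2 0 2, pp 1 3 1, pp 2 3 2, pp 5 0 4, mm 5 3 4],       -- R 5 depends only on the pair
    [pp 1 0 1, pp 2 0 2, pp 1 3 1, pp 2 3 2, pp 6 0 4, mm 6 3 4],       -- R 6 depends only on the pair
    [pp 5 0 1, pp 1 0 2, pp 2 0 3, pp 3 3 3, mm 0 1 2],                -- x + 0 = x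
    -- x + s y = s (x + y), d = (x, y) = 0, d' = (x, s y) = 1
    [pp 1 0 2, pp 2 0 3, pp 1 1 2, pp 2 1 4, pp 4 3 4, pp 5 0 5, pp 5 1 6, mm 4 5 6],
    [pp 6 0 1, pp 2 0 3, pp 3 3 3, mm 3 1 1],                         -- x * 0 = 0
    -- x * s y = x * y + x, d = (x, y) = 0, d' = (x, s y) = 1, e = (x * y, x) = 7
    [pp 1 0 2, pp 2 0 3, pp 1 1 2, pp 2 1 4, pp 4 3 4, pp 6 0 5, pp 6 1 6, pp 1 7 5, pp 2 7 2, pp 5 7 8, mm 0 6 8] ]

/-- the forbidden patterns for a term -/
def tmCl (t : RT) : List (List Pat) :=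
  [⟨true, t, 0, 1⟩, ⟨false, t, 0, 1⟩] ::
  match t with
  | .atom _ => []
  | .nand u v => [[⟨true, t, 0, 1⟩, ⟨true, u, 0, 1⟩, ⟨true, v, 0, 1⟩],
      [⟨false, t, 0, 1⟩, ⟨false, u, 0, 1⟩], [⟨false, t, 0, 1⟩, ⟨false, v, 0, 1⟩]]
  | .comp u v => [[⟨false, t, 0, 1⟩, ⟨true, u, 0, 2⟩, ⟨true, v, 2, 1⟩]]
  | .conv u => [[⟨true, t, 0, 1⟩, ⟨false, u, 1, 0⟩], [⟨false, t, 0, 1⟩, ⟨true, u, 1, 0⟩]]

/-- no forbidden pattern occurs -/
def OK {N : Type} (L : List RT) (D : Bool → RT → N → N → Prop) (H : N → Prop) : Prop :=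
  ∀ cl ∈ axCl ++ L.flatMap tmCl, ¬ Viol D H cl

/-! ### requests -/

/-- request: value of the function `R i`, `i = 1, ..., 6` -/
def kf (i : ℕ) : ℕ := pr 4 i

/-- request: pair -/
def kp : ℕ := pr 5 0

/-- request: predecessor -/
def kd : ℕ := pr 6 0

/-- the requests -/
def Reqs (L : List RT) : List ℕ := L.map RT.code ++ [kf 1, kf 2, kf 3, kf 4, kf 5, kf 6, kp, kd]

/-- the request `k` at `(a, b)` is answered in `D` with the new element `c` -/
def Ans {N : Type} (L : List RT) (D : Bool → RT → N → N → Prop) (k : ℕ) (a b c : N) : Prop :=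
  (∀ t ∈ L, t.code = k → D false t a b ∨
    (D true t a b ∧ ∀ u v, t = .comp u v → D true u a c ∧ D true v c b)) ∧
  (∀ i : Fin 7, i ≠ 0 → k = kf i.val → D true (.atom i) a c) ∧
  (k = kp → D true (.atom 1) c a ∧ D true (.atom 2) c b) ∧
  (k = kd → D true (.atom 3) a a ∨ D true (.atom 4) c a)

/-! ### tables -/

/-- the witness for the request `k` at `(a, b)` -/
def W {N : Type} [Add N] [Mul N] [One N] (k a b : N) : N := 1 + pr k (pr a b)

/-- signed facts of a table -/
def sg {N : Type} [NatCast N] (T : N → N → N → Prop) : Bool → RT → N → N → Prop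
  | true, t, a, b => T (t.code : N) a b
  | false, t, a, b => ¬ T (t.code : N) a b

/-- `T` is a table for the terms of `L` on the elements of `H` -/
structure Tab {N : Type} [Add N] [Mul N] [One N] [NatCast N] (L : List RT) (T : N → N → N → Prop)
    (H : N → Prop) : Prop where
  ok : OK L (sg T) H
  ans : ∀ k ∈ Reqs L, ∀ a b, H a → H b → H (W (k : N) a b) → Ans L (sg T) k a b (W (k : N) a b)

/-- `L` is closed under subterms and contains the atoms -/
structure Closed (L : List RT) : Prop where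
  atoms : ∀ i, .atom i ∈ L
  nandL : ∀ u v, .nand u v ∈ L → u ∈ L ∧ v ∈ L
  compL : ∀ u v, .comp u v ∈ L → u ∈ L ∧ v ∈ L
  convL : ∀ u, .conv u ∈ L → u ∈ L

/-- the structure given by a table -/
def tabStr {N : Type} [NatCast N] (T : N → N → N → Prop) (H : N → Prop) (h : ∃ a, H a) : UStr where
  C := {a : N // H a}
  R i a b := T ((RT.atom i).code : N) a.1 b.1
  ne := ⟨⟨h.choose, h.choose_spec⟩⟩

/-- `K` is a model of `U` -/
structure UAx (K : UStr) : Prop where
  uni : ∀ cl ∈ axCl, ¬ Viol (fun s t a b => if s = true then t.eval K a b else ¬ t.eval K a b)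
    (fun _ => True) cl
  tot : ∀ i : Fin 7, i ≠ 0 → ∀ a, ∃ b, K.R i a b
  pair : ∀ a b, ∃ d, K.R 1 d a ∧ K.R 2 d b
  pred : ∀ a, K.R 3 a a ∨ ∃ w, K.R 4 w a

/-! ### interpretations of arithmetical structures in models of `U` -/

/-- the relation terms of an interpretation of `0, s, +, ·, exp, ≤, =` in models of `U` -/
structure RInt where
  dom : RT
  eq : RT
  zero : RT
  succ : RT
  add : RT
  mul : RT
  exp : RT
  le : RT

/-- `Rep a n`: the element `a` of `K` represents the element `n` of `A` -/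
structure DefU (J : RInt) (K : UStr) (A : ArStr.{0}) (Rep : K.C → A.C → Prop) : Prop where
  ex : ∀ n, ∃ a, Rep a n
  fn : ∀ a n m, Rep a n → Rep a m → n = m
  dom : ∀ a, J.dom.eval K a a ↔ ∃ n, Rep a n
  eq : ∀ a b n m, Rep a n → Rep b m → (J.eq.eval K a b ↔ n = m)
  zero : ∀ a n, Rep a n → (J.zero.eval K a a ↔ n = A.zero)
  succ : ∀ a b n m, Rep a n → Rep b m → (J.succ.eval K a b ↔ A.succ n = m)
  add : ∀ d a b c n m l, K.R 1 d a → K.R 2 d b → Rep a n → Rep b m → Rep c l →
    (J.add.eval K d c ↔ A.add n m = l)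
  mul : ∀ d a b c n m l, K.R 1 d a → K.R 2 d b → Rep a n → Rep b m → Rep c l →
    (J.mul.eval K d c ↔ A.mul n m = l)
  exp : ∀ a b n m, Rep a n → Rep b m → (J.exp.eval K a b ↔ A.exp n = m)
  le : ∀ a b n m, Rep a n → Rep b m → (J.le.eval K a b ↔ A.le n m)

/-! ### first-order formulas of the language of EFA, de Bruijn variables -/

/-- terms -/
inductive AT
  | var (i : ℕ)
  | zero
  | succ (t : AT)
  | add (t s : AT)
  | mul (t s : AT)
  | exp (t : AT)

/-- formulas -/
inductive AF
  | eq (t s : AT)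
  | le (t s : AT)
  | neg (φ : AF)
  | and (φ ψ : AF)
  | all (φ : AF)

/-- value -/
def AT.val (A : ArStr.{0}) (e : Env A) : AT → A.C
  | .var i => e i
  | .zero => A.zero
  | .succ t => A.succ (t.val A e)
  | .add t s => A.add (t.val A e) (s.val A e)
  | .mul t s => A.mul (t.val A e) (s.val A e)
  | .exp t => A.exp (t.val A e)

/-- truth -/
def AF.Holds (A : ArStr.{0}) : Env A → AF → Prop
  | e, .eq t s => t.val A e = s.val A e
  | e, .le t s => A.le (t.val A e) (s.val A e)
  | e, .neg φ => ¬ φ.Holds A e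
  | e, .and φ ψ => φ.Holds A e ∧ ψ.Holds A e
  | e, .all φ => ∀ x, φ.Holds A (consE x e)

/-- all variables are `< m` -/
def AT.bd : AT → ℕ → Prop
  | .var i, m => i < m
  | .zero, _ => True
  | .succ t, m => t.bd m
  | .add t s, m => t.bd m ∧ s.bd m
  | .mul t s, m => t.bd m ∧ s.bd m
  | .exp t, m => t.bd m

/-- all free variables are `< m` -/
def AF.bd : AF → ℕ → Prop
  | .eq t s, m => t.bd m ∧ s.bd m
  | .le t s, m => t.bd m ∧ s.bd m
  | .neg φ, m => φ.bd m
  | .and φ ψ, m => φ.bd m ∧ ψ.bd m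
  | .all φ, m => φ.bd (m + 1)

end Pool.Agent.Work.MP_de7025_lc.F
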