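import Pool.Agent.Work.MP_de7025_lc.Thy

set_option autoImplicit false

/-!
# F/Dfn: the definability calculus for a model of EFA (fixed file, proved)

`DfnM f` says that the map `f : Γ → Δ` between contexts (`Γ`, `Δ` products of copies of `A.C` and of `Prop`) is
given by terms (components in `A.C`) and by bounded formulas with parameters (components in `Prop`).
The point is `efa_ind`: induction holds for every `P : A.C → Prop` with `DfnM P`.
-/

namespace Pool.Agent.Work.MP_de7025_lc.F

/-- environments -/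
abbrev Env (A : ArStr.{0}) := ℕ → A.C

/-- new value for variable `0` -/
def consE {A : ArStr.{0}} (x : A.C) (e : Env A) : Env A := fun i => Nat.casesOn i x e

/-- functions of the environment given by terms with parameters -/
inductive DT (A : ArStr.{0}) : (Env A → A.C) → Prop
  | var (i : ℕ) : DT A (fun e => e i)
  | const (c : A.C) : DT A (fun _ => c)
  | succ {f : Env A → A.C} : DT A f → DT A (fun e => A.succ (f e))
  | add {f g : Env A → A.C} : DT A f → DT A g → DT A (fun e => A.add (f e) (g e))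
  | mul {f g : Env A → A.C} : DT A f → DT A g → DT A (fun e => A.mul (f e) (g e))
  | exp {f : Env A → A.C} : DT A f → DT A (fun e => A.exp (f e))

/-- predicates of the environment given by bounded formulas with parameters -/
inductive DF (A : ArStr.{0}) : (Env A → Prop) → Prop
  | eq {f g : Env A → A.C} : DT A f → DT A g → DF A (fun e => f e = g e)
  | le {f g : Env A → A.C} : DT A f → DT A g → DF A (fun e => A.le (f e) (g e))
  | neg {P : Env A → Prop} : DF A P → DF A (fun e => ¬ P e)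
  | and {P Q : Env A → Prop} : DF A P → DF A Q → DF A (fun e => P e ∧ Q e)
  | ball {f : Env A → A.C} {P : Env A → Prop} : DT A f → DF A P →
      DF A (fun e => ∀ x, A.le x (f e) → P (consE x e))

theorem DT.shift {A : ArStr.{0}} {f : Env A → A.C} (h : DT A f) (s : Env A → Env A)
    (hs : ∀ i, DT A (fun e => s e i)) : DT A (fun e => f (s e)) := by
  induction h with
  | var i => exact hs i
  | const c => exact DT.const c
  | succ _ ih => exact DT.succ ih
  | add _ _ ih1 ih2 => exact DT.add ih1 ih2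
  | mul _ _ ih1 ih2 => exact DT.mul ih1 ih2
  | exp _ ih => exact DT.exp ih

theorem DF.shift {A : ArStr.{0}} {P : Env A → Prop} (h : DF A P) : ∀ (s : Env A → Env A)
    (_ : ∀ i, DT A (fun e => s e i)), DF A (fun e => P (s e)) := by
  induction h with
  | eq hf hg => intro s hs; exact DF.eq (hf.shift s hs) (hg.shift s hs)
  | le hf hg => intro s hs; exact DF.le (hf.shift s hs) (hg.shift s hs)
  | neg _ ih => intro s hs; exact DF.neg (ih s hs)
  | and _ _ ih1 ih2 => intro s hs; exact DF.and (ih1 s hs) (ih2 s hs)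
  | @ball f P hf _ ih =>
    intro s hs
    have h1 := ih (fun e => consE (e 0) (s (fun i => e (i + 1)))) (by
      intro i
      cases i with
      | zero => exact DT.var 0
      | succ i => exact (hs i).shift (fun e i => e (i + 1)) (fun i => DT.var (i + 1)))
    exact DF.ball (hf.shift s hs) h1

/-- contexts -/
class Ctx (A : ArStr.{0}) (Γ : Type) where
  /-- the admissible readers -/
  Rd : (Env A → Γ) → Prop
  shift : ∀ r, Rd r → ∀ s : Env A → Env A, (∀ i, DT A (fun e => s e i)) → Rd (fun e => r (s e))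
  const : ∀ g, Rd (fun _ => g)

variable {A : ArStr.{0}}

/-- renaming of the variables of a term -/
def amap {n m : ℕ} (ρ : Fin n → Fin m) : ATm n → ATm m
  | .var i => .var (ρ i)
  | .zero => .zero
  | .succ t => .succ (amap ρ t)
  | .add t s => .add (amap ρ t) (amap ρ s)
  | .mul t s => .mul (amap ρ t) (amap ρ s)
  | .exp t => .exp (amap ρ t)

/-- renaming of the variables of a bounded formula -/
def bmap : {n m : ℕ} → (Fin n → Fin m) → BFm n → BFm m
  | _, _, ρ, .eq t s => .eq (amap ρ t) (amap ρ s)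
  | _, _, ρ, .le t s => .le (amap ρ t) (amap ρ s)
  | _, _, ρ, .neg φ => .neg (bmap ρ φ)
  | _, _, ρ, .and φ ψ => .and (bmap ρ φ) (bmap ρ ψ)
  | _, _, ρ, .ball t φ => .ball (amap ρ t) (bmap (Fin.cases 0 (fun i => (ρ i).succ)) φ)

theorem amap_val {n m : ℕ} (ρ : Fin n → Fin m) (v : Fin m → A.C) (t : ATm n) :
    (amap ρ t).val A v = t.val A (fun i => v (ρ i)) := by
  induction t with
  | var i => rfl
  | zero => rfl
  | succ t ih => simp only [amap, ATm.val, ih]
  | add t s ih1 ih2 => simp only [amap, ATm.val, ih1, ih2]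
  | mul t s ih1 ih2 => simp only [amap, ATm.val, ih1, ih2]
  | exp t ih => simp only [amap, ATm.val, ih]

theorem bmap_holds {n : ℕ} (φ : BFm n) : ∀ {m : ℕ} (ρ : Fin n → Fin m) (v : Fin m → A.C),
    (bmap ρ φ).Holds A v ↔ φ.Holds A (fun i => v (ρ i)) := by
  induction φ with
  | eq t s => intro m ρ v; simp only [bmap, BFm.Holds, amap_val]
  | le t s => intro m ρ v; simp only [bmap, BFm.Holds, amap_val]
  | neg φ ih => intro m ρ v; simp only [bmap, BFm.Holds, ih]
  | and φ ψ ih1 ih2 => intro m ρ v; simp only [bmap, BFm.Holds, ih1, ih2]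
  | ball t φ ih =>
    intro m ρ v
    simp only [bmap, BFm.Holds, ih, amap_val]
    have key : ∀ x : A.C, (fun i => (Fin.cons x v : Fin (m + 1) → A.C)
        (Fin.cases 0 (fun i => (ρ i).succ) i)) = Fin.cons x (fun i => v (ρ i)) := by
      intro x
      funext i
      refine Fin.cases ?_ (fun j => ?_) i
      · rfl
      · simp
    simp only [key]

/-- the first `d` variables have the values `xs`, the others are the parameters `e` -/
def pre {d : ℕ} (xs : Fin d → A.C) (e : Env A) : Env A :=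
  fun i => if h : i < d then xs ⟨i, h⟩ else e (i - d)

theorem DT.exists_tm {f : Env A → A.C} (hf : DT A f) (d : ℕ) (e : Env A) :
    ∃ (m : ℕ) (w : Fin m → A.C) (t : ATm (d + m)), ∀ xs : Fin d → A.C,
      f (pre xs e) = t.val A (Fin.append xs w) := by
  induction hf with
  | var i =>
    by_cases hi : i < d
    · refine ⟨0, Fin.elim0, .var (Fin.castAdd 0 ⟨i, hi⟩), fun xs => ?_⟩
      simp only [pre, dif_pos hi, ATm.val, Fin.append_left]
    · refine ⟨1, fun _ => e (i - d), .var (Fin.natAdd d 0), fun xs => ?_⟩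
      simp only [pre, dif_neg hi, ATm.val, Fin.append_right]
  | const c =>
    refine ⟨1, fun _ => c, .var (Fin.natAdd d 0), fun xs => ?_⟩
    simp only [ATm.val, Fin.append_right]
  | succ _ ih =>
    obtain ⟨m, w, t, h⟩ := ih
    exact ⟨m, w, .succ t, fun xs => by simp only [ATm.val, h]⟩
  | exp _ ih =>
    obtain ⟨m, w, t, h⟩ := ih
    exact ⟨m, w, .exp t, fun xs => by simp only [ATm.val, h]⟩
  | add _ _ ih1 ih2 =>
    obtain ⟨m1, w1, t1, h1⟩ := ih1
    obtain ⟨m2, w2, t2, h2⟩ := ih2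
    refine ⟨m1 + m2, Fin.append w1 w2,
      .add (amap (Fin.append (fun i => Fin.castAdd _ i) (fun i => Fin.natAdd d (Fin.castAdd m2 i))) t1)
        (amap (Fin.append (fun i => Fin.castAdd _ i) (fun i => Fin.natAdd d (Fin.natAdd m1 i))) t2),
      fun xs => ?_⟩
    simp only [ATm.val, amap_val, h1, h2]
    congr 2
    · funext i
      refine Fin.addCases (fun j => ?_) (fun j => ?_) i <;> simp
    · funext i
      refine Fin.addCases (fun j => ?_) (fun j => ?_) i <;> simp
  | mul _ _ ih1 ih2 =>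
    obtain ⟨m1, w1, t1, h1⟩ := ih1
    obtain ⟨m2, w2, t2, h2⟩ := ih2
    refine ⟨m1 + m2, Fin.append w1 w2,
      .mul (amap (Fin.append (fun i => Fin.castAdd _ i) (fun i => Fin.natAdd d (Fin.castAdd m2 i))) t1)
        (amap (Fin.append (fun i => Fin.castAdd _ i) (fun i => Fin.natAdd d (Fin.natAdd m1 i))) t2),
      fun xs => ?_⟩
    simp only [ATm.val, amap_val, h1, h2]
    congr 2
    · funext i
      refine Fin.addCases (fun j => ?_) (fun j => ?_) i <;> simp
    · funext i
      refine Fin.addCases (fun j => ?_) (fun j => ?_) i <;> simp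

/-- renaming of the parameters -/
def w1 (d m1 m2 : ℕ) : Fin (d + m1) → Fin (d + (m1 + m2)) :=
  Fin.append (fun i => Fin.castAdd _ i) (fun i => Fin.natAdd d (Fin.castAdd m2 i))

/-- renaming of the parameters -/
def w2 (d m1 m2 : ℕ) : Fin (d + m2) → Fin (d + (m1 + m2)) :=
  Fin.append (fun i => Fin.castAdd _ i) (fun i => Fin.natAdd d (Fin.natAdd m1 i))

theorem w1_app {d m1 m2 : ℕ} (xs : Fin d → A.C) (a : Fin m1 → A.C) (b : Fin m2 → A.C) :
    (fun i => Fin.append xs (Fin.append a b) (w1 d m1 m2 i)) = Fin.append xs a := by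
  funext i
  refine Fin.addCases (fun j => ?_) (fun j => ?_) i <;> simp [w1]

theorem w2_app {d m1 m2 : ℕ} (xs : Fin d → A.C) (a : Fin m1 → A.C) (b : Fin m2 → A.C) :
    (fun i => Fin.append xs (Fin.append a b) (w2 d m1 m2 i)) = Fin.append xs b := by
  funext i
  refine Fin.addCases (fun j => ?_) (fun j => ?_) i <;> simp [w2]

theorem pre_cons {d : ℕ} (xs : Fin d → A.C) (e : Env A) (x : A.C) :
    consE x (pre xs e) = pre (Fin.cons x xs : Fin (d + 1) → A.C) e := by
  funext i
  cases i with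
  | zero => simp [consE, pre]
  | succ i =>
    simp only [consE, pre]
    by_cases hi : i < d
    · rw [dif_pos hi, dif_pos (by omega)]
      rfl
    · rw [dif_neg hi, dif_neg (by omega)]
      congr 1
      omega

theorem DF.exists_fm {P : Env A → Prop} (hP : DF A P) : ∀ (d : ℕ) (e : Env A),
    ∃ (m : ℕ) (w : Fin m → A.C) (φ : BFm (d + m)), ∀ xs : Fin d → A.C,
      P (pre xs e) ↔ φ.Holds A (Fin.append xs w) := by
  induction hP with
  | eq hf hg =>
    intro d e
    obtain ⟨m1, a, t1, h1⟩ := hf.exists_tm d e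
    obtain ⟨m2, b, t2, h2⟩ := hg.exists_tm d e
    refine ⟨m1 + m2, Fin.append a b, .eq (amap (w1 d m1 m2) t1) (amap (w2 d m1 m2) t2), fun xs => ?_⟩
    simp only [BFm.Holds, amap_val, w1_app, w2_app, h1, h2]
  | le hf hg =>
    intro d e
    obtain ⟨m1, a, t1, h1⟩ := hf.exists_tm d e
    obtain ⟨m2, b, t2, h2⟩ := hg.exists_tm d e
    refine ⟨m1 + m2, Fin.append a b, .le (amap (w1 d m1 m2) t1) (amap (w2 d m1 m2) t2), fun xs => ?_⟩
    simp only [BFm.Holds, amap_val, w1_app, w2_app, h1, h2]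
  | neg _ ih =>
    intro d e
    obtain ⟨m, w, φ, h⟩ := ih d e
    exact ⟨m, w, .neg φ, fun xs => by simp only [BFm.Holds, h]⟩
  | and _ _ ih1 ih2 =>
    intro d e
    obtain ⟨m1, a, φ1, h1⟩ := ih1 d e
    obtain ⟨m2, b, φ2, h2⟩ := ih2 d e
    refine ⟨m1 + m2, Fin.append a b, .and (bmap (w1 d m1 m2) φ1) (bmap (w2 d m1 m2) φ2),
      fun xs => ?_⟩
    simp only [BFm.Holds, bmap_holds, w1_app, w2_app, h1, h2]
  | @ball f P hf _ ih =>
    intro d e
    obtain ⟨m1, a, t1, h1⟩ := hf.exists_tm d e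
    obtain ⟨m2, b, φ2, h2⟩ := ih (d + 1) e
    let ρ : Fin (d + 1 + m2) → Fin (d + (m1 + m2) + 1) :=
      Fin.append (Fin.cases 0 (fun i => (Fin.castAdd _ i).succ))
        (fun i => (Fin.natAdd d (Fin.natAdd m1 i)).succ)
    refine ⟨m1 + m2, Fin.append a b, .ball (amap (w1 d m1 m2) t1) (bmap ρ φ2), fun xs => ?_⟩
    have key : ∀ x : A.C, (fun i => (Fin.cons x (Fin.append xs (Fin.append a b)) :
        Fin (d + (m1 + m2) + 1) → A.C) (ρ i)) = Fin.append (Fin.cons x xs : Fin (d + 1) → A.C) b := by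
      intro x
      funext i
      refine Fin.addCases (fun j => ?_) (fun j => ?_) i
      · simp only [ρ, Fin.append_left]
        refine Fin.cases ?_ (fun j => ?_) j <;> simp
      · simp [ρ]
    simp only [BFm.Holds, amap_val, w1_app, h1, bmap_holds, key, pre_cons, h2]

theorem DF.ind (hA : EFA A) {P : Env A → Prop} (hP : DF A P) (e : Env A)
    (h0 : P (consE A.zero e)) (hs : ∀ x, P (consE x e) → P (consE (A.succ x) e)) (x : A.C) :
    P (consE x e) := by
  obtain ⟨m, w, φ, h⟩ := hP.exists_fm 1 e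
  let ρ : Fin (1 + m) → Fin (m + 1) := Fin.append (fun _ => 0) (fun i => i.succ)
  have key : ∀ x : A.C, P (consE x e) ↔ (bmap ρ φ).Holds A (Fin.cons x w) := by
    intro x
    have h1 : consE x e = pre (fun _ : Fin 1 => x) e := by
      funext i
      cases i with
      | zero => simp [consE, pre]
      | succ i => simp [consE, pre]
    rw [h1, h, bmap_holds]
    have h2 : (fun i => (Fin.cons x w : Fin (m + 1) → A.C) (ρ i)) =
        Fin.append (fun _ : Fin 1 => x) w := by
      funext i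
      refine Fin.addCases (fun j => ?_) (fun j => ?_) i <;> simp [ρ]
    rw [h2]
  rw [key]
  refine hA.ind m (bmap ρ φ) w ?_ ?_ x
  · rw [← key]
    exact h0
  · intro x hx
    rw [← key] at hx ⊢
    exact hs x hx

instance ctxC : Ctx A A.C where
  Rd := DT A
  shift _ hr s hs := hr.shift s hs
  const g := DT.const g

theorem DF.const (p : Prop) : DF A (fun _ => p) := by
  by_cases hp : p
  · have : (fun _ : Env A => p) = fun _ => A.zero = A.zero := by
      funext e
      simp [hp]
    rw [this]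
    exact DF.eq (DT.const _) (DT.const _)
  · have : (fun _ : Env A => p) = fun _ => ¬ (A.zero = A.zero) := by
      funext e
      simp [hp]
    rw [this]
    exact DF.neg (DF.eq (DT.const _) (DT.const _))

instance ctxProp : Ctx A Prop where
  Rd := DF A
  shift _ hr s hs := hr.shift s hs
  const p := DF.const p

instance ctxProd {Γ Δ : Type} [Ctx A Γ] [Ctx A Δ] : Ctx A (Γ × Δ) where
  Rd r := Ctx.Rd (A := A) (fun e => (r e).1) ∧ Ctx.Rd (A := A) (fun e => (r e).2)
  shift _ hr s hs := ⟨Ctx.shift _ hr.1 s hs, Ctx.shift _ hr.2 s hs⟩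
  const _ := ⟨Ctx.const _, Ctx.const _⟩

@[fun_prop]
def DfnM (A : ArStr.{0}) {Γ Δ : Type} [Ctx A Γ] [Ctx A Δ] (f : Γ → Δ) : Prop :=
  ∀ r : Env A → Γ, Ctx.Rd (A := A) r → Ctx.Rd (A := A) (fun e => f (r e))

section
variable {Γ Δ Ξ : Type} [Ctx A Γ] [Ctx A Δ] [Ctx A Ξ]

@[fun_prop]
theorem DfnM.id : DfnM A (fun x : Γ => x) := fun _ hr => hr

@[fun_prop]
theorem DfnM.const (d : Δ) : DfnM A (fun _ : Γ => d) := fun _ _ => Ctx.const d

@[fun_prop]
theorem DfnM.comp {g : Δ → Ξ} {f : Γ → Δ} (hg : DfnM A g) (hf : DfnM A f) :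
    DfnM A (fun x => g (f x)) := fun r hr => hg _ (hf r hr)

@[fun_prop]
theorem DfnM.fst {f : Γ → Δ × Ξ} (hf : DfnM A f) : DfnM A (fun x => (f x).1) :=
  fun r hr => (hf r hr).1

@[fun_prop]
theorem DfnM.snd {f : Γ → Δ × Ξ} (hf : DfnM A f) : DfnM A (fun x => (f x).2) :=
  fun r hr => (hf r hr).2

@[fun_prop]
theorem DfnM.mk {f : Γ → Δ} {g : Γ → Ξ} (hf : DfnM A f) (hg : DfnM A g) :
    DfnM A (fun x => (f x, g x)) := fun r hr => ⟨hf r hr, hg r hr⟩

@[fun_prop]
theorem DfnM.add {f g : Γ → A.C} (hf : DfnM A f) (hg : DfnM A g) :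
    DfnM A (fun x => A.add (f x) (g x)) := fun r hr => DT.add (hf r hr) (hg r hr)

@[fun_prop]
theorem DfnM.mul {f g : Γ → A.C} (hf : DfnM A f) (hg : DfnM A g) :
    DfnM A (fun x => A.mul (f x) (g x)) := fun r hr => DT.mul (hf r hr) (hg r hr)

@[fun_prop]
theorem DfnM.succ {f : Γ → A.C} (hf : DfnM A f) : DfnM A (fun x => A.succ (f x)) :=
  fun r hr => DT.succ (hf r hr)

@[fun_prop]
theorem DfnM.exp {f : Γ → A.C} (hf : DfnM A f) : DfnM A (fun x => A.exp (f x)) :=
  fun r hr => DT.exp (hf r hr)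

@[fun_prop]
theorem DfnM.le {f g : Γ → A.C} (hf : DfnM A f) (hg : DfnM A g) :
    DfnM A (fun x => A.le (f x) (g x)) := fun r hr => DF.le (hf r hr) (hg r hr)

@[fun_prop]
theorem DfnM.eq {f g : Γ → A.C} (hf : DfnM A f) (hg : DfnM A g) :
    DfnM A (fun x => f x = g x) := fun r hr => DF.eq (hf r hr) (hg r hr)

@[fun_prop]
theorem DfnM.not {P : Γ → Prop} (hP : DfnM A P) : DfnM A (fun x => ¬ P x) :=
  fun r hr => DF.neg (hP r hr)

@[fun_prop]
theorem DfnM.and {P Q : Γ → Prop} (hP : DfnM A P) (hQ : DfnM A Q) :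
    DfnM A (fun x => P x ∧ Q x) := fun r hr => DF.and (hP r hr) (hQ r hr)

theorem DfnM.ball {f : Γ → A.C} {P : Γ → A.C → Prop} (hf : DfnM A f)
    (hP : DfnM A (fun g : Γ × A.C => P g.1 g.2)) :
    DfnM A (fun x => ∀ y, A.le y (f x) → P x y) := by
  intro r hr
  have h1 := hP (fun e => (r (fun i => e (i + 1)), e 0))
    ⟨Ctx.shift r hr _ (fun i => DT.var (i + 1)), DT.var 0⟩
  exact DF.ball (hf r hr) h1
end


theorem efa_ind (hA : EFA A) {P : A.C → Prop} (hP : DfnM A P) (h0 : P A.zero)
    (hs : ∀ x, P x → P (A.succ x)) (x : A.C) : P x :=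
  DF.ind hA (P := fun e => P (e 0)) (hP (fun e => e 0) (DT.var 0)) (fun _ => A.zero) h0 hs x

end Pool.Agent.Work.MP_de7025_lc.F
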