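import Pool.Agent.Work.MP_de7025_lc.F.Defs

set_option autoImplicit false

/-!
# F/E1 (M): powers of two, least elements, division

`A` is a model of EFA; `ex x = 2 ^ x` (`ex_zero`, `ex_add_one` in `F/Ring`). Induction is `dind`: it needs `DfnM A P`, which is proved by `fun_prop` (quantifier-free part) and
`DfnM.ballLe, ballLt, bexLe, bexLt` (bounded quantifiers; `refine DfnM.ballLe (by fun_prop) ?_`).
Order: `lt_add_one_iff'`, `pos_iff_exists`, `le_iff_ex`; `A.C` is an ordered commutative semiring, canonically ordered (`ring`, `gcongr`, `positivity` work; `linarith` does not).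

PROOF. `ex_pos`, `ex_add`, `lt_ex`: induction on `x` (on `y` for `ex_add`). Monotony: `y = x + d`, `ex y = ex x * ex d`, `1 ≤ ex d`, and `1 < ex d` if `d = d' + 1`.
`dmin`: if not, then by induction on `n` no `z ≤ n` satisfies `z ≤ x ∧ P z` (predicate `∀ z, z ≤ n → ¬ P z`, definable). `dsind`: `dmin` for `¬ P`.
`divmod`: induction on `x` for the predicate `∃ q, q ≤ x ∧ ∃ r, r < d ∧ x = q * d + r` (`d` is a parameter). `divmod_unique`: if `q < q'` then `q' * d + r' ≥ q * d + d > q * d + r`.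
-/

namespace Pool.Agent.Work.MP_de7025_lc.F

variable {A : ArStr.{0}} [IsE A]

theorem ex_pos (x : A.C) : 0 < ex x := by
  refine dind (P := fun x => 0 < ex x) (by fun_prop) ?_ ?_ x
  · rw [ex_zero]
    exact zero_lt_one
  · intro x hx
    rw [ex_add_one]
    exact add_pos hx hx

theorem one_le_ex (x : A.C) : 1 ≤ ex x := by
  obtain ⟨y, hy⟩ := (pos_iff_exists _).mp (ex_pos x)
  rw [hy]
  exact le_add_self

theorem ex_add (x y : A.C) : ex (x + y) = ex x * ex y := by
  refine dind (P := fun y => ex (x + y) = ex x * ex y) (by fun_prop) ?_ ?_ y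
  · rw [add_zero, ex_zero, mul_one]
  · intro y hy
    rw [← add_assoc, ex_add_one, ex_add_one, hy, mul_add]

theorem lt_ex (x : A.C) : x < ex x := by
  refine dind (P := fun x => x < ex x) (by fun_prop) ?_ ?_ x
  · rw [ex_zero]
    exact zero_lt_one
  · intro x hx
    rw [ex_add_one]
    exact add_lt_add_of_lt_of_le hx (one_le_ex x)

theorem ex_le_ex {x y : A.C} (h : x ≤ y) : ex x ≤ ex y := by
  obtain ⟨d, rfl⟩ := (le_iff_ex _ _).mp h
  rw [ex_add]
  calc ex x = ex x * 1 := (mul_one _).symm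
    _ ≤ ex x * ex d := mul_le_mul_of_nonneg_left (one_le_ex d) (ex_pos x).le

theorem add_one_le_iff' (x y : A.C) : x + 1 ≤ y ↔ x < y := by
  constructor
  · intro h
    exact lt_of_lt_of_le ((lt_add_one_iff' _ _).2 le_rfl) h
  · intro h
    by_contra h1
    rw [not_le, lt_add_one_iff'] at h1
    exact absurd h (not_lt.2 h1)

theorem ex_lt_ex {x y : A.C} (h : x < y) : ex x < ex y := by
  calc ex x < ex x + ex x := lt_add_of_pos_right _ (ex_pos x)
    _ = ex (x + 1) := (ex_add_one x).symm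
    _ ≤ ex y := ex_le_ex ((add_one_le_iff' x y).2 h)

/-- least element of a definable set -/
theorem dmin {P : A.C → Prop} (hP : DfnM A P) {x : A.C} (h : P x) :
    ∃ y, y ≤ x ∧ P y ∧ ∀ z, z < y → ¬ P z := by
  by_contra hno
  have key : ∀ n : A.C, ∀ z, z ≤ n → ¬ (z ≤ x ∧ P z) := by
    intro n
    refine dind (P := fun n => ∀ z, z ≤ n → ¬ (z ≤ x ∧ P z))
      (DfnM.ballLe (by fun_prop) (by fun_prop)) ?_ ?_ n
    · intro z hz hzx
      refine hno ⟨z, hzx.1, hzx.2, fun w hw => ?_⟩
      exact absurd (lt_of_lt_of_le hw hz) (not_lt.2 zero_le)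
    · intro n ih z hz hzx
      refine hno ⟨z, hzx.1, hzx.2, fun w hw hPw => ?_⟩
      exact ih w ((lt_add_one_iff' _ _).1 (lt_of_lt_of_le hw hz)) ⟨hw.le.trans hzx.1, hPw⟩
  exact key x x le_rfl ⟨le_rfl, h⟩

/-- strong induction -/
theorem dsind {P : A.C → Prop} (hP : DfnM A P) (h : ∀ x, (∀ y, y < x → P y) → P x) (x : A.C) :
    P x := by
  by_contra hn
  obtain ⟨y, -, hy, hz⟩ := dmin (P := fun x => ¬ P x) (DfnM.not hP) hn
  exact hy (h y fun z hzy => not_not.1 (hz z hzy))

theorem divmod (x : A.C) {d : A.C} (hd : 0 < d) : ∃ q r, x = q * d + r ∧ r < d := by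
  have key : ∃ q, q ≤ x ∧ ∃ r, r < d ∧ x = q * d + r := by
    refine dind (P := fun x => ∃ q, q ≤ x ∧ ∃ r, r < d ∧ x = q * d + r)
      (DfnM.bexLe (f := fun x => x) (P := fun x q => ∃ r, r < d ∧ x = q * d + r) (by fun_prop)
        (DfnM.bexLt (f := fun _ : A.C × A.C => d) (P := fun g r => g.1 = g.2 * d + r) (by fun_prop)
          (by fun_prop))) ?_ ?_ x
    · exact ⟨0, le_rfl, 0, hd, by ring⟩
    · rintro x ⟨q, hq, r, hr, hx⟩
      rcases lt_or_eq_of_le ((add_one_le_iff' r d).2 hr) with h1 | h1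
      · exact ⟨q, hq.trans ((lt_add_one_iff' _ _).2 le_rfl).le, r + 1, h1, by rw [hx]; ring⟩
      · refine ⟨q + 1, by gcongr, 0, hd, ?_⟩
        calc x + 1 = q * d + (r + 1) := by rw [hx]; ring
          _ = q * d + d := by rw [h1]
          _ = (q + 1) * d + 0 := by ring
  obtain ⟨q, -, r, hr, hx⟩ := key
  exact ⟨q, r, hx, hr⟩

private theorem divmod_aux {d q r q' r' : A.C} (h : q * d + r = q' * d + r') (hr : r < d)
    (hq : q < q') : False := by
  have h1 : q * d + d ≤ q' * d := by
    calc q * d + d = (q + 1) * d := by ring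
      _ ≤ q' * d := mul_le_mul_of_nonneg_right ((add_one_le_iff' q q').2 hq) zero_le
  have h2 : q * d + r < q' * d + r' := by
    calc q * d + r < q * d + d := by gcongr
      _ ≤ q' * d := h1
      _ ≤ q' * d + r' := le_self_add
  exact absurd h h2.ne

theorem divmod_unique {d q r q' r' : A.C} (h : q * d + r = q' * d + r') (hr : r < d)
    (hr' : r' < d) : q = q' ∧ r = r' := by
  rcases lt_trichotomy q q' with h1 | h1 | h1
  · exact (divmod_aux h hr h1).elim
  · subst h1
    exact ⟨rfl, add_left_cancel h⟩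
  · exact (divmod_aux h.symm hr' h1).elim

end Pool.Agent.Work.MP_de7025_lc.F
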