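import Pool.Agent.Work.MP_de7025_lc.F.Mem
import Pool.Agent.Work.MP_de7025_lc.F.E1

set_option autoImplicit false

/-!
# F/E2 (M): binary digits

PROOF. `Mem.dfn`: `Mem i x ↔ ∃ q, q ≤ x ∧ ∃ r, r ≤ x ∧ (...)` (`q ≤ x`, `r ≤ x` follow from the equation and `1 ≤ ex (i + 1)`); the bounded form is definable
(`DfnM.bexLe`, `fun_prop`). `mem_add_ex`: let `x < ex b`. `i = b`: `x + ex b = 0 * ex (b + 1) + ex b + x`. `i < b`: `b = i + 1 + d`, `ex b = ex d * ex (i + 1)`, so adding `ex b` changes only `q`;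
conversely use `divmod_unique` for the division by `ex (i + 1)` (remainder `ex i + r < ex (i + 1)`) to find the digit of `x` from that of `x + ex b` (write `x = q * ex (i + 1) + s` by `divmod`).
`i > b`: `x + ex b < ex (b + 1) ≤ ex i`, no digit (and `x < ex i` has no digit either, `ex_le_of_mem`).
-/

namespace Pool.Agent.Work.MP_de7025_lc.F

variable {A : ArStr.{0}} [IsE A]

theorem ex_le_of_mem {i x : A.C} (h : Mem i x) : ex i ≤ x := by
  obtain ⟨q, r, hx, -⟩ := h
  exact (le_iff_ex _ _).2 ⟨q * ex (i + 1) + r, by rw [hx]; ring⟩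

theorem lt_of_mem {i x : A.C} (h : Mem i x) : i < x := lt_of_lt_of_le (lt_ex i) (ex_le_of_mem h)

theorem not_mem_zero (i : A.C) : ¬ Mem i (0 : A.C) := fun h =>
  absurd (ex_pos i) (not_lt.2 (ex_le_of_mem h))

@[fun_prop]
theorem Mem.dfn {Γ : Type} [Ctx A Γ] {f g : Γ → A.C} (hf : DfnM A f) (hg : DfnM A g) :
    DfnM A (fun x => Mem (f x) (g x)) := by
  have h1 : (fun x => Mem (f x) (g x)) = fun x => ∃ q, q ≤ g x ∧ ∃ r, r ≤ g x ∧
      (g x = q * ex (f x + 1) + ex (f x) + r ∧ r < ex (f x)) := by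
    funext x
    apply propext
    constructor
    · rintro ⟨q, r, h2, h3⟩
      refine ⟨q, ?_, r, ?_, h2, h3⟩
      · rw [h2]
        calc q = q * 1 := (mul_one _).symm
          _ ≤ q * ex (f x + 1) := mul_le_mul_of_nonneg_left (one_le_ex _) zero_le
          _ ≤ q * ex (f x + 1) + (ex (f x) + r) := le_self_add
          _ = q * ex (f x + 1) + ex (f x) + r := by ring
      · rw [h2]
        exact le_add_self
    · rintro ⟨q, -, r, -, h2, h3⟩
      exact ⟨q, r, h2, h3⟩
  rw [h1]
  refine DfnM.bexLe (P := fun x q => ∃ r, r ≤ g x ∧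
      (g x = q * ex (f x + 1) + ex (f x) + r ∧ r < ex (f x))) hg ?_
  exact DfnM.bexLe (f := fun y : Γ × A.C => g y.1) (P := fun y r =>
      (g y.1 = y.2 * ex (f y.1 + 1) + ex (f y.1) + r ∧ r < ex (f y.1))) (by fun_prop) (by fun_prop)

theorem mem_add_ex {x b : A.C} (h : x < ex b) (i : A.C) :
    Mem i (x + ex b) ↔ Mem i x ∨ i = b := by
  rcases lt_trichotomy i b with h1 | h1 | h1
  · obtain ⟨d, hd⟩ := (le_iff_ex _ _).1 ((add_one_le_iff' i b).2 h1)
    have hb : ex b = ex d * ex (i + 1) := by rw [← hd, ex_add, mul_comm]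
    constructor
    · rintro ⟨q, r, h2, h3⟩
      left
      obtain ⟨q1, s, h4, h5⟩ := divmod x (ex_pos (i + 1))
      have h6 : (q1 + ex d) * ex (i + 1) + s = q * ex (i + 1) + (ex i + r) := by
        calc (q1 + ex d) * ex (i + 1) + s = (q1 * ex (i + 1) + s) + ex d * ex (i + 1) := by ring
          _ = x + ex b := by rw [← h4, ← hb]
          _ = q * ex (i + 1) + (ex i + r) := by rw [h2]; ring
      have h7 : ex i + r < ex (i + 1) := by
        rw [ex_add_one]
        gcongr
      have h8 := (divmod_unique h6 h5 h7).2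
      exact ⟨q1, r, by rw [h4, h8]; ring, h3⟩
    · rintro (⟨q, r, h2, h3⟩ | h2)
      · exact ⟨q + ex d, r, by rw [h2, hb]; ring, h3⟩
      · exact absurd h2 h1.ne
  · subst h1
    refine ⟨fun _ => Or.inr rfl, fun _ => ⟨0, x, by ring, h⟩⟩
  · have h2 : ex b ≤ ex i := ex_le_ex h1.le
    have h3 : x + ex b < ex i := by
      calc x + ex b < ex b + ex b := by gcongr
        _ = ex (b + 1) := (ex_add_one b).symm
        _ ≤ ex i := ex_le_ex ((add_one_le_iff' b i).2 h1)
    constructor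
    · intro h4
      exact absurd (ex_le_of_mem h4) (not_le.2 h3)
    · rintro (h4 | h4)
      · exact absurd (ex_le_of_mem h4) (not_le.2 (lt_of_lt_of_le h h2))
      · exact absurd h4 h1.ne'

end Pool.Agent.Work.MP_de7025_lc.F
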