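import Pool.Agent.Work.MP_de7025_lc.F.E2

set_option autoImplicit false

/-!
# F/E3 (M): comprehension and extensionality

PROOF. `compr`: induction on `b` for the definable predicate `∃ x, x < ex b ∧ ∀ i, i ≤ b → (Mem i x ↔ i < b ∧ P i)`; step: add `ex b` if `P b` (`mem_add_ex`); for `i ≥ b` there is no digit because `x < ex b ≤ ex i`
(`ex_le_of_mem`), so the statement for all `i` follows. `mem_ext`: by induction on `b`: if `x, y < ex b` have the same digits then `x = y`: for `b + 1`, if `x ≥ ex b` write `x = x' + ex b` with `x' < ex b`, the digit at `b`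
(`mem_add_ex`) shows `y ≥ ex b`, and `x', y'` have the same digits; every `x` is `< ex x`. (predicate for the induction: `∀ x, x < ex b → ∀ y, y < ex b → (∀ i, i ≤ b → (Mem i x ↔ Mem i y)) → x = y`.)
`lt_ex_iff`: `→` by `ex_le_of_mem` and `ex_lt_ex`/`ex_le_ex`; `←`: take `x' < ex b` with the same digits (`compr` for `P i = Mem i x`), then `x = x'`. `exists_ins`, `exists_union`: `compr`.
-/

namespace Pool.Agent.Work.MP_de7025_lc.F

variable {A : ArStr.{0}} [IsE A]

private theorem lt_of_mem_lt_ex {i x b : A.C} (hx : x < ex b) (h : Mem i x) : i < b := by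
  by_contra hn
  exact absurd (ex_le_of_mem h) (not_le.2 (lt_of_lt_of_le hx (ex_le_ex (not_lt.1 hn))))

/-- comprehension -/
theorem compr {P : A.C → Prop} (hP : DfnM A P) (b : A.C) :
    ∃ x, x < ex b ∧ ∀ i, Mem i x ↔ i < b ∧ P i := by
  have key : ∃ x, x < ex b ∧ ∀ i, i ≤ b → (Mem i x ↔ i < b ∧ P i) := by
    refine dind (P := fun b => ∃ x, x < ex b ∧ ∀ i, i ≤ b → (Mem i x ↔ i < b ∧ P i)) ?_ ?_ ?_ b
    · exact DfnM.bexLt (f := fun b => ex b)
        (P := fun b x => ∀ i, i ≤ b → (Mem i x ↔ i < b ∧ P i)) (by fun_prop)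
        (DfnM.ballLe (f := fun y : A.C × A.C => y.1)
          (P := fun y i => (Mem i y.2 ↔ i < y.1 ∧ P i)) (by fun_prop) (by fun_prop))
    · refine ⟨0, ex_pos _, fun i _ => ⟨fun h => absurd h (not_mem_zero i), fun h => ?_⟩⟩
      exact absurd h.1 (not_lt.2 zero_le)
    · rintro c ⟨x, hx, h⟩
      have hall : ∀ i, Mem i x ↔ i < c ∧ P i := by
        intro i
        by_cases hi : i ≤ c
        · exact h i hi
        · constructor
          · intro hm
            exact absurd (lt_of_mem_lt_ex hx hm).le hi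
          · intro hm
            exact absurd hm.1.le hi
      by_cases hc : P c
      · refine ⟨x + ex c, ?_, fun i _ => ?_⟩
        · rw [ex_add_one]
          gcongr
        · rw [mem_add_ex hx, hall i, lt_add_one_iff']
          constructor
          · rintro (⟨h1, h2⟩ | h1)
            · exact ⟨h1.le, h2⟩
            · rw [h1]
              exact ⟨le_rfl, hc⟩
          · rintro ⟨h1, h2⟩
            rcases h1.lt_or_eq with h3 | h3
            · exact Or.inl ⟨h3, h2⟩
            · exact Or.inr h3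
      · refine ⟨x, lt_of_lt_of_le hx ?_, fun i _ => ?_⟩
        · rw [ex_add_one]
          exact le_self_add
        · rw [hall i, lt_add_one_iff']
          constructor
          · rintro ⟨h1, h2⟩
            exact ⟨h1.le, h2⟩
          · rintro ⟨h1, h2⟩
            rcases h1.lt_or_eq with h3 | h3
            · exact ⟨h3, h2⟩
            · rw [h3] at h2
              exact absurd h2 hc
  obtain ⟨x, hx, h⟩ := key
  refine ⟨x, hx, fun i => ?_⟩
  by_cases hi : i ≤ b
  · exact h i hi
  · constructor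
    · intro hm
      exact absurd (lt_of_mem_lt_ex hx hm).le hi
    · intro hm
      exact absurd hm.1.le hi

private theorem mem_ext_aux (b : A.C) : ∀ x : A.C, x < ex b → ∀ y, y < ex b →
    (∀ i, i ≤ b → (Mem i x ↔ Mem i y)) → x = y := by
  refine dind (P := fun b => ∀ x : A.C, x < ex b → ∀ y, y < ex b →
    (∀ i, i ≤ b → (Mem i x ↔ Mem i y)) → x = y) ?_ ?_ ?_ b
  · refine DfnM.ballLt (f := fun b => ex b)
      (P := fun b x => ∀ y, y < ex b → (∀ i, i ≤ b → (Mem i x ↔ Mem i y)) → x = y) (by fun_prop) ?_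
    refine DfnM.ballLt (f := fun p : A.C × A.C => ex p.1)
      (P := fun p y => (∀ i, i ≤ p.1 → (Mem i p.2 ↔ Mem i y)) → p.2 = y) (by fun_prop) ?_
    refine DfnM.imp ?_ (by fun_prop)
    exact DfnM.ballLe (f := fun p : (A.C × A.C) × A.C => p.1.1)
      (P := fun p i => (Mem i p.1.2 ↔ Mem i p.2)) (by fun_prop) (by fun_prop)
  · intro x hx y hy _
    rw [ex_zero] at hx hy
    have hx' : x < 0 + 1 := by rw [zero_add]; exact hx
    have hy' : y < 0 + 1 := by rw [zero_add]; exact hy
    rw [lt_add_one_iff'] at hx' hy'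
    rw [le_antisymm hx' zero_le, le_antisymm hy' zero_le]
  · intro c ih x hx y hy h
    have hsplit : ∀ z : A.C, z < ex (c + 1) → ¬ z < ex c → ∃ z', z' < ex c ∧ z = z' + ex c := by
      intro z hz hz1
      obtain ⟨w, hw⟩ := (le_iff_ex _ _).1 (not_lt.1 hz1)
      refine ⟨w, ?_, by rw [← hw, add_comm]⟩
      rw [ex_add_one, ← hw] at hz
      exact lt_of_add_lt_add_left hz
    have hnot : ∀ z : A.C, z < ex c → ¬ Mem c z := fun z hz hm =>
      absurd (lt_of_mem_lt_ex hz hm) (lt_irrefl c)
    have hyes : ∀ z : A.C, z < ex c → Mem c (z + ex c) := fun z hz =>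
      (mem_add_ex hz c).2 (Or.inr rfl)
    have hc1 : c ≤ c + 1 := le_self_add
    by_cases hx1 : x < ex c
    · by_cases hy1 : y < ex c
      · exact ih x hx1 y hy1 fun i hi => h i (le_trans hi hc1)
      · obtain ⟨y', hy', hy2⟩ := hsplit y hy hy1
        subst hy2
        exact absurd ((h c hc1).2 (hyes y' hy')) (hnot x hx1)
    · obtain ⟨x', hx', hx2⟩ := hsplit x hx hx1
      subst hx2
      by_cases hy1 : y < ex c
      · exact absurd ((h c hc1).1 (hyes x' hx')) (hnot y hy1)
      · obtain ⟨y', hy', hy2⟩ := hsplit y hy hy1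
        subst hy2
        rw [ih x' hx' y' hy' fun i hi => ?_]
        have h1 := h i (le_trans hi hc1)
        rw [mem_add_ex hx', mem_add_ex hy'] at h1
        rcases hi.lt_or_eq with h2 | h2
        · simpa [h2.ne] using h1
        · rw [h2]
          exact ⟨fun hm => absurd hm (hnot _ hx'), fun hm => absurd hm (hnot _ hy')⟩

theorem mem_ext {x y : A.C} (h : ∀ i, Mem i x ↔ Mem i y) : x = y := by
  refine mem_ext_aux (x + y) x ?_ y ?_ fun i _ => h i
  · exact lt_of_le_of_lt le_self_add (lt_ex (x + y))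
  · exact lt_of_le_of_lt le_add_self (lt_ex (x + y))

theorem lt_ex_iff (x b : A.C) : x < ex b ↔ ∀ i, Mem i x → i < b := by
  constructor
  · intro hx i hi
    exact lt_of_mem_lt_ex hx hi
  · intro h
    obtain ⟨x', hx', h'⟩ := compr (P := fun i => Mem i x) (by fun_prop) b
    have : x = x' := mem_ext fun i => by
      rw [h' i]
      exact ⟨fun hi => ⟨h i hi, hi⟩, fun hi => hi.2⟩
    rw [this]
    exact hx'

/-- a definable set all whose elements are `< b` is coded -/
theorem compr' {P : A.C → Prop} (hP : DfnM A P) (b : A.C) (hb : ∀ i, P i → i < b) :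
    ∃ x, x < ex b ∧ ∀ i, Mem i x ↔ P i := by
  obtain ⟨x, hx, h⟩ := compr hP b
  exact ⟨x, hx, fun i => (h i).trans ⟨fun h1 => h1.2, fun h1 => ⟨hb i h1, h1⟩⟩⟩

theorem exists_ins (i x : A.C) : ∃ y, ∀ j, Mem j y ↔ Mem j x ∨ j = i := by
  obtain ⟨y, -, hy⟩ := compr' (P := fun j => Mem j x ∨ j = i) (by fun_prop) (x + i + 1) (by
    rintro j (hj | hj)
    · rw [lt_add_one_iff']
      exact le_trans (lt_of_mem hj).le le_self_add
    · rw [lt_add_one_iff', hj]
      exact le_add_self)
  exact ⟨y, hy⟩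

theorem exists_union (x y : A.C) : ∃ z, ∀ j, Mem j z ↔ Mem j x ∨ Mem j y := by
  obtain ⟨z, -, hz⟩ := compr' (P := fun j => Mem j x ∨ Mem j y) (by fun_prop) (x + y) (by
    rintro j (hj | hj)
    · exact lt_of_lt_of_le (lt_of_mem hj) le_self_add
    · exact lt_of_lt_of_le (lt_of_mem hj) le_add_self)
  exact ⟨z, hz⟩

end Pool.Agent.Work.MP_de7025_lc.F
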