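import Pool.Agent.Work.MP_de7025_lc.F.E3
import Pool.Agent.Work.MP_de7025_lc.F.E4

set_option autoImplicit false

/-!
# F/E5 (M): numerals

PROOF. `lt_cast`: induction on `n` (`lt_add_one_iff'`). `ex_cast`: induction. `mem_cast`: `Mem i n` gives `i < n`, so `i` is a numeral by `lt_cast`, and `q, r ≤ n` are numerals too; the equation is then an equation
between natural numbers (`Nat.cast_inj`, strictly ordered semiring), equivalent to `Nat.testBit` (or `n / 2 ^ i % 2 = 1`). `exists_fin_code`: `compr` for `i < b ∧ ∃ j ∈ s, i = j` (a finite disjunction is definable: induction on the finset).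
-/

namespace Pool.Agent.Work.MP_de7025_lc.F

variable {A : ArStr.{0}} [IsE A]

theorem lt_cast {x : A.C} {n : ℕ} (h : x < (n : A.C)) : ∃ m, m < n ∧ x = (m : A.C) := by
  induction n with
  | zero =>
    rw [Nat.cast_zero] at h
    exact absurd h not_lt_zero
  | succ n ih =>
    rw [Nat.cast_succ, lt_add_one_iff'] at h
    rcases h.lt_or_eq with h1 | h1
    · obtain ⟨m, hm, e⟩ := ih h1
      exact ⟨m, by omega, e⟩
    · exact ⟨n, by omega, h1⟩

theorem cast_lt_cast {m n : ℕ} : ((m : A.C) < (n : A.C)) ↔ m < n := Nat.cast_lt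

theorem cast_inj' {m n : ℕ} : ((m : A.C) = (n : A.C)) ↔ m = n := Nat.cast_inj

theorem ex_cast (n : ℕ) : ex (n : A.C) = ((2 ^ n : ℕ) : A.C) := by
  induction n with
  | zero => rw [Nat.cast_zero, ex_zero, pow_zero, Nat.cast_one]
  | succ n ih =>
    rw [Nat.cast_succ, ex_add_one, ih, ← Nat.cast_add]
    congr 1
    ring

private theorem le_num {x : A.C} {n : ℕ} (h : x ≤ (n : A.C)) : ∃ m : ℕ, x = (m : A.C) := by
  rw [← lt_add_one_iff', ← Nat.cast_succ] at h
  obtain ⟨m, _, e⟩ := lt_cast h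
  exact ⟨m, e⟩

theorem mem_cast (i n : ℕ) : Mem (i : A.C) (n : A.C) ↔ n.testBit i = true := by
  rw [Nat.testBit_eq_decide_div_mod_eq, decide_eq_true_iff]
  have h2 : 0 < 2 ^ i := Nat.two_pow_pos i
  constructor
  · rintro ⟨q, r, h, hr⟩
    have hi : (i : A.C) + 1 = ((i + 1 : ℕ) : A.C) := (Nat.cast_succ i).symm
    rw [hi, ex_cast, ex_cast] at h
    rw [ex_cast] at hr
    obtain ⟨r', _, rfl⟩ := lt_cast hr
    have hq : q ≤ (n : A.C) := by
      rw [h, add_assoc]
      refine le_trans ?_ le_self_add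
      have h3 : (1 : A.C) ≤ ((2 ^ (i + 1) : ℕ) : A.C) := by
        rw [← Nat.cast_one, Nat.cast_le]
        exact Nat.one_le_two_pow
      calc q = q * 1 := (mul_one q).symm
        _ ≤ q * ((2 ^ (i + 1) : ℕ) : A.C) := mul_le_mul' le_rfl h3
    obtain ⟨q', rfl⟩ := le_num hq
    rw [← Nat.cast_mul, ← Nat.cast_add, ← Nat.cast_add, Nat.cast_inj] at h
    rw [Nat.cast_lt] at hr
    have h4 : n = r' + (2 * q' + 1) * 2 ^ i := by
      rw [h, pow_succ]
      ring
    rw [h4, Nat.add_mul_div_right _ _ h2, Nat.div_eq_of_lt hr]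
    omega
  · intro h
    refine ⟨((n / 2 ^ i / 2 : ℕ) : A.C), ((n % 2 ^ i : ℕ) : A.C), ?_, ?_⟩
    · have hi : (i : A.C) + 1 = ((i + 1 : ℕ) : A.C) := (Nat.cast_succ i).symm
      rw [hi, ex_cast, ex_cast, ← Nat.cast_mul, ← Nat.cast_add, ← Nat.cast_add, Nat.cast_inj]
      have h3 : n / 2 ^ i = 2 * (n / 2 ^ i / 2) + 1 := by omega
      have h4 : 2 ^ i * (n / 2 ^ i) + n % 2 ^ i = n := Nat.div_add_mod n (2 ^ i)
      generalize n / 2 ^ i / 2 = c at h3 ⊢
      rw [h3] at h4
      rw [pow_succ]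
      linarith
    · rw [ex_cast, Nat.cast_lt]
      exact Nat.mod_lt _ h2

theorem mem_cast_ex {x : A.C} {n : ℕ} (h : Mem x (n : A.C)) : ∃ i : ℕ, x = (i : A.C) := by
  obtain ⟨m, _, e⟩ := lt_cast (lt_of_mem h)
  exact ⟨m, e⟩

/-- finite sets of natural numbers are coded by numerals -/
theorem exists_fin_code (s : Finset ℕ) :
    ∃ n : ℕ, ∀ i : ℕ, n.testBit i = true ↔ i ∈ s := by
  induction s using Finset.induction_on with
  | empty => exact ⟨0, fun i => by simp⟩
  | insert a s _ ih =>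
    obtain ⟨n, hn⟩ := ih
    refine ⟨n ||| 2 ^ a, fun i => ?_⟩
    rw [Nat.testBit_or, Nat.testBit_two_pow, Bool.or_eq_true, hn, decide_eq_true_iff,
      Finset.mem_insert]
    constructor
    · rintro (h | h)
      · exact Or.inr h
      · exact Or.inl h.symm
    · rintro (h | h)
      · exact Or.inr h.symm
      · exact Or.inl h

end Pool.Agent.Work.MP_de7025_lc.F
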