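import Pool.Agent.Work.MP_de7025_lc.F.G4

set_option autoImplicit false

/-!
# F/G5 (M): simple homomorphisms

PROOF. `Built.closed`: induction. All statements are `win_hom` with the following maps (coded by `compr'`): `win_dummy`: `a ↦ a` for `a < c`, `c ↦ 0` (no fact of `p` contains `c`, by the support: `pr_inj`);
`win_sub`: the identity of `c ≤ c'`. `win_merge`: the identity for `a < c`, `c ↦ e`: the new facts `+ u a c`, `+ v c b` go to `+ u a e`, `+ v e b`. `win_shift`: the identity for `a < c`, `c ↦ c1`. If `a` or `b` is `c` itself: impossible, `a, b < c`.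
A fact of `q` (`Ext p q u v a b c`) about `x, y < c + 1` is a fact of `p` (then `x, y < c`), or `x = a, y = c, t = u, s = +`, or `x = c, y = b, t = v, s = +` (`pr_inj`, `code_inj`, `Nat.cast` injective).
-/

namespace Pool.Agent.Work.MP_de7025_lc.F

variable {A : ArStr.{0}} [IsE A]

private theorem mem_app {L : List RT} {t x : RT} (h : x ∈ L) : x ∈ L ++ [t] :=
  List.mem_append_left _ h

private theorem mem_last (L : List RT) (t : RT) : t ∈ L ++ [t] := by
  rw [List.mem_append, List.mem_singleton]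
  exact Or.inr rfl

theorem Built.closed {L : List RT} (h : Built L) : Closed L := by
  induction h with
  | atoms =>
    refine ⟨?_, ?_, ?_, ?_⟩
    · intro i
      fin_cases i <;> simp [atomsL]
    · intro u v h
      simp [atomsL] at h
    · intro u v h
      simp [atomsL] at h
    · intro u h
      simp [atomsL] at h
  | @nand L u v hL hu hv hn ih =>
    refine ⟨fun i => mem_app (ih.atoms i), fun a b hab => ?_, fun a b hab => ?_, fun a hab => ?_⟩
    · rw [List.mem_append, List.mem_singleton] at hab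
      rcases hab with h | h
      · exact ⟨mem_app (ih.nandL a b h).1, mem_app (ih.nandL a b h).2⟩
      · injection h with h1 h2
        rw [h1, h2]
        exact ⟨mem_app hu, mem_app hv⟩
    · rw [List.mem_append, List.mem_singleton] at hab
      rcases hab with h | h
      · exact ⟨mem_app (ih.compL a b h).1, mem_app (ih.compL a b h).2⟩
      · exact RT.noConfusion h
    · rw [List.mem_append, List.mem_singleton] at hab
      rcases hab with h | h
      · exact mem_app (ih.convL a h)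
      · exact RT.noConfusion h
  | @comp L u v hL hu hv hn ih =>
    refine ⟨fun i => mem_app (ih.atoms i), fun a b hab => ?_, fun a b hab => ?_, fun a hab => ?_⟩
    · rw [List.mem_append, List.mem_singleton] at hab
      rcases hab with h | h
      · exact ⟨mem_app (ih.nandL a b h).1, mem_app (ih.nandL a b h).2⟩
      · exact RT.noConfusion h
    · rw [List.mem_append, List.mem_singleton] at hab
      rcases hab with h | h
      · exact ⟨mem_app (ih.compL a b h).1, mem_app (ih.compL a b h).2⟩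
      · injection h with h1 h2
        rw [h1, h2]
        exact ⟨mem_app hu, mem_app hv⟩
    · rw [List.mem_append, List.mem_singleton] at hab
      rcases hab with h | h
      · exact mem_app (ih.convL a h)
      · exact RT.noConfusion h
  | @conv L u hL hu hn ih =>
    refine ⟨fun i => mem_app (ih.atoms i), fun a b hab => ?_, fun a b hab => ?_, fun a hab => ?_⟩
    · rw [List.mem_append, List.mem_singleton] at hab
      rcases hab with h | h
      · exact ⟨mem_app (ih.nandL a b h).1, mem_app (ih.nandL a b h).2⟩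
      · exact RT.noConfusion h
    · rw [List.mem_append, List.mem_singleton] at hab
      rcases hab with h | h
      · exact ⟨mem_app (ih.compL a b h).1, mem_app (ih.compL a b h).2⟩
      · exact RT.noConfusion h
    · rw [List.mem_append, List.mem_singleton] at hab
      rcases hab with h | h
      · exact mem_app (ih.convL a h)
      · injection h with h1
        rw [h1]
        exact mem_app hu

theorem Built.cl {L : List RT} (h : Built L) : ∀ t ∈ L, ∀ cl ∈ tmCl t, ∀ f ∈ cl, f.t ∈ L := by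
  intro t ht cl hcl f hf
  have hc := h.closed
  cases t with
  | atom i =>
    simp only [tmCl, List.mem_cons, List.not_mem_nil, or_false] at hcl
    subst hcl
    simp only [List.mem_cons, List.not_mem_nil, or_false] at hf
    rcases hf with rfl | rfl
    · exact ht
    · exact ht
  | nand u v =>
    have h2 := hc.nandL u v ht
    simp only [tmCl, List.mem_cons, List.not_mem_nil, or_false] at hcl
    rcases hcl with rfl | rfl | rfl | rfl
    all_goals
      simp only [List.mem_cons, List.not_mem_nil, or_false] at hf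
      rcases hf with rfl | rfl | rfl
    all_goals first
      | exact ht
      | exact h2.1
      | exact h2.2
  | comp u v =>
    have h2 := hc.compL u v ht
    simp only [tmCl, List.mem_cons, List.not_mem_nil, or_false] at hcl
    rcases hcl with rfl | rfl
    all_goals
      simp only [List.mem_cons, List.not_mem_nil, or_false] at hf
      rcases hf with rfl | rfl | rfl
    all_goals first
      | exact ht
      | exact h2.1
      | exact h2.2
  | conv u =>
    have h2 := hc.convL u ht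
    simp only [tmCl, List.mem_cons, List.not_mem_nil, or_false] at hcl
    rcases hcl with rfl | rfl | rfl
    all_goals
      simp only [List.mem_cons, List.not_mem_nil, or_false] at hf
      rcases hf with rfl | rfl
    all_goals first
      | exact ht
      | exact h2

private theorem exists_g (c e : A.C) : ∃ g, ∀ a a', Mem (pr a a') g ↔
    (a < c ∧ a' = a) ∨ (a = c ∧ a' = e) := by
  have h1 : DfnM A (fun i : A.C => (∃ a, a < c ∧ i = pr a a) ∨ i = pr c e) := by
    refine DfnM.or ?_ (by fun_prop)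
    exact DfnM.bexLt (f := fun _ : A.C => c) (P := fun i a => i = pr a a) (by fun_prop)
      (by fun_prop)
  obtain ⟨g, -, hg⟩ := compr' h1 (pr c (c + e) + 1) (by
    rintro i (⟨a, ha, rfl⟩ | rfl)
    · exact (lt_add_one_iff' _ _).2 (pr_mono ha.le (ha.le.trans le_self_add))
    · exact (lt_add_one_iff' _ _).2 (pr_mono le_rfl le_add_self))
  refine ⟨g, fun a a' => ?_⟩
  rw [hg]
  constructor
  · rintro (⟨x, hx, h⟩ | h)
    · obtain ⟨rfl, rfl⟩ := pr_inj h
      exact Or.inl ⟨hx, rfl⟩
    · obtain ⟨rfl, rfl⟩ := pr_inj h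
      exact Or.inr ⟨rfl, rfl⟩
  · rintro (⟨h, rfl⟩ | ⟨rfl, rfl⟩)
    · exact Or.inl ⟨_, h, rfl⟩
    · exact Or.inr rfl

private theorem fc_inj {s s' : Bool} {t t' : RT} {a b a' b' : A.C}
    (h : fc s t a b = fc s' t' a' b') : s = s' ∧ t = t' ∧ a = a' ∧ b = b' := by
  obtain ⟨h1, h2⟩ := pr_inj h
  obtain ⟨h3, h4⟩ := pr_inj h2
  obtain ⟨h5, h6⟩ := pr_inj h4
  refine ⟨?_, code_inj (Nat.cast_inj.1 h3), h5, h6⟩
  cases s <;> cases s' <;> simp at h1 ⊢

private theorem code_le {L : List RT} {t : RT} (h : t ∈ L) : (t.code : A.C) ≤ (cmax L : A.C) := by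
  rw [Nat.cast_le]
  exact List.single_le_sum (fun _ _ => Nat.zero_le _) _ (List.mem_map_of_mem h)

private theorem sup_fc {L : List RT} {s : Bool} {t : RT} (h : t ∈ L) {a b c : A.C} (ha : a < c)
    (hb : b < c) : Sup L c (fc s t a b) := by
  refine ⟨_, ?_, _, code_le h, a, ha, b, hb, rfl⟩
  cases s
  · simp
  · simp

private theorem sup_mono {L : List RT} {c d i : A.C} (h : c ≤ d) (hi : Sup L c i) : Sup L d i := by
  obtain ⟨s, hs, k, hk, a, ha, b, hb, e⟩ := hi
  exact ⟨s, hs, k, hk, a, ha.trans_le h, b, hb.trans_le h, e⟩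

private theorem lt_of_sup {L : List RT} {s : Bool} {t : RT} {a b c : A.C}
    (h : Sup L c (fc s t a b)) : a < c ∧ b < c := by
  obtain ⟨s', hs, k, hk, a', ha, b', hb, e⟩ := h
  obtain ⟨-, h2⟩ := pr_inj e
  obtain ⟨-, h4⟩ := pr_inj h2
  obtain ⟨h5, h6⟩ := pr_inj h4
  rw [h5, h6]
  exact ⟨ha, hb⟩

private theorem lt_succ_cases {a c : A.C} (h : a < c + 1) : a < c ∨ a = c :=
  ((lt_add_one_iff' a c).1 h).lt_or_eq

private theorem hom_gen {L : List RT} (hL : Built L) {c e q c' q' B : A.C}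
    (hs : ∀ i, Mem i q → Sup L (c + 1) i) (hcc : c ≤ c') (he : e < c')
    (h1 : ∀ s, ∀ t ∈ L, ∀ x y, Has q s t x y → x < c → y < c → Has q' s t x y)
    (h2 : ∀ s, ∀ t ∈ L, ∀ x, Has q s t x c → x < c → Has q' s t x e)
    (h3 : ∀ s, ∀ t ∈ L, ∀ y, Has q s t c y → y < c → Has q' s t e y)
    (h4 : ∀ s, ∀ t ∈ L, Has q s t c c → Has q' s t e e)
    (h : Win L c' q' B) : Win L (c + 1) q B := by
  obtain ⟨g, hg⟩ := exists_g c e
  refine win_hom hL.closed.atoms hL.cl (g := g) ((lt_add_one_iff' _ _).2 zero_le) hs ?_ h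
  constructor
  · intro a ha
    rcases lt_succ_cases ha with h5 | h5
    · exact ⟨a, h5.trans_le hcc, (hg _ _).2 (Or.inl ⟨h5, rfl⟩)⟩
    · exact ⟨e, he, (hg _ _).2 (Or.inr ⟨h5, rfl⟩)⟩
  · intro a a' a'' h5 h6
    rcases (hg _ _).1 h5 with ⟨h7, h8⟩ | ⟨h7, h8⟩ <;>
      rcases (hg _ _).1 h6 with ⟨h9, h10⟩ | ⟨h9, h10⟩
    · rw [h8, h10]
    · exact absurd h9 h7.ne
    · exact absurd h7 h9.ne
    · rw [h8, h10]
  · intro s t ht a b a' b' ha hb h5 h6 h7
    rcases (hg _ _).1 h5 with ⟨h8, rfl⟩ | ⟨rfl, rfl⟩ <;>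
      rcases (hg _ _).1 h6 with ⟨h9, rfl⟩ | ⟨rfl, rfl⟩
    · exact h1 s t ht _ _ h7 h8 h9
    · exact h2 s t ht _ h7 h8
    · exact h3 s t ht _ h7 h9
    · exact h4 s t ht h7

theorem win_dummy {L : List RT} (hL : Built L) {c p B : A.C} (h : Win L c p B) :
    Win L (c + 1) p B := by
  have hp := h.toPos
  refine hom_gen hL (e := 0) (fun i hi => sup_mono ((lt_add_one_iff' _ _).2 le_rfl).le (hp.sup i hi))
    le_rfl hp.pos (fun s t _ x y hx _ _ => hx) ?_ ?_ ?_ h
  · intro s t _ x hx _
    exact absurd (lt_of_sup (hp.sup _ hx)).2 (lt_irrefl _)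
  · intro s t _ x hx _
    exact absurd (lt_of_sup (hp.sup _ hx)).1 (lt_irrefl _)
  · intro s t _ hx
    exact absurd (lt_of_sup (hp.sup _ hx)).1 (lt_irrefl _)

theorem win_sub {L : List RT} (hL : Built L) {c p c' p' B : A.C} (hc : 0 < c) (hcc : c ≤ c')
    (hs : ∀ i, Mem i p → Sup L c i) (hp : ∀ i, Mem i p → Mem i p') (h : Win L c' p' B) :
    Win L c p B := by
  obtain ⟨g, hg⟩ := exists_g c (0 : A.C)
  refine win_hom hL.closed.atoms hL.cl (g := g) hc hs ?_ h
  constructor
  · intro a ha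
    exact ⟨a, ha.trans_le hcc, (hg _ _).2 (Or.inl ⟨ha, rfl⟩)⟩
  · intro a a' a'' h5 h6
    rcases (hg _ _).1 h5 with ⟨h7, h8⟩ | ⟨h7, h8⟩ <;>
      rcases (hg _ _).1 h6 with ⟨h9, h10⟩ | ⟨h9, h10⟩
    · rw [h8, h10]
    · exact absurd h9 h7.ne
    · exact absurd h7 h9.ne
    · rw [h8, h10]
  · intro s t ht a b a' b' ha hb h5 h6 h7
    rcases (hg _ _).1 h5 with ⟨h8, rfl⟩ | ⟨h8, -⟩
    · rcases (hg _ _).1 h6 with ⟨h9, rfl⟩ | ⟨h9, -⟩
      · exact hp _ h7
      · exact absurd h9 hb.ne
    · exact absurd h8 ha.ne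

theorem win_merge {L : List RT} (hL : Built L) {u v : RT} (hu : u ∈ L) (hv : v ∈ L)
    {c p q a b e B : A.C} (ha : a < c) (hb : b < c) (he : e < c) (hq : Ext p q u v a b c)
    (h1 : Has p true u a e) (h2 : Has p true v e b) (h : Win L c p B) : Win L (c + 1) q B := by
  have hp := h.toPos
  have hlt : c < c + 1 := (lt_add_one_iff' _ _).2 le_rfl
  have key : ∀ s t x y, Has q s t x y → (x < c ∧ y < c ∧ Has p s t x y) ∨
      (s = true ∧ t = u ∧ x = a ∧ y = c) ∨ (s = true ∧ t = v ∧ x = c ∧ y = b) := by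
    intro s t x y hx
    rcases (hq _).1 hx with h3 | h3 | h3
    · exact Or.inl ⟨(lt_of_sup (hp.sup _ h3)).1, (lt_of_sup (hp.sup _ h3)).2, h3⟩
    · exact Or.inr (Or.inl (fc_inj h3))
    · exact Or.inr (Or.inr (fc_inj h3))
  refine hom_gen hL (e := e) ?_ le_rfl he ?_ ?_ ?_ ?_ h
  · intro i hi
    rcases (hq _).1 hi with h3 | rfl | rfl
    · exact sup_mono hlt.le (hp.sup i h3)
    · exact sup_fc hu (ha.trans hlt) hlt
    · exact sup_fc hv hlt (hb.trans hlt)
  · intro s t _ x y hx hxc hyc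
    rcases key s t x y hx with h3 | ⟨-, -, -, h3⟩ | ⟨-, -, h3, -⟩
    · exact h3.2.2
    · exact absurd h3 hyc.ne
    · exact absurd h3 hxc.ne
  · intro s t _ x hx hxc
    rcases key s t x c hx with h3 | ⟨rfl, rfl, rfl, -⟩ | ⟨-, -, h3, -⟩
    · exact absurd h3.2.1 (lt_irrefl _)
    · exact h1
    · exact absurd h3 hxc.ne
  · intro s t _ y hx hyc
    rcases key s t c y hx with h3 | ⟨-, -, -, h3⟩ | ⟨rfl, rfl, -, rfl⟩
    · exact absurd h3.1 (lt_irrefl _)
    · exact absurd h3 hyc.ne
    · exact h2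
  · intro s t _ hx
    rcases key s t c c hx with h3 | ⟨-, -, h3, -⟩ | ⟨-, -, -, h3⟩
    · exact absurd h3.1 (lt_irrefl _)
    · exact absurd h3.symm ha.ne
    · exact absurd h3.symm hb.ne

theorem win_shift {L : List RT} (hL : Built L) {u v : RT} (hu : u ∈ L) (hv : v ∈ L)
    {c p q c1 p1 q1 a b B : A.C} (ha : a < c) (hb : b < c) (hc : c ≤ c1)
    (hs : ∀ i, Mem i p → Sup L c i) (hp : ∀ i, Mem i p → Mem i p1)
    (hq : Ext p q u v a b c) (hq1 : Ext p1 q1 u v a b c1) (h : Win L (c1 + 1) q1 B) :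
    Win L (c + 1) q B := by
  have hlt : c < c + 1 := (lt_add_one_iff' _ _).2 le_rfl
  have hlt1 : c1 < c1 + 1 := (lt_add_one_iff' _ _).2 le_rfl
  have key : ∀ s t x y, Has q s t x y → (x < c ∧ y < c ∧ Has p s t x y) ∨
      (s = true ∧ t = u ∧ x = a ∧ y = c) ∨ (s = true ∧ t = v ∧ x = c ∧ y = b) := by
    intro s t x y hx
    rcases (hq _).1 hx with h3 | h3 | h3
    · exact Or.inl ⟨(lt_of_sup (hs _ h3)).1, (lt_of_sup (hs _ h3)).2, h3⟩
    · exact Or.inr (Or.inl (fc_inj h3))
    · exact Or.inr (Or.inr (fc_inj h3))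
  refine hom_gen hL (e := c1) ?_ (hc.trans hlt1.le) hlt1 ?_ ?_ ?_ ?_ h
  · intro i hi
    rcases (hq _).1 hi with h3 | rfl | rfl
    · exact sup_mono hlt.le (hs i h3)
    · exact sup_fc hu (ha.trans hlt) hlt
    · exact sup_fc hv hlt (hb.trans hlt)
  · intro s t _ x y hx hxc hyc
    rcases key s t x y hx with h3 | ⟨-, -, -, h3⟩ | ⟨-, -, h3, -⟩
    · exact (hq1 _).2 (Or.inl (hp _ h3.2.2))
    · exact absurd h3 hyc.ne
    · exact absurd h3 hxc.ne
  · intro s t _ x hx hxc
    rcases key s t x c hx with h3 | ⟨rfl, rfl, rfl, -⟩ | ⟨-, -, h3, -⟩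
    · exact absurd h3.2.1 (lt_irrefl _)
    · exact (hq1 _).2 (Or.inr (Or.inl rfl))
    · exact absurd h3 hxc.ne
  · intro s t _ y hx hyc
    rcases key s t c y hx with h3 | ⟨-, -, -, h3⟩ | ⟨rfl, rfl, -, rfl⟩
    · exact absurd h3.1 (lt_irrefl _)
    · exact absurd h3 hyc.ne
    · exact (hq1 _).2 (Or.inr (Or.inr rfl))
  · intro s t _ hx
    rcases key s t c c hx with h3 | ⟨-, -, h3, -⟩ | ⟨-, -, -, h3⟩
    · exact absurd h3.1 (lt_irrefl _)
    · exact absurd h3.symm ha.ne
    · exact absurd h3.symm hb.ne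

end Pool.Agent.Work.MP_de7025_lc.F
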