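import Pool.Agent.Work.MP_de7025_lc.F.Tab0
import Pool.Agent.Work.MP_de7025_lc.F.E4

set_option autoImplicit false

/-!
# F/T2 (S-M): transfer of tables, limits of tables

PROOF. `tab_transfer`: a violated clause of `T1` with values `v` gives a violated clause of `T2` with values `f ∘ v` (all terms of the clauses are in `L`). `Ans`: the same, `f (W k a b) = W k (f a) (f b)`; the facts are about terms of `L`, atoms and `u, v` with `comp u v ∈ L`.
`tab_limit`: `T' k a b := ∀ᶠ y in Filter.hyperfilter ℕ, T y k a b`. For an ultrafilter `¬ T' k a b ↔ ∀ᶠ y, ¬ T y k a b`. A violated clause with values `v` would be violated for almost all `y`, in particular for some `y > v i` for all `i` (`y > m` holds for almost all `y`).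
`Ans` for `T'`: finitely many facts and disjunctions (`Ultrafilter.eventually_or`), `W k a b < y` for almost all `y`; a finite list of terms `t` with `t.code = k` (only one, `code_inj`), so the disjunction may be distributed. Last statement: cofinite sets are in the hyperfilter.
-/

namespace Pool.Agent.Work.MP_de7025_lc.F

private theorem ax_atom : ∀ cl ∈ axCl, ∀ p ∈ cl, ∃ i, p.t = RT.atom i := by
  intro cl hcl p hp
  simp only [axCl, List.mem_cons, List.not_mem_nil, or_false] at hcl
  rcases hcl with rfl | rfl | rfl | rfl | rfl | rfl | rfl | rfl | rfl | rfl | rfl | rfl | rfl |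
    rfl | rfl | rfl | rfl | rfl | rfl | rfl | rfl | rfl | rfl <;>
  · simp only [pp, mm, List.mem_cons, List.not_mem_nil, or_false] at hp
    rcases hp with hp
    aesop

private theorem terms_mem {L : List RT} (hL : Closed L) {cl : List Pat}
    (hcl : cl ∈ axCl ++ L.flatMap tmCl) {p : Pat} (hp : p ∈ cl) : p.t ∈ L := by
  rcases List.mem_append.1 hcl with h | h
  · obtain ⟨i, hi⟩ := ax_atom cl h p hp
    rw [hi]; exact hL.atoms i
  · obtain ⟨t, ht, h⟩ := List.mem_flatMap.1 h
    cases t with
    | atom i =>
      simp only [tmCl, List.mem_cons, List.not_mem_nil, or_false] at h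
      subst h
      simp only [List.mem_cons, List.not_mem_nil, or_false] at hp
      rcases hp with rfl | rfl <;> exact ht
    | nand u v =>
      have h2 := hL.nandL u v ht
      simp only [tmCl, List.mem_cons, List.not_mem_nil, or_false] at h
      rcases h with rfl | rfl | rfl | rfl <;>
        simp only [List.mem_cons, List.not_mem_nil, or_false] at hp
      · rcases hp with rfl | rfl <;> exact ht
      · rcases hp with rfl | rfl | rfl
        · exact ht
        · exact h2.1
        · exact h2.2
      · rcases hp with rfl | rfl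
        · exact ht
        · exact h2.1
      · rcases hp with rfl | rfl
        · exact ht
        · exact h2.2
    | comp u v =>
      have h2 := hL.compL u v ht
      simp only [tmCl, List.mem_cons, List.not_mem_nil, or_false] at h
      rcases h with rfl | rfl <;>
        simp only [List.mem_cons, List.not_mem_nil, or_false] at hp
      · rcases hp with rfl | rfl <;> exact ht
      · rcases hp with rfl | rfl | rfl
        · exact ht
        · exact h2.1
        · exact h2.2
    | conv u =>
      have h2 := hL.convL u ht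
      simp only [tmCl, List.mem_cons, List.not_mem_nil, or_false] at h
      rcases h with rfl | rfl | rfl <;>
        simp only [List.mem_cons, List.not_mem_nil, or_false] at hp
      · rcases hp with rfl | rfl <;> exact ht
      · rcases hp with rfl | rfl
        · exact ht
        · exact h2
      · rcases hp with rfl | rfl
        · exact ht
        · exact h2

theorem tab_transfer {N1 N2 : Type} [Add N1] [Mul N1] [One N1] [NatCast N1] [Add N2] [Mul N2]
    [One N2] [NatCast N2] {L : List RT} (hL : Closed L) {T1 : N1 → N1 → N1 → Prop}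
    {T2 : N2 → N2 → N2 → Prop} {H1 : N1 → Prop} {H2 : N2 → Prop} (f : N1 → N2)
    (h1 : ∀ a, H1 a → H2 (f a))
    (hT : ∀ t ∈ L, ∀ a b, H1 a → H1 b → (T1 (t.code : N1) a b ↔ T2 (t.code : N2) (f a) (f b)))
    (hW : ∀ k ∈ Reqs L, ∀ a b, H1 a → H1 b → H1 (W (k : N1) a b) →
      f (W (k : N1) a b) = W (k : N2) (f a) (f b))
    (h : Tab L T2 H2) : Tab L T1 H1 := by
  have key : ∀ s, ∀ t ∈ L, ∀ a b, H1 a → H1 b → (sg T1 s t a b ↔ sg T2 s t (f a) (f b)) := by
    intro s t ht a b ha hb
    cases s
    · exact not_congr (hT t ht a b ha hb)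
    · exact hT t ht a b ha hb
  constructor
  · rintro cl hcl ⟨v, hv, hf⟩
    apply h.ok cl hcl
    refine ⟨fun i => f (v i), fun i => h1 _ (hv i), ?_⟩
    intro p hp
    exact (key _ _ (terms_mem hL hcl hp) _ _ (hv _) (hv _)).1 (hf p hp)
  · intro k hk a b ha hb hw
    have e := hW k hk a b ha hb hw
    have h2 := h.ans k hk (f a) (f b) (h1 _ ha) (h1 _ hb) (by rw [← e]; exact h1 _ hw)
    rw [← e] at h2
    obtain ⟨a1, a2, a3, a4⟩ := h2
    refine ⟨?_, ?_, ?_, ?_⟩
    · intro t ht htk
      rcases a1 t ht htk with g | ⟨g1, g2⟩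
      · exact Or.inl ((key _ _ ht _ _ ha hb).2 g)
      · refine Or.inr ⟨(key _ _ ht _ _ ha hb).2 g1, ?_⟩
        intro u v e'
        have hm := hL.compL u v (e' ▸ ht)
        exact ⟨(key _ _ hm.1 _ _ ha hw).2 (g2 u v e').1, (key _ _ hm.2 _ _ hw hb).2 (g2 u v e').2⟩
    · intro i hi hki
      exact (key _ _ (hL.atoms i) _ _ ha hw).2 (a2 i hi hki)
    · intro hkp
      exact ⟨(key _ _ (hL.atoms 1) _ _ hw ha).2 (a3 hkp).1,
        (key _ _ (hL.atoms 2) _ _ hw hb).2 (a3 hkp).2⟩
    · intro hkd
      rcases a4 hkd with g | g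
      · exact Or.inl ((key _ _ (hL.atoms 3) _ _ ha ha).2 g)
      · exact Or.inr ((key _ _ (hL.atoms 4) _ _ hw ha).2 g)

theorem tab_limit {L : List RT} (hL : Closed L) (T : ℕ → ℕ → ℕ → ℕ → Prop)
    (h : ∀ y, Tab L (T y) (fun a => a < y)) :
    ∃ T' : ℕ → ℕ → ℕ → Prop, Tab L T' (fun _ => True) ∧
      ∀ k a b, (∃ y0, ∀ y, y0 ≤ y → T y k a b) → T' k a b := by
  refine ⟨fun k a b => ∀ᶠ y in (Filter.hyperfilter ℕ : Filter ℕ), T y k a b, ?_, ?_⟩
  · have key : ∀ s t a b, sg (fun k a b => ∀ᶠ y in (Filter.hyperfilter ℕ : Filter ℕ), T y k a b)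
        s t a b ↔ ∀ᶠ y in (Filter.hyperfilter ℕ : Filter ℕ), sg (T y) s t a b := by
      intro s t a b
      cases s
      · exact Ultrafilter.eventually_not.symm
      · exact Iff.rfl
    have lt : ∀ m : ℕ, ∀ᶠ y in (Filter.hyperfilter ℕ : Filter ℕ), m < y := fun m =>
      (Filter.eventually_gt_atTop m).filter_mono Nat.hyperfilter_le_atTop
    constructor
    · rintro cl hcl ⟨v, -, hf⟩
      have e1 : ∀ᶠ y in (Filter.hyperfilter ℕ : Filter ℕ), ∀ f ∈ {f | f ∈ cl},
          sg (T y) f.s f.t (v f.i) (v f.j) :=
        (Filter.eventually_all_finite (List.finite_toSet cl)).2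
          fun f hf' => (key _ _ _ _).1 (hf f hf')
      have e2 : ∀ᶠ y in (Filter.hyperfilter ℕ : Filter ℕ), ∀ i, v i < y :=
        Filter.eventually_all.2 fun i => lt (v i)
      obtain ⟨y, hy1, hy2⟩ := (e1.and e2).exists
      exact (h y).ok cl hcl ⟨v, hy2, hy1⟩
    · intro k hk a b _ _ _
      have e : ∀ᶠ y in (Filter.hyperfilter ℕ : Filter ℕ),
          Ans L (sg (T y)) k a b (W ((k : ℕ) : ℕ) a b) := by
        filter_upwards [lt a, lt b, lt (W ((k : ℕ) : ℕ) a b)] with y ha hb hw
        exact (h y).ans k hk a b ha hb hw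
      refine ⟨?_, ?_, ?_, ?_⟩
      · intro t ht htk
        by_cases hc : sg (fun k a b => ∀ᶠ y in (Filter.hyperfilter ℕ : Filter ℕ), T y k a b)
          false t a b
        · exact Or.inl hc
        · have hc' : ∀ᶠ y in (Filter.hyperfilter ℕ : Filter ℕ), sg (T y) true t a b := by
            have := not_not.1 hc
            exact this
          refine Or.inr ⟨(key _ _ _ _).2 hc', ?_⟩
          intro u v e'
          have e3 : ∀ᶠ y in (Filter.hyperfilter ℕ : Filter ℕ),
              sg (T y) true u a (W ((k : ℕ) : ℕ) a b) ∧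
              sg (T y) true v (W ((k : ℕ) : ℕ) a b) b := by
            filter_upwards [e, hc'] with y h1 h2
            rcases h1.1 t ht htk with g | g
            · exact absurd h2 g
            · exact g.2 u v e'
          exact ⟨(key _ _ _ _).2 (e3.mono fun _ h => h.1), (key _ _ _ _).2 (e3.mono fun _ h => h.2)⟩
      · intro i hi hki
        exact (key _ _ _ _).2 (e.mono fun y h => h.2.1 i hi hki)
      · intro hkp
        exact ⟨(key _ _ _ _).2 (e.mono fun y h => (h.2.2.1 hkp).1),
          (key _ _ _ _).2 (e.mono fun y h => (h.2.2.1 hkp).2)⟩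
      · intro hkd
        have e4 := e.mono fun y h => h.2.2.2 hkd
        rcases Ultrafilter.eventually_or.1 e4 with g | g
        · exact Or.inl ((key _ _ _ _).2 g)
        · exact Or.inr ((key _ _ _ _).2 g)
  · rintro k a b ⟨y0, hy⟩
    exact (Filter.eventually_atTop.2 ⟨y0, hy⟩).filter_mono Nat.hyperfilter_le_atTop

end Pool.Agent.Work.MP_de7025_lc.F
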