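import Pool.Agent.Work.MP_de7025_lc.F.Tab0
import Pool.Agent.Work.MP_de7025_lc.F.E5

set_option autoImplicit false

/-!
# F/T4 (M): the graph of `hh`

PROOF. `HG_val`: by induction on the numeral `i ≤ n`: `Mem (pr i (hh J i)) g` (`cast_W`, `HG.zero`, `HG.step`), then `HG.fn`. `HG_exists`: put `K` = a numeral larger than `(tZ J).code`, `(tS J).code` and `10`, and
`V i = ex (ex (3 * i) * K)`. If `v ≤ V i` then `W (tS J).code v v = 1 + pr k (pr v v) ≤ V (i + 1) = (V i) ^ 8` (`pr v v = 4 v ^ 2 + v`, `k ≤ K ≤ V i`, `V i ≥ 1024`). So by induction on `i ≤ b` (bounded quantifiers) there is a code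
`g < ex (pr b (V b) + 1)` of the graph on `{0, ..., i}` (`exists_ins`): functional, containing `(0, h0)`, closed under the step below `i`, first components `≤ i`, and for every `j ≤ i` a value `v ≤ V j`. (Predicate of `i`: `∃ g, g < ... ∧ ...`.)
`HG_nat`: a corollary, or a finite code (`exists_fin_code`).
-/

namespace Pool.Agent.Work.MP_de7025_lc.F

variable {A : ArStr.{0}} [IsE A]

theorem HG_val {J : RInt} {g b : A.C} (h : HG J g b) {i : ℕ} (hi : (i : A.C) ≤ b) (v : A.C) :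
    Mem (pr (i : A.C) v) g ↔ v = ((hh J i : ℕ) : A.C) := by
  have key : ∀ i : ℕ, (i : A.C) ≤ b → Mem (pr (i : A.C) ((hh J i : ℕ) : A.C)) g := by
    intro i
    induction i with
    | zero =>
      intro _
      have h1 : ((hh J 0 : ℕ) : A.C) = W ((tZ J).code : A.C) 0 0 := by
        show ((W (tZ J).code 0 0 : ℕ) : A.C) = _
        rw [cast_W, Nat.cast_zero]
      rw [h1, Nat.cast_zero]
      exact h.zero
    | succ i ih =>
      intro hi
      have h0 : (i : A.C) < b := by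
        refine lt_of_lt_of_le ?_ hi
        rw [Nat.cast_succ]
        exact (lt_add_one_iff' _ _).2 le_rfl
      have h1 : ((hh J (i + 1) : ℕ) : A.C) =
          W ((tS J).code : A.C) ((hh J i : ℕ) : A.C) ((hh J i : ℕ) : A.C) := by
        show ((W (tS J).code (hh J i) (hh J i) : ℕ) : A.C) = _
        rw [cast_W]
      rw [h1, Nat.cast_succ]
      exact h.step _ _ h0 (ih h0.le)
  constructor
  · intro hv
    exact h.fn _ _ _ hv (key i hi)
  · rintro rfl
    exact key i hi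

/-- the properties of the graph, with bounded quantifiers -/
private def GB (w0 kS K g i : A.C) : Prop :=
  (∀ j, j ≤ g → ∀ v, v ≤ g → ∀ v', v' ≤ g → Mem (pr j v) g → Mem (pr j v') g → v = v') ∧
  Mem (pr 0 w0) g ∧
  (∀ j, j ≤ g → ∀ v, v ≤ g → j < i → Mem (pr j v) g → Mem (pr (j + 1) (W kS v v)) g) ∧
  (∀ j, j ≤ g → ∀ v, v ≤ g → Mem (pr j v) g → j ≤ i ∧ v ≤ ex (ex (3 * j) * K)) ∧
  (∀ j, j ≤ i → ∃ v, v ≤ ex (ex (3 * j) * K) ∧ Mem (pr j v) g)

private theorem GB_dfn (w0 kS K : A.C) :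
    DfnM A (fun p : A.C × A.C => GB w0 kS K p.2 p.1) := by
  unfold GB
  refine DfnM.and ?_ (DfnM.and (by fun_prop) (DfnM.and ?_ (DfnM.and ?_ ?_)))
  · refine DfnM.ballLe (f := fun p : A.C × A.C => p.2)
      (P := fun p j => ∀ v, v ≤ p.2 → ∀ v', v' ≤ p.2 → Mem (pr j v) p.2 → Mem (pr j v') p.2 → v = v')
      (by fun_prop) ?_
    refine DfnM.ballLe (f := fun p : (A.C × A.C) × A.C => p.1.2)
      (P := fun p v => ∀ v', v' ≤ p.1.2 → Mem (pr p.2 v) p.1.2 → Mem (pr p.2 v') p.1.2 → v = v')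
      (by fun_prop) ?_
    exact DfnM.ballLe (f := fun p : ((A.C × A.C) × A.C) × A.C => p.1.1.2)
      (P := fun p v' => Mem (pr p.1.2 p.2) p.1.1.2 → Mem (pr p.1.2 v') p.1.1.2 → p.2 = v')
      (by fun_prop) (by fun_prop)
  · refine DfnM.ballLe (f := fun p : A.C × A.C => p.2)
      (P := fun p j => ∀ v, v ≤ p.2 → j < p.1 → Mem (pr j v) p.2 → Mem (pr (j + 1) (W kS v v)) p.2)
      (by fun_prop) ?_
    exact DfnM.ballLe (f := fun p : (A.C × A.C) × A.C => p.1.2)
      (P := fun p v => p.2 < p.1.1 → Mem (pr p.2 v) p.1.2 → Mem (pr (p.2 + 1) (W kS v v)) p.1.2)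
      (by fun_prop) (by fun_prop)
  · refine DfnM.ballLe (f := fun p : A.C × A.C => p.2)
      (P := fun p j => ∀ v, v ≤ p.2 → Mem (pr j v) p.2 → j ≤ p.1 ∧ v ≤ ex (ex (3 * j) * K))
      (by fun_prop) ?_
    exact DfnM.ballLe (f := fun p : (A.C × A.C) × A.C => p.1.2)
      (P := fun p v => Mem (pr p.2 v) p.1.2 → p.2 ≤ p.1.1 ∧ v ≤ ex (ex (3 * p.2) * K))
      (by fun_prop) (by fun_prop)
  · refine DfnM.ballLe (f := fun p : A.C × A.C => p.1)
      (P := fun p j => ∃ v, v ≤ ex (ex (3 * j) * K) ∧ Mem (pr j v) p.2)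
      (by fun_prop) ?_
    exact DfnM.bexLe (f := fun p : (A.C × A.C) × A.C => ex (ex (3 * p.2) * K))
      (P := fun p v => Mem (pr p.2 v) p.1.2) (by fun_prop) (by fun_prop)

/-- the properties of the graph -/
private structure GU (w0 kS K g i : A.C) : Prop where
  fn : ∀ j v v', Mem (pr j v) g → Mem (pr j v') g → v = v'
  zero : Mem (pr 0 w0) g
  step : ∀ j v, j < i → Mem (pr j v) g → Mem (pr (j + 1) (W kS v v)) g
  bd : ∀ j v, Mem (pr j v) g → j ≤ i ∧ v ≤ ex (ex (3 * j) * K)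
  tot : ∀ j, j ≤ i → ∃ v, v ≤ ex (ex (3 * j) * K) ∧ Mem (pr j v) g

private theorem mem_le {j v g : A.C} (h : Mem (pr j v) g) : j ≤ g ∧ v ≤ g :=
  ⟨(le_pr_left j v).trans (lt_of_mem h).le, (le_pr_right j v).trans (lt_of_mem h).le⟩

private theorem GB_iff (w0 kS K g i : A.C) : GB w0 kS K g i ↔ GU w0 kS K g i := by
  constructor
  · rintro ⟨h1, h2, h3, h4, h5⟩
    exact ⟨fun j v v' h h' => h1 j (mem_le h).1 v (mem_le h).2 v' (mem_le h').2 h h', h2,
      fun j v hj h => h3 j (mem_le h).1 v (mem_le h).2 hj h,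
      fun j v h => h4 j (mem_le h).1 v (mem_le h).2 h, h5⟩
  · rintro ⟨h1, h2, h3, h4, h5⟩
    exact ⟨fun j _ v _ v' _ h h' => h1 j v v' h h', h2, fun j _ v _ hj h => h3 j v hj h,
      fun j _ v _ h => h4 j v h, h5⟩

private theorem W_le {k v V : A.C} (hk : k ≤ V) (hv : v ≤ V) (h3 : 3 ≤ V) : W k v v ≤ V ^ 8 := by
  have h1 : W k v v ≤ W V V V := by
    unfold W pr
    gcongr
  refine h1.trans ?_
  obtain ⟨d, rfl⟩ := (le_iff_ex _ _).1 h3
  refine (le_iff_ex _ _).2 ⟨4757 * d ^ 0 + 15287 * d ^ 1 + 19396 * d ^ 2 + 13400 * d ^ 3 + 5654 * d ^ 4 + 1512 * d ^ 5 + 252 * d ^ 6 + 24 * d ^ 7 + 1 * d ^ 8, ?_⟩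
  unfold W pr
  ring

private theorem V_succ (K i : A.C) : ex (ex (3 * (i + 1)) * K) = ex (ex (3 * i) * K) ^ 8 := by
  have h3 : ex (3 : A.C) = 8 := by
    have h := ex_cast (A := A) 3
    norm_num at h
    exact h
  have h1 : ex (3 * (i + 1)) * K = (ex (3 * i) * K) * 8 := by
    have e : 3 * (i + 1) = 3 * i + 3 := by ring
    rw [e, ex_add, h3]
    ring
  have h2 : ∀ t : A.C, ex (t * 8) = ex t ^ 8 := by
    intro t
    have e : t * 8 = t + t + t + t + t + t + t + t := by ring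
    rw [e]
    simp only [ex_add]
    ring
  rw [h1, h2]

/-- the graph exists on `{0, ..., b}` -/
theorem HG_exists (J : RInt) (b : A.C) : ∃ g : A.C, HG J g b ∧
    (∀ i v, Mem (pr i v) g → i ≤ b) ∧ ∀ i, i ≤ b → ∃ v, Mem (pr i v) g := by
  obtain ⟨w0, hw0⟩ : ∃ w0 : A.C, w0 = W ((tZ J).code : A.C) 0 0 := ⟨_, rfl⟩
  obtain ⟨kS, hkS⟩ : ∃ kS : A.C, kS = ((tS J).code : A.C) := ⟨_, rfl⟩
  obtain ⟨K, hK⟩ : ∃ K : A.C, K = w0 + kS + 3 := ⟨_, rfl⟩
  have hKV : ∀ j : A.C, K ≤ ex (ex (3 * j) * K) := by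
    intro j
    refine le_trans ?_ (lt_ex _).le
    calc K = 1 * K := (one_mul K).symm
      _ ≤ ex (3 * j) * K := by
        gcongr
        exact one_le_ex _
  have hw : w0 ≤ K := by
    rw [hK, add_assoc]
    exact le_self_add
  have hk : kS ≤ K := by
    rw [hK]
    exact le_add_self.trans le_self_add
  have h3 : 3 ≤ K := by
    rw [hK]
    exact le_add_self
  have hmono : ∀ j : A.C, j ≤ b → ex (ex (3 * j) * K) ≤ ex (ex (3 * b) * K) := by
    intro j hj
    refine ex_le_ex ?_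
    gcongr
    refine ex_le_ex ?_
    gcongr
  have key : ∀ i : A.C, i ≤ b → ∃ g, g < ex (pr b (ex (ex (3 * b) * K)) + 1) ∧
      GB w0 kS K g i := by
    intro i
    refine dind (P := fun i => i ≤ b → ∃ g, g < ex (pr b (ex (ex (3 * b) * K)) + 1) ∧
      GB w0 kS K g i) ?_ ?_ ?_ i
    · refine DfnM.imp (by fun_prop) ?_
      exact DfnM.bexLt (f := fun _ : A.C => ex (pr b (ex (ex (3 * b) * K)) + 1))
        (P := fun i g => GB w0 kS K g i) (by fun_prop) (GB_dfn w0 kS K)
    · intro _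
      obtain ⟨g, hg⟩ := exists_ins (pr 0 w0) (0 : A.C)
      have hg' : ∀ j, Mem j g ↔ j = pr 0 w0 := by
        intro j
        rw [hg]
        exact ⟨fun h => h.resolve_left (not_mem_zero j), Or.inr⟩
      refine ⟨g, ?_, (GB_iff _ _ _ _ _).2 ⟨?_, ?_, ?_, ?_, ?_⟩⟩
      · rw [lt_ex_iff]
        intro j hj
        rw [(hg' j).1 hj, lt_add_one_iff']
        refine pr_mono zero_le ?_
        exact hw.trans (hKV b)
      · intro j v v' h h'
        have e1 := (pr_inj ((hg' _).1 h)).2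
        have e2 := (pr_inj ((hg' _).1 h')).2
        rw [e1, e2]
      · exact (hg' _).2 rfl
      · intro j v hj
        exact absurd hj (not_lt.2 zero_le)
      · intro j v h
        obtain ⟨e1, e2⟩ := pr_inj ((hg' _).1 h)
        rw [e1, e2]
        exact ⟨le_rfl, hw.trans (hKV 0)⟩
      · intro j hj
        have e : j = 0 := le_antisymm hj zero_le
        rw [e]
        exact ⟨w0, hw.trans (hKV 0), (hg' _).2 rfl⟩
    · intro i ih hi
      have hlt : i < i + 1 := (lt_add_one_iff' _ _).2 le_rfl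
      obtain ⟨g, hgb, hg⟩ := ih (hlt.le.trans hi)
      rw [GB_iff] at hg
      obtain ⟨v, hv, hmem⟩ := hg.tot i le_rfl
      obtain ⟨g', hg'⟩ := exists_ins (pr (i + 1) (W kS v v)) g
      have hWV : W kS v v ≤ ex (ex (3 * (i + 1)) * K) := by
        rw [V_succ]
        exact W_le (hk.trans (hKV i)) hv (h3.trans (hKV i))
      refine ⟨g', ?_, (GB_iff _ _ _ _ _).2 ⟨?_, ?_, ?_, ?_, ?_⟩⟩
      · rw [lt_ex_iff]
        intro j hj
        rcases (hg' j).1 hj with h | h
        · exact (lt_ex_iff _ _).1 hgb j h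
        · rw [h, lt_add_one_iff']
          exact pr_mono hi (hWV.trans (hmono _ hi))
      · intro j u u' h h'
        rcases (hg' _).1 h with h1 | h1
        · rcases (hg' _).1 h' with h2 | h2
          · exact hg.fn j u u' h1 h2
          · have e := (pr_inj h2).1
            have h4 := (hg.bd j u h1).1
            rw [e] at h4
            exact absurd hlt (not_lt.2 h4)
        · rcases (hg' _).1 h' with h2 | h2
          · have e := (pr_inj h1).1
            have h4 := (hg.bd j u' h2).1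
            rw [e] at h4
            exact absurd hlt (not_lt.2 h4)
          · rw [(pr_inj h1).2, (pr_inj h2).2]
      · exact (hg' _).2 (Or.inl hg.zero)
      · intro j u hj h
        rcases (hg' _).1 h with h1 | h1
        · rcases ((lt_add_one_iff' _ _).1 hj).lt_or_eq with h2 | h2
          · exact (hg' _).2 (Or.inl (hg.step j u h2 h1))
          · refine (hg' _).2 (Or.inr ?_)
            rw [h2] at h1 ⊢
            rw [hg.fn i u v h1 hmem]
        · have e := (pr_inj h1).1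
          rw [e] at hj
          exact absurd hj (lt_irrefl _)
      · intro j u h
        rcases (hg' _).1 h with h1 | h1
        · exact ⟨(hg.bd j u h1).1.trans hlt.le, (hg.bd j u h1).2⟩
        · obtain ⟨e1, e2⟩ := pr_inj h1
          rw [e1, e2]
          exact ⟨le_rfl, hWV⟩
      · intro j hj
        rcases hj.lt_or_eq with h2 | h2
        · obtain ⟨u, hu, hu'⟩ := hg.tot j ((lt_add_one_iff' _ _).1 h2)
          exact ⟨u, hu, (hg' _).2 (Or.inl hu')⟩
        · rw [h2]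
          exact ⟨_, hWV, (hg' _).2 (Or.inr rfl)⟩
  obtain ⟨g, _, hg⟩ := key b le_rfl
  rw [GB_iff] at hg
  refine ⟨g, ⟨hg.fn, ?_, ?_⟩, fun i v h => (hg.bd i v h).1, fun i hi => ?_⟩
  · rw [← hw0]
    exact hg.zero
  · intro i v hi h
    rw [← hkS]
    exact hg.step i v hi h
  · obtain ⟨v, _, hv⟩ := hg.tot i hi
    exact ⟨v, hv⟩

end Pool.Agent.Work.MP_de7025_lc.F
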