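import Pool.Agent.Work.MP_de7025_lc.F.Tab0
import Pool.Agent.Work.MP_de7025_lc.F.E5
import Pool.Agent.Work.MP_de7025_lc.F.T4

set_option autoImplicit false

/-!
# F/T5 (M): `TblX` for the code of a list

PROOF. The elements `I` of `(n : A.C)` are the numerals in `instr L r` (`mem_cast_ex`, `mem_cast`). If `pr 0 (pr k (pr u v)) = (I : A.C)` then `k, u, v` are numerals (they are `≤ I`, `lt_cast`), and by `cast_pr` and injectivity the equation holds in `ℕ`;
so the first three parts of `TblX` are statements about the terms of `L`: `nand`: the clauses of `tmCl`; `comp`: the clause `- t, + u, + v` and the witness part of `Ans` (`k = t.code`); `conv`: two clauses. The clause `+ t, - t` is void for `sg`.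
`Ans L (sg T) k a b c` for `k = t.code`, `t ∈ L` (then `k ≠ kf, kp, kd`, and `t` is the only term with this code): `D false ∨ (D true ∧ ...)`; for `k ∈ Reqs []` no term of `L` has this code, so `Ans L ↔ Ans []`.
Root: `pr 3 k ∈ (n : A.C)` iff `k = r.code`; `HG_val`, `HG_exists`.
-/

namespace Pool.Agent.Work.MP_de7025_lc.F

variable {A : ArStr.{0}} [IsE A]

theorem exists_code (L : List RT) (r : RT) : ∃ n, IsCode n L r := by
  obtain ⟨n, hn⟩ := exists_fin_code (instr L r).toFinset
  exact ⟨n, fun i => by rw [hn, List.mem_toFinset]⟩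

private theorem mem_code_iff {L : List RT} {r : RT} {n : ℕ} (hn : IsCode n L r) (x : A.C) :
    Mem x (n : A.C) ↔ ∃ i ∈ instr L r, x = (i : A.C) := by
  constructor
  · intro h
    obtain ⟨i, rfl⟩ := mem_cast_ex h
    exact ⟨i, (hn i).1 ((mem_cast i n).1 h), rfl⟩
  · rintro ⟨i, hi, rfl⟩
    exact (mem_cast i n).2 ((hn i).2 hi)

private theorem mem_instr {L : List RT} {r : RT} {i : ℕ} : i ∈ instr L r ↔
    (∃ u v, RT.nand u v ∈ L ∧ i = pr 0 (pr (RT.nand u v).code (pr u.code v.code))) ∨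
    (∃ u v, RT.comp u v ∈ L ∧ i = pr 1 (pr (RT.comp u v).code (pr u.code v.code))) ∨
    (∃ u, RT.conv u ∈ L ∧ i = pr 2 (pr (RT.conv u).code u.code)) ∨ i = pr 3 r.code := by
  unfold instr
  rw [List.mem_append, List.mem_flatMap, List.mem_singleton]
  constructor
  · rintro (⟨t, ht, h⟩ | h)
    · cases t with
      | atom j => simp at h
      | nand u v => exact Or.inl ⟨u, v, ht, by simpa using h⟩
      | comp u v => exact Or.inr (Or.inl ⟨u, v, ht, by simpa using h⟩)
      | conv u => exact Or.inr (Or.inr (Or.inl ⟨u, ht, by simpa using h⟩))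
    · exact Or.inr (Or.inr (Or.inr h))
  · rintro (⟨u, v, ht, h⟩ | ⟨u, v, ht, h⟩ | ⟨u, ht, h⟩ | h)
    · exact Or.inl ⟨_, ht, by simpa using h⟩
    · exact Or.inl ⟨_, ht, by simpa using h⟩
    · exact Or.inl ⟨_, ht, by simpa using h⟩
    · exact Or.inr h

private theorem cne {a b : ℕ} (h : a ≠ b) : (a : A.C) ≠ (b : A.C) := fun h1 => h (cast_inj'.1 h1)

private theorem mem0 {L : List RT} {r : RT} {n : ℕ} (hn : IsCode n L r) (k u v : A.C) :
    Mem (pr 0 (pr k (pr u v))) (n : A.C) ↔ ∃ u0 v0, RT.nand u0 v0 ∈ L ∧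
      k = ((RT.nand u0 v0).code : A.C) ∧ u = (u0.code : A.C) ∧ v = (v0.code : A.C) := by
  rw [mem_code_iff hn]
  constructor
  · rintro ⟨i, hi, h⟩
    rcases mem_instr.1 hi with ⟨u0, v0, ht, rfl⟩ | ⟨u0, v0, ht, rfl⟩ | ⟨u0, ht, rfl⟩ | rfl
    · rw [cast_pr, cast_pr, cast_pr] at h
      obtain ⟨_, h⟩ := pr_inj h
      obtain ⟨h1, h⟩ := pr_inj h
      obtain ⟨h2, h3⟩ := pr_inj h
      exact ⟨u0, v0, ht, h1, h2, h3⟩
    · rw [cast_pr] at h
      have h1 := (pr_inj h).1
      rw [← Nat.cast_zero] at h1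
      exact absurd h1 (cne (by decide))
    · rw [cast_pr] at h
      have h1 := (pr_inj h).1
      rw [← Nat.cast_zero] at h1
      exact absurd h1 (cne (by decide))
    · rw [cast_pr] at h
      have h1 := (pr_inj h).1
      rw [← Nat.cast_zero] at h1
      exact absurd h1 (cne (by decide))
  · rintro ⟨u0, v0, ht, rfl, rfl, rfl⟩
    refine ⟨_, mem_instr.2 (Or.inl ⟨u0, v0, ht, rfl⟩), ?_⟩
    rw [cast_pr, cast_pr, cast_pr, Nat.cast_zero]

private theorem mem1 {L : List RT} {r : RT} {n : ℕ} (hn : IsCode n L r) (k u v : A.C) :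
    Mem (pr 1 (pr k (pr u v))) (n : A.C) ↔ ∃ u0 v0, RT.comp u0 v0 ∈ L ∧
      k = ((RT.comp u0 v0).code : A.C) ∧ u = (u0.code : A.C) ∧ v = (v0.code : A.C) := by
  rw [mem_code_iff hn]
  constructor
  · rintro ⟨i, hi, h⟩
    rcases mem_instr.1 hi with ⟨u0, v0, ht, rfl⟩ | ⟨u0, v0, ht, rfl⟩ | ⟨u0, ht, rfl⟩ | rfl
    · rw [cast_pr] at h
      have h1 := (pr_inj h).1
      rw [← Nat.cast_one] at h1
      exact absurd h1 (cne (by decide))
    · rw [cast_pr, cast_pr, cast_pr] at h
      obtain ⟨_, h⟩ := pr_inj h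
      obtain ⟨h1, h⟩ := pr_inj h
      obtain ⟨h2, h3⟩ := pr_inj h
      exact ⟨u0, v0, ht, h1, h2, h3⟩
    · rw [cast_pr] at h
      have h1 := (pr_inj h).1
      rw [← Nat.cast_one] at h1
      exact absurd h1 (cne (by decide))
    · rw [cast_pr] at h
      have h1 := (pr_inj h).1
      rw [← Nat.cast_one] at h1
      exact absurd h1 (cne (by decide))
  · rintro ⟨u0, v0, ht, rfl, rfl, rfl⟩
    refine ⟨_, mem_instr.2 (Or.inr (Or.inl ⟨u0, v0, ht, rfl⟩)), ?_⟩
    rw [cast_pr, cast_pr, cast_pr, Nat.cast_one]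

private theorem mem2 {L : List RT} {r : RT} {n : ℕ} (hn : IsCode n L r) (k u : A.C) :
    Mem (pr 2 (pr k u)) (n : A.C) ↔ ∃ u0, RT.conv u0 ∈ L ∧
      k = ((RT.conv u0).code : A.C) ∧ u = (u0.code : A.C) := by
  rw [mem_code_iff hn]
  have e2 : (2 : A.C) = ((2 : ℕ) : A.C) := by norm_num
  constructor
  · rintro ⟨i, hi, h⟩
    rcases mem_instr.1 hi with ⟨u0, v0, ht, rfl⟩ | ⟨u0, v0, ht, rfl⟩ | ⟨u0, ht, rfl⟩ | rfl
    · rw [cast_pr] at h
      have h1 := (pr_inj h).1
      rw [e2] at h1
      exact absurd h1 (cne (by decide))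
    · rw [cast_pr] at h
      have h1 := (pr_inj h).1
      rw [e2] at h1
      exact absurd h1 (cne (by decide))
    · rw [cast_pr, cast_pr] at h
      obtain ⟨_, h⟩ := pr_inj h
      obtain ⟨h1, h2⟩ := pr_inj h
      exact ⟨u0, ht, h1, h2⟩
    · rw [cast_pr] at h
      have h1 := (pr_inj h).1
      rw [e2] at h1
      exact absurd h1 (cne (by decide))
  · rintro ⟨u0, ht, rfl, rfl⟩
    refine ⟨_, mem_instr.2 (Or.inr (Or.inr (Or.inl ⟨u0, ht, rfl⟩))), ?_⟩
    rw [cast_pr, cast_pr, e2]

private theorem mem3 {L : List RT} {r : RT} {n : ℕ} (hn : IsCode n L r) (k : A.C) :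
    Mem (pr 3 k) (n : A.C) ↔ k = (r.code : A.C) := by
  rw [mem_code_iff hn]
  have e3 : (3 : A.C) = ((3 : ℕ) : A.C) := by norm_num
  constructor
  · rintro ⟨i, hi, h⟩
    rcases mem_instr.1 hi with ⟨u0, v0, ht, rfl⟩ | ⟨u0, v0, ht, rfl⟩ | ⟨u0, ht, rfl⟩ | rfl
    · rw [cast_pr] at h
      have h1 := (pr_inj h).1
      rw [e3] at h1
      exact absurd h1 (cne (by decide))
    · rw [cast_pr] at h
      have h1 := (pr_inj h).1
      rw [e3] at h1
      exact absurd h1 (cne (by decide))
    · rw [cast_pr] at h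
      have h1 := (pr_inj h).1
      rw [e3] at h1
      exact absurd h1 (cne (by decide))
    · rw [cast_pr] at h
      exact (pr_inj h).2
  · rintro rfl
    refine ⟨_, mem_instr.2 (Or.inr (Or.inr (Or.inr rfl))), ?_⟩
    rw [cast_pr, e3]

section gen

variable {N : Type} [Add N] [Mul N] [One N] [NatCast N] {T : N → N → N → Prop} {H : N → Prop}

/-- the clauses of one term -/
private def TmOK (T : N → N → N → Prop) (H : N → Prop) : RT → Prop
  | .atom _ => True
  | .nand u v => ∀ a b, H a → H b →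
      (T ((RT.nand u v).code : N) a b ↔ ¬ (T (u.code : N) a b ∧ T (v.code : N) a b))
  | .comp u v => ∀ a b, H a → H b → ∀ c, H c → T (u.code : N) a c → T (v.code : N) c b →
      T ((RT.comp u v).code : N) a b
  | .conv u => ∀ a b, H a → H b → (T ((RT.conv u).code : N) a b ↔ T (u.code : N) b a)

private def asg (a b c : N) : Fin 9 → N := fun i => if i = 0 then a else if i = 1 then b else c

private theorem asg_H {a b c : N} (ha : H a) (hb : H b) (hc : H c) (i : Fin 9) : H (asg a b c i) := by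
  unfold asg
  split_ifs <;> assumption

private theorem tmCl_iff (t : RT) : (∀ cl ∈ tmCl t, ¬ Viol (sg T) H cl) ↔ TmOK T H t := by
  have h0 : ¬ Viol (sg T) H [⟨true, t, 0, 1⟩, ⟨false, t, 0, 1⟩] := by
    rintro ⟨v, _, h⟩
    exact h _ (List.mem_cons_of_mem _ (List.mem_cons_self)) (h _ (List.mem_cons_self))
  cases t with
  | atom i =>
    constructor
    · intro _
      trivial
    · intro _ cl hcl
      rw [tmCl, List.mem_singleton] at hcl
      rw [hcl]
      exact h0
  | nand u v =>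
    constructor
    · intro h a b ha hb
      have h1 := h [⟨true, .nand u v, 0, 1⟩, ⟨true, u, 0, 1⟩, ⟨true, v, 0, 1⟩] (by simp [tmCl])
      have h2 := h [⟨false, .nand u v, 0, 1⟩, ⟨false, u, 0, 1⟩] (by simp [tmCl])
      have h3 := h [⟨false, .nand u v, 0, 1⟩, ⟨false, v, 0, 1⟩] (by simp [tmCl])
      constructor
      · intro h4 h5
        refine h1 ⟨asg a b b, asg_H ha hb hb, fun f hf => ?_⟩
        simp only [List.mem_cons, List.not_mem_nil, or_false] at hf
        rcases hf with rfl | rfl | rfl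
        · exact h4
        · exact h5.1
        · exact h5.2
      · intro h4
        by_contra h5
        rcases not_and_or.1 h4 with h6 | h6
        · refine h2 ⟨asg a b b, asg_H ha hb hb, fun f hf => ?_⟩
          simp only [List.mem_cons, List.not_mem_nil, or_false] at hf
          rcases hf with rfl | rfl
          · exact h5
          · exact h6
        · refine h3 ⟨asg a b b, asg_H ha hb hb, fun f hf => ?_⟩
          simp only [List.mem_cons, List.not_mem_nil, or_false] at hf
          rcases hf with rfl | rfl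
          · exact h5
          · exact h6
    · intro h cl hcl
      simp only [tmCl, List.mem_cons, List.not_mem_nil, or_false] at hcl
      rcases hcl with rfl | rfl | rfl | rfl
      · exact h0
      · rintro ⟨w, hw, hf⟩
        have h1 := hf ⟨true, .nand u v, 0, 1⟩ (by simp)
        have h2 := hf ⟨true, u, 0, 1⟩ (by simp)
        have h3 := hf ⟨true, v, 0, 1⟩ (by simp)
        exact (h _ _ (hw 0) (hw 1)).1 h1 ⟨h2, h3⟩
      · rintro ⟨w, hw, hf⟩
        have h1 := hf ⟨false, .nand u v, 0, 1⟩ (by simp)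
        have h2 := hf ⟨false, u, 0, 1⟩ (by simp)
        exact h1 ((h _ _ (hw 0) (hw 1)).2 fun h3 => h2 h3.1)
      · rintro ⟨w, hw, hf⟩
        have h1 := hf ⟨false, .nand u v, 0, 1⟩ (by simp)
        have h2 := hf ⟨false, v, 0, 1⟩ (by simp)
        exact h1 ((h _ _ (hw 0) (hw 1)).2 fun h3 => h2 h3.2)
  | comp u v =>
    constructor
    · intro h a b ha hb c hc h1 h2
      by_contra h3
      refine h [⟨false, .comp u v, 0, 1⟩, ⟨true, u, 0, 2⟩, ⟨true, v, 2, 1⟩] (by simp [tmCl])
        ⟨asg a b c, asg_H ha hb hc, fun f hf => ?_⟩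
      simp only [List.mem_cons, List.not_mem_nil, or_false] at hf
      rcases hf with rfl | rfl | rfl
      · exact h3
      · exact h1
      · exact h2
    · intro h cl hcl
      simp only [tmCl, List.mem_cons, List.not_mem_nil, or_false] at hcl
      rcases hcl with rfl | rfl
      · exact h0
      · rintro ⟨w, hw, hf⟩
        have h1 := hf ⟨false, .comp u v, 0, 1⟩ (by simp)
        have h2 := hf ⟨true, u, 0, 2⟩ (by simp)
        have h3 := hf ⟨true, v, 2, 1⟩ (by simp)
        exact h1 (h _ _ (hw 0) (hw 1) _ (hw 2) h2 h3)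
  | conv u =>
    constructor
    · intro h a b ha hb
      have h1 := h [⟨true, .conv u, 0, 1⟩, ⟨false, u, 1, 0⟩] (by simp [tmCl])
      have h2 := h [⟨false, .conv u, 0, 1⟩, ⟨true, u, 1, 0⟩] (by simp [tmCl])
      constructor
      · intro h4
        by_contra h5
        refine h1 ⟨asg a b b, asg_H ha hb hb, fun f hf => ?_⟩
        simp only [List.mem_cons, List.not_mem_nil, or_false] at hf
        rcases hf with rfl | rfl
        · exact h4
        · exact h5
      · intro h4
        by_contra h5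
        refine h2 ⟨asg a b b, asg_H ha hb hb, fun f hf => ?_⟩
        simp only [List.mem_cons, List.not_mem_nil, or_false] at hf
        rcases hf with rfl | rfl
        · exact h5
        · exact h4
    · intro h cl hcl
      simp only [tmCl, List.mem_cons, List.not_mem_nil, or_false] at hcl
      rcases hcl with rfl | rfl | rfl
      · exact h0
      · rintro ⟨w, hw, hf⟩
        have h1 := hf ⟨true, .conv u, 0, 1⟩ (by simp)
        have h2 := hf ⟨false, u, 1, 0⟩ (by simp)
        exact h2 ((h _ _ (hw 0) (hw 1)).1 h1)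
      · rintro ⟨w, hw, hf⟩
        have h1 := hf ⟨false, .conv u, 0, 1⟩ (by simp)
        have h2 := hf ⟨true, u, 1, 0⟩ (by simp)
        exact h1 ((h _ _ (hw 0) (hw 1)).2 h2)

private theorem OK_iff {L : List RT} : OK L (sg T) H ↔
    (∀ cl ∈ axCl, ¬ Viol (sg T) H cl) ∧ ∀ t ∈ L, TmOK T H t := by
  unfold OK
  constructor
  · intro h
    refine ⟨fun cl hcl => h cl (List.mem_append_left _ hcl), fun t ht => ?_⟩
    rw [← tmCl_iff]
    exact fun cl hcl => h cl (List.mem_append_right _ (List.mem_flatMap.2 ⟨t, ht, hcl⟩))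
  · rintro ⟨h1, h2⟩ cl hcl
    rcases List.mem_append.1 hcl with h3 | h3
    · exact h1 cl h3
    · obtain ⟨t, ht, h4⟩ := List.mem_flatMap.1 h3
      exact (tmCl_iff t).2 (h2 t ht) cl h4

private theorem code_not_req (t : RT) : t.code ∉ Reqs [] := by
  intro h
  simp only [Reqs, List.map_nil, List.nil_append, List.mem_cons, List.not_mem_nil, or_false] at h
  rcases h with h | h | h | h | h | h | h | h
  · exact code_ne_kf _ _ h
  · exact code_ne_kf _ _ h
  · exact code_ne_kf _ _ h
  · exact code_ne_kf _ _ h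
  · exact code_ne_kf _ _ h
  · exact code_ne_kf _ _ h
  · exact code_ne_kp _ h
  · exact code_ne_kd _ h

private theorem ans_req {L : List RT} {D : Bool → RT → N → N → Prop} {k : ℕ} (hk : k ∈ Reqs [])
    (a b c : N) : Ans L D k a b c ↔ Ans [] D k a b c := by
  unfold Ans
  constructor
  · rintro ⟨_, h⟩
    exact ⟨fun t ht => by simp at ht, h⟩
  · rintro ⟨_, h⟩
    refine ⟨fun t _ h1 => ?_, h⟩
    rw [← h1] at hk
    exact absurd hk (code_not_req t)

private theorem ans_code {L : List RT} {t : RT} (ht : t ∈ L) (a b c : N) :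
    Ans L (sg T) t.code a b c ↔ ∀ u v, t = .comp u v → T (t.code : N) a b →
      T (u.code : N) a c ∧ T (v.code : N) c b := by
  unfold Ans
  constructor
  · rintro ⟨h, _⟩ u v e h1
    rcases h t ht rfl with h2 | h2
    · exact absurd h1 h2
    · exact h2.2 u v e
  · intro h
    refine ⟨fun s _ hs => ?_, fun i _ h1 => absurd h1 (code_ne_kf t _),
      fun h1 => absurd h1 (code_ne_kp t), fun h1 => absurd h1 (code_ne_kd t)⟩
    have hs' := code_inj hs
    subst hs'
    by_cases h1 : T (s.code : N) a b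
    · exact Or.inr ⟨h1, fun u v e => h u v e h1⟩
    · exact Or.inl h1

private theorem Tab_iff {L : List RT} : Tab L T H ↔
    (∀ cl ∈ axCl, ¬ Viol (sg T) H cl) ∧ (∀ t ∈ L, TmOK T H t) ∧
    (∀ u v, RT.comp u v ∈ L → ∀ a b, H a → H b → H (W ((RT.comp u v).code : N) a b) →
      T ((RT.comp u v).code : N) a b → T (u.code : N) a (W ((RT.comp u v).code : N) a b) ∧
        T (v.code : N) (W ((RT.comp u v).code : N) a b) b) ∧
    (∀ k ∈ Reqs [], ∀ a b, H a → H b → H (W (k : N) a b) →
      Ans [] (sg T) k a b (W (k : N) a b)) := by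
  constructor
  · rintro ⟨h1, h2⟩
    obtain ⟨h3, h4⟩ := OK_iff.1 h1
    refine ⟨h3, h4, fun u v ht a b ha hb hw => ?_, fun k hk a b ha hb hw => ?_⟩
    · exact (ans_code ht _ _ _).1 (h2 _ (List.mem_append_left _ (List.mem_map.2 ⟨_, ht, rfl⟩))
        a b ha hb hw) u v rfl
    · refine (ans_req hk _ _ _).1 (h2 k (List.mem_append_right _ ?_) a b ha hb hw)
      simpa only [Reqs, List.map_nil, List.nil_append] using hk
  · rintro ⟨h1, h2, h3, h4⟩
    refine ⟨OK_iff.2 ⟨h1, h2⟩, fun k hk a b ha hb hw => ?_⟩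
    rcases List.mem_append.1 hk with h | h
    · obtain ⟨t, ht, rfl⟩ := List.mem_map.1 h
      rw [ans_code ht]
      rintro u v rfl
      exact h3 u v ht a b ha hb hw
    · have hk' : k ∈ Reqs [] := by
        simpa only [Reqs, List.map_nil, List.nil_append] using h
      exact (ans_req hk' _ _ _).2 (h4 k hk' a b ha hb hw)

end gen

theorem tblX_iff {J : RInt} {L : List RT} (hL : Closed L) {r : RT} {n : ℕ} (hn : IsCode n L r)
    (t y : A.C) : TblX J (n : A.C) t y ↔ Tab L (TT t) (fun a => a < y) ∧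
      (((hh J n : ℕ) : A.C) < y → TT t (r.code : A.C) ((hh J n : ℕ) : A.C) ((hh J n : ℕ) : A.C)) := by
  rw [Tab_iff]
  constructor
  · rintro ⟨h1, h2, h3, h4, h5, h6⟩
    refine ⟨⟨h4, fun s hs => ?_, fun u v hs a b ha hb hw h => ?_, h5⟩, fun hy => ?_⟩
    · cases s with
      | atom i => trivial
      | nand u v =>
        intro a b ha hb
        exact h1 _ _ _ ((mem0 hn _ _ _).2 ⟨u, v, hs, rfl, rfl, rfl⟩) a b ha hb
      | comp u v =>
        intro a b ha hb
        exact (h2 _ _ _ ((mem1 hn _ _ _).2 ⟨u, v, hs, rfl, rfl, rfl⟩) a b ha hb).1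
      | conv u =>
        intro a b ha hb
        exact h3 _ _ ((mem2 hn _ _).2 ⟨u, hs, rfl, rfl⟩) a b ha hb
    · exact (h2 _ _ _ ((mem1 hn _ _ _).2 ⟨u, v, hs, rfl, rfl, rfl⟩) a b ha hb).2 h hw
    · obtain ⟨g, hg, _, hex⟩ := HG_exists J (n : A.C)
      obtain ⟨v, hv⟩ := hex (n : A.C) le_rfl
      have e := (HG_val hg (i := n) le_rfl v).1 hv
      rw [← e]
      exact h6 _ ((mem3 hn _).2 rfl) g v hg hv (by rw [e]; exact hy)
  · rintro ⟨⟨h4, h1, h2, h5⟩, h6⟩
    refine ⟨?_, ?_, ?_, h4, h5, ?_⟩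
    · intro k u v hm a b ha hb
      obtain ⟨u0, v0, hs, rfl, rfl, rfl⟩ := (mem0 hn _ _ _).1 hm
      exact h1 _ hs a b ha hb
    · intro k u v hm a b ha hb
      obtain ⟨u0, v0, hs, rfl, rfl, rfl⟩ := (mem1 hn _ _ _).1 hm
      exact ⟨fun c hc hu hv => h1 _ hs a b ha hb c hc hu hv,
        fun h hw => h2 u0 v0 hs a b ha hb hw h⟩
    · intro k u hm a b ha hb
      obtain ⟨u0, hs, rfl, rfl⟩ := (mem2 hn _ _).1 hm
      exact h1 _ hs a b ha hb
    · intro k hm g v hg hv hy
      rw [(mem3 hn _).1 hm]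
      have e := (HG_val hg (i := n) le_rfl v).1 hv
      rw [e] at hy ⊢
      exact h6 hy

end Pool.Agent.Work.MP_de7025_lc.F
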