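import Pool.Agent.Work.MP_de7025_lc.F.Tab0
import Pool.Agent.Work.MP_de7025_lc.F.E2

set_option autoImplicit false

/-!
# F/T6 (M): `Mem` and `TblX` as first-order formulas

PROOF. An inductive class of uniformly definable families of predicates with closure lemmas: `UT m f` says that `f` is the value
of one term with variables `< m` in all models, `UD m P` says that `P` is given by one formula with free variables `< m`.
-/

namespace Pool.Agent.Work.MP_de7025_lc.F

/-- families of elements given by one term -/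
private def UT (m : ℕ) (f : ∀ (A : ArStr.{0}) [IsE A], Env A → A.C) : Prop :=
  ∃ t : AT, t.bd m ∧ ∀ (A : ArStr.{0}) [IsE A] (e : Env A), t.val A e = f A e

/-- families of predicates given by one formula -/
private def UD (m : ℕ) (P : ∀ (A : ArStr.{0}) [IsE A], Env A → Prop) : Prop :=
  ∃ φ : AF, φ.bd m ∧ ∀ (A : ArStr.{0}) [IsE A] (e : Env A), φ.Holds A e ↔ P A e

private theorem UT.var {m : ℕ} (i : ℕ) (h : i < m) : UT m (fun A _ e => e i) :=
  ⟨.var i, h, fun _ _ _ => rfl⟩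

private theorem UT.zero {m : ℕ} : UT m (fun A _ _ => (0 : A.C)) :=
  ⟨.zero, trivial, fun _ _ _ => rfl⟩

private theorem UT.one {m : ℕ} : UT m (fun A _ _ => (1 : A.C)) :=
  ⟨.succ .zero, trivial, fun _ _ _ => rfl⟩

section terms

variable {m : ℕ} {f g h : ∀ (A : ArStr.{0}) [IsE A], Env A → A.C}

private theorem UT.add (hf : UT m f) (hg : UT m g) : UT m (fun A _ e => f A e + g A e) := by
  obtain ⟨t, ht, h1⟩ := hf
  obtain ⟨s, hs, h2⟩ := hg
  exact ⟨.add t s, ⟨ht, hs⟩, fun A _ e => congrArg₂ A.add (h1 A e) (h2 A e)⟩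

private theorem UT.mul (hf : UT m f) (hg : UT m g) : UT m (fun A _ e => f A e * g A e) := by
  obtain ⟨t, ht, h1⟩ := hf
  obtain ⟨s, hs, h2⟩ := hg
  exact ⟨.mul t s, ⟨ht, hs⟩, fun A _ e => congrArg₂ A.mul (h1 A e) (h2 A e)⟩

private theorem UT.ex (hf : UT m f) : UT m (fun A _ e => ex (f A e)) := by
  obtain ⟨t, ht, h1⟩ := hf
  exact ⟨.exp t, ht, fun A _ e => congrArg A.exp (h1 A e)⟩

private theorem UT.nat (n : ℕ) : UT m (fun A _ _ => (n : A.C)) := by
  induction n with
  | zero =>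
    obtain ⟨t, ht, h1⟩ := UT.zero (m := m)
    exact ⟨t, ht, fun A _ e => (h1 A e).trans Nat.cast_zero.symm⟩
  | succ n ih =>
    obtain ⟨t, ht, h1⟩ := UT.add ih UT.one
    exact ⟨t, ht, fun A _ e => (h1 A e).trans (Nat.cast_succ n).symm⟩

private theorem UT.two : UT m (fun A _ _ => (2 : A.C)) := by
  obtain ⟨t, ht, h1⟩ := UT.nat (m := m) 2
  exact ⟨t, ht, fun A _ e => (h1 A e).trans (by norm_num)⟩

private theorem UT.three : UT m (fun A _ _ => (3 : A.C)) := by
  obtain ⟨t, ht, h1⟩ := UT.nat (m := m) 3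
  exact ⟨t, ht, fun A _ e => (h1 A e).trans (by norm_num)⟩

private theorem UT.pr (hf : UT m f) (hg : UT m g) : UT m (fun A _ e => pr (f A e) (g A e)) :=
  UT.add (UT.mul (UT.add hf hg) (UT.add hf hg)) hg

private theorem UT.W (hf : UT m f) (hg : UT m g) (hh : UT m h) :
    UT m (fun A _ e => W (f A e) (g A e) (h A e)) :=
  UT.add UT.one (UT.pr hf (UT.pr hg hh))

/-- lifting of terms -/
private def lft : AT → AT
  | .var i => .var (i + 1)
  | .zero => .zero
  | .succ t => .succ (lft t)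
  | .add t s => .add (lft t) (lft s)
  | .mul t s => .mul (lft t) (lft s)
  | .exp t => .exp (lft t)

private theorem lft_val (t : AT) (A : ArStr.{0}) (e : Env A) :
    (lft t).val A e = t.val A (fun i => e (i + 1)) := by
  induction t with
  | var i => rfl
  | zero => rfl
  | succ t ih => simp only [lft, AT.val, ih]
  | add t s ih1 ih2 => simp only [lft, AT.val, ih1, ih2]
  | mul t s ih1 ih2 => simp only [lft, AT.val, ih1, ih2]
  | exp t ih => simp only [lft, AT.val, ih]

private theorem lft_bd (t : AT) (n : ℕ) (ht : t.bd n) : (lft t).bd (n + 1) := by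
  induction t with
  | var i => exact Nat.succ_lt_succ ht
  | zero => trivial
  | succ t ih => exact ih ht
  | add t s ih1 ih2 => exact ⟨ih1 ht.1, ih2 ht.2⟩
  | mul t s ih1 ih2 => exact ⟨ih1 ht.1, ih2 ht.2⟩
  | exp t ih => exact ih ht

private theorem UT.lift (hf : UT m f) : UT (m + 1) (fun A _ e => f A (fun i => e (i + 1))) := by
  obtain ⟨t, ht, h1⟩ := hf
  exact ⟨lft t, lft_bd t m ht, fun A _ e => (lft_val t A e).trans (h1 A _)⟩

private theorem UD.eq (hf : UT m f) (hg : UT m g) : UD m (fun A _ e => f A e = g A e) := by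
  obtain ⟨t, ht, h1⟩ := hf
  obtain ⟨s, hs, h2⟩ := hg
  refine ⟨.eq t s, ⟨ht, hs⟩, fun A _ e => ?_⟩
  change t.val A e = s.val A e ↔ f A e = g A e
  rw [h1, h2]

private theorem UD.le (hf : UT m f) (hg : UT m g) : UD m (fun A _ e => f A e ≤ g A e) := by
  obtain ⟨t, ht, h1⟩ := hf
  obtain ⟨s, hs, h2⟩ := hg
  refine ⟨.le t s, ⟨ht, hs⟩, fun A _ e => ?_⟩
  change t.val A e ≤ s.val A e ↔ f A e ≤ g A e
  rw [h1, h2]

end terms

section forms

variable {m : ℕ} {P Q : ∀ (A : ArStr.{0}) [IsE A], Env A → Prop}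

private theorem UD.congr (h : ∀ (A : ArStr.{0}) [IsE A] (e : Env A), P A e ↔ Q A e) (hP : UD m P) :
    UD m Q := by
  obtain ⟨φ, hφ, h1⟩ := hP
  exact ⟨φ, hφ, fun A _ e => (h1 A e).trans (h A e)⟩

private theorem UD.not (hP : UD m P) : UD m (fun A _ e => ¬ P A e) := by
  obtain ⟨φ, hφ, h1⟩ := hP
  exact ⟨.neg φ, hφ, fun A _ e => not_congr (h1 A e)⟩

private theorem UD.and (hP : UD m P) (hQ : UD m Q) : UD m (fun A _ e => P A e ∧ Q A e) := by
  obtain ⟨φ, hφ, h1⟩ := hP
  obtain ⟨ψ, hψ, h2⟩ := hQ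
  exact ⟨.and φ ψ, ⟨hφ, hψ⟩, fun A _ e => and_congr (h1 A e) (h2 A e)⟩

private theorem UD.imp (hP : UD m P) (hQ : UD m Q) : UD m (fun A _ e => P A e → Q A e) :=
  UD.congr (fun A _ e => by simp only [not_and, not_not]) (UD.not (UD.and hP (UD.not hQ)))

private theorem UD.or (hP : UD m P) (hQ : UD m Q) : UD m (fun A _ e => P A e ∨ Q A e) :=
  UD.congr (fun A _ e => by rw [← not_or, not_not]) (UD.not (UD.and (UD.not hP) (UD.not hQ)))

private theorem UD.iff (hP : UD m P) (hQ : UD m Q) : UD m (fun A _ e => P A e ↔ Q A e) :=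
  UD.congr (fun A _ e => (iff_iff_implies_and_implies).symm) (UD.and (UD.imp hP hQ) (UD.imp hQ hP))

private theorem UD.tru : UD m (fun _ _ _ => True) :=
  UD.congr (fun A _ e => by simp) (UD.eq UT.zero UT.zero)

private theorem UD.pimp (p : Prop) (h : p → UD m P) : UD m (fun A _ e => p → P A e) := by
  by_cases hp : p
  · exact UD.congr (fun A _ e => by simp [hp]) (h hp)
  · exact UD.congr (fun A _ e => by simp [hp]) UD.tru

private theorem UD.all {P : ∀ (A : ArStr.{0}) [IsE A], A.C → Env A → Prop}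
    (h : UD (m + 1) (fun A _ e => P A (e 0) (fun i => e (i + 1)))) :
    UD m (fun A _ e => ∀ x, P A x e) := by
  obtain ⟨φ, hφ, h1⟩ := h
  refine ⟨.all φ, hφ, fun A _ e => ?_⟩
  exact forall_congr' fun x => h1 A (consE x e)

private theorem UD.exi {P : ∀ (A : ArStr.{0}) [IsE A], A.C → Env A → Prop}
    (h : UD (m + 1) (fun A _ e => P A (e 0) (fun i => e (i + 1)))) :
    UD m (fun A _ e => ∃ x, P A x e) :=
  UD.congr (fun A _ e => by simp only [not_forall, not_not])
    (UD.not (UD.all (P := fun A _ x e => ¬ P A x e) (UD.not h)))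

private theorem UD.forall_mem {ι : Type} (l : List ι)
    {P : ι → ∀ (A : ArStr.{0}) [IsE A], Env A → Prop} (h : ∀ x ∈ l, UD m (P x)) :
    UD m (fun A _ e => ∀ x ∈ l, P x A e) := by
  induction l with
  | nil => exact UD.congr (fun A _ e => by simp) UD.tru
  | cons a l ih =>
    refine UD.congr (fun A _ e => ?_) (UD.and (h a List.mem_cons_self)
      (ih fun x hx => h x (List.mem_cons_of_mem _ hx)))
    simp only [List.forall_mem_cons]

private theorem UD.forall_fin {n : ℕ} {P : Fin n → ∀ (A : ArStr.{0}) [IsE A], Env A → Prop}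
    (h : ∀ i, UD m (P i)) : UD m (fun A _ e => ∀ i, P i A e) :=
  UD.congr (fun A _ e => by simp) (UD.forall_mem (List.finRange n) (fun i _ => h i))

private theorem UD.exi_fin (n : ℕ) : ∀ {m : ℕ}
    {P : ∀ (A : ArStr.{0}) [IsE A], (Fin n → A.C) → Env A → Prop}
    (_ : UD (m + n) (fun A _ e => P A (fun i => e i.val) (fun i => e (i + n)))),
    UD m (fun A _ e => ∃ v, P A v e) := by
  induction n with
  | zero =>
    intro m P h
    refine UD.congr (fun A _ e => ?_) h
    constructor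
    · intro h1
      exact ⟨_, h1⟩
    · rintro ⟨v, h1⟩
      have e1 : v = fun i : Fin 0 => e i.val := by
        funext i
        exact i.elim0
      rw [← e1]
      exact h1
  | succ n ih =>
    intro m P h
    have h2 : UD m (fun A _ e => ∃ x, ∃ v : Fin n → A.C, P A (Fin.snoc v x) e) := by
      refine UD.exi (P := fun A _ x e => ∃ v : Fin n → A.C, P A (Fin.snoc v x) e) ?_
      refine ih (m := m + 1) (P := fun A _ v e => P A (Fin.snoc v (e 0)) (fun i => e (i + 1))) ?_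
      have e1 : m + 1 + n = m + (n + 1) := by omega
      rw [e1]
      refine UD.congr (fun A _ e => ?_) h
      have e2 : (fun i : Fin (n + 1) => e i.val) =
          (Fin.snoc (fun i : Fin n => e i.val) (e (0 + n)) : Fin (n + 1) → A.C) := by
        funext i
        refine Fin.lastCases ?_ (fun j => ?_) i
        · simp
        · simp
      have e3 : (fun i => e (i + (n + 1))) = fun i => e (i + 1 + n) := by
        funext i
        congr 1
        omega
      rw [e2, e3]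
    refine UD.congr (fun A _ e => ?_) h2
    constructor
    · rintro ⟨x, v, h3⟩
      exact ⟨_, h3⟩
    · rintro ⟨v, h3⟩
      refine ⟨v (Fin.last n), fun i => v i.castSucc, ?_⟩
      have e4 : (Fin.snoc (fun i : Fin n => v i.castSucc) (v (Fin.last n)) : Fin (n + 1) → A.C) = v := by
        funext i
        refine Fin.lastCases ?_ (fun j => ?_) i
        · simp
        · simp
      rw [e4]
      exact h3

end forms

section preds

variable {m : ℕ} {f g h k : ∀ (A : ArStr.{0}) [IsE A], Env A → A.C}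

private theorem UD.lt (hf : UT m f) (hg : UT m g) : UD m (fun A _ e => f A e < g A e) :=
  UD.congr (fun A _ e => not_le) (UD.not (UD.le hg hf))

private theorem UD.mem (hf : UT m f) (hg : UT m g) : UD m (fun A _ e => Mem (f A e) (g A e)) := by
  unfold Mem
  refine UD.exi (P := fun A _ q e => ∃ r, g A e = q * F.ex (f A e + 1) + F.ex (f A e) + r ∧
    r < F.ex (f A e)) ?_
  refine UD.exi (P := fun A _ r e => g A (fun i => e (i + 1)) = e 0 *
    F.ex (f A (fun i => e (i + 1)) + 1) + F.ex (f A (fun i => e (i + 1))) + r ∧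
    r < F.ex (f A (fun i => e (i + 1)))) ?_
  have hf' := UT.lift (UT.lift hf)
  have hg' := UT.lift (UT.lift hg)
  exact UD.and (UD.eq hg' (UT.add (UT.add (UT.mul (UT.var 1 (by omega))
    (UT.ex (UT.add hf' UT.one))) (UT.ex hf')) (UT.var 0 (by omega))))
    (UD.lt (UT.var 0 (by omega)) (UT.ex hf'))

private theorem UD.TT (hf : UT m f) (hg : UT m g) (hh : UT m h) (hk : UT m k) :
    UD m (fun A _ e => TT (f A e) (g A e) (h A e) (k A e)) :=
  UD.mem (UT.pr hg (UT.pr hh hk)) hf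

private theorem UD.sg (s : Bool) (r : RT) (hf : UT m f) (hg : UT m g) (hh : UT m h) :
    UD m (fun A _ e => sg (F.TT (f A e)) s r (g A e) (h A e)) := by
  cases s with
  | true => exact UD.TT hf (UT.nat _) hg hh
  | false => exact UD.not (UD.TT hf (UT.nat _) hg hh)

private theorem UD.HG (J : RInt) (hf : UT m f) (hg : UT m g) :
    UD m (fun A _ e => HG J (f A e) (g A e)) := by
  have h1 : UD m (fun A _ e => (∀ i v v', Mem (pr i v) (f A e) → Mem (pr i v') (f A e) → v = v') ∧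
      Mem (pr 0 (W ((tZ J).code : A.C) 0 0)) (f A e) ∧
      ∀ i v, i < g A e → Mem (pr i v) (f A e) →
        Mem (pr (i + 1) (W ((tS J).code : A.C) v v)) (f A e)) := by
    refine UD.and ?_ (UD.and ?_ ?_)
    · refine UD.all (P := fun A _ i e => ∀ v v', Mem (pr i v) (f A e) → Mem (pr i v') (f A e) →
        v = v') ?_
      refine UD.all (P := fun A _ v e => ∀ v', Mem (pr (e 0) v) (f A (fun i => e (i + 1))) →
        Mem (pr (e 0) v') (f A (fun i => e (i + 1))) → v = v') ?_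
      refine UD.all (P := fun A _ v' e => Mem (pr (e 1) (e 0)) (f A (fun i => e (i + 1 + 1))) →
        Mem (pr (e 1) v') (f A (fun i => e (i + 1 + 1))) → e 0 = v') ?_
      have hf' := UT.lift (UT.lift (UT.lift hf))
      exact UD.imp (UD.mem (UT.pr (UT.var 2 (by omega)) (UT.var 1 (by omega))) hf')
        (UD.imp (UD.mem (UT.pr (UT.var 2 (by omega)) (UT.var 0 (by omega))) hf')
          (UD.eq (UT.var 1 (by omega)) (UT.var 0 (by omega))))
    · exact UD.mem (UT.pr UT.zero (UT.W (UT.nat _) UT.zero UT.zero)) hf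
    · refine UD.all (P := fun A _ i e => ∀ v, i < g A e → Mem (pr i v) (f A e) →
        Mem (pr (i + 1) (W ((tS J).code : A.C) v v)) (f A e)) ?_
      refine UD.all (P := fun A _ v e => e 0 < g A (fun i => e (i + 1)) →
        Mem (pr (e 0) v) (f A (fun i => e (i + 1))) →
        Mem (pr (e 0 + 1) (W ((tS J).code : A.C) v v)) (f A (fun i => e (i + 1)))) ?_
      have hf' := UT.lift (UT.lift hf)
      have hg' := UT.lift (UT.lift hg)
      exact UD.imp (UD.lt (UT.var 1 (by omega)) hg') (UD.imp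
        (UD.mem (UT.pr (UT.var 1 (by omega)) (UT.var 0 (by omega))) hf')
        (UD.mem (UT.pr (UT.add (UT.var 1 (by omega)) UT.one)
          (UT.W (UT.nat _) (UT.var 0 (by omega)) (UT.var 0 (by omega)))) hf'))
  refine UD.congr (fun A _ e => ?_) h1
  exact ⟨fun h => ⟨h.1, h.2.1, h.2.2⟩, fun h => ⟨h.fn, h.zero, h.step⟩⟩

end preds

/-- membership is definable by one formula in all models of EFA -/
theorem exists_memF : ∃ φ : AF, φ.bd 2 ∧ ∀ (A : ArStr.{0}) [IsE A] (e : Env A),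
    φ.Holds A e ↔ Mem (e 0) (e 1) :=
  UD.mem (m := 2) (UT.var 0 (by omega)) (UT.var 1 (by omega))

/-- the variables: `e 0 = t`, `e 1 = y`, `e 2 = x` -/
private theorem tblX_ud (J : RInt) : UD 3 (fun A _ e => TblX J (e 2) (e 0) (e 1)) := by
  unfold TblX
  refine UD.and ?_ (UD.and ?_ (UD.and ?_ (UD.and ?_ (UD.and ?_ ?_))))
  · -- k u v a b
    refine UD.all (P := fun A _ k e => ∀ u v, Mem (pr 0 (pr k (pr u v))) (e 2) → ∀ a b,
      a < e 1 → b < e 1 → (TT (e 0) k a b ↔ ¬ (TT (e 0) u a b ∧ TT (e 0) v a b))) ?_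
    refine UD.all (P := fun A _ u e => ∀ v, Mem (pr 0 (pr (e 0) (pr u v))) (e 3) → ∀ a b,
      a < e 2 → b < e 2 → (TT (e 1) (e 0) a b ↔ ¬ (TT (e 1) u a b ∧ TT (e 1) v a b))) ?_
    refine UD.all (P := fun A _ v e => Mem (pr 0 (pr (e 1) (pr (e 0) v))) (e 4) → ∀ a b,
      a < e 3 → b < e 3 → (TT (e 2) (e 1) a b ↔ ¬ (TT (e 2) (e 0) a b ∧ TT (e 2) v a b))) ?_
    refine UD.imp (UD.mem (UT.pr UT.zero (UT.pr (UT.var 2 (by omega)) (UT.pr (UT.var 1 (by omega))
      (UT.var 0 (by omega))))) (UT.var 5 (by omega))) ?_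
    refine UD.all (P := fun A _ a e => ∀ b,
      a < e 4 → b < e 4 → (TT (e 3) (e 2) a b ↔ ¬ (TT (e 3) (e 1) a b ∧ TT (e 3) (e 0) a b))) ?_
    refine UD.all (P := fun A _ b e =>
      e 0 < e 5 → b < e 5 → (TT (e 4) (e 3) (e 0) b ↔
        ¬ (TT (e 4) (e 2) (e 0) b ∧ TT (e 4) (e 1) (e 0) b))) ?_
    have v0 : UT 8 (fun A _ e => e 0) := UT.var 0 (by omega)
    have v1 : UT 8 (fun A _ e => e 1) := UT.var 1 (by omega)
    have v2 : UT 8 (fun A _ e => e 2) := UT.var 2 (by omega)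
    have v3 : UT 8 (fun A _ e => e 3) := UT.var 3 (by omega)
    have v4 : UT 8 (fun A _ e => e 4) := UT.var 4 (by omega)
    have v5 : UT 8 (fun A _ e => e 5) := UT.var 5 (by omega)
    have v6 : UT 8 (fun A _ e => e 6) := UT.var 6 (by omega)
    exact UD.imp (UD.lt v1 v6) (UD.imp (UD.lt v0 v6) (UD.iff (UD.TT v5 v4 v1 v0)
      (UD.not (UD.and (UD.TT v5 v3 v1 v0) (UD.TT v5 v2 v1 v0)))))
  · -- k u v a b c
    refine UD.all (P := fun A _ k e => ∀ u v, Mem (pr 1 (pr k (pr u v))) (e 2) → ∀ a b,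
      a < e 1 → b < e 1 → (∀ c, c < e 1 → TT (e 0) u a c → TT (e 0) v c b → TT (e 0) k a b) ∧
      (TT (e 0) k a b → W k a b < e 1 → TT (e 0) u a (W k a b) ∧ TT (e 0) v (W k a b) b)) ?_
    refine UD.all (P := fun A _ u e => ∀ v, Mem (pr 1 (pr (e 0) (pr u v))) (e 3) → ∀ a b,
      a < e 2 → b < e 2 → (∀ c, c < e 2 → TT (e 1) u a c → TT (e 1) v c b → TT (e 1) (e 0) a b) ∧
      (TT (e 1) (e 0) a b → W (e 0) a b < e 2 → TT (e 1) u a (W (e 0) a b) ∧
        TT (e 1) v (W (e 0) a b) b)) ?_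
    refine UD.all (P := fun A _ v e => Mem (pr 1 (pr (e 1) (pr (e 0) v))) (e 4) → ∀ a b,
      a < e 3 → b < e 3 →
      (∀ c, c < e 3 → TT (e 2) (e 0) a c → TT (e 2) v c b → TT (e 2) (e 1) a b) ∧
      (TT (e 2) (e 1) a b → W (e 1) a b < e 3 → TT (e 2) (e 0) a (W (e 1) a b) ∧
        TT (e 2) v (W (e 1) a b) b)) ?_
    refine UD.imp (UD.mem (UT.pr UT.one (UT.pr (UT.var 2 (by omega)) (UT.pr (UT.var 1 (by omega))
      (UT.var 0 (by omega))))) (UT.var 5 (by omega))) ?_
    refine UD.all (P := fun A _ a e => ∀ b, a < e 4 → b < e 4 →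
      (∀ c, c < e 4 → TT (e 3) (e 1) a c → TT (e 3) (e 0) c b → TT (e 3) (e 2) a b) ∧
      (TT (e 3) (e 2) a b → W (e 2) a b < e 4 → TT (e 3) (e 1) a (W (e 2) a b) ∧
        TT (e 3) (e 0) (W (e 2) a b) b)) ?_
    refine UD.all (P := fun A _ b e => e 0 < e 5 → b < e 5 →
      (∀ c, c < e 5 → TT (e 4) (e 2) (e 0) c → TT (e 4) (e 1) c b → TT (e 4) (e 3) (e 0) b) ∧
      (TT (e 4) (e 3) (e 0) b → W (e 3) (e 0) b < e 5 → TT (e 4) (e 2) (e 0) (W (e 3) (e 0) b) ∧
        TT (e 4) (e 1) (W (e 3) (e 0) b) b)) ?_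
    have v0 : UT 8 (fun A _ e => e 0) := UT.var 0 (by omega)
    have v1 : UT 8 (fun A _ e => e 1) := UT.var 1 (by omega)
    have v2 : UT 8 (fun A _ e => e 2) := UT.var 2 (by omega)
    have v3 : UT 8 (fun A _ e => e 3) := UT.var 3 (by omega)
    have v4 : UT 8 (fun A _ e => e 4) := UT.var 4 (by omega)
    have v5 : UT 8 (fun A _ e => e 5) := UT.var 5 (by omega)
    have v6 : UT 8 (fun A _ e => e 6) := UT.var 6 (by omega)
    refine UD.imp (UD.lt v1 v6) (UD.imp (UD.lt v0 v6) (UD.and ?_ ?_))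
    · refine UD.all (P := fun A _ c e => c < e 6 → TT (e 5) (e 3) (e 1) c →
        TT (e 5) (e 2) c (e 0) → TT (e 5) (e 4) (e 1) (e 0)) ?_
      exact UD.imp (UD.lt (UT.var 0 (by omega)) (UT.var 7 (by omega)))
        (UD.imp (UD.TT (UT.var 6 (by omega)) (UT.var 4 (by omega)) (UT.var 2 (by omega))
          (UT.var 0 (by omega)))
        (UD.imp (UD.TT (UT.var 6 (by omega)) (UT.var 3 (by omega)) (UT.var 0 (by omega))
          (UT.var 1 (by omega)))
        (UD.TT (UT.var 6 (by omega)) (UT.var 5 (by omega)) (UT.var 2 (by omega))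
          (UT.var 1 (by omega)))))
    · exact UD.imp (UD.TT v5 v4 v1 v0) (UD.imp (UD.lt (UT.W v4 v1 v0) v6)
        (UD.and (UD.TT v5 v3 v1 (UT.W v4 v1 v0)) (UD.TT v5 v2 (UT.W v4 v1 v0) v0)))
  · -- k u a b
    refine UD.all (P := fun A _ k e => ∀ u, Mem (pr 2 (pr k u)) (e 2) → ∀ a b,
      a < e 1 → b < e 1 → (TT (e 0) k a b ↔ TT (e 0) u b a)) ?_
    refine UD.all (P := fun A _ u e => Mem (pr 2 (pr (e 0) u)) (e 3) → ∀ a b,
      a < e 2 → b < e 2 → (TT (e 1) (e 0) a b ↔ TT (e 1) u b a)) ?_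
    refine UD.imp (UD.mem (UT.pr UT.two (UT.pr (UT.var 1 (by omega)) (UT.var 0 (by omega))))
      (UT.var 4 (by omega))) ?_
    refine UD.all (P := fun A _ a e => ∀ b,
      a < e 3 → b < e 3 → (TT (e 2) (e 1) a b ↔ TT (e 2) (e 0) b a)) ?_
    refine UD.all (P := fun A _ b e =>
      e 0 < e 4 → b < e 4 → (TT (e 3) (e 2) (e 0) b ↔ TT (e 3) (e 1) b (e 0))) ?_
    exact UD.imp (UD.lt (UT.var 1 (by omega)) (UT.var 5 (by omega)))
      (UD.imp (UD.lt (UT.var 0 (by omega)) (UT.var 5 (by omega)))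
        (UD.iff (UD.TT (UT.var 4 (by omega)) (UT.var 3 (by omega)) (UT.var 1 (by omega))
          (UT.var 0 (by omega))) (UD.TT (UT.var 4 (by omega)) (UT.var 2 (by omega))
          (UT.var 0 (by omega)) (UT.var 1 (by omega)))))
  · refine UD.forall_mem axCl (P := fun cl A _ e => ¬ Viol (sg (TT (e 0))) (fun a => a < e 1) cl)
      fun cl _ => UD.not ?_
    unfold Viol
    refine UD.exi_fin 9 (P := fun A _ v e => (∀ i, v i < e 1) ∧
      ∀ f ∈ cl, sg (TT (e 0)) f.s f.t (v f.i) (v f.j)) ?_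
    refine UD.and (UD.forall_fin fun i => UD.lt (UT.var _ (by omega)) (UT.var _ (by omega))) ?_
    exact UD.forall_mem cl (P := fun f A _ e => sg (TT (e (0 + 9))) f.s f.t (e f.i) (e f.j))
      fun f _ => UD.sg _ _ (UT.var _ (by omega)) (UT.var _ (by omega)) (UT.var _ (by omega))
  · refine UD.forall_mem (Reqs []) (P := fun k A _ e => ∀ a b, a < e 1 → b < e 1 →
      W (k : A.C) a b < e 1 → Ans [] (sg (TT (e 0))) k a b (W (k : A.C) a b)) fun k _ => ?_
    refine UD.all (P := fun A _ a e => ∀ b, a < e 1 → b < e 1 →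
      W (k : A.C) a b < e 1 → Ans [] (sg (TT (e 0))) k a b (W (k : A.C) a b)) ?_
    refine UD.all (P := fun A _ b e => e 0 < e 2 → b < e 2 →
      W (k : A.C) (e 0) b < e 2 → Ans [] (sg (TT (e 1))) k (e 0) b (W (k : A.C) (e 0) b)) ?_
    have v0 : UT 5 (fun A _ e => e 0) := UT.var 0 (by omega)
    have v1 : UT 5 (fun A _ e => e 1) := UT.var 1 (by omega)
    have v2 : UT 5 (fun A _ e => e 2) := UT.var 2 (by omega)
    have v3 : UT 5 (fun A _ e => e 3) := UT.var 3 (by omega)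
    have vW : UT 5 (fun A _ e => W (k : A.C) (e 1) (e 0)) := UT.W (UT.nat _) v1 v0
    refine UD.imp (UD.lt v1 v3) (UD.imp (UD.lt v0 v3) (UD.imp (UD.lt vW v3) ?_))
    unfold Ans
    refine UD.and ?_ (UD.and ?_ (UD.and ?_ ?_))
    · exact UD.congr (fun A _ e => by simp) UD.tru
    · exact UD.forall_fin fun i => UD.pimp _ fun _ => UD.pimp _ fun _ => UD.sg _ _ v2 v1 vW
    · exact UD.pimp _ fun _ => UD.and (UD.sg _ _ v2 vW v1) (UD.sg _ _ v2 vW v0)
    · exact UD.pimp _ fun _ => UD.or (UD.sg _ _ v2 v1 v1) (UD.sg _ _ v2 vW v1)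
  · refine UD.all (P := fun A _ k e => Mem (pr 3 k) (e 2) → ∀ g v, HG J g (e 2) →
      Mem (pr (e 2) v) g → v < e 1 → TT (e 0) k v v) ?_
    refine UD.imp (UD.mem (UT.pr UT.three (UT.var 0 (by omega))) (UT.var 3 (by omega))) ?_
    refine UD.all (P := fun A _ g e => ∀ v, HG J g (e 3) →
      Mem (pr (e 3) v) g → v < e 2 → TT (e 1) (e 0) v v) ?_
    refine UD.all (P := fun A _ v e => HG J (e 0) (e 4) →
      Mem (pr (e 4) v) (e 0) → v < e 3 → TT (e 2) (e 1) v v) ?_
    exact UD.imp (UD.HG J (UT.var 1 (by omega)) (UT.var 5 (by omega)))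
      (UD.imp (UD.mem (UT.pr (UT.var 5 (by omega)) (UT.var 0 (by omega))) (UT.var 1 (by omega)))
      (UD.imp (UD.lt (UT.var 0 (by omega)) (UT.var 4 (by omega)))
        (UD.TT (UT.var 3 (by omega)) (UT.var 2 (by omega)) (UT.var 0 (by omega))
          (UT.var 0 (by omega)))))

/-- consistency of the list coded by variable `0` is definable by one formula in all models of EFA -/
theorem exists_consF (J : RInt) : ∃ φ : AF, φ.bd 1 ∧ ∀ (A : ArStr.{0}) [IsE A] (e : Env A),
    φ.Holds A e ↔ ¬ ∀ y : A.C, ∃ t : A.C, TblX J (e 0) t y := by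
  have h : UD 1 (fun A _ e => ¬ ∀ y : A.C, ∃ t : A.C, TblX J (e 0) t y) := by
    refine UD.not ?_
    refine UD.all (P := fun A _ y e => ∃ t : A.C, TblX J (e 0) t y) ?_
    exact UD.exi (P := fun A _ t e => TblX J (e 1) t (e 0)) (tblX_ud J)
  exact h

end Pool.Agent.Work.MP_de7025_lc.F
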