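import Pool.Agent.Work.MP_de7025_lc.F.TR
import Pool.Agent.Work.MP_de7025_lc.F.T6

set_option autoImplicit false

/-!
# F/T8 (S-M): relation terms for `Mem` and for the root

PROOF. `μ`: `comp (conv (atom 1)) (and (tr memF) (comp (atom 2) (atom 1)))`: `∃ c, P c a ∧ (tr memF) c b ∧ ∃ d, Q c d ∧ P d b`. Such a `c` codes an assignment `e` with `e 0 = x`, `e 1 = y` up to `2` (`pth 0`, `pth 1`); for given `a, b` there is one (`UAx.pair` twice: `d = (b, b)`, `c = (a, d)`).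
`e : ℕ → A.C` is any function with these values. Root: `comp (conv (atom 1)) (tr consF)`: `∃ c, P c a ∧ (tr consF) c b`; `c = (a, a)` exists and codes `e 0 = x` up to `1`.
-/

namespace Pool.Agent.Work.MP_de7025_lc.F

theorem exists_mu (J : RInt) : ∃ μ : RT, ∀ (K : UStr), UAx K → ∀ (A : ArStr.{0}) [IsE A]
    (Rep : K.C → A.C → Prop), DefU J K A Rep → ∀ (a b : K.C) (x y : A.C), Rep a x → Rep b y →
    (μ.eval K a b ↔ Mem x y) := by
  obtain ⟨φ, hφ, hM⟩ := exists_memF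
  obtain ⟨r, hr⟩ := exists_tr J φ
  refine ⟨.comp (.conv (.atom 1)) (.and r (.comp (.atom 2) (.atom 1))), ?_⟩
  intro K hK A _ Rep hJ a b x y ha hb
  have key : ∀ c d : K.C, K.R 1 c a → K.R 2 c d → K.R 1 d b →
      (r.eval K c b ↔ Mem x y) := by
    intro c d h1 h2 h3
    have h4 := hr K hK A Rep hJ 2 hφ (fun i => if i = 0 then x else y) c (by
      intro i hi
      have h5 : i = 0 ∨ i = 1 := by omega
      rcases h5 with rfl | rfl
      · exact ⟨a, h1, ha⟩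
      · exact ⟨b, ⟨d, h2, h3⟩, hb⟩) b
    rw [h4, hM]
    exact Iff.rfl
  constructor
  · rintro ⟨c, h1, h2⟩
    rw [eval_and] at h2
    obtain ⟨h2, d, h3, h4⟩ := h2
    exact (key c d h1 h3 h4).1 h2
  · intro h
    obtain ⟨d, hd1, -⟩ := hK.pair b b
    obtain ⟨c, hc1, hc2⟩ := hK.pair a d
    refine ⟨c, hc1, ?_⟩
    rw [eval_and]
    exact ⟨(key c d hc1 hc2 hd1).2 h, d, hc2, hd1⟩

theorem exists_root (J : RInt) : ∃ r : RT, ∀ (K : UStr), UAx K → ∀ (A : ArStr.{0}) [IsE A]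
    (Rep : K.C → A.C → Prop), DefU J K A Rep → ∀ (a : K.C) (x : A.C), Rep a x → ∀ b,
    (r.eval K a b ↔ ¬ ∀ y : A.C, ∃ t : A.C, TblX J x t y) := by
  obtain ⟨φ, hφ, hM⟩ := exists_consF J
  obtain ⟨r, hr⟩ := exists_tr J φ
  refine ⟨.comp (.conv (.atom 1)) r, ?_⟩
  intro K hK A _ Rep hJ a x ha b
  have key : ∀ c : K.C, K.R 1 c a →
      (r.eval K c b ↔ ¬ ∀ y : A.C, ∃ t : A.C, TblX J x t y) := by
    intro c h1
    have h4 := hr K hK A Rep hJ 1 hφ (fun _ => x) c (by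
      intro i hi
      have h5 : i = 0 := by omega
      subst h5
      exact ⟨a, h1, ha⟩) b
    rw [h4, hM]
  constructor
  · rintro ⟨c, h1, h2⟩
    exact (key c h1).1 h2
  · intro h
    obtain ⟨c, hc1, -⟩ := hK.pair a a
    exact ⟨c, hc1, (key c hc1).2 h⟩

end Pool.Agent.Work.MP_de7025_lc.F
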