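import Pool.Agent.Work.MP_de7025_lc.F.T3
import Pool.Agent.Work.MP_de7025_lc.F.T5
import Pool.Agent.Work.MP_de7025_lc.F.T2
import Pool.Agent.Work.MP_de7025_lc.F.T8
import Pool.Agent.Work.MP_de7025_lc.F.G5

set_option autoImplicit false

/-!
# F/F1 (M): a model in which the root holds gives tables of every standard length

PROOF. `henkin` gives a table `T` on `ℕ` and names `ν` in `K`. `num_hh`: `ν (hh J n)` represents `n`, so by `Hr` and `h` the root term holds there: `T r.code (hh J n) (hh J n)` (`r ∈ L`). The finite set of all `pr k (pr a b)` with `k = t.code`, `t ∈ L`, `a, b < m`, `T k a b` is coded by a natural number `c`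
(`exists_fin_code`); let `t = (c : A.C)`. For `k = t.code`, `a, b < m` numerals: `TT t k a b ↔ T k a b` (`cast_pr`, `mem_cast`, `pr_inj_nat`). By `tblX_iff` it remains `Tab L (TT t) (· < m)`: `tab_transfer` with the map `A.C → ℕ` which sends the numeral `i < m` to `i` (and everything else to `0`; `lt_cast`),
`H2 = True`, and `cast_W`.
-/

namespace Pool.Agent.Work.MP_de7025_lc.F

theorem fin_tab {J : RInt} {L : List RT} {r : RT} {n : ℕ} (hL : Built L)
    (hneed : ∀ x ∈ needL J, x ∈ L) (hr : r ∈ L) (hn : IsCode n L r)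
    (Hr : ∀ (K : UStr), UAx K → ∀ (A : ArStr.{0}) [IsE A] (Rep : K.C → A.C → Prop),
      DefU J K A Rep → ∀ (a : K.C) (x : A.C), Rep a x → ∀ b,
      (r.eval K a b ↔ ¬ ∀ y : A.C, ∃ t : A.C, TblX J x t y))
    {K : UStr} (hK : UAx K) {A : ArStr.{0}} [IsE A] {Rep : K.C → A.C → Prop}
    (hJ : DefU J K A Rep) (h : ¬ ∀ y : A.C, ∃ t : A.C, TblX J (n : A.C) t y) (m : ℕ) :
    ∃ t : A.C, TblX J (n : A.C) t (m : A.C) := by
  classical
  have hC : Closed L := hL.closed
  obtain ⟨T, ν, hT, hν⟩ := henkin hC K hK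
  have hz : tZ J ∈ L := hneed _ (by simp [needL])
  have hs : tS J ∈ L := hneed _ (by simp [needL])
  have hrep := num_hh hC hz hs hT hK ν hν hJ n
  have hroot : T r.code (hh J n) (hh J n) :=
    (hν r hr _ _).2 ((Hr K hK A Rep hJ _ _ hrep _).2 h)
  let F : Finset ℕ := ((L.toFinset ×ˢ (Finset.range m ×ˢ Finset.range m)).filter
    (fun q => T q.1.code q.2.1 q.2.2)).image (fun q => pr q.1.code (pr q.2.1 q.2.2))
  obtain ⟨c, hc⟩ := exists_fin_code F
  have hTT : ∀ t ∈ L, ∀ a b : ℕ, a < m → b < m →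
      (TT (c : A.C) (t.code : A.C) (a : A.C) (b : A.C) ↔ T t.code a b) := by
    intro t ht a b ha hb
    unfold TT
    rw [← cast_pr, ← cast_pr, mem_cast, hc]
    simp only [F, Finset.mem_image, Finset.mem_filter, Finset.mem_product, List.mem_toFinset,
      Finset.mem_range]
    constructor
    · rintro ⟨⟨t', a', b'⟩, ⟨⟨-, -, -⟩, h2⟩, e⟩
      obtain ⟨e1, e2⟩ := pr_inj_nat e
      obtain ⟨e2, e3⟩ := pr_inj_nat e2
      dsimp only at h2 e1 e2 e3
      rw [e1, e2, e3] at h2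
      exact h2
    · intro h2
      exact ⟨(t, a, b), ⟨⟨ht, ha, hb⟩, h2⟩, rfl⟩
  refine ⟨(c : A.C), (tblX_iff hC hn _ _).2 ⟨?_, ?_⟩⟩
  · let f : A.C → ℕ := fun x => if h : ∃ i : ℕ, i < m ∧ x = (i : A.C) then h.choose else 0
    have hf : ∀ i, i < m → f (i : A.C) = i := by
      intro i hi
      have hex : ∃ i' : ℕ, i' < m ∧ (i : A.C) = (i' : A.C) := ⟨i, hi, rfl⟩
      show (if h : ∃ i' : ℕ, i' < m ∧ (i : A.C) = (i' : A.C) then h.choose else 0) = i
      rw [dif_pos hex]
      exact (cast_inj'.1 hex.choose_spec.2).symm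
    refine tab_transfer hC f (H2 := fun _ => True) (T2 := T) (fun _ _ => trivial) ?_ ?_ hT
    · intro t ht a b ha hb
      obtain ⟨i, hi, rfl⟩ := lt_cast ha
      obtain ⟨j, hj, rfl⟩ := lt_cast hb
      rw [hf i hi, hf j hj]
      exact hTT t ht i j hi hj
    · intro k hk a b ha hb hW
      obtain ⟨i, hi, rfl⟩ := lt_cast ha
      obtain ⟨j, hj, rfl⟩ := lt_cast hb
      rw [← cast_W, cast_lt_cast] at hW
      rw [hf i hi, hf j hj, ← cast_W, hf _ hW]
      rfl
  · intro hlt
    rw [cast_lt_cast] at hlt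
    exact (hTT r hr _ _ hlt hlt).2 hroot

end Pool.Agent.Work.MP_de7025_lc.F
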