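import Pool.Agent.Work.MP_de7025_lc.F.G5

set_option autoImplicit false

/-!
# F/G7 (M-L): adding a term `nand u v` or `conv u`

Notation: `L' = L ++ [t]`. For a position `(c, p')` of `L'` let `res p'` be the set of the facts of `p'` about terms of `L` (codes `fc s r a b` with `r ∈ L`; `compr'`; a finite disjunction over `r ∈ L`). `Sup L c i → Sup L' c i` as `cmax L ≤ cmax L'`.
A fact of `L'` is a fact of `L` or `± t a b`; `t ∉ L` (`code_inj`). If the set `q` contains exactly facts of `L` and `q ∪ (the facts ± t a b of p')` is `q'`, then `OK L (Has q)` and the clauses of `t` give `OK L' (Has q')`.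
CAREFUL: a position of `L` may contain junk (codes `≤ cmax L` which are not codes of terms of `L`, possibly the code of `t`). So after every answer in `L` replace the new position `q` by `res q` (`win_sub`); `Ans L (Has q)` implies `Ans L (Has (res q))`
because the answers only speak about terms of `L` (`Built.closed`), and `res p' ⊆ res q`.

PROOF for `t = nand u v`. Claim, by induction on `l` (bounded quantifiers, fix `S`): if `c + l ≤ S`, `p'` is supported on `c` (`Sup L'`), `Win L c (res p') (2 * l)`, every `+ t a b` of `p'` comes with `- u a b` or `- v a b` in `p'` and every `- t a b` of `p'` comes with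
`+ u a b` and `+ v a b` in `p'`, then `Win L' c p' l`. Position: the clauses for `t` hold because `p'` contains no pair `± u a b`, `± v a b` (`OK L`). Step, request `k ∈ Reqs L'`: if `k ∈ Reqs L`: answer in `L` (one move), add the facts of `t`, and `Win.mono`.
If `k = t.code`: ask in `L` first `u.code` at `(a, b)`, then `v.code` at `(a, b)` (two moves, elements `c` and `c + 1`); let `q` be `res p'` together with the signs found for `u a b` and `v a b` (facts about elements `< c`); by `win_sub` `Win L (c + 1) q (2 * l)`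
(`q` is a subset of the last position); `p''` = `q`, the facts of `t` in `p'`, and the sign of `t a b`. (`Reqs L'` contains `t.code`, `Reqs L` and nothing else; `Ans L'` for `k ∈ Reqs L`: the part about `t` is void as `k ≠ t.code`.)
Start: `p' = 0`. `t = conv u`: the same with one question `u.code` at `(b, a)` and `Win L c (res p') (2 * l)` or `l`.
-/

namespace Pool.Agent.Work.MP_de7025_lc.F

variable {A : ArStr.{0}} [IsE A]

/-! ### facts about terms of a list -/

private theorem fc_inj {s s' : Bool} {t t' : RT} {a b a' b' : A.C}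
    (h : fc s t a b = fc s' t' a' b') : s = s' ∧ t = t' ∧ a = a' ∧ b = b' := by
  obtain ⟨h1, h2⟩ := pr_inj h
  obtain ⟨h3, h4⟩ := pr_inj h2
  obtain ⟨h5, h6⟩ := pr_inj h4
  refine ⟨?_, code_inj (Nat.cast_injective h3), h5, h6⟩
  cases s <;> cases s' <;> simp at h1 ⊢

/-- `i` codes a fact about a term of `L` -/
private def IsL (L : List RT) (i : A.C) : Prop :=
  ∃ r ∈ L, ∃ s : Bool, ∃ a, a ≤ i ∧ ∃ b, b ≤ i ∧ i = fc s r a b

private theorem isL_fc {L : List RT} {r : RT} (hr : r ∈ L) (s : Bool) (a b : A.C) :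
    IsL L (fc s r a b) := by
  refine ⟨r, hr, s, a, ?_, b, ?_, rfl⟩
  · exact ((le_pr_left a b).trans (le_pr_right _ _)).trans (le_pr_right _ _)
  · exact ((le_pr_right a b).trans (le_pr_right _ _)).trans (le_pr_right _ _)

private theorem mem_of_isL {L : List RT} {r : RT} {s : Bool} {a b : A.C}
    (h : IsL L (fc s r a b)) : r ∈ L := by
  obtain ⟨r', hr', s', a', -, b', -, e⟩ := h
  rw [(fc_inj e).2.1]
  exact hr'

private theorem IsL.dfn {Γ : Type} [Ctx A Γ] (L : List RT) {f : Γ → A.C} (hf : DfnM A f) :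
    DfnM A (fun x => IsL L (f x)) := by
  refine dfn_bex_list L (P := fun r x => ∃ s : Bool, ∃ a, a ≤ f x ∧ ∃ b, b ≤ f x ∧
    f x = fc s r a b) fun r _ => ?_
  have h : ∀ s : Bool, DfnM A (fun x => ∃ a, a ≤ f x ∧ ∃ b, b ≤ f x ∧ f x = fc s r a b) :=
    fun s => DfnM.bexLe (P := fun x a => ∃ b, b ≤ f x ∧ f x = fc s r a b) hf
      (DfnM.bexLe (f := fun y : Γ × A.C => f y.1) (P := fun y b => f y.1 = fc s r y.2 b)
        (by fun_prop) (by fun_prop))
  have e : (fun x => ∃ s : Bool, ∃ a, a ≤ f x ∧ ∃ b, b ≤ f x ∧ f x = fc s r a b) =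
      fun x => (∃ a, a ≤ f x ∧ ∃ b, b ≤ f x ∧ f x = fc false r a b) ∨
        ∃ a, a ≤ f x ∧ ∃ b, b ≤ f x ∧ f x = fc true r a b := by
    funext x
    exact propext Bool.exists_bool
  rw [e]
  exact DfnM.or (h false) (h true)

private theorem code_le {L : List RT} {r : RT} (hr : r ∈ L) : r.code ≤ cmax L :=
  List.single_le_sum (fun _ _ => Nat.zero_le _) _ (List.mem_map_of_mem hr)

private theorem sup_fc {L : List RT} {r : RT} (hr : r ∈ L) (s : Bool) {a b c : A.C} (ha : a < c)
    (hb : b < c) : Sup L c (fc s r a b) := by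
  refine ⟨if s = true then 1 else 0, ?_, (r.code : A.C), Nat.cast_le.2 (code_le hr), a, ha, b, hb,
    rfl⟩
  split
  · exact le_rfl
  · exact zero_le

private theorem sup_lt_of_fc {L : List RT} {r : RT} {s : Bool} {a b c : A.C}
    (h : Sup L c (fc s r a b)) : a < c ∧ b < c := by
  obtain ⟨s', -, k, -, a', ha, b', hb, e⟩ := h
  obtain ⟨-, h2⟩ := pr_inj e
  obtain ⟨-, h4⟩ := pr_inj h2
  obtain ⟨h5, h6⟩ := pr_inj h4
  rw [h5, h6]
  exact ⟨ha, hb⟩

private theorem sup_mono {L L' : List RT} (hL : cmax L ≤ cmax L') {c c' i : A.C} (hc : c ≤ c')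
    (h : Sup L c i) : Sup L' c' i := by
  obtain ⟨s, hs, k, hk, a, ha, b, hb, e⟩ := h
  exact ⟨s, hs, k, hk.trans (Nat.cast_le.2 hL), a, lt_of_lt_of_le ha hc, b,
    lt_of_lt_of_le hb hc, e⟩

private theorem cmax_le (L : List RT) (t : RT) : cmax L ≤ cmax (L ++ [t]) := by
  unfold cmax
  rw [List.map_append, List.sum_append]
  exact Nat.le_add_right _ _

private theorem exists_res (L : List RT) (p : A.C) :
    ∃ q, ∀ i, Mem i q ↔ Mem i p ∧ IsL L i := by
  obtain ⟨q, -, hq⟩ := compr' (P := fun i => Mem i p ∧ IsL L i)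
    (DfnM.and (by fun_prop) (IsL.dfn L (by fun_prop))) p (fun i hi => lt_of_mem hi.1)
  exact ⟨q, hq⟩

private theorem ax_atom : ∀ cl ∈ axCl, ∀ f ∈ cl, ∃ i : Fin 7, f.t = RT.atom i := by
  decide

/-- clauses of `L` for two sets with the same facts about terms of `L` -/
private theorem ok_of {L : List RT} (hL : Built L) {D D' : Bool → RT → A.C → A.C → Prop}
    {H : A.C → Prop} (h : ∀ s r a b, r ∈ L → D' s r a b → D s r a b) (hD : OK L D H) :
    OK L D' H := by
  intro cl hcl hv
  refine hD cl hcl ?_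
  obtain ⟨v, hv1, hv2⟩ := hv
  refine ⟨v, hv1, fun f hf => h _ _ _ _ ?_ (hv2 f hf)⟩
  rcases List.mem_append.1 hcl with h1 | h1
  · obtain ⟨i, hi⟩ := ax_atom cl h1 f hf
    rw [hi]
    exact hL.closed.atoms i
  · obtain ⟨r, hr, hr'⟩ := List.mem_flatMap.1 h1
    exact hL.cl r hr cl hr' f hf

/-! ### the general step -/

/-- the hypotheses of the induction -/
private def Hyp (L : List RT) (t : RT)
    (G : (Bool → RT → A.C → A.C → Prop) → Bool → A.C → A.C → Prop) (c p q l : A.C) : Prop :=
  (∀ i, Mem i p → Sup (L ++ [t]) c i) ∧ (∀ i, Mem i q → Mem i p ∧ IsL L i) ∧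
    (∀ i, Mem i p → (IsL L i → Mem i q)) ∧ Win L c q (2 * l) ∧
    ∀ a, a < c → ∀ b, b < c → (Has p true t a b → G (Has p) true a b) ∧
      (Has p false t a b → G (Has p) false a b)

private theorem Hyp.dfn {Γ : Type} [Ctx A Γ] (L : List RT) (t : RT)
    {G : (Bool → RT → A.C → A.C → Prop) → Bool → A.C → A.C → Prop}
    (hdf : ∀ s, DfnM A (fun x : (A.C × A.C) × A.C => G (Has x.1.1) s x.1.2 x.2))
    {c p q l : Γ → A.C} (hc : DfnM A c) (hp : DfnM A p) (hq : DfnM A q) (hl : DfnM A l) :
    DfnM A (fun x => Hyp L t G (c x) (p x) (q x) (l x)) := by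
  refine DfnM.and ?_ (DfnM.and ?_ (DfnM.and ?_ (DfnM.and ?_ ?_)))
  · exact dfn_ball_mem hp (P := fun x i => Sup (L ++ [t]) (c x) i)
      (Sup.dfn (L ++ [t]) (by fun_prop) (by fun_prop))
  · exact dfn_ball_mem hq (P := fun x i => Mem i (p x) ∧ IsL L i)
      (DfnM.and (by fun_prop) (IsL.dfn L (by fun_prop)))
  · exact dfn_ball_mem hp (P := fun x i => IsL L i → Mem i (q x))
      (DfnM.imp (IsL.dfn L (by fun_prop)) (by fun_prop))
  · exact Win.dfn L hc hq (by fun_prop)
  · have h1 : ∀ s, DfnM A (fun y : (Γ × A.C) × A.C =>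
        G (Has (p y.1.1)) s y.1.2 y.2) := fun s =>
      DfnM.comp (hdf s) (f := fun y : (Γ × A.C) × A.C => ((p y.1.1, y.1.2), y.2)) (by fun_prop)
    refine DfnM.ballLt (P := fun x a => ∀ b, b < c x → (Has (p x) true t a b →
      G (Has (p x)) true a b) ∧ (Has (p x) false t a b → G (Has (p x)) false a b)) hc ?_
    refine DfnM.ballLt (f := fun y : Γ × A.C => c y.1) (P := fun y b =>
      (Has (p y.1) true t y.2 b → G (Has (p y.1)) true y.2 b) ∧
        (Has (p y.1) false t y.2 b → G (Has (p y.1)) false y.2 b)) (by fun_prop) ?_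
    exact DfnM.and (DfnM.imp (by fun_prop) (h1 true)) (DfnM.imp (by fun_prop) (h1 false))

section gen

variable {L : List RT} {t : RT} {G : (Bool → RT → A.C → A.C → Prop) → Bool → A.C → A.C → Prop}

private theorem hyp_pos (hL : Built L)
    (hcl : ∀ (D : Bool → RT → A.C → A.C → Prop) (H : A.C → Prop), OK L D H →
      (∀ s a b, H a → H b → D s t a b → G D s a b) → ∀ cl ∈ tmCl t, ¬ Viol D H cl)
    {c p q l : A.C} (h : Hyp L t G c p q l) : Pos (L ++ [t]) c p := by
  obtain ⟨h1, h2, h3, h4, h5⟩ := h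
  have hP := h4.toPos
  refine ⟨hP.pos, h1, fun cl hcl' => ?_⟩
  have hok : OK L (Has p) (fun a => a < c) :=
    ok_of hL (fun s r a b hr hh => h3 _ hh (isL_fc hr s a b)) hP.ok
  rw [List.flatMap_append, ← List.append_assoc, List.mem_append] at hcl'
  rcases hcl' with h6 | h6
  · exact hok cl h6
  · rw [List.flatMap_singleton] at h6
    refine hcl (Has p) (fun a => a < c) hok (fun s a b ha hb hh => ?_) cl h6
    cases s
    · exact (h5 a ha b hb).2 hh
    · exact (h5 a ha b hb).1 hh

private theorem step_gen (hL : Built L) (ht : t ∉ L) (hnc : ∀ u v, t ≠ .comp u v)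
    (hmono : ∀ D D' : Bool → RT → A.C → A.C → Prop,
      (∀ s r a b, r ∈ L → D s r a b → D' s r a b) → ∀ s a b, G D s a b → G D' s a b)
    (hdf : ∀ s, DfnM A (fun x : (A.C × A.C) × A.C => G (Has x.1.1) s x.1.2 x.2))
    (hcl : ∀ (D : Bool → RT → A.C → A.C → Prop) (H : A.C → Prop), OK L D H →
      (∀ s a b, H a → H b → D s t a b → G D s a b) → ∀ cl ∈ tmCl t, ¬ Viol D H cl)
    (hask : ∀ l c q a b : A.C, Win L c q (l + 1 + 1) → (∀ i, Mem i q → IsL L i) → a < c → b < c →
      ∃ q1, (∀ i, Mem i q → Mem i q1) ∧ (∀ i, Mem i q1 → IsL L i ∧ Sup L (c + 1) i) ∧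
        Win L (c + 1) q1 l ∧ ∃ s, G (Has q1) s a b)
    (h : ∀ B : A.C, Win L (1 : A.C) 0 B) (B : A.C) : Win (L ++ [t]) (1 : A.C) 0 B := by
  have hcm := cmax_le L t
  have htm : t ∈ L ++ [t] := List.mem_append_right _ (List.mem_singleton_self t)
  have key : ∀ S l : A.C, ∀ c, c ≤ S → ∀ p, p < ex (fb (L ++ [t]) S) → ∀ q, q < ex (fb L S) →
      (c + l ≤ S → (Hyp L t G c p q l → Win (L ++ [t]) c p l)) := by
    intro S
    refine dind (P := fun l => ∀ c, c ≤ S → ∀ p, p < ex (fb (L ++ [t]) S) → ∀ q,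
      q < ex (fb L S) → (c + l ≤ S → (Hyp L t G c p q l → Win (L ++ [t]) c p l))) ?_ ?_ ?_
    · refine DfnM.ballLe (P := fun l c => ∀ p, p < ex (fb (L ++ [t]) S) → ∀ q,
        q < ex (fb L S) → (c + l ≤ S → (Hyp L t G c p q l → Win (L ++ [t]) c p l)))
        (by fun_prop) ?_
      refine DfnM.ballLt (f := fun _ : A.C × A.C => ex (fb (L ++ [t]) S)) (P := fun y p => ∀ q,
        q < ex (fb L S) → (y.2 + y.1 ≤ S → (Hyp L t G y.2 p q y.1 → Win (L ++ [t]) y.2 p y.1)))
        (by fun_prop) ?_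
      refine DfnM.ballLt (f := fun _ : (A.C × A.C) × A.C => ex (fb L S)) (P := fun y q =>
        (y.1.2 + y.1.1 ≤ S → (Hyp L t G y.1.2 y.2 q y.1.1 → Win (L ++ [t]) y.1.2 y.2 y.1.1)))
        (by fun_prop) ?_
      exact DfnM.imp (by fun_prop) (DfnM.imp (Hyp.dfn L t hdf (by fun_prop) (by fun_prop)
        (by fun_prop) (by fun_prop)) (Win.dfn _ (by fun_prop) (by fun_prop) (by fun_prop)))
    · intro c _ p _ q _ _ hh
      exact (win_zero _ _ _).2 (hyp_pos hL hcl hh)
    · intro l ih c hcS p hp q hq hcl1 hh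
      have hP := hyp_pos hL hcl hh
      obtain ⟨h1, h2, h3, h4, h5⟩ := hh
      have hc1 : c + 1 ≤ S := by
        refine le_trans ?_ hcl1
        rw [add_comm l 1, ← add_assoc]
        exact le_self_add
      have hc2 : c + 1 + l ≤ S := by
        rw [add_assoc, add_comm 1 l]
        exact hcl1
      have hcc : c ≤ c + 1 := le_self_add
      have h4' : Win L c q (2 * l + 1 + 1) := by
        have e : 2 * (l + 1) = 2 * l + 1 + 1 := by ring
        rw [← e]
        exact h4
      refine (win_succ _ _ _ _).2 ⟨hP, fun k hk a b ha hb => ?_⟩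
      by_cases hkt : k = t.code
      · -- the new term
        obtain ⟨q1, g1, g2, g3, s, g4⟩ := hask (2 * l) c q a b h4' (fun i hi => (h2 i hi).2) ha hb
        obtain ⟨p1, hp1⟩ := exists_union p q1
        obtain ⟨p2, hp2⟩ := exists_ins (fc s t a b) p1
        have hm : ∀ i, Mem i p2 ↔ (Mem i p ∨ Mem i q1) ∨ i = fc s t a b := fun i => by
          rw [hp2, hp1]
        have hup : ∀ s' r x y, r ∈ L → Has p s' r x y → Has p2 s' r x y :=
          fun s' r x y _ hx => (hm _).2 (Or.inl (Or.inl hx))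
        have hup' : ∀ s' r x y, r ∈ L → Has q1 s' r x y → Has p2 s' r x y :=
          fun s' r x y _ hx => (hm _).2 (Or.inl (Or.inr hx))
        have hS : ∀ i, Mem i p2 → Sup (L ++ [t]) (c + 1) i := by
          intro i hi
          rcases (hm i).1 hi with (hi | hi) | hi
          · exact sup_mono le_rfl hcc (h1 i hi)
          · exact sup_mono hcm le_rfl (g2 i hi).2
          · rw [hi]
            exact sup_fc htm s (lt_of_lt_of_le ha hcc) (lt_of_lt_of_le hb hcc)
        have hG : ∀ s' x y, x < c + 1 → y < c + 1 → Has p2 s' t x y → G (Has p2) s' x y := by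
          intro s' x y _ _ hx
          rcases (hm _).1 hx with (hi | hi) | hi
          · obtain ⟨hx1, hy1⟩ := sup_lt_of_fc (h1 _ hi)
            refine hmono _ _ hup _ _ _ ?_
            cases s'
            · exact (h5 x hx1 y hy1).2 hi
            · exact (h5 x hx1 y hy1).1 hi
          · exact absurd (mem_of_isL (g2 _ hi).1) ht
          · obtain ⟨e1, -, e2, e3⟩ := fc_inj hi
            rw [e1, e2, e3]
            exact hmono _ _ hup' _ _ _ g4
        refine ⟨p2, fun i hi => (hm i).2 (Or.inl (Or.inl hi)), ?_, ?_⟩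
        · refine ⟨fun t' ht' hk' => ?_, fun i _ hi => ?_, fun hi => ?_, fun hi => ?_⟩
          · have e : t' = t := code_inj (hk'.trans hkt)
            subst e
            have hx : Has p2 s t' a b := (hm _).2 (Or.inr rfl)
            cases s
            · exact Or.inl hx
            · exact Or.inr ⟨hx, fun u v e => absurd e (hnc u v)⟩
          · exact absurd (hkt.symm.trans hi) (code_ne_kf t _)
          · exact absurd (hkt.symm.trans hi) (code_ne_kp t)
          · exact absurd (hkt.symm.trans hi) (code_ne_kd t)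
        · refine ih (c + 1) hc1 p2 (lt_of_lt_of_le (pos_lt hS) (ex_le_ex (fb_mono _ hc1))) q1
            (lt_of_lt_of_le (pos_lt fun i hi => (g2 i hi).2) (ex_le_ex (fb_mono _ hc1))) hc2
            ⟨hS, fun i hi => ⟨(hm i).2 (Or.inl (Or.inr hi)), (g2 i hi).1⟩, fun i hi hl => ?_, g3,
              fun x hx y hy => ⟨hG true x y hx hy, hG false x y hx hy⟩⟩
          rcases (hm i).1 hi with (hi | hi) | hi
          · exact g1 i (h3 i hi hl)
          · exact hi
          · rw [hi] at hl
            exact absurd (mem_of_isL hl) ht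
      · -- a request of `L`
        have hkL : k ∈ Reqs L := by
          unfold Reqs at hk ⊢
          rw [List.map_append, List.append_assoc, List.mem_append, List.mem_append] at hk
          rw [List.mem_append]
          rcases hk with hk | hk | hk
          · exact Or.inl hk
          · rw [List.map_singleton, List.mem_singleton] at hk
            exact absurd hk hkt
          · exact Or.inr hk
        obtain ⟨p1, g1, g2, g3⟩ := ((win_succ _ _ _ _).1 h4').2 k hkL a b ha hb
        obtain ⟨q1, hq1⟩ := exists_res L p1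
        have hP1 := g3.toPos
        have hS1 : ∀ i, Mem i q1 → Sup L (c + 1) i := fun i hi => hP1.sup i ((hq1 i).1 hi).1
        have g4 : Win L (c + 1) q1 (2 * l) :=
          win_sub hL hP1.pos le_rfl hS1 (fun i hi => ((hq1 i).1 hi).1)
            (g3.mono le_self_add)
        obtain ⟨p2, hm⟩ := exists_union p q1
        have hup : ∀ s' r x y, r ∈ L → Has p s' r x y → Has p2 s' r x y :=
          fun s' r x y _ hx => (hm _).2 (Or.inl hx)
        have hup' : ∀ s' r x y, r ∈ L → Has p1 s' r x y → Has p2 s' r x y :=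
          fun s' r x y hr hx => (hm _).2 (Or.inr ((hq1 _).2 ⟨hx, isL_fc hr _ _ _⟩))
        have hS : ∀ i, Mem i p2 → Sup (L ++ [t]) (c + 1) i := by
          intro i hi
          rcases (hm i).1 hi with hi | hi
          · exact sup_mono le_rfl hcc (h1 i hi)
          · exact sup_mono hcm le_rfl (hS1 i hi)
        have hG : ∀ s' x y, x < c + 1 → y < c + 1 → Has p2 s' t x y → G (Has p2) s' x y := by
          intro s' x y _ _ hx
          rcases (hm _).1 hx with hi | hi
          · obtain ⟨hx1, hy1⟩ := sup_lt_of_fc (h1 _ hi)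
            refine hmono _ _ hup _ _ _ ?_
            cases s'
            · exact (h5 x hx1 y hy1).2 hi
            · exact (h5 x hx1 y hy1).1 hi
          · exact absurd (mem_of_isL ((hq1 _).1 hi).2) ht
        refine ⟨p2, fun i hi => (hm i).2 (Or.inl hi), ?_, ?_⟩
        · obtain ⟨a1, a2, a3, a4⟩ := g2
          have hcs := hL.closed
          refine ⟨fun t' ht' hk' => ?_, fun i hi0 hi => hup' _ _ _ _ (hcs.atoms i) (a2 i hi0 hi),
            fun hi => ⟨hup' _ _ _ _ (hcs.atoms 1) (a3 hi).1, hup' _ _ _ _ (hcs.atoms 2) (a3 hi).2⟩,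
            fun hi => ?_⟩
          · have ht2 : t' ∈ L := by
              rcases List.mem_append.1 ht' with h6 | h6
              · exact h6
              · rw [List.mem_singleton] at h6
                rw [h6] at hk'
                exact absurd hk'.symm hkt
            rcases a1 t' ht2 hk' with h6 | ⟨h6, h7⟩
            · exact Or.inl (hup' _ _ _ _ ht2 h6)
            · refine Or.inr ⟨hup' _ _ _ _ ht2 h6, fun u v e => ?_⟩
              obtain ⟨h8, h9⟩ := h7 u v e
              rw [e] at ht2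
              obtain ⟨hu, hv⟩ := hcs.compL u v ht2
              exact ⟨hup' _ _ _ _ hu h8, hup' _ _ _ _ hv h9⟩
          · rcases a4 hi with h6 | h6
            · exact Or.inl (hup' _ _ _ _ (hcs.atoms 3) h6)
            · exact Or.inr (hup' _ _ _ _ (hcs.atoms 4) h6)
        · refine ih (c + 1) hc1 p2 (lt_of_lt_of_le (pos_lt hS) (ex_le_ex (fb_mono _ hc1))) q1
            (lt_of_lt_of_le (pos_lt hS1) (ex_le_ex (fb_mono _ hc1))) hc2
            ⟨hS, fun i hi => ⟨(hm i).2 (Or.inr hi), ((hq1 i).1 hi).2⟩, fun i hi hl => ?_, g4,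
              fun x hx y hy => ⟨hG true x y hx hy, hG false x y hx hy⟩⟩
          rcases (hm i).1 hi with hi | hi
          · exact (hq1 i).2 ⟨g1 i (h3 i hi hl), hl⟩
          · exact hi
  refine key (1 + B) B 1 le_self_add 0 (ex_pos _) 0 (ex_pos _) le_rfl
    ⟨fun i hi => absurd hi (not_mem_zero i), fun i hi => absurd hi (not_mem_zero i),
      fun i hi => absurd hi (not_mem_zero i), h (2 * B), fun a _ b _ =>
      ⟨fun hi => absurd hi (not_mem_zero _), fun hi => absurd hi (not_mem_zero _)⟩⟩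

end gen

/-- both signs of a fact about a term of `L` are impossible -/
private theorem ok_ne {L : List RT} {D : Bool → RT → A.C → A.C → Prop} {H : A.C → Prop}
    (h : OK L D H) {u : RT} (hu : u ∈ L) {a b : A.C} (ha : H a) (hb : H b) (h1 : D true u a b)
    (h2 : D false u a b) : False := by
  refine h [⟨true, u, 0, 1⟩, ⟨false, u, 0, 1⟩] (List.mem_append_right _ (List.mem_flatMap.2
    ⟨u, hu, List.mem_cons_self ..⟩)) ⟨fun i => if i = 0 then a else b, fun i => ?_, fun f hf => ?_⟩
  · beta_reduce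
    split
    · exact ha
    · exact hb
  · rw [List.mem_cons, List.mem_cons] at hf
    rcases hf with rfl | rfl | hf
    · exact h1
    · exact h2
    · exact absurd hf List.not_mem_nil

private theorem code_req {L : List RT} {u : RT} (hu : u ∈ L) : u.code ∈ Reqs L :=
  List.mem_append_left _ (List.mem_map_of_mem hu)

private theorem ans_sign {L : List RT} {D : Bool → RT → A.C → A.C → Prop} {u : RT} (hu : u ∈ L)
    {a b c : A.C} (h : Ans L D u.code a b c) : ∃ s, D s u a b := by
  rcases h.1 u hu rfl with h1 | h1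
  · exact ⟨false, h1⟩
  · exact ⟨true, h1.1⟩

/-- evidence for `nand u v` -/
private def GN (u v : RT) (D : Bool → RT → A.C → A.C → Prop) : Bool → A.C → A.C → Prop
  | true, a, b => D false u a b ∨ D false v a b
  | false, a, b => D true u a b ∧ D true v a b

/-- evidence for `conv u` -/
private def GC (u : RT) (D : Bool → RT → A.C → A.C → Prop) (s : Bool) (a b : A.C) : Prop :=
  D s u b a

theorem step_nand {L : List RT} (hL : Built L) {u v : RT} (hu : u ∈ L) (hv : v ∈ L)
    (ht : .nand u v ∉ L) (h : ∀ B : A.C, Win L (1 : A.C) 0 B) (B : A.C) :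
    Win (L ++ [.nand u v]) (1 : A.C) 0 B := by
  refine step_gen (G := GN u v) hL ht (fun _ _ => by simp) (fun D D' hD s a b hG => ?_)
    (fun s => ?_) (fun D H hok hG cl hcl hvi => ?_) (fun l c q a b hw hq ha hb => ?_) h B
  · cases s
    · exact ⟨hD _ _ _ _ hu hG.1, hD _ _ _ _ hv hG.2⟩
    · rcases hG with hG | hG
      · exact Or.inl (hD _ _ _ _ hu hG)
      · exact Or.inr (hD _ _ _ _ hv hG)
  · cases s
    · change DfnM A (fun x : (A.C × A.C) × A.C => Has x.1.1 true u x.1.2 x.2 ∧
        Has x.1.1 true v x.1.2 x.2)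
      fun_prop
    · change DfnM A (fun x : (A.C × A.C) × A.C => Has x.1.1 false u x.1.2 x.2 ∨
        Has x.1.1 false v x.1.2 x.2)
      fun_prop
  · obtain ⟨w, hw1, hw2⟩ := hvi
    have hcl' : cl ∈ [[(⟨true, .nand u v, 0, 1⟩ : Pat), ⟨false, .nand u v, 0, 1⟩],
        [⟨true, .nand u v, 0, 1⟩, ⟨true, u, 0, 1⟩, ⟨true, v, 0, 1⟩],
        [⟨false, .nand u v, 0, 1⟩, ⟨false, u, 0, 1⟩],
        [⟨false, .nand u v, 0, 1⟩, ⟨false, v, 0, 1⟩]] := hcl
    rw [List.mem_cons, List.mem_cons, List.mem_cons, List.mem_cons] at hcl'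
    have hT : D true (.nand u v) (w 0) (w 1) → D false u (w 0) (w 1) ∨ D false v (w 0) (w 1) :=
      fun hx => hG true _ _ (hw1 0) (hw1 1) hx
    have hF : D false (.nand u v) (w 0) (w 1) → D true u (w 0) (w 1) ∧ D true v (w 0) (w 1) :=
      fun hx => hG false _ _ (hw1 0) (hw1 1) hx
    have hnu : D true u (w 0) (w 1) → D false u (w 0) (w 1) → False :=
      ok_ne hok hu (hw1 0) (hw1 1)
    have hnv : D true v (w 0) (w 1) → D false v (w 0) (w 1) → False :=
      ok_ne hok hv (hw1 0) (hw1 1)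
    rcases hcl' with rfl | rfl | rfl | rfl | hcl'
    · have e1 := hT (hw2 ⟨true, .nand u v, 0, 1⟩ (by simp))
      have e2 := hF (hw2 ⟨false, .nand u v, 0, 1⟩ (by simp))
      rcases e1 with e1 | e1
      · exact hnu e2.1 e1
      · exact hnv e2.2 e1
    · have e1 := hT (hw2 ⟨true, .nand u v, 0, 1⟩ (by simp))
      have e2 : D true u (w 0) (w 1) := hw2 ⟨true, u, 0, 1⟩ (by simp)
      have e3 : D true v (w 0) (w 1) := hw2 ⟨true, v, 0, 1⟩ (by simp)
      rcases e1 with e1 | e1
      · exact hnu e2 e1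
      · exact hnv e3 e1
    · have e1 := hF (hw2 ⟨false, .nand u v, 0, 1⟩ (by simp))
      exact hnu e1.1 (hw2 ⟨false, u, 0, 1⟩ (by simp))
    · have e1 := hF (hw2 ⟨false, .nand u v, 0, 1⟩ (by simp))
      exact hnv e1.2 (hw2 ⟨false, v, 0, 1⟩ (by simp))
    · exact absurd hcl' List.not_mem_nil
  · have hcc : c ≤ c + 1 := le_self_add
    obtain ⟨hP, hs1⟩ := (win_succ _ _ _ _).1 hw
    obtain ⟨p1, g1, g2, g3⟩ := hs1 u.code (code_req hu) a b ha hb
    obtain ⟨p2, g4, g5, g6⟩ := ((win_succ _ _ _ _).1 g3).2 v.code (code_req hv) a b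
      (lt_of_lt_of_le ha hcc) (lt_of_lt_of_le hb hcc)
    obtain ⟨su, hsu⟩ := ans_sign hu g2
    obtain ⟨sv, hsv⟩ := ans_sign hv g5
    obtain ⟨q0, hq0⟩ := exists_ins (fc su u a b) q
    obtain ⟨q1, hq1⟩ := exists_ins (fc sv v a b) q0
    have hm : ∀ i, Mem i q1 ↔ (Mem i q ∨ i = fc su u a b) ∨ i = fc sv v a b := fun i => by
      rw [hq1, hq0]
    have hS : ∀ i, Mem i q1 → IsL L i ∧ Sup L (c + 1) i := by
      intro i hi
      rcases (hm i).1 hi with (hi | hi) | hi
      · exact ⟨hq i hi, sup_mono le_rfl hcc (hP.sup i hi)⟩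
      · rw [hi]
        exact ⟨isL_fc hu _ _ _, sup_fc hu _ (lt_of_lt_of_le ha hcc) (lt_of_lt_of_le hb hcc)⟩
      · rw [hi]
        exact ⟨isL_fc hv _ _ _, sup_fc hv _ (lt_of_lt_of_le ha hcc) (lt_of_lt_of_le hb hcc)⟩
    have hu1 : Has q1 su u a b := (hm _).2 (Or.inl (Or.inr rfl))
    have hv1 : Has q1 sv v a b := (hm _).2 (Or.inr rfl)
    refine ⟨q1, fun i hi => (hm i).2 (Or.inl (Or.inl hi)), hS, ?_, ?_⟩
    · refine win_sub hL (lt_of_lt_of_le hP.pos hcc) le_self_add (fun i hi => (hS i hi).2)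
        (fun i hi => ?_) g6
      rcases (hm i).1 hi with (hi | hi) | hi
      · exact g4 i (g1 i hi)
      · rw [hi]
        exact g4 _ hsu
      · rw [hi]
        exact hsv
    · cases su
      · exact ⟨true, Or.inl hu1⟩
      · cases sv
        · exact ⟨true, Or.inr hv1⟩
        · exact ⟨false, hu1, hv1⟩

theorem step_conv {L : List RT} (hL : Built L) {u : RT} (hu : u ∈ L)
    (ht : .conv u ∉ L) (h : ∀ B : A.C, Win L (1 : A.C) 0 B) (B : A.C) :
    Win (L ++ [.conv u]) (1 : A.C) 0 B := by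
  refine step_gen (G := GC u) hL ht (fun _ _ => by simp) (fun D D' hD s a b hG => ?_)
    (fun s => ?_) (fun D H hok hG cl hcl hvi => ?_) (fun l c q a b hw hq ha hb => ?_) h B
  · exact hD _ _ _ _ hu hG
  · change DfnM A (fun x : (A.C × A.C) × A.C => Has x.1.1 s u x.2 x.1.2)
    fun_prop
  · obtain ⟨w, hw1, hw2⟩ := hvi
    have hcl' : cl ∈ [[(⟨true, .conv u, 0, 1⟩ : Pat), ⟨false, .conv u, 0, 1⟩],
        [⟨true, .conv u, 0, 1⟩, ⟨false, u, 1, 0⟩],
        [⟨false, .conv u, 0, 1⟩, ⟨true, u, 1, 0⟩]] := hcl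
    rw [List.mem_cons, List.mem_cons, List.mem_cons] at hcl'
    have hT : D true (.conv u) (w 0) (w 1) → D true u (w 1) (w 0) :=
      fun hx => hG true _ _ (hw1 0) (hw1 1) hx
    have hF : D false (.conv u) (w 0) (w 1) → D false u (w 1) (w 0) :=
      fun hx => hG false _ _ (hw1 0) (hw1 1) hx
    have hnu : D true u (w 1) (w 0) → D false u (w 1) (w 0) → False :=
      ok_ne hok hu (hw1 1) (hw1 0)
    rcases hcl' with rfl | rfl | rfl | hcl'
    · exact hnu (hT (hw2 ⟨true, .conv u, 0, 1⟩ (by simp)))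
        (hF (hw2 ⟨false, .conv u, 0, 1⟩ (by simp)))
    · exact hnu (hT (hw2 ⟨true, .conv u, 0, 1⟩ (by simp))) (hw2 ⟨false, u, 1, 0⟩ (by simp))
    · exact hnu (hw2 ⟨true, u, 1, 0⟩ (by simp)) (hF (hw2 ⟨false, .conv u, 0, 1⟩ (by simp)))
    · exact absurd hcl' List.not_mem_nil
  · have hcc : c ≤ c + 1 := le_self_add
    obtain ⟨hP, hs1⟩ := (win_succ _ _ _ _).1 hw
    obtain ⟨p1, g1, g2, g3⟩ := hs1 u.code (code_req hu) b a hb ha
    obtain ⟨s, hs⟩ := ans_sign hu g2
    obtain ⟨q1, hm⟩ := exists_ins (fc s u b a) q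
    have hS : ∀ i, Mem i q1 → IsL L i ∧ Sup L (c + 1) i := by
      intro i hi
      rcases (hm i).1 hi with hi | hi
      · exact ⟨hq i hi, sup_mono le_rfl hcc (hP.sup i hi)⟩
      · rw [hi]
        exact ⟨isL_fc hu _ _ _, sup_fc hu _ (lt_of_lt_of_le hb hcc) (lt_of_lt_of_le ha hcc)⟩
    have hu1 : Has q1 s u b a := (hm _).2 (Or.inr rfl)
    refine ⟨q1, fun i hi => (hm i).2 (Or.inl hi), hS, ?_, s, hu1⟩
    refine win_sub hL (lt_of_lt_of_le hP.pos hcc) le_rfl (fun i hi => (hS i hi).2)
      (fun i hi => ?_) (g3.mono le_self_add)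
    rcases (hm i).1 hi with hi | hi
    · exact g1 i hi
    · rw [hi]
      exact hs

end Pool.Agent.Work.MP_de7025_lc.F
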