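import Pool.Agent.Work.MP_de7025_lc.F.G5

set_option autoImplicit false

/-!
# F/G8 (L): adding a term `comp u v` (cut elimination by halving an interval)

Notation: `L' = L ++ [t]`. For a position `(c, p')` of `L'` let `res p'` be the set of the facts of `p'` about terms of `L` (codes `fc s r a b` with `r ∈ L`; `compr'`; a finite disjunction over `r ∈ L`). `Sup L c i → Sup L' c i` as `cmax L ≤ cmax L'`.
A fact of `L'` is a fact of `L` or `± t a b`; `t ∉ L` (`code_inj`). If the set `q` contains exactly facts of `L` and `q ∪ (the facts ± t a b of p')` is `q'`, then `OK L (Has q)` and the clauses of `t` give `OK L' (Has q')`.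
CAREFUL: a position of `L` may contain junk (codes `≤ cmax L` which are not codes of terms of `L`, possibly the code of `t`). So after every answer in `L` replace the new position `q` by `res q` (`win_sub`); `Ans L (Has q)` implies `Ans L (Has (res q))`
because the answers only speak about terms of `L` (`Built.closed`), and `res p' ⊆ res q`.

PROOF, `t = comp u v`. Claim, by induction on `l` (bounded quantifiers over `c, p', F, B`, fix `S` and a bound for `B`): let `c + l ≤ S`, `p'` supported on `c` (`Sup L'`), `F + ex l ≤ B`, `Win L c (res p') B`, and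
(1) for every `+ t a b` of `p'` there is `e < c` with `+ u a e` and `+ v e b` in `p'`; (2) for every `- t a b` of `p'` and every `q` with `Ext (res p') q u v a b c`: not `Win L (c + 1) q F`. Then `Win L' c p' l`.
Position: `+ t a b` and `- t a b` cannot both be in `p'`: (1) and `win_merge` give `Win L (c + 1) q B`, hence with `F` (`Win.mono`, `F ≤ B`), against (2). The clause `- t a b, + u a e, + v e b` is excluded in the same way. The other clauses are clauses of `L`.
Step (`l + 1`, so `F + ex l + ex l ≤ B`). Request `k ∈ Reqs L` at `(a, b)`: the answer `q ⊇ res p'` of `L` has `Win L (c + 1) q (B - 1)`; take `p'' = q` and the facts of `t` in `p'`; `F + ex l ≤ B - 1`; (1) is kept; (2): if `Ext q q1 u v x y (c + 1)` and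
`Win L (c + 2) q1 F` then `Win L (c + 1) q0 F` for `Ext (res p') q0 u v x y c` by `win_shift`: contradiction. Request `t.code` at `(a, b)`: let `q` be the set with `Ext (res p') q u v a b c` and `m = F + ex l`.
Case `Win L (c + 1) q m`: take `p'' = p' ∪ q ∪ {+ t a b}`, the new numbers are `F` and `m` (`F + ex l ≤ m`), (1) holds with `e = c`, (2) by `win_shift` as before. Case not: take `p'' = p' ∪ {- t a b}` with the numbers `m` and `B` (`m + ex l ≤ B`);
`Win L (c + 1) (res p') B` by `win_dummy`; (2) for the old facts: `Win L (c + 2) q1 m` implies `Win L (c + 2) q1 F` (`Win.mono`, `F ≤ m`) and then `win_shift`; for the new fact: `win_shift` gives `Win L (c + 1) q m`, contradiction.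
Start: `c = 1`, `p' = 0`, `F = 0`, `B = ex l`.
-/

namespace Pool.Agent.Work.MP_de7025_lc.F

variable {A : ArStr.{0}} [IsE A]

private theorem fc_inj {s s' : Bool} {w w' : RT} {a b a' b' : A.C}
    (h : fc s w a b = fc s' w' a' b') : s = s' ∧ w = w' ∧ a = a' ∧ b = b' := by
  unfold fc at h
  obtain ⟨h1, h2⟩ := pr_inj h
  obtain ⟨h3, h4⟩ := pr_inj h2
  obtain ⟨h5, h6⟩ := pr_inj h4
  refine ⟨?_, code_inj (Nat.cast_injective h3), h5, h6⟩
  cases s <;> cases s'
  · rfl
  · rw [if_neg (by decide), if_pos rfl] at h1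
    exact absurd h1.symm one_ne_zero'
  · rw [if_pos rfl, if_neg (by decide)] at h1
    exact absurd h1 one_ne_zero'
  · rfl

/-- facts about terms of `L` -/
private def Fct (L : List RT) (i : A.C) : Prop :=
  ∃ w ∈ L, (∃ a, a ≤ i ∧ ∃ b, b ≤ i ∧ i = fc true w a b) ∨
    (∃ a, a ≤ i ∧ ∃ b, b ≤ i ∧ i = fc false w a b)

private theorem fct_fc {L : List RT} {s : Bool} {w : RT} {a b : A.C} :
    Fct L (fc s w a b) ↔ w ∈ L := by
  constructor
  · rintro ⟨w', hw', ⟨a', -, b', -, h⟩ | ⟨a', -, b', -, h⟩⟩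
    · rw [(fc_inj h).2.1]
      exact hw'
    · rw [(fc_inj h).2.1]
      exact hw'
  · intro hw
    have ha : a ≤ fc s w a b := (le_pr_left a b).trans ((le_pr_right _ _).trans (le_pr_right _ _))
    have hb : b ≤ fc s w a b := (le_pr_right a b).trans ((le_pr_right _ _).trans (le_pr_right _ _))
    refine ⟨w, hw, ?_⟩
    cases s
    · exact Or.inr ⟨a, ha, b, hb, rfl⟩
    · exact Or.inl ⟨a, ha, b, hb, rfl⟩

private theorem Fct.dfn (L : List RT) {Γ : Type} [Ctx A Γ] {f : Γ → A.C} (hf : DfnM A f) :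
    DfnM A (fun x => Fct L (f x)) := by
  unfold Fct
  refine dfn_bex_list L fun w _ => DfnM.or ?_ ?_
  · refine DfnM.bexLe hf (DfnM.bexLe (by fun_prop) (by fun_prop))
  · refine DfnM.bexLe hf (DfnM.bexLe (by fun_prop) (by fun_prop))

/-- `r` is the part of `p` about terms of `L` -/
private def IsRes (L : List RT) (p r : A.C) : Prop :=
  (∀ i, Mem i r → Mem i p ∧ Fct L i) ∧ ∀ i, Mem i p → Fct L i → Mem i r

private theorem IsRes.dfn (L : List RT) {Γ : Type} [Ctx A Γ] {p r : Γ → A.C} (hp : DfnM A p)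
    (hr : DfnM A r) : DfnM A (fun x => IsRes L (p x) (r x)) := by
  unfold IsRes
  refine DfnM.and (dfn_ball_mem hr (DfnM.and (by fun_prop) (Fct.dfn L (by fun_prop))))
    (dfn_ball_mem hp (DfnM.imp (Fct.dfn L (by fun_prop)) (by fun_prop)))

private theorem exists_res (L : List RT) (p : A.C) : ∃ r, IsRes L p r := by
  obtain ⟨r, -, hr⟩ := compr' (P := fun i => Mem i p ∧ Fct L i)
    (DfnM.and (by fun_prop) (Fct.dfn L (by fun_prop))) p (fun i hi => lt_of_mem hi.1)
  exact ⟨r, fun i hi => (hr i).1 hi, fun i h1 h2 => (hr i).2 ⟨h1, h2⟩⟩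

/-- `p` is supported on `c` -/
private def Supp (L : List RT) (c p : A.C) : Prop := ∀ i, Mem i p → Sup L c i

private theorem Supp.dfn (L : List RT) {Γ : Type} [Ctx A Γ] {c p : Γ → A.C} (hc : DfnM A c)
    (hp : DfnM A p) : DfnM A (fun x => Supp L (c x) (p x)) := by
  unfold Supp
  exact dfn_ball_mem hp (Sup.dfn L (by fun_prop) (by fun_prop))

private theorem sup_fc {L : List RT} {c : A.C} {s : Bool} {w : RT} {a b : A.C}
    (h : Sup L c (fc s w a b)) : a < c ∧ b < c := by
  obtain ⟨s', -, k, -, a', ha', b', hb', h⟩ := h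
  unfold fc at h
  obtain ⟨-, h2⟩ := pr_inj h
  obtain ⟨-, h4⟩ := pr_inj h2
  obtain ⟨h5, h6⟩ := pr_inj h4
  rw [h5, h6]
  exact ⟨ha', hb'⟩

private theorem code_le {L : List RT} {w : RT} (hw : w ∈ L) : w.code ≤ cmax L := by
  unfold cmax
  exact List.single_le_sum (fun _ _ => Nat.zero_le _) _ (List.mem_map_of_mem hw)

private theorem sup_of_fc {L : List RT} {c : A.C} (s : Bool) {w : RT} {a b : A.C} (hw : w ∈ L)
    (ha : a < c) (hb : b < c) : Sup L c (fc s w a b) := by
  refine ⟨if s = true then 1 else 0, ?_, w.code, Nat.cast_le.2 (code_le hw), a, ha, b, hb, rfl⟩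
  split_ifs
  · exact le_rfl
  · exact zero_le

private theorem cmax_le (L : List RT) (t : RT) : cmax L ≤ cmax (L ++ [t]) := by
  unfold cmax
  rw [List.map_append, List.sum_append]
  exact Nat.le_add_right _ _

private theorem sup_mono {L : List RT} {t : RT} {c c' i : A.C} (h : Sup L c i) (hc : c ≤ c') :
    Sup (L ++ [t]) c' i := by
  obtain ⟨s, hs, k, hk, a, ha, b, hb, h⟩ := h
  exact ⟨s, hs, k, hk.trans (Nat.cast_le.2 (cmax_le L t)), a, ha.trans_le hc, b, hb.trans_le hc, h⟩

private theorem sup_mono' {L : List RT} {c c' i : A.C} (h : Sup L c i) (hc : c ≤ c') :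
    Sup L c' i := by
  obtain ⟨s, hs, k, hk, a, ha, b, hb, h⟩ := h
  exact ⟨s, hs, k, hk, a, ha.trans_le hc, b, hb.trans_le hc, h⟩

private theorem Ext.dfn (u v : RT) {Γ : Type} [Ctx A Γ] {p q a b e : Γ → A.C} (hp : DfnM A p)
    (hq : DfnM A q) (ha : DfnM A a) (hb : DfnM A b) (he : DfnM A e) :
    DfnM A (fun x => Ext (p x) (q x) u v (a x) (b x) (e x)) := by
  have h : (fun x => Ext (p x) (q x) u v (a x) (b x) (e x)) = fun x =>
      (∀ i, Mem i (q x) → (Mem i (p x) ∨ i = fc true u (a x) (e x) ∨ i = fc true v (e x) (b x))) ∧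
      ((∀ i, Mem i (p x) → Mem i (q x)) ∧
        (Mem (fc true u (a x) (e x)) (q x) ∧ Mem (fc true v (e x) (b x)) (q x))) := by
    funext x
    apply propext
    constructor
    · intro h
      exact ⟨fun i hi => (h i).1 hi, fun i hi => (h i).2 (Or.inl hi), (h _).2 (Or.inr (Or.inl rfl)),
        (h _).2 (Or.inr (Or.inr rfl))⟩
    · rintro ⟨h1, h2, h3, h4⟩ i
      refine ⟨h1 i, ?_⟩
      rintro (h5 | h5 | h5)
      · exact h2 i h5
      · rw [h5]
        exact h3
      · rw [h5]
        exact h4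
  rw [h]
  refine DfnM.and (dfn_ball_mem hq (by fun_prop)) (DfnM.and (dfn_ball_mem hp (by fun_prop))
    (by fun_prop))

private theorem exists_ext (p : A.C) (u v : RT) (a b e : A.C) : ∃ q, Ext p q u v a b e := by
  obtain ⟨q1, h1⟩ := exists_ins (fc true u a e) p
  obtain ⟨q, h2⟩ := exists_ins (fc true v e b) q1
  refine ⟨q, fun i => ?_⟩
  rw [h2, h1, or_assoc]

private theorem ext_supp {L : List RT} {u v : RT} (hu : u ∈ L) (hv : v ∈ L) {c r q a b : A.C}
    (hs : Supp L c r) (ha : a < c) (hb : b < c) (hq : Ext r q u v a b c) :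
    Supp L (c + 1) q := by
  have hc : c < c + 1 := (lt_add_one_iff' _ _).2 le_rfl
  intro i hi
  rcases (hq i).1 hi with h | h | h
  · exact sup_mono' (hs i h) hc.le
  · rw [h]
    exact sup_of_fc _ hu (ha.trans hc) hc
  · rw [h]
    exact sup_of_fc _ hv hc (hb.trans hc)

/-- condition (1) -/
private def One (u v : RT) (c p : A.C) : Prop :=
  ∀ a, a < c → ∀ b, b < c → Has p true (.comp u v) a b →
    ∃ e, e < c ∧ (Has p true u a e ∧ Has p true v e b)

private theorem One.dfn (u v : RT) {Γ : Type} [Ctx A Γ] {c p : Γ → A.C} (hc : DfnM A c)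
    (hp : DfnM A p) : DfnM A (fun x => One u v (c x) (p x)) := by
  unfold One
  exact DfnM.ballLt hc (DfnM.ballLt (by fun_prop) (DfnM.imp (by fun_prop)
    (DfnM.bexLt (by fun_prop) (by fun_prop))))

/-- condition (2) -/
private def Two (L : List RT) (u v : RT) (c p r F : A.C) : Prop :=
  ∀ a, a < c → ∀ b, b < c → Has p false (.comp u v) a b →
    ∀ q, q < ex (fb L (c + 1)) → Ext r q u v a b c → ¬ Win L (c + 1) q F

private theorem Two.dfn (L : List RT) (u v : RT) {Γ : Type} [Ctx A Γ] {c p r F : Γ → A.C}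
    (hc : DfnM A c) (hp : DfnM A p) (hr : DfnM A r) (hF : DfnM A F) :
    DfnM A (fun x => Two L u v (c x) (p x) (r x) (F x)) := by
  unfold Two
  exact DfnM.ballLt hc (DfnM.ballLt (by fun_prop) (DfnM.imp (by fun_prop)
    (DfnM.ballLt (by fun_prop) (DfnM.imp (Ext.dfn u v (by fun_prop) (by fun_prop) (by fun_prop)
      (by fun_prop) (by fun_prop)) (DfnM.not (Win.dfn L (by fun_prop) (by fun_prop)
        (by fun_prop)))))))

private theorem Two.use {L : List RT} {u v : RT} (hu : u ∈ L) (hv : v ∈ L) {c p r F : A.C}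
    (h : Two L u v c p r F) (hs : Supp L c r) {a b : A.C} (ha : a < c) (hb : b < c)
    (hh : Has p false (.comp u v) a b) {q : A.C} (hq : Ext r q u v a b c)
    (hw : Win L (c + 1) q F) : False :=
  h a ha b hb hh q (pos_lt (ext_supp hu hv hs ha hb hq)) hq hw

private theorem no_comp {L : List RT} (hL : Built L) {u v : RT} (hu : u ∈ L) (hv : v ∈ L)
    {c p r F B : A.C} (hr : IsRes L p r) (hFB : F ≤ B) (hw : Win L c r B)
    (h2 : Two L u v c p r F) {a b e : A.C} (ha : a < c) (hb : b < c) (he : e < c)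
    (h3 : Has p true u a e) (h4 : Has p true v e b) (h5 : Has p false (.comp u v) a b) : False := by
  obtain ⟨q, hq⟩ := exists_ext r u v a b c
  have h6 := win_merge hL hu hv ha hb he hq (hr.2 _ h3 (fct_fc.2 hu)) (hr.2 _ h4 (fct_fc.2 hv)) hw
  exact h2.use hu hv hw.toPos.sup ha hb h5 hq (h6.mono hFB)

private theorem axCl_atom : ∀ cl ∈ axCl, ∀ f ∈ cl, ∃ i, f.t = .atom i := by
  intro cl hcl f hf
  simp only [axCl, pp, mm, List.mem_cons, List.not_mem_nil, or_false] at hcl
  rcases hcl with rfl | rfl | rfl | rfl | rfl | rfl | rfl | rfl | rfl | rfl | rfl | rfl | rfl |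
    rfl | rfl | rfl | rfl | rfl | rfl | rfl | rfl | rfl | rfl <;>
  · simp only [List.mem_cons, List.not_mem_nil, or_false] at hf
    aesop

private theorem pos_comp {L : List RT} (hL : Built L) {u v : RT} (hu : u ∈ L) (hv : v ∈ L)
    {c p r F B : A.C} (hs : Supp (L ++ [.comp u v]) c p) (hr : IsRes L p r) (hFB : F ≤ B)
    (hw : Win L c r B) (h1 : One u v c p) (h2 : Two L u v c p r F) :
    Pos (L ++ [.comp u v]) c p := by
  refine ⟨hw.toPos.pos, hs, ?_⟩
  rintro cl hcl ⟨w, hw1, hw2⟩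
  rw [List.flatMap_append, ← List.append_assoc, List.mem_append] at hcl
  rcases hcl with hcl | hcl
  · refine hw.toPos.ok cl hcl ⟨w, hw1, fun f hf => hr.2 _ (hw2 f hf) (fct_fc.2 ?_)⟩
    rw [List.mem_append, List.mem_flatMap] at hcl
    rcases hcl with hcl | ⟨t', ht', hcl⟩
    · obtain ⟨i, hi⟩ := axCl_atom cl hcl f hf
      rw [hi]
      exact hL.closed.atoms i
    · exact hL.cl t' ht' cl hcl f hf
  · simp only [List.flatMap_cons, List.flatMap_nil, List.append_nil, tmCl, List.mem_cons,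
      List.not_mem_nil, or_false] at hcl
    rcases hcl with rfl | rfl
    · have h3 := hw2 ⟨true, .comp u v, 0, 1⟩ (by simp)
      have h4 := hw2 ⟨false, .comp u v, 0, 1⟩ (by simp)
      obtain ⟨e, he, h5, h6⟩ := h1 _ (hw1 0) _ (hw1 1) h3
      exact no_comp hL hu hv hr hFB hw h2 (hw1 0) (hw1 1) he h5 h6 h4
    · have h3 := hw2 ⟨false, .comp u v, 0, 1⟩ (by simp)
      have h4 := hw2 ⟨true, u, 0, 2⟩ (by simp)
      have h5 := hw2 ⟨true, v, 2, 1⟩ (by simp)
      exact no_comp hL hu hv hr hFB hw h2 (hw1 0) (hw1 1) (hw1 2) h4 h5 h3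

private theorem ans_mono {L : List RT} {p p' : A.C} (h : ∀ i, Mem i p → Mem i p') {k : ℕ}
    {a b c : A.C} (ha : Ans L (Has p) k a b c) : Ans L (Has p') k a b c := by
  obtain ⟨h1, h2, h3, h4⟩ := ha
  refine ⟨fun t ht hk => ?_, fun i hi hk => h _ (h2 i hi hk), fun hk => ⟨h _ (h3 hk).1, h _ (h3 hk).2⟩,
    fun hk => ?_⟩
  · rcases h1 t ht hk with h5 | ⟨h5, h6⟩
    · exact Or.inl (h _ h5)
    · exact Or.inr ⟨h _ h5, fun u v huv => ⟨h _ (h6 u v huv).1, h _ (h6 u v huv).2⟩⟩
  · rcases h4 hk with h5 | h5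
    · exact Or.inl (h _ h5)
    · exact Or.inr (h _ h5)

private theorem ans_res {L : List RT} (hL : Built L) {p r : A.C} (hr : IsRes L p r) {k : ℕ}
    {a b c : A.C} (ha : Ans L (Has p) k a b c) : Ans L (Has r) k a b c := by
  obtain ⟨h1, h2, h3, h4⟩ := ha
  have hat : ∀ i, .atom i ∈ L := hL.closed.atoms
  have h : ∀ s t x y, t ∈ L → Has p s t x y → Has r s t x y := fun s t x y ht hh =>
    hr.2 _ hh (fct_fc.2 ht)
  refine ⟨fun t ht hk => ?_, fun i hi hk => h _ _ _ _ (hat i) (h2 i hi hk),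
    fun hk => ⟨h _ _ _ _ (hat _) (h3 hk).1, h _ _ _ _ (hat _) (h3 hk).2⟩, fun hk => ?_⟩
  · rcases h1 t ht hk with h5 | ⟨h5, h6⟩
    · exact Or.inl (h _ _ _ _ ht h5)
    · refine Or.inr ⟨h _ _ _ _ ht h5, fun u v huv => ?_⟩
      have h7 := hL.closed.compL u v (huv ▸ ht)
      exact ⟨h _ _ _ _ h7.1 (h6 u v huv).1, h _ _ _ _ h7.2 (h6 u v huv).2⟩
  · rcases h4 hk with h5 | h5
    · exact Or.inl (h _ _ _ _ (hat _) h5)
    · exact Or.inr (h _ _ _ _ (hat _) h5)

private theorem ans_old {L : List RT} {t : RT} (ht : t ∉ L) {p : A.C} {k : ℕ} (hk : k ∈ Reqs L)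
    {a b c : A.C} (ha : Ans L (Has p) k a b c) : Ans (L ++ [t]) (Has p) k a b c := by
  obtain ⟨h1, h2, h3, h4⟩ := ha
  refine ⟨fun w hw hwk => ?_, h2, h3, h4⟩
  rw [List.mem_append, List.mem_singleton] at hw
  rcases hw with hw | rfl
  · exact h1 w hw hwk
  · exfalso
    unfold Reqs at hk
    rw [List.mem_append, List.mem_map] at hk
    rcases hk with ⟨w', hw', h5⟩ | h5
    · exact ht (code_inj (hwk.trans h5.symm) ▸ hw')
    · simp only [List.mem_cons, List.not_mem_nil, or_false] at h5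
      rcases h5 with h5 | h5 | h5 | h5 | h5 | h5 | h5 | h5
      · exact code_ne_kf _ _ (hwk.trans h5)
      · exact code_ne_kf _ _ (hwk.trans h5)
      · exact code_ne_kf _ _ (hwk.trans h5)
      · exact code_ne_kf _ _ (hwk.trans h5)
      · exact code_ne_kf _ _ (hwk.trans h5)
      · exact code_ne_kf _ _ (hwk.trans h5)
      · exact code_ne_kp _ (hwk.trans h5)
      · exact code_ne_kd _ (hwk.trans h5)

private theorem ans_new {L : List RT} {t : RT} {p a b c : A.C}
    (h : Has p false t a b ∨ (Has p true t a b ∧ ∀ u v, t = .comp u v →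
      Has p true u a c ∧ Has p true v c b)) : Ans (L ++ [t]) (Has p) t.code a b c := by
  refine ⟨fun w _ hwk => ?_, fun i _ hk => absurd hk (code_ne_kf _ _),
    fun hk => absurd hk (code_ne_kp _), fun hk => absurd hk (code_ne_kd _)⟩
  rw [code_inj hwk]
  exact h

/-- the induction claim for `l` -/
private def Cl (L : List RT) (u v : RT) (S T l : A.C) : Prop :=
  ∀ c, c ≤ S → ∀ p, p < ex (fb (L ++ [.comp u v]) S) → ∀ r, r < ex (fb L S) → ∀ F, F ≤ T →
    ∀ B, B ≤ T → c + l ≤ S → Supp (L ++ [.comp u v]) c p → IsRes L p r → F + ex l ≤ B →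
      Win L c r B → One u v c p → Two L u v c p r F → Win (L ++ [.comp u v]) c p l

private theorem Cl.dfn (L : List RT) (u v : RT) (S T : A.C) :
    DfnM A (fun l => Cl L u v S T l) := by
  unfold Cl
  refine DfnM.ballLe (by fun_prop) (DfnM.ballLt (by fun_prop) (DfnM.ballLt (by fun_prop)
    (DfnM.ballLe (by fun_prop) (DfnM.ballLe (by fun_prop) ?_))))
  refine DfnM.imp (by fun_prop) (DfnM.imp (Supp.dfn _ (by fun_prop) (by fun_prop)) (DfnM.imp
    (IsRes.dfn _ (by fun_prop) (by fun_prop)) (DfnM.imp (by fun_prop) (DfnM.imp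
      (Win.dfn _ (by fun_prop) (by fun_prop) (by fun_prop)) (DfnM.imp (One.dfn _ _ (by fun_prop)
        (by fun_prop)) (DfnM.imp (Two.dfn _ _ _ (by fun_prop) (by fun_prop) (by fun_prop)
          (by fun_prop)) (Win.dfn _ (by fun_prop) (by fun_prop) (by fun_prop))))))))

private theorem cl_use {L : List RT} {u v : RT} {S T l c p r F B : A.C} (h : Cl L u v S T l)
    (hB : B ≤ T) (hl : c + l ≤ S) (hs : Supp (L ++ [.comp u v]) c p) (hr : IsRes L p r)
    (hF : F + ex l ≤ B) (hw : Win L c r B) (h1 : One u v c p) (h2 : Two L u v c p r F) :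
    Win (L ++ [.comp u v]) c p l := by
  have hc : c ≤ S := le_self_add.trans hl
  refine h c hc p ?_ r ?_ F ((le_self_add.trans hF).trans hB) B hB hl hs hr hF hw h1 h2
  · exact (pos_lt hs).trans_le (ex_le_ex (fb_mono _ hc))
  · exact (pos_lt hw.toPos.sup).trans_le (ex_le_ex (fb_mono _ hc))

/-- condition (2) for a larger position -/
private theorem two_up {L : List RT} (hL : Built L) {u v : RT} (hu : u ∈ L) (hv : v ∈ L)
    {c p r F r' F' x y q1 : A.C} (h2 : Two L u v c p r F) (hs : Supp L c r)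
    (hrr : ∀ i, Mem i r → Mem i r') (hFF : F ≤ F') (hx : x < c) (hy : y < c)
    (hh : Has p false (.comp u v) x y) (hq1 : Ext r' q1 u v x y (c + 1))
    (hw : Win L (c + 1 + 1) q1 F') : False := by
  obtain ⟨q0, hq0⟩ := exists_ext r u v x y c
  have hc : c ≤ c + 1 := ((lt_add_one_iff' _ _).2 le_rfl).le
  exact h2.use hu hv hs hx hy hh hq0
    (win_shift hL hu hv hx hy hc hs hrr hq0 hq1 (hw.mono hFF))

private theorem cl_step {L : List RT} (hL : Built L) {u v : RT} (hu : u ∈ L) (hv : v ∈ L)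
    (ht : .comp u v ∉ L) {S T l : A.C} (ih : Cl L u v S T l) : Cl L u v S T (l + 1) := by
  intro c hcS p hp r hr F hFT B hBT hl hs hres hFB hw h1 h2
  have hone : (1 : A.C) ≤ ex l := one_le_ex l
  have hcc : c < c + 1 := (lt_add_one_iff' _ _).2 le_rfl
  have hFB' : F + ex l + ex l ≤ B := by
    rw [ex_add_one, ← add_assoc] at hFB
    exact hFB
  have hl' : c + 1 + l ≤ S := by
    calc c + 1 + l = c + (l + 1) := by ring
      _ ≤ S := hl
  have hF0 : F ≤ B := (le_self_add.trans hFB)
  have hsr : Supp L c r := hw.toPos.sup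
  rw [win_succ]
  refine ⟨pos_comp hL hu hv hs hres hF0 hw h1 h2, ?_⟩
  intro k hk a b ha hb
  -- facts of `t` in `p`
  have hpt : ∀ s x y, Has p s (.comp u v) x y → x < c ∧ y < c := fun s x y hh => sup_fc (hs _ hh)
  have hkk : k ∈ Reqs L ∨ k = (RT.comp u v).code := by
    unfold Reqs at hk ⊢
    simp only [List.map_append, List.mem_append, List.map_cons, List.map_nil, List.mem_singleton]
      at hk ⊢
    tauto
  rcases hkk with hk | rfl
  · -- an old request
    obtain ⟨B1, rfl⟩ := (pos_iff_exists B).1 (lt_of_lt_of_le (lt_of_lt_of_le zero_lt_one hone)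
      (le_add_self.trans hFB'))
    obtain ⟨-, h3⟩ := (win_succ L c r B1).1 hw
    obtain ⟨q0, hq0, hans, hwin⟩ := h3 k hk a b ha hb
    obtain ⟨q, hq⟩ := exists_res L q0
    have hrq : ∀ i, Mem i r → Mem i q := fun i hi => hq.2 i (hq0 i hi) (hres.1 i hi).2
    have hwq : Win L (c + 1) q B1 :=
      win_sub hL (lt_of_le_of_lt zero_le hcc) le_rfl (fun i hi => hwin.toPos.sup i (hq.1 i hi).1)
        (fun i hi => (hq.1 i hi).1) hwin
    have hansq : Ans L (Has q) k a b c := ans_res hL hq hans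
    obtain ⟨p2, hp2⟩ := exists_union q p
    have hFB1 : F + ex l ≤ B1 := by
      have h4 : F + ex l + 1 ≤ B1 + 1 := by
        calc F + ex l + 1 ≤ F + ex l + ex l := by gcongr
          _ ≤ B1 + 1 := hFB'
      exact le_of_add_le_add_right h4
    have hnt : ∀ s x y, ¬ Has q s (.comp u v) x y := fun s x y hh =>
      ht (fct_fc.1 (hq.1 _ hh).2)
    have hold : ∀ s x y, Has p2 s (.comp u v) x y → Has p s (.comp u v) x y := by
      intro s x y hh
      rcases (hp2 _).1 hh with h5 | h5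
      · exact absurd h5 (hnt s x y)
      · exact h5
    refine ⟨p2, fun i hi => (hp2 i).2 (Or.inr hi), ans_old ht hk (ans_mono
      (fun i hi => (hp2 i).2 (Or.inl hi)) hansq), cl_use ih (B := B1) (F := F) (r := q) ?_ hl' ?_ ?_
      hFB1 hwq ?_ ?_⟩
    · exact (le_self_add).trans hBT
    · intro i hi
      rcases (hp2 i).1 hi with h5 | h5
      · exact sup_mono (hwq.toPos.sup i h5) le_rfl
      · exact sup_mono' (hs i h5) hcc.le
    · refine ⟨fun i hi => ⟨(hp2 i).2 (Or.inl hi), (hq.1 i hi).2⟩, fun i hi hf => ?_⟩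
      rcases (hp2 i).1 hi with h5 | h5
      · exact h5
      · exact hrq i (hres.2 i h5 hf)
    · intro x _ y _ hh
      obtain ⟨hx, hy⟩ := hpt _ _ _ (hold _ _ _ hh)
      obtain ⟨e, he, h5, h6⟩ := h1 x hx y hy (hold _ _ _ hh)
      exact ⟨e, he.trans hcc, (hp2 _).2 (Or.inr h5), (hp2 _).2 (Or.inr h6)⟩
    · intro x _ y _ hh q1 _ hq1 hw1
      obtain ⟨hx, hy⟩ := hpt _ _ _ (hold _ _ _ hh)
      exact two_up hL hu hv h2 hsr hrq le_rfl hx hy (hold _ _ _ hh) hq1 hw1
  · -- the new term
    obtain ⟨q, hq⟩ := exists_ext r u v a b c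
    have hrq : ∀ i, Mem i r → Mem i q := fun i hi => (hq i).2 (Or.inl hi)
    have hqf : ∀ i, Mem i q → Fct L i := by
      intro i hi
      rcases (hq i).1 hi with h5 | h5 | h5
      · exact (hres.1 i h5).2
      · rw [h5]
        exact fct_fc.2 hu
      · rw [h5]
        exact fct_fc.2 hv
    have hnt : ∀ s x y, ¬ Has q s (.comp u v) x y := fun s x y hh => ht (fct_fc.1 (hqf _ hh))
    by_cases hm : Win L (c + 1) q (F + ex l)
    · obtain ⟨p1, hp1⟩ := exists_union p q
      obtain ⟨p2, hp2⟩ := exists_ins (fc true (.comp u v) a b) p1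
      have hp2q : ∀ i, Mem i q → Mem i p2 := fun i hi => (hp2 i).2 (Or.inl ((hp1 i).2 (Or.inr hi)))
      have hp2p : ∀ i, Mem i p → Mem i p2 := fun i hi => (hp2 i).2 (Or.inl ((hp1 i).2 (Or.inl hi)))
      have hua : Has p2 true u a c := hp2q _ ((hq _).2 (Or.inr (Or.inl rfl)))
      have hvb : Has p2 true v c b := hp2q _ ((hq _).2 (Or.inr (Or.inr rfl)))
      have hold : ∀ s x y, Has p2 s (.comp u v) x y →
          Has p s (.comp u v) x y ∨ (s = true ∧ x = a ∧ y = b) := by
        intro s x y hh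
        rcases (hp2 _).1 hh with h5 | h5
        · rcases (hp1 _).1 h5 with h6 | h6
          · exact Or.inl h6
          · exact absurd h6 (hnt s x y)
        · have h6 := fc_inj h5
          exact Or.inr ⟨h6.1, h6.2.2.1, h6.2.2.2⟩
      refine ⟨p2, hp2p, ans_new (Or.inr ⟨(hp2 _).2 (Or.inr rfl), fun u' v' huv => ?_⟩),
        cl_use ih (B := F + ex l) (F := F) (r := q) ?_ hl' ?_ ?_ le_rfl hm ?_ ?_⟩
      · injection huv with h5 h6
        rw [← h5, ← h6]
        exact ⟨hua, hvb⟩
      · exact (le_self_add.trans hFB').trans hBT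
      · intro i hi
        rcases (hp2 i).1 hi with h5 | h5
        · rcases (hp1 i).1 h5 with h6 | h6
          · exact sup_mono' (hs i h6) hcc.le
          · exact sup_mono (hm.toPos.sup i h6) le_rfl
        · rw [h5]
          exact sup_of_fc _ (by simp) (ha.trans hcc) (hb.trans hcc)
      · refine ⟨fun i hi => ⟨hp2q i hi, hqf i hi⟩, fun i hi hf => ?_⟩
        rcases (hp2 i).1 hi with h5 | h5
        · rcases (hp1 i).1 h5 with h6 | h6
          · exact hrq i (hres.2 i h6 hf)
          · exact h6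
        · rw [h5] at hf
          exact absurd (fct_fc.1 hf) ht
      · intro x _ y _ hh
        rcases hold _ _ _ hh with h5 | ⟨-, rfl, rfl⟩
        · obtain ⟨hx, hy⟩ := hpt _ _ _ h5
          obtain ⟨e, he, h6, h7⟩ := h1 x hx y hy h5
          exact ⟨e, he.trans hcc, hp2p _ h6, hp2p _ h7⟩
        · exact ⟨c, hcc, hua, hvb⟩
      · intro x _ y _ hh q1 _ hq1 hw1
        rcases hold _ _ _ hh with h5 | ⟨h5, -, -⟩
        · obtain ⟨hx, hy⟩ := hpt _ _ _ h5
          exact two_up hL hu hv h2 hsr hrq le_rfl hx hy h5 hq1 hw1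
        · exact absurd h5 (by decide)
    · obtain ⟨p2, hp2⟩ := exists_ins (fc false (.comp u v) a b) p
      have hp2p : ∀ i, Mem i p → Mem i p2 := fun i hi => (hp2 i).2 (Or.inl hi)
      have hold : ∀ s x y, Has p2 s (.comp u v) x y →
          Has p s (.comp u v) x y ∨ (s = false ∧ x = a ∧ y = b) := by
        intro s x y hh
        rcases (hp2 _).1 hh with h5 | h5
        · exact Or.inl h5
        · have h6 := fc_inj h5
          exact Or.inr ⟨h6.1, h6.2.2.1, h6.2.2.2⟩
      refine ⟨p2, hp2p, ans_new (Or.inl ((hp2 _).2 (Or.inr rfl))),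
        cl_use ih (B := B) (F := F + ex l) (r := r) hBT hl' ?_ ?_ hFB' (win_dummy hL hw) ?_ ?_⟩
      · intro i hi
        rcases (hp2 i).1 hi with h5 | h5
        · exact sup_mono' (hs i h5) hcc.le
        · rw [h5]
          exact sup_of_fc _ (by simp) (ha.trans hcc) (hb.trans hcc)
      · refine ⟨fun i hi => ⟨hp2p i (hres.1 i hi).1, (hres.1 i hi).2⟩, fun i hi hf => ?_⟩
        rcases (hp2 i).1 hi with h5 | h5
        · exact hres.2 i h5 hf
        · rw [h5] at hf
          exact absurd (fct_fc.1 hf) ht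
      · intro x _ y _ hh
        rcases hold _ _ _ hh with h5 | ⟨h5, -, -⟩
        · obtain ⟨hx, hy⟩ := hpt _ _ _ h5
          obtain ⟨e, he, h6, h7⟩ := h1 x hx y hy h5
          exact ⟨e, he.trans hcc, hp2p _ h6, hp2p _ h7⟩
        · exact absurd h5 (by decide)
      · intro x _ y _ hh q1 _ hq1 hw1
        rcases hold _ _ _ hh with h5 | ⟨-, rfl, rfl⟩
        · obtain ⟨hx, hy⟩ := hpt _ _ _ h5
          exact two_up hL hu hv h2 hsr (fun i hi => hi) le_self_add hx hy h5 hq1 hw1
        · exact hm (win_shift hL hu hv ha hb hcc.le hsr (fun i hi => hi) hq hq1 hw1)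

private theorem cl_zero {L : List RT} (hL : Built L) {u v : RT} (hu : u ∈ L) (hv : v ∈ L)
    (S T : A.C) : Cl L u v S T 0 := by
  intro c hcS p hp r hr F hFT B hBT hl hs hres hFB hw h1 h2
  rw [win_zero]
  exact pos_comp hL hu hv hs hres (le_self_add.trans hFB) hw h1 h2

theorem step_comp {L : List RT} (hL : Built L) {u v : RT} (hu : u ∈ L) (hv : v ∈ L)
    (ht : .comp u v ∉ L) (h : ∀ B : A.C, Win L (1 : A.C) 0 B) (B : A.C) :
    Win (L ++ [.comp u v]) (1 : A.C) 0 B := by
  have hcl : Cl L u v (1 + B) (ex B) B :=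
    dind (Cl.dfn L u v (1 + B) (ex B)) (cl_zero hL hu hv _ _) (fun l ih => cl_step hL hu hv ht ih) B
  refine cl_use hcl (c := 1) (p := 0) (r := 0) (F := 0) (B := ex B) le_rfl le_rfl ?_ ?_ ?_
    (h _) ?_ ?_
  · exact fun i hi => absurd hi (not_mem_zero i)
  · exact ⟨fun i hi => absurd hi (not_mem_zero i), fun i hi => absurd hi (not_mem_zero i)⟩
  · rw [zero_add]
  · exact fun a _ b _ hh => absurd hh (not_mem_zero _)
  · exact fun a _ b _ hh => absurd hh (not_mem_zero _)

end Pool.Agent.Work.MP_de7025_lc.F
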