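import Pool.Agent.Work.MP_de7025_lc.F.G6
import Pool.Agent.Work.MP_de7025_lc.F.G7
import Pool.Agent.Work.MP_de7025_lc.F.G8

set_option autoImplicit false

/-!
# F/G9 (M): every model of EFA contains tables of every length

`TT t k a b` is `Mem (pr k (pr a b)) t`.
PROOF. `win_all`: induction on `Built`. `exists_tab`: let `Y = pr (K) (pr z z) + z + 1` with a numeral `K` larger than all `k ∈ Reqs L`. By induction on `x` (definable, bounded quantifier over `p < ex (fb L (1 + Y))`): for `x ≤ Y` there is `p` with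
`Win L (1 + x) p d` for the `d` with `x + d = Y`, such that for all `y < x`, `k ∈ Reqs L`, `a, b` with `y = pr k (pr a b)`: `Ans L (Has p) k a b (1 + y)`. Step: if `x = pr k (pr a b)` for some `k ∈ Reqs L` (then `k, a, b` are unique, and `a, b ≤ x < 1 + x`)
use `win_succ`; otherwise `win_dummy` and `Win.mono`. `Ans` is kept when `p` grows (all its facts are positive statements `D s t a b`). For `x = Y`: `Pos L (1 + Y) p`, and all requests `(k, a, b)` with `pr k (pr a b) < Y` are answered, in particular all with `a, b < z`.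
Let `t` be the set of all `i` with `Mem (pr 1 i) p` (`compr'`), so `TT t r.code a b ↔ Has p true r a b`. For `r ∈ L`, `a, b < z`: `Has p true r a b` or `Has p false r a b` (request `r.code`), not both (`OK`, first clause of `tmCl r`).
So `sg (TT t) s r a b ↔ Has p s r a b`. `Tab.ok`: a violated clause of the table would be a violated clause of `p` (all terms in the clauses are in `L`: `Built.closed`, `Built.cl`). `Tab.ans`: `W k a b = 1 + pr k (pr a b)`.
-/

namespace Pool.Agent.Work.MP_de7025_lc.F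

variable {A : ArStr.{0}} [IsE A]

theorem win_all {L : List RT} (hL : Built L) (B : A.C) : Win L (1 : A.C) 0 B := by
  induction hL generalizing B with
  | atoms => exact win_base B
  | nand hL hu hv hn ih => exact step_nand hL hu hv hn ih B
  | comp hL hu hv hn ih => exact step_comp hL hu hv hn ih B
  | conv hL hu hn ih => exact step_conv hL hu hn ih B

private theorem ans_mono {L : List RT} {p p' : A.C} (hp : ∀ i, Mem i p → Mem i p') {k : ℕ}
    {a b c : A.C} (h : Ans L (Has p) k a b c) : Ans L (Has p') k a b c :=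
  ⟨fun t ht hk => (h.1 t ht hk).imp (fun x => hp _ x) (fun x => ⟨hp _ x.1, fun u v e =>
      ⟨hp _ (x.2 u v e).1, hp _ (x.2 u v e).2⟩⟩), fun i hi hk => hp _ (h.2.1 i hi hk),
    fun hk => ⟨hp _ (h.2.2.1 hk).1, hp _ (h.2.2.1 hk).2⟩, fun hk => (h.2.2.2 hk).imp (hp _) (hp _)⟩

private theorem run {L : List RT} (hL : Built L) (Y x : A.C) : x ≤ Y →
    ∃ p, p < ex (fb L (1 + Y)) ∧ ((∃ d, d ≤ Y ∧ (x + d = Y ∧ Win L (1 + x) p d)) ∧
      ∀ k ∈ Reqs L, ∀ a, a < x → ∀ b, b < x → pr (k : A.C) (pr a b) < x →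
        Ans L (Has p) k a b (1 + pr (k : A.C) (pr a b))) := by
  refine dind (P := fun x => x ≤ Y →
    ∃ p, p < ex (fb L (1 + Y)) ∧ ((∃ d, d ≤ Y ∧ (x + d = Y ∧ Win L (1 + x) p d)) ∧
      ∀ k ∈ Reqs L, ∀ a, a < x → ∀ b, b < x → pr (k : A.C) (pr a b) < x →
        Ans L (Has p) k a b (1 + pr (k : A.C) (pr a b)))) ?_ ?_ ?_ x
  · refine DfnM.imp (by fun_prop) ?_
    refine DfnM.bexLt (f := fun _ : A.C => ex (fb L (1 + Y)))
      (P := fun x p => (∃ d, d ≤ Y ∧ (x + d = Y ∧ Win L (1 + x) p d)) ∧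
      ∀ k ∈ Reqs L, ∀ a, a < x → ∀ b, b < x → pr (k : A.C) (pr a b) < x →
        Ans L (Has p) k a b (1 + pr (k : A.C) (pr a b))) (by fun_prop) ?_
    refine DfnM.and ?_ ?_
    · refine DfnM.bexLe (f := fun _ : A.C × A.C => Y)
        (P := fun g d => (g.1 + d = Y ∧ Win L (1 + g.1) g.2 d)) (by fun_prop) ?_
      refine DfnM.and (by fun_prop) ?_
      exact Win.dfn L (by fun_prop) (by fun_prop) (by fun_prop)
    · refine dfn_ball_list (Reqs L) (P := fun k (g : A.C × A.C) => ∀ a, a < g.1 → ∀ b, b < g.1 →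
        pr (k : A.C) (pr a b) < g.1 → Ans L (Has g.2) k a b (1 + pr (k : A.C) (pr a b)))
        (fun k _ => ?_)
      refine DfnM.ballLt (f := fun g : A.C × A.C => g.1) (P := fun g a => ∀ b, b < g.1 →
        pr (k : A.C) (pr a b) < g.1 → Ans L (Has g.2) k a b (1 + pr (k : A.C) (pr a b)))
        (by fun_prop) ?_
      refine DfnM.ballLt (f := fun g : (A.C × A.C) × A.C => g.1.1) (P := fun g b =>
        pr (k : A.C) (pr g.2 b) < g.1.1 →
        Ans L (Has g.1.2) k g.2 b (1 + pr (k : A.C) (pr g.2 b))) (by fun_prop) ?_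
      refine DfnM.imp (by fun_prop) ?_
      exact Ans.dfn L k (by fun_prop) (by fun_prop) (by fun_prop) (by fun_prop)
  · intro _
    have h1 : Win L (1 + 0 : A.C) 0 Y := by
      rw [add_zero]
      exact win_all hL Y
    refine ⟨0, ex_pos _, ⟨Y, le_rfl, zero_add Y, h1⟩, fun k _ a ha => ?_⟩
    exact absurd ha not_lt_zero
  · intro x ih hx
    have hlt : x < x + 1 := (lt_add_one_iff' _ _).2 le_rfl
    obtain ⟨p, hp, ⟨d, hd, hxd, hw⟩, hans⟩ := ih (hlt.le.trans hx)
    have hd0 : 0 < d := by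
      rw [pos_iff_ne_zero]
      rintro rfl
      rw [add_zero] at hxd
      rw [hxd] at hx hlt
      exact absurd hx (not_le.2 hlt)
    obtain ⟨d', rfl⟩ := (pos_iff_exists d).1 hd0
    have e1 : x + 1 + d' = Y := by rw [← hxd]; ring
    have e2 : (1 : A.C) + (x + 1) = 1 + x + 1 := by ring
    have hd' : d' ≤ Y := by
      rw [← e1]
      exact le_add_self
    have hbd : ∀ p', Win L (1 + (x + 1)) p' d' → p' < ex (fb L (1 + Y)) := by
      intro p' h
      refine (pos_lt h.toPos.sup).trans_le (ex_le_ex (fb_mono L ?_))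
      exact add_le_add le_rfl hx
    have hlt1 : x < 1 + x := by
      rw [add_comm]
      exact hlt
    by_cases hex : ∃ k ∈ Reqs L, ∃ a b : A.C, x = pr (k : A.C) (pr a b)
    · obtain ⟨k, hk, a, b, e⟩ := hex
      have ha : a < 1 + x := by
        refine lt_of_le_of_lt ?_ hlt1
        rw [e]
        exact (le_pr_left a b).trans (le_pr_right _ _)
      have hb : b < 1 + x := by
        refine lt_of_le_of_lt ?_ hlt1
        rw [e]
        exact (le_pr_right a b).trans (le_pr_right _ _)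
      obtain ⟨p', hpp, hA, hw'⟩ := ((win_succ L _ _ _).1 hw).2 k hk a b ha hb
      rw [← e2] at hw'
      refine ⟨p', hbd p' hw', ⟨d', hd', e1, hw'⟩, fun k' hk' a' _ b' _ hlt' => ?_⟩
      rcases ((lt_add_one_iff' _ _).1 hlt').lt_or_eq with h1 | h1
      · refine ans_mono hpp (hans k' hk' a' ?_ b' ?_ h1)
        · exact lt_of_le_of_lt ((le_pr_left a' b').trans (le_pr_right _ _)) h1
        · exact lt_of_le_of_lt ((le_pr_right a' b').trans (le_pr_right _ _)) h1
      · have h2 : pr (k' : A.C) (pr a' b') = pr (k : A.C) (pr a b) := h1.trans e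
        obtain ⟨h3, h4⟩ := pr_inj h2
        obtain ⟨h5, h6⟩ := pr_inj h4
        have h7 : k' = k := Nat.cast_inj.1 h3
        rw [h1, h5, h6, h7]
        exact hA
    · have hw' : Win L (1 + (x + 1)) p d' := by
        rw [e2]
        exact (win_dummy hL hw).mono le_self_add
      refine ⟨p, hp, ⟨d', hd', e1, hw'⟩, fun k' hk' a' _ b' _ hlt' => ?_⟩
      rcases ((lt_add_one_iff' _ _).1 hlt').lt_or_eq with h1 | h1
      · refine hans k' hk' a' ?_ b' ?_ h1
        · exact lt_of_le_of_lt ((le_pr_left a' b').trans (le_pr_right _ _)) h1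
        · exact lt_of_le_of_lt ((le_pr_right a' b').trans (le_pr_right _ _)) h1
      · exact absurd ⟨k', hk', a', b', h1.symm⟩ hex

private theorem ax_atom : ∀ cl ∈ axCl, ∀ f ∈ cl, ∃ i, f.t = .atom i := by
  simp [axCl, pp, mm]

theorem exists_tab {L : List RT} (hL : Built L) (z : A.C) :
    ∃ t : A.C, Tab L (TT t) (fun a => a < z) := by
  have hc := hL.closed
  let K : ℕ := (Reqs L).sum
  let Y : A.C := pr (K : A.C) (pr z z) + 1
  have hK : ∀ k ∈ Reqs L, (k : A.C) ≤ (K : A.C) := by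
    intro k hk
    rw [Nat.cast_le]
    exact List.single_le_sum (fun _ _ => Nat.zero_le _) _ hk
  have hY : ∀ k ∈ Reqs L, ∀ a b : A.C, a < z → b < z → pr (k : A.C) (pr a b) < Y := by
    intro k hk a b ha hb
    exact (lt_add_one_iff' _ _).2 (pr_mono (hK k hk) (pr_mono ha.le hb.le))
  have hzY : ∀ a : A.C, a < z → a < 1 + Y := by
    intro a ha
    refine ha.trans_le ?_
    calc z ≤ pr z z := le_pr_right _ _
      _ ≤ pr (K : A.C) (pr z z) := le_pr_right _ _
      _ ≤ Y := le_self_add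
      _ ≤ 1 + Y := le_add_self
  obtain ⟨p, -, ⟨d, -, -, hw⟩, hans⟩ := run hL Y Y le_rfl
  have hpos := hw.toPos
  obtain ⟨t, -, ht⟩ := compr' (P := fun i => Mem (pr 1 i) p) (by fun_prop) p (fun i hi =>
    lt_of_le_of_lt (le_pr_right _ _) (lt_of_mem hi))
  have hans' : ∀ k ∈ Reqs L, ∀ a b, a < z → b < z → Ans L (Has p) k a b (W (k : A.C) a b) := by
    intro k hk a b ha hb
    have h1 := hY k hk a b ha hb
    refine hans k hk a ?_ b ?_ h1
    · exact lt_of_le_of_lt ((le_pr_left a b).trans (le_pr_right _ _)) h1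
    · exact lt_of_le_of_lt ((le_pr_right a b).trans (le_pr_right _ _)) h1
  have hreq : ∀ r ∈ L, r.code ∈ Reqs L := fun r hr =>
    List.mem_append_left _ (List.mem_map_of_mem hr)
  have hT : ∀ r : RT, ∀ a b, TT t (r.code : A.C) a b ↔ Has p true r a b := by
    intro r a b
    unfold TT
    rw [ht]
    simp [Has, fc]
  have hor : ∀ r ∈ L, ∀ a b, a < z → b < z → (Has p false r a b ∨ Has p true r a b) := by
    intro r hr a b ha hb
    exact ((hans' _ (hreq r hr) a b ha hb).1 r hr rfl).imp (fun x => x) (fun x => x.1)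
  have hnot : ∀ r ∈ L, ∀ a b, a < z → b < z → Has p false r a b → ¬ Has p true r a b := by
    intro r hr a b ha hb h1 h2
    refine hpos.ok [⟨true, r, 0, 1⟩, ⟨false, r, 0, 1⟩] ?_ ?_
    · refine List.mem_append_right _ (List.mem_flatMap.2 ⟨r, hr, ?_⟩)
      cases r <;> simp [tmCl]
    · refine ⟨fun i => if i = 0 then a else b, fun i => ?_, ?_⟩
      · dsimp only
        split
        · exact hzY a ha
        · exact hzY b hb
      · intro f hf
        simp only [List.mem_cons, List.not_mem_nil, or_false] at hf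
        rcases hf with rfl | rfl
        · simpa using h2
        · simpa using h1
  have hsg : ∀ s, ∀ r ∈ L, ∀ a b, a < z → b < z → (sg (TT t) s r a b ↔ Has p s r a b) := by
    intro s r hr a b ha hb
    cases s
    · change ¬ TT t (r.code : A.C) a b ↔ _
      rw [hT]
      constructor
      · intro h
        exact (hor r hr a b ha hb).resolve_right h
      · exact hnot r hr a b ha hb
    · exact hT r a b
  refine ⟨t, ?_, ?_⟩
  · intro cl hcl hv
    refine hpos.ok cl hcl ?_
    obtain ⟨v, hv1, hv2⟩ := hv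
    refine ⟨v, fun i => hzY _ (hv1 i), fun f hf => ?_⟩
    have hfL : f.t ∈ L := by
      rcases List.mem_append.1 hcl with h | h
      · obtain ⟨i, hi⟩ := ax_atom cl h f hf
        rw [hi]
        exact hc.atoms i
      · obtain ⟨r, hr, hcr⟩ := List.mem_flatMap.1 h
        exact hL.cl r hr cl hcr f hf
    exact (hsg _ _ hfL _ _ (hv1 _) (hv1 _)).1 (hv2 f hf)
  · intro k hk a b ha hb hWz
    have h := hans' k hk a b ha hb
    refine ⟨fun r hr hrk => ?_, fun i hi hki => ?_, fun hkk => ?_, fun hkk => ?_⟩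
    · rcases h.1 r hr hrk with h1 | ⟨h1, h2⟩
      · exact Or.inl ((hsg _ _ hr _ _ ha hb).2 h1)
      · refine Or.inr ⟨(hsg _ _ hr _ _ ha hb).2 h1, fun u v e => ?_⟩
        subst e
        have h3 := hc.compL u v hr
        exact ⟨(hsg _ _ h3.1 _ _ ha hWz).2 (h2 u v rfl).1, (hsg _ _ h3.2 _ _ hWz hb).2 (h2 u v rfl).2⟩
    · exact (hsg _ _ (hc.atoms i) _ _ ha hWz).2 (h.2.1 i hi hki)
    · exact ⟨(hsg _ _ (hc.atoms 1) _ _ hWz ha).2 (h.2.2.1 hkk).1,
        (hsg _ _ (hc.atoms 2) _ _ hWz hb).2 (h.2.2.1 hkk).2⟩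
    · exact (h.2.2.2 hkk).imp (fun x => (hsg _ _ (hc.atoms 3) _ _ ha ha).2 x)
        (fun x => (hsg _ _ (hc.atoms 4) _ _ hWz ha).2 x)

private theorem built_add (t : RT) : ∀ L, Built L → ∃ L', Built L' ∧ (∀ x ∈ L, x ∈ L') ∧ t ∈ L' := by
  induction t with
  | atom i => exact fun L hL => ⟨L, hL, fun x hx => hx, hL.closed.atoms i⟩
  | nand u v ihu ihv =>
    intro L hL
    obtain ⟨L1, h1, h2, h3⟩ := ihu L hL
    obtain ⟨L2, h4, h5, h6⟩ := ihv L1 h1
    by_cases h : RT.nand u v ∈ L2
    · exact ⟨L2, h4, fun x hx => h5 x (h2 x hx), h⟩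
    · exact ⟨_, h4.nand (h5 _ h3) h6 h, fun x hx => List.mem_append_left _ (h5 x (h2 x hx)),
        List.mem_append_right _ (List.mem_singleton.2 rfl)⟩
  | comp u v ihu ihv =>
    intro L hL
    obtain ⟨L1, h1, h2, h3⟩ := ihu L hL
    obtain ⟨L2, h4, h5, h6⟩ := ihv L1 h1
    by_cases h : RT.comp u v ∈ L2
    · exact ⟨L2, h4, fun x hx => h5 x (h2 x hx), h⟩
    · exact ⟨_, h4.comp (h5 _ h3) h6 h, fun x hx => List.mem_append_left _ (h5 x (h2 x hx)),
        List.mem_append_right _ (List.mem_singleton.2 rfl)⟩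
  | conv u ihu =>
    intro L hL
    obtain ⟨L1, h1, h2, h3⟩ := ihu L hL
    by_cases h : RT.conv u ∈ L1
    · exact ⟨L1, h1, h2, h⟩
    · exact ⟨_, h1.conv h3 h, fun x hx => List.mem_append_left _ (h2 x hx),
        List.mem_append_right _ (List.mem_singleton.2 rfl)⟩

/-- every finite set of terms is contained in a built list -/
theorem exists_built (S : List RT) : ∃ L, Built L ∧ ∀ t ∈ S, t ∈ L := by
  induction S with
  | nil => exact ⟨_, Built.atoms, fun t ht => absurd ht List.not_mem_nil⟩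
  | cons s S ih =>
    obtain ⟨L, hL, h⟩ := ih
    obtain ⟨L', h1, h2, h3⟩ := built_add s L hL
    refine ⟨L', h1, fun t ht => ?_⟩
    rcases List.mem_cons.1 ht with rfl | ht
    · exact h3
    · exact h2 t (h t ht)

end Pool.Agent.Work.MP_de7025_lc.F
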