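import Pool.Agent.Work.MP_de7025_lc.F.R1

set_option autoImplicit false

/-!
# F/R3 (M): `f` is an isomorphism of `{0, ..., b}` onto an initial segment of `A'`

PROOF. `rdf_lt`: `j = i + (d + 1)`, `f j = f i + (f d + 1)` (`rdf_add`, `RdF.succ`). `rdf_surj`: let `n' ≤ f i`, `x` an element of `KT` with `Rep x n'` (`DefU.ex`). Fix `x` and prove by induction on `i` the definable predicate
`i ≤ b → (∃ v, v < G ∧ Mem (pr i v) g ∧ TT t J.le.code x v) → ∃ j, j ≤ i ∧ ∃ w, w < G ∧ Mem (pr j w) g ∧ TT t J.eq.code x w`. By `KT_truth`, `DefU.le`, `DefU.eq` it says: `n' ≤ f i` implies `n' = f j` for some `j ≤ i`.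
(`i = 0`: `n' ≤ 0`; step: `n' ≤ f i + 1` gives `n' ≤ f i` or `n' = f i + 1`.) `rdf_cast`: induction on `m`.
-/

namespace Pool.Agent.Work.MP_de7025_lc.F

variable {A : ArStr.{0}} [IsE A]

theorem rdf_lt {J : RInt} {L : List RT} {t z b g G : A.C} (S : Setup J L t z b g G)
    {A' : ArStr.{0}} [IsE A'] {Rep : (KT t G S.big).C → A'.C → Prop}
    (hJ : DefU J (KT t G S.big) A' Rep) {f : A.C → A'.C} (hf : RdF S Rep f) {i j : A.C}
    (hj : j ≤ b) (h : i < j) : f i < f j := by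
  obtain ⟨d, rfl⟩ := (le_iff_ex _ _).1 ((add_one_le_iff' _ _).2 h)
  have e : i + 1 + d = i + (d + 1) := by ring
  rw [e] at hj ⊢
  have h1 : d < b := (add_one_le_iff' _ _).1 (le_add_self.trans hj)
  rw [rdf_add S hJ hf _ _ hj, hf.succ d h1]
  exact lt_add_of_pos_right _ ((lt_add_one_iff' _ _).2 zero_le)

theorem rdf_surj {J : RInt} {L : List RT} {t z b g G : A.C} (S : Setup J L t z b g G)
    {A' : ArStr.{0}} [IsE A'] {Rep : (KT t G S.big).C → A'.C → Prop}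
    (hJ : DefU J (KT t G S.big) A' Rep) {f : A.C → A'.C} (hf : RdF S Rep f) {i : A.C}
    (hi : i ≤ b) {n : A'.C} (hn : n ≤ f i) : ∃ j, j ≤ i ∧ n = f j := by
  obtain ⟨x, hx⟩ := hJ.ex n
  have kle : ∀ i v, i ≤ b → Mem (pr i v) g →
      (TT t (J.le.code : A.C) x.1 v ↔ n ≤ f i) := by
    intro i v hi h1
    obtain ⟨hv, rv⟩ := hf.rep i v hi h1
    have h2 := (KT_truth S).2 J.le (S.need _ (by simp [needL])) x ⟨v, hv⟩
    rw [← h2]
    exact hJ.le x ⟨v, hv⟩ _ _ hx rv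
  have keq : ∀ i v, i ≤ b → Mem (pr i v) g →
      (TT t (J.eq.code : A.C) x.1 v ↔ n = f i) := by
    intro i v hi h1
    obtain ⟨hv, rv⟩ := hf.rep i v hi h1
    have h2 := (KT_truth S).2 J.eq (S.need _ (by simp [needL])) x ⟨v, hv⟩
    rw [← h2]
    exact hJ.eq x ⟨v, hv⟩ _ _ hx rv
  let P : A.C → Prop := fun i => i ≤ b →
    (∃ v, v < G ∧ (Mem (pr i v) g ∧ Mem (pr (J.le.code : A.C) (pr x.1 v)) t)) →
    ∃ j, j ≤ i ∧ ∃ w, w < G ∧ (Mem (pr j w) g ∧ Mem (pr (J.eq.code : A.C) (pr x.1 w)) t)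
  have hP : DfnM A P := by
    refine DfnM.imp (by fun_prop) (DfnM.imp (DfnM.bexLt (by fun_prop) (by fun_prop))
      (DfnM.bexLe (by fun_prop) (DfnM.bexLt (by fun_prop) (by fun_prop))))
  have hPQ : ∀ i, P i ↔ (i ≤ b → n ≤ f i → ∃ j, j ≤ i ∧ n = f j) := by
    intro i
    constructor
    · intro h1 h2 h3
      obtain ⟨v, hv, h4⟩ := S.tot i h2
      obtain ⟨j, hj, w, -, h5, h6⟩ := h1 h2 ⟨v, hv, h4, (kle i v h2 h4).2 h3⟩
      exact ⟨j, hj, (keq j w (hj.trans h2) h5).1 h6⟩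
    · rintro h1 h2 ⟨v, -, h3, h4⟩
      obtain ⟨j, hj, h5⟩ := h1 h2 ((kle i v h2 h3).1 h4)
      obtain ⟨w, hw, h6⟩ := S.tot j (hj.trans h2)
      exact ⟨j, hj, w, hw, h6, (keq j w (hj.trans h2) h6).2 h5⟩
  have main : ∀ i, P i := by
    refine dind hP ?_ ?_
    · rw [hPQ]
      intro _ h
      refine ⟨0, le_rfl, ?_⟩
      rw [hf.zero] at h ⊢
      exact le_antisymm h zero_le
    · intro i ih
      rw [hPQ] at ih ⊢
      intro h1 h2
      have h3 : i < b := (add_one_le_iff' _ _).1 h1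
      rcases h2.lt_or_eq with h4 | h4
      · rw [hf.succ i h3, lt_add_one_iff'] at h4
        obtain ⟨j, hj, e⟩ := ih h3.le h4
        exact ⟨j, hj.trans le_self_add, e⟩
      · exact ⟨i + 1, le_rfl, h4⟩
  exact (hPQ i).1 (main i) hi hn

theorem rdf_cast {J : RInt} {L : List RT} {t z b g G : A.C} (S : Setup J L t z b g G)
    {A' : ArStr.{0}} [IsE A'] {Rep : (KT t G S.big).C → A'.C → Prop}
    {f : A.C → A'.C} (hf : RdF S Rep f) (m : ℕ)
    (hm : (m : A.C) ≤ b) : f (m : A.C) = (m : A'.C) := by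
  induction m with
  | zero => rw [Nat.cast_zero, Nat.cast_zero, hf.zero]
  | succ m ih =>
    rw [Nat.cast_succ] at hm
    have h3 : (m : A.C) < b := (add_one_le_iff' _ _).1 hm
    rw [Nat.cast_succ, Nat.cast_succ, hf.succ _ h3, ih h3.le]

end Pool.Agent.Work.MP_de7025_lc.F
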