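import Pool.Agent.Work.MP_de7025_lc.F.R0
import Pool.Agent.Work.MP_de7025_lc.F.E3

set_option autoImplicit false

/-!
# F/R4 (S-M): reading a set

PROOF. Let `x` represent `t'` (`DefU.ex`). `compr'` for the definable predicate `i ≤ b ∧ ∃ v, v < G ∧ Mem (pr i v) g ∧ TT t μ.code v x` (`x.1` is a parameter) with the bound `b + 1`. By `KT_truth` (`μ ∈ L`) and `Hμ` this says `i ≤ b ∧ Mem (f i) t'`.
-/

namespace Pool.Agent.Work.MP_de7025_lc.F

variable {A : ArStr.{0}} [IsE A]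

theorem rdf_read {J : RInt} {L : List RT} {t z b g G : A.C} (S : Setup J L t z b g G)
    {μ : RT} (hμ : μ ∈ L)
    (Hμ : ∀ (K : UStr), UAx K → ∀ (A : ArStr.{0}) [IsE A] (Rep : K.C → A.C → Prop),
      DefU J K A Rep → ∀ (a b : K.C) (x y : A.C), Rep a x → Rep b y → (μ.eval K a b ↔ Mem x y))
    {A' : ArStr.{0}} [IsE A'] {Rep : (KT t G S.big).C → A'.C → Prop}
    (hJ : DefU J (KT t G S.big) A' Rep) {f : A.C → A'.C} (hf : RdF S Rep f) (t' : A'.C) :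
    ∃ u : A.C, ∀ i, Mem i u ↔ i ≤ b ∧ Mem (f i) t' := by
  obtain ⟨x, hx⟩ := hJ.ex t'
  obtain ⟨hU, htr⟩ := KT_truth S
  have key : ∀ i v, i ≤ b → Mem (pr i v) g → (TT t (μ.code : A.C) v x.1 ↔ Mem (f i) t') := by
    intro i v hi hv
    obtain ⟨hc, hr⟩ := hf.rep i v hi hv
    have h1 := htr μ hμ ⟨v, hc⟩ x
    have h2 := Hμ (KT t G S.big) hU A' Rep hJ ⟨v, hc⟩ x (f i) t' hr hx
    exact h1.symm.trans h2
  have hd : DfnM A (fun i : A.C =>
      i ≤ b ∧ ∃ v, v < G ∧ Mem (pr i v) g ∧ TT t (μ.code : A.C) v x.1) := by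
    refine DfnM.and (by fun_prop) (DfnM.bexLt (by fun_prop) ?_)
    refine DfnM.and ?_ ?_
    · exact Mem.dfn (pr.dfn (by fun_prop) (by fun_prop)) (by fun_prop)
    · exact Mem.dfn (pr.dfn (by fun_prop) (pr.dfn (by fun_prop) (by fun_prop))) (by fun_prop)
  obtain ⟨u, -, hu⟩ := compr' hd (b + 1) (fun i hi => (lt_add_one_iff' i b).mpr hi.1)
  refine ⟨u, fun i => ?_⟩
  rw [hu]
  constructor
  · rintro ⟨hi, v, hvG, hv, ht⟩
    exact ⟨hi, (key i v hi hv).mp ht⟩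
  · rintro ⟨hi, hm⟩
    obtain ⟨v, hvG, hv⟩ := S.tot i hi
    exact ⟨hi, v, hvG, hv, (key i v hi hv).mpr hm⟩

end Pool.Agent.Work.MP_de7025_lc.F
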