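import Pool.Agent.Work.MP_de7025_lc.F.R2
import Pool.Agent.Work.MP_de7025_lc.F.R3
import Pool.Agent.Work.MP_de7025_lc.F.R4
import Pool.Agent.Work.MP_de7025_lc.F.T2
import Pool.Agent.Work.MP_de7025_lc.F.T5
import Pool.Agent.Work.MP_de7025_lc.F.G5

set_option autoImplicit false

/-!
# F/R5 (M): a table of `A'` of length `f y` gives a table of `A` of length `y`

PROOF. `u` from `rdf_read`. By `tblX_iff` (in `A'` and in `A`). `Tab`: `tab_transfer` with the map `f`, `H1 = (· < y)`, `H2 = (· < f y)` (`rdf_lt`). For `r ∈ L`, `a, c < y`: `i = pr r.code (pr a c) ≤ b` (hypothesis `hb`, `pr_mono`, `r.code ≤ M`), so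
`TT u r.code a c ↔ Mem (f i) t'`, and `f i = pr r.code (pr (f a) (f c))`: `pr x y = (x + y) * (x + y) + y`, all intermediate values are `≤ i ≤ b` (`rdf_add`, `rdf_mul`, `rdf_cast` for `r.code`). `W k a c < y ≤ b`: the same.
Root: if `hh J n < y` then `f (hh J n) = hh J n` (`rdf_cast`), it is `< f y`, so `TT t' r.code (hh J n) (hh J n)`, and read it off.
-/

namespace Pool.Agent.Work.MP_de7025_lc.F

variable {A : ArStr.{0}} [IsE A]

private theorem le_sq' (x : A.C) : x ≤ x * x := by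
  rcases eq_or_ne x 0 with h | h
  · rw [h]
    simp
  · obtain ⟨w, rfl⟩ := (pos_iff_exists x).mp (pos_iff_ne_zero.mpr h)
    exact le_mul_of_one_le_left zero_le ((le_iff_ex _ _).mpr ⟨w, by ring⟩)

private theorem rdf_pr {J : RInt} {L : List RT} {t z b g G : A.C} (S : Setup J L t z b g G)
    {A' : ArStr.{0}} [IsE A'] {Rep : (KT t G S.big).C → A'.C → Prop}
    (hJ : DefU J (KT t G S.big) A' Rep) {f : A.C → A'.C} (hf : RdF S Rep f) (x y : A.C)
    (h : pr x y ≤ b) : f (pr x y) = pr (f x) (f y) := by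
  have h2 : (x + y) * (x + y) ≤ b := le_trans (by unfold pr; exact le_self_add) h
  have h1 : x + y ≤ b := (le_sq' _).trans h2
  unfold pr at h ⊢
  rw [rdf_add S hJ hf _ _ h, rdf_mul S hJ hf _ _ h1 h1 h2, rdf_add S hJ hf _ _ h1]

theorem rdf_tbl {J : RInt} {L : List RT} {t z b g G : A.C} (S : Setup J L t z b g G)
    {μ : RT} (hμ : μ ∈ L)
    (Hμ : ∀ (K : UStr), UAx K → ∀ (A : ArStr.{0}) [IsE A] (Rep : K.C → A.C → Prop),
      DefU J K A Rep → ∀ (a b : K.C) (x y : A.C), Rep a x → Rep b y → (μ.eval K a b ↔ Mem x y))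
    {A' : ArStr.{0}} [IsE A'] {Rep : (KT t G S.big).C → A'.C → Prop}
    (hJ : DefU J (KT t G S.big) A' Rep) {f : A.C → A'.C} (hf : RdF S Rep f)
    {r : RT} (hr : r ∈ L) {n : ℕ} (hn : IsCode n L r) {M : ℕ} (hM : ∀ k ∈ Reqs L, k ≤ M) {y : A.C}
    (hy : y ≤ b) (hb : pr (M : A.C) (pr y y) ≤ b) {t' : A'.C} (h : TblX J (n : A'.C) t' (f y)) :
    ∃ u : A.C, TblX J (n : A.C) u y := by
  obtain ⟨u, hu⟩ := rdf_read S hμ Hμ hJ hf t'
  have hL : Closed L := S.built.closed
  obtain ⟨hT, hroot⟩ := (tblX_iff hL hn t' (f y)).mp h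
  have hle : ∀ k ∈ Reqs L, ∀ a c : A.C, a < y → c < y → pr (k : A.C) (pr a c) ≤ b := by
    intro k hk a c ha hc
    exact (pr_mono (Nat.cast_le.mpr (hM k hk)) (pr_mono ha.le hc.le)).trans hb
  have hpr : ∀ k ∈ Reqs L, ∀ a c : A.C, a < y → c < y →
      f (pr (k : A.C) (pr a c)) = pr (k : A'.C) (pr (f a) (f c)) := by
    intro k hk a c ha hc
    have h1 := hle k hk a c ha hc
    rw [rdf_pr S hJ hf _ _ h1, rdf_pr S hJ hf _ _ ((le_pr_right _ _).trans h1),
      rdf_cast S hf k ((le_pr_left _ _).trans h1)]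
  have hTT : ∀ s ∈ L, ∀ a c : A.C, a < y → c < y →
      (TT u (s.code : A.C) a c ↔ TT t' (s.code : A'.C) (f a) (f c)) := by
    intro s hs a c ha hc
    have hk : s.code ∈ Reqs L := List.mem_append_left _ (List.mem_map_of_mem hs)
    unfold TT
    rw [hu, hpr _ hk a c ha hc]
    exact and_iff_right (hle _ hk a c ha hc)
  refine ⟨u, (tblX_iff hL hn u y).mpr ⟨?_, ?_⟩⟩
  · refine tab_transfer hL f (H2 := fun a => a < f y) (fun a ha => rdf_lt S hJ hf hy ha) hTT ?_ hT
    intro k hk a c ha hc hw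
    have h1 : f 1 = 1 := by
      have := rdf_cast S hf 1 (by
        rw [Nat.cast_one]
        exact le_trans (by unfold W; exact le_self_add) (hw.le.trans hy))
      simpa using this
    unfold W at hw ⊢
    rw [rdf_add S hJ hf _ _ (hw.le.trans hy), h1, hpr k hk a c ha hc]
  · intro hlt
    have h1 : f ((hh J n : ℕ) : A.C) = ((hh J n : ℕ) : A'.C) := rdf_cast S hf _ (hlt.le.trans hy)
    have h2 : ((hh J n : ℕ) : A'.C) < f y := by
      rw [← h1]
      exact rdf_lt S hJ hf hy hlt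
    have h3 := hroot h2
    rw [← h1] at h3
    exact (hTT r hr _ _ hlt hlt).mpr h3

end Pool.Agent.Work.MP_de7025_lc.F
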