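import Pool.Agent.Work.MP_de7025_lc.F.F1
import Pool.Agent.Work.MP_de7025_lc.F.R5
import Pool.Agent.Work.MP_de7025_lc.F.G9

/-!
# F/F2 (M): the Loeb argument: every model sees arbitrarily long tables with the root

PROOF. Suppose `y : A.C` has no table. By `fin_tab` (the hypothesis holds because of `y`) and monotony of `TblX` in `y` (`tblX_iff`, `tab_transfer` with `id`; if `y ≤ m` a table of length `m` is one of length `y`), `y` is larger than every numeral.
Let `M` be a bound for `Reqs L` (for instance the sum), `b = pr M (pr y y) + y`, `g` from `HG_exists J b`, `G = g + y + 1` (larger than all numerals; the values `v` of `g` are `≤ pr i v < g`), `z = ex (G * G)`, `t` with `Tab L (TT t) (· < z)` (`exists_tab`).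
`Setup J L t z b g G` (`cut_lt_ex`). Let `K' = KT t G _`: a model of `U` (`KT_truth`); `Hall` gives `A'`, `Rep'`; `f` from `exists_rdf`. Let `v = hh J n`, an element of `K'` which represents `f n = n` (`HG_val`, `rdf_cast`; the numeral `n ≤ b`).
Case `r.eval K' v v`: then `TT t r.code v v` (`KT_truth`) and `TblX J n t y` by `tblX_iff` (`Tab` on `· < y` from `· < z`, `y ≤ z`): contradiction. Case not: by `Hr`, `∀ y', ∃ t', TblX J n t' y'` in `A'`; take `y' = f y`; `rdf_tbl` gives a table of length `y` in `A`: contradiction.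
-/

set_option autoImplicit false

namespace Pool.Agent.Work.MP_de7025_lc.F

theorem loeb {J : RInt} {L : List RT} {r μ : RT} {n : ℕ} (hL : Built L)
    (hneed : ∀ x ∈ needL J, x ∈ L) (hr : r ∈ L) (hμ : μ ∈ L) (hn : IsCode n L r)
    (Hr : ∀ (K : UStr), UAx K → ∀ (A : ArStr.{0}) [IsE A] (Rep : K.C → A.C → Prop),
      DefU J K A Rep → ∀ (a : K.C) (x : A.C), Rep a x → ∀ b,
      (r.eval K a b ↔ ¬ ∀ y : A.C, ∃ t : A.C, TblX J x t y))
    (Hμ : ∀ (K : UStr), UAx K → ∀ (A : ArStr.{0}) [IsE A] (Rep : K.C → A.C → Prop),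
      DefU J K A Rep → ∀ (a b : K.C) (x y : A.C), Rep a x → Rep b y → (μ.eval K a b ↔ Mem x y))
    (Hall : ∀ K : UStr, UAx K → ∃ (A : ArStr.{0}) (Rep : K.C → A.C → Prop), EFA A ∧ DefU J K A Rep)
    {K : UStr} (hK : UAx K) {A : ArStr.{0}} [IsE A] {Rep : K.C → A.C → Prop}
    (hJ : DefU J K A Rep) (y : A.C) : ∃ t : A.C, TblX J (n : A.C) t y := by
  by_contra hno
  have hC : Closed L := hL.closed
  have hne : ¬ ∀ y : A.C, ∃ t : A.C, TblX J (n : A.C) t y := fun h => hno (h y)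
  have tmono : ∀ t y1 y2 : A.C, y1 ≤ y2 → Tab L (TT t) (fun a => a < y2) →
      Tab L (TT t) (fun a => a < y1) := by
    intro t y1 y2 h12 h
    exact tab_transfer hC (fun a => a) (H2 := fun a => a < y2) (fun a ha => lt_of_lt_of_le ha h12)
      (fun _ _ _ _ _ _ => Iff.rfl) (fun _ _ _ _ _ _ _ => rfl) h
  have mono : ∀ t y1 y2 : A.C, y1 ≤ y2 → TblX J (n : A.C) t y2 → TblX J (n : A.C) t y1 := by
    intro t y1 y2 h12 h
    rw [tblX_iff hC hn] at h ⊢
    exact ⟨tmono t y1 y2 h12 h.1, fun hlt => h.2 (lt_of_lt_of_le hlt h12)⟩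
  have ybig : ∀ m : ℕ, (m : A.C) < y := by
    intro m
    by_contra hm
    obtain ⟨t, ht⟩ := fin_tab hL hneed hr hn Hr hK hJ hne m
    exact hno ⟨t, mono t y m (not_lt.mp hm) ht⟩
  obtain ⟨M, hM⟩ : ∃ M : ℕ, ∀ k ∈ Reqs L, k ≤ M :=
    ⟨(Reqs L).sum, fun k hk => List.single_le_sum (fun _ _ => Nat.zero_le _) _ hk⟩
  obtain ⟨b, hb⟩ : ∃ b : A.C, b = pr (M : A.C) (pr y y) + y := ⟨_, rfl⟩
  have hyb : y ≤ b := by rw [hb]; exact le_add_self
  have hMb : pr (M : A.C) (pr y y) ≤ b := by rw [hb]; exact le_self_add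
  obtain ⟨g, hg, hg1, hg2⟩ := HG_exists J b
  obtain ⟨G, hG⟩ : ∃ G : A.C, G = g + y + 1 := ⟨_, rfl⟩
  have hgG : g < G := by
    rw [hG, lt_add_one_iff']
    exact le_self_add
  have hyG : y < G := by
    rw [hG, lt_add_one_iff']
    exact le_add_self
  have hbig : ∀ m : ℕ, (m : A.C) < G := fun m => (ybig m).trans hyG
  obtain ⟨t, ht⟩ := exists_tab hL (ex (G * G))
  have S : Setup J L t (ex (G * G)) b g G :=
    { built := hL
      need := hneed
      tab := ht
      hg := hg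
      tot := by
        intro i hi
        obtain ⟨v, hv⟩ := hg2 i hi
        refine ⟨v, ?_, hv⟩
        have h1 : pr i v < g := (lt_ex_iff g g).1 (lt_ex g) _ hv
        exact ((le_pr_right i v).trans_lt h1).trans hgG
      big := hbig
      long := fun a ha => cut_lt_ex hbig ha }
  have hyz : y ≤ ex (G * G) := (cut_lt_ex hbig (cut_self hyG)).le
  obtain ⟨hU, htr⟩ := KT_truth S
  obtain ⟨A', Rep', hA', hJ'⟩ := Hall _ hU
  have : IsE A' := ⟨hA'⟩
  obtain ⟨f, hf⟩ := exists_rdf S hJ'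
  have hnb : (n : A.C) ≤ b := (ybig n).le.trans hyb
  have hmem : Mem (pr (n : A.C) ((hh J n : ℕ) : A.C)) g := (HG_val hg hnb _).2 rfl
  obtain ⟨hv, hrep⟩ := hf.rep _ _ hnb hmem
  rw [rdf_cast S hf n hnb] at hrep
  by_cases hroot : r.eval (KT t G S.big) ⟨((hh J n : ℕ) : A.C), hv⟩ ⟨((hh J n : ℕ) : A.C), hv⟩
  · have h1 := (htr r hr _ _).1 hroot
    exact hno ⟨t, (tblX_iff hC hn t y).2 ⟨tmono t y _ hyz ht, fun _ => h1⟩⟩
  · have h2 := (Hr _ hU A' Rep' hJ' _ _ hrep ⟨((hh J n : ℕ) : A.C), hv⟩).not.1 hroot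
    rw [not_not] at h2
    obtain ⟨t', ht'⟩ := h2 (f y)
    exact hno (rdf_tbl S hμ Hμ hJ' hf hr hn hM hyb hMb ht')

end Pool.Agent.Work.MP_de7025_lc.F
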