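import Pool.Agent.Work.MP_de7025_lc.F.Game
import Pool.Agent.Work.MP_de7025_lc.F.E2
import Pool.Agent.Work.MP_de7025_lc.F.E4

set_option autoImplicit false

/-!
# F/G1 (M): positions, answers and families are definable

PROOF. `dfn_fin`: the context `ι → Δ` is fixed here (instance `ctxPi`): readers are those with all components readers. `bexFin`: induction on `n` (`Fin (n + 1) → A.C` as `Fin.cons`; `DfnM.bexLt`), or directly for `n = 9` by nine nested
quantifiers. `OK`: a finite conjunction (the list `axCl ++ L.flatMap tmCl` does not depend on the context; induction on a list) of negations of `Viol`, which is `∃ v : Fin 9 → A.C, (∀ i, v i < g x) ∧` a finite conjunction of `Has`.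
`Ans`: finite conjunctions (over `t ∈ L` with `t.code = k` — decidable, does not depend on the context —, over `i : Fin 7`, ...). A statement `∀ t ∈ L, Q → P t x` with `Q` independent of `x` is definable if every `P t` is.
`∀ u v, t = .comp u v → ...`: by cases on `t`. `Sup`: `k ≤ (cmax L : A.C)` bounded, all quantifiers are bounded. `∀ i, Mem i p → Q i` is `∀ i, i < p → Mem i p → Q i` (`lt_of_mem`).
`Fam`: if `Mem (pr c (pr p B)) w` then `c, p, B < w` (`lt_of_mem`, `le_pr_left`, `le_pr_right`), the same for `p'`, and `B'` is `< w`.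
-/

namespace Pool.Agent.Work.MP_de7025_lc.F

variable {A : ArStr.{0}} [IsE A] {Γ : Type} [Ctx A Γ]

instance ctxPi {ι Δ : Type} [Ctx A Δ] : Ctx A (ι → Δ) where
  Rd r := ∀ i, Ctx.Rd (A := A) (fun e => r e i)
  shift _ hr s hs := fun i => Ctx.shift _ (hr i) s hs
  const g := fun i => Ctx.const (g i)

private theorem dfn_pi {ι Δ : Type} [Ctx A Δ] {f : Γ → ι → Δ}
    (h : ∀ i, DfnM A (fun x => f x i)) : DfnM A f := fun r hr i => h i r hr

private theorem dfn_app {ι Δ : Type} [Ctx A Δ] {f : Γ → ι → Δ} (h : DfnM A f) (i : ι) :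
    DfnM A (fun x => f x i) := fun r hr => h r hr i

/-- a finite conjunction -/
theorem dfn_ball_list {α : Type} (l : List α) {P : α → Γ → Prop} (h : ∀ a ∈ l, DfnM A (P a)) :
    DfnM A (fun x => ∀ a ∈ l, P a x) := by
  induction l with
  | nil =>
    have e : (fun x : Γ => ∀ a ∈ ([] : List α), P a x) = fun _ => True := by
      funext x
      simp
    rw [e]
    exact DfnM.const True
  | cons a l ih =>
    have e : (fun x : Γ => ∀ b ∈ a :: l, P b x) = fun x => P a x ∧ ∀ b ∈ l, P b x := by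
      funext x
      simp
    rw [e]
    exact DfnM.and (h a (by simp)) (ih fun b hb => h b (by simp [hb]))

/-- a finite disjunction -/
theorem dfn_bex_list {α : Type} (l : List α) {P : α → Γ → Prop} (h : ∀ a ∈ l, DfnM A (P a)) :
    DfnM A (fun x => ∃ a ∈ l, P a x) := by
  induction l with
  | nil =>
    have e : (fun x : Γ => ∃ a ∈ ([] : List α), P a x) = fun _ => False := by
      funext x
      simp
    rw [e]
    exact DfnM.const False
  | cons a l ih =>
    have e : (fun x : Γ => ∃ b ∈ a :: l, P b x) = fun x => P a x ∨ ∃ b ∈ l, P b x := by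
      funext x
      simp
    rw [e]
    exact DfnM.or (h a (by simp)) (ih fun b hb => h b (by simp [hb]))

private theorem bexFin_aux (n : ℕ) : ∀ (Γ : Type) (_ : Ctx A Γ) (f : Γ → A.C) (_ : DfnM A f)
    (P : Γ → (Fin n → A.C) → Prop) (_ : DfnM A (fun g : Γ × (Fin n → A.C) => P g.1 g.2)),
    DfnM A (fun x => ∃ v : Fin n → A.C, (∀ i, v i < f x) ∧ P x v) := by
  induction n with
  | zero =>
    intro Γ _ f hf P hP
    have e : (fun x : Γ => ∃ v : Fin 0 → A.C, (∀ i, v i < f x) ∧ P x v) =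
        fun x => P x Fin.elim0 := by
      funext x
      apply propext
      constructor
      · rintro ⟨v, -, h⟩
        rwa [Subsingleton.elim v Fin.elim0] at h
      · intro h
        exact ⟨Fin.elim0, fun i => i.elim0, h⟩
    rw [e]
    exact DfnM.comp (g := fun g : Γ × (Fin 0 → A.C) => P g.1 g.2)
      (f := fun x : Γ => (x, (Fin.elim0 : Fin 0 → A.C))) hP (DfnM.mk DfnM.id (DfnM.const _))
  | succ n ih =>
    intro Γ _ f hf P hP
    have e : (fun x : Γ => ∃ v : Fin (n + 1) → A.C, (∀ i, v i < f x) ∧ P x v) =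
        fun x => ∃ y, y < f x ∧ ∃ v : Fin n → A.C, (∀ i, v i < f x) ∧
          P x (Fin.cons y v : Fin (n + 1) → A.C) := by
      funext x
      apply propext
      constructor
      · rintro ⟨v, h1, h2⟩
        refine ⟨v 0, h1 0, fun i => v i.succ, fun i => h1 _, ?_⟩
        have : (Fin.cons (v 0) (fun i => v i.succ) : Fin (n + 1) → A.C) = v :=
          Fin.cons_self_tail v
        rw [this]
        exact h2
      · rintro ⟨y, hy, v, h1, h2⟩
        refine ⟨(Fin.cons y v : Fin (n + 1) → A.C), fun i => ?_, h2⟩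
        refine Fin.cases ?_ (fun j => ?_) i
        · simpa using hy
        · simpa using h1 j
    rw [e]
    refine DfnM.bexLt (P := fun x y => ∃ v : Fin n → A.C, (∀ i, v i < f x) ∧
          P x (Fin.cons y v : Fin (n + 1) → A.C)) hf ?_
    refine ih (Γ × A.C) inferInstance (fun g => f g.1) (by fun_prop)
      (fun g v => P g.1 (Fin.cons g.2 v : Fin (n + 1) → A.C)) ?_
    refine DfnM.comp (g := fun g : Γ × (Fin (n + 1) → A.C) => P g.1 g.2)
      (f := fun h : (Γ × A.C) × (Fin n → A.C) =>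
        (h.1.1, (Fin.cons h.1.2 h.2 : Fin (n + 1) → A.C))) hP ?_
    refine DfnM.mk (by fun_prop) (dfn_pi fun i => ?_)
    refine Fin.cases ?_ (fun j => ?_) i
    · simp only [Fin.cons_zero]
      fun_prop
    · simp only [Fin.cons_succ]
      exact dfn_app (f := fun h : (Γ × A.C) × (Fin n → A.C) => h.2) (by fun_prop) j

/-- bounded quantification over vectors -/
theorem dfn_bexFin {n : ℕ} {f : Γ → A.C} (hf : DfnM A f) {P : Γ → (Fin n → A.C) → Prop}
    (hP : DfnM A (fun g : Γ × (Fin n → A.C) => P g.1 g.2)) :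
    DfnM A (fun x => ∃ v : Fin n → A.C, (∀ i, v i < f x) ∧ P x v) :=
  bexFin_aux n Γ inferInstance f hf P hP

@[fun_prop]
theorem fc.dfn (s : Bool) (t : RT) {f g : Γ → A.C} (hf : DfnM A f) (hg : DfnM A g) :
    DfnM A (fun x => fc s t (f x) (g x)) := by
  unfold fc
  fun_prop

@[fun_prop]
theorem Has.dfn (s : Bool) (t : RT) {p f g : Γ → A.C} (hp : DfnM A p) (hf : DfnM A f)
    (hg : DfnM A g) : DfnM A (fun x => Has (p x) s t (f x) (g x)) := by
  unfold Has
  fun_prop

theorem OK.dfn (L : List RT) {p c : Γ → A.C} (hp : DfnM A p) (hc : DfnM A c) :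
    DfnM A (fun x => OK L (Has (p x)) (fun a => a < c x)) := by
  unfold OK
  refine dfn_ball_list _ fun cl _ => DfnM.not ?_
  unfold Viol
  refine dfn_bexFin (P := fun x v => ∀ f ∈ cl, Has (p x) f.s f.t (v f.i) (v f.j)) hc ?_
  refine dfn_ball_list (Γ := Γ × (Fin 9 → A.C)) _ fun f _ => ?_
  refine Has.dfn _ _ (by fun_prop) ?_ ?_
  · exact dfn_app (f := fun h : Γ × (Fin 9 → A.C) => h.2) (by fun_prop) f.i
  · exact dfn_app (f := fun h : Γ × (Fin 9 → A.C) => h.2) (by fun_prop) f.j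

private theorem dfn_fin {n : ℕ} {P : Fin n → Γ → Prop} (h : ∀ i, DfnM A (P i)) :
    DfnM A (fun x => ∀ i, P i x) := by
  have e : (fun x : Γ => ∀ i, P i x) = fun x => ∀ i ∈ List.finRange n, P i x := by
    funext x
    simp
  rw [e]
  exact dfn_ball_list _ fun i _ => h i

private theorem comp_dfn (t : RT) {p a b c : Γ → A.C} (hp : DfnM A p) (ha : DfnM A a)
    (hb : DfnM A b) (hc : DfnM A c) : DfnM A (fun x => ∀ u v, t = .comp u v →
      Has (p x) true u (a x) (c x) ∧ Has (p x) true v (c x) (b x)) := by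
  cases t with
  | comp u v =>
    have e : (fun x : Γ => ∀ u' v', RT.comp u v = .comp u' v' →
        Has (p x) true u' (a x) (c x) ∧ Has (p x) true v' (c x) (b x)) = fun x =>
        Has (p x) true u (a x) (c x) ∧ Has (p x) true v (c x) (b x) := by
      funext x
      apply propext
      constructor
      · intro h
        exact h u v rfl
      · rintro h u' v' he
        cases he
        exact h
    rw [e]
    fun_prop
  | atom i =>
    have e : (fun x : Γ => ∀ u' v', RT.atom i = .comp u' v' →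
        Has (p x) true u' (a x) (c x) ∧ Has (p x) true v' (c x) (b x)) = fun x => True := by
      funext x
      apply propext
      simp
    rw [e]
    exact DfnM.const _
  | nand u v =>
    have e : (fun x : Γ => ∀ u' v', RT.nand u v = .comp u' v' →
        Has (p x) true u' (a x) (c x) ∧ Has (p x) true v' (c x) (b x)) = fun x => True := by
      funext x
      apply propext
      simp
    rw [e]
    exact DfnM.const _
  | conv u =>
    have e : (fun x : Γ => ∀ u' v', RT.conv u = .comp u' v' →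
        Has (p x) true u' (a x) (c x) ∧ Has (p x) true v' (c x) (b x)) = fun x => True := by
      funext x
      apply propext
      simp
    rw [e]
    exact DfnM.const _

theorem Ans.dfn (L : List RT) (k : ℕ) {p a b c : Γ → A.C} (hp : DfnM A p) (ha : DfnM A a)
    (hb : DfnM A b) (hc : DfnM A c) : DfnM A (fun x => Ans L (Has (p x)) k (a x) (b x) (c x)) := by
  unfold Ans
  refine DfnM.and (dfn_ball_list _ fun t _ => DfnM.imp (DfnM.const _) (DfnM.or (by fun_prop)
    (DfnM.and (by fun_prop) (comp_dfn t hp ha hb hc)))) (DfnM.and (dfn_fin fun i =>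
    DfnM.imp (DfnM.const _) (DfnM.imp (DfnM.const _) (by fun_prop))) (DfnM.and
    (DfnM.imp (DfnM.const _) (by fun_prop)) (DfnM.imp (DfnM.const _) (by fun_prop))))

theorem Sup.dfn (L : List RT) {c i : Γ → A.C} (hc : DfnM A c) (hi : DfnM A i) :
    DfnM A (fun x => Sup L (c x) (i x)) := by
  unfold Sup
  refine DfnM.bexLe (P := fun x s => ∃ k, k ≤ (cmax L : A.C) ∧ ∃ a, a < c x ∧ ∃ b, b < c x ∧
    i x = pr s (pr k (pr a b))) (DfnM.const _) ?_
  refine DfnM.bexLe (f := fun _ : Γ × A.C => (cmax L : A.C)) (P := fun y k => ∃ a, a < c y.1 ∧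
    ∃ b, b < c y.1 ∧ i y.1 = pr y.2 (pr k (pr a b))) (DfnM.const _) ?_
  refine DfnM.bexLt (f := fun y : (Γ × A.C) × A.C => c y.1.1) (P := fun y a =>
    ∃ b, b < c y.1.1 ∧ i y.1.1 = pr y.1.2 (pr y.2 (pr a b))) (by fun_prop) ?_
  exact DfnM.bexLt (f := fun y : ((Γ × A.C) × A.C) × A.C => c y.1.1.1) (P := fun y b =>
    i y.1.1.1 = pr y.1.1.2 (pr y.1.2 (pr y.2 b))) (by fun_prop) (by fun_prop)

/-- `∀ i ∈ p` -/
theorem dfn_ball_mem {p : Γ → A.C} (hp : DfnM A p) {P : Γ → A.C → Prop}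
    (hP : DfnM A (fun g : Γ × A.C => P g.1 g.2)) :
    DfnM A (fun x => ∀ i, Mem i (p x) → P x i) := by
  have e : (fun x => ∀ i, Mem i (p x) → P x i) =
      fun x => ∀ i, i < p x → (Mem i (p x) → P x i) := by
    funext x
    apply propext
    exact ⟨fun h i _ hi => h i hi, fun h i hi => h i (lt_of_mem hi) hi⟩
  rw [e]
  refine DfnM.ballLt (P := fun x i => Mem i (p x) → P x i) hp ?_
  exact DfnM.imp (by fun_prop) hP

theorem Pos.dfn (L : List RT) {c p : Γ → A.C} (hc : DfnM A c) (hp : DfnM A p) :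
    DfnM A (fun x => Pos L (c x) (p x)) := by
  have e : (fun x => Pos L (c x) (p x)) = fun x => 0 < c x ∧
      (∀ i, Mem i (p x) → Sup L (c x) i) ∧ OK L (Has (p x)) (fun a => a < c x) := by
    funext x
    apply propext
    exact ⟨fun h => ⟨h.1, h.2, h.3⟩, fun h => ⟨h.1, h.2.1, h.2.2⟩⟩
  rw [e]
  refine DfnM.and (by fun_prop) (DfnM.and ?_ (OK.dfn L hp hc))
  exact dfn_ball_mem (P := fun x i => Sup L (c x) i) hp (Sup.dfn L (by fun_prop) (by fun_prop))

private theorem fam_iff (L : List RT) (w : A.C) : Fam L w ↔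
    ∀ c, c < w → ∀ p, p < w → ∀ B, B < w → (Mem (pr c (pr p B)) w → (Pos L c p ∧
    ∀ B', B' < w → (B = B' + 1 → ∀ k ∈ Reqs L, ∀ a, a < c → ∀ b, b < c →
      ∃ p', p' < w ∧ ((∀ i, Mem i p → Mem i p') ∧ Ans L (Has p') k a b c ∧
        Mem (pr (c + 1) (pr p' B')) w)))) := by
  constructor
  · intro h c _ p _ B _ hm
    refine ⟨(h c p B hm).1, fun B' _ hB k hk a ha b hb => ?_⟩
    obtain ⟨p', h1, h2, h3⟩ := (h c p B hm).2 B' hB k hk a b ha hb
    refine ⟨p', ?_, h1, h2, h3⟩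
    exact lt_of_le_of_lt ((le_pr_left p' B').trans (le_pr_right _ _)) (lt_of_mem h3)
  · intro h c p B hm
    have hw := lt_of_mem hm
    have hc : c < w := lt_of_le_of_lt (le_pr_left _ _) hw
    have hp : p < w := lt_of_le_of_lt ((le_pr_left p B).trans (le_pr_right _ _)) hw
    have hB : B < w := lt_of_le_of_lt ((le_pr_right p B).trans (le_pr_right _ _)) hw
    obtain ⟨h1, h2⟩ := h c hc p hp B hB hm
    refine ⟨h1, fun B' hB' k hk a b ha hb => ?_⟩
    have hB2 : B' < w := by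
      refine lt_of_le_of_lt ?_ hB
      rw [hB']
      exact le_self_add
    obtain ⟨p', -, h3, h4, h5⟩ := h2 B' hB2 hB' k hk a ha b hb
    exact ⟨p', h3, h4, h5⟩

theorem Fam.dfn (L : List RT) {w : Γ → A.C} (hw : DfnM A w) :
    DfnM A (fun x => Fam L (w x)) := by
  have e : (fun x => Fam L (w x)) = fun x => ∀ c, c < w x → ∀ p, p < w x → ∀ B, B < w x →
    (Mem (pr c (pr p B)) (w x) → (Pos L c p ∧
    ∀ B', B' < w x → (B = B' + 1 → ∀ k ∈ Reqs L, ∀ a, a < c → ∀ b, b < c →
      ∃ p', p' < w x ∧ ((∀ i, Mem i p → Mem i p') ∧ Ans L (Has p') k a b c ∧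
        Mem (pr (c + 1) (pr p' B')) (w x))))) := by
    funext x
    exact propext (fam_iff L (w x))
  rw [e]
  refine DfnM.ballLt (P := fun x c => ∀ p, p < w x → ∀ B, B < w x →
    (Mem (pr c (pr p B)) (w x) → (Pos L c p ∧
    ∀ B', B' < w x → (B = B' + 1 → ∀ k ∈ Reqs L, ∀ a, a < c → ∀ b, b < c →
      ∃ p', p' < w x ∧ ((∀ i, Mem i p → Mem i p') ∧ Ans L (Has p') k a b c ∧
        Mem (pr (c + 1) (pr p' B')) (w x)))))) hw ?_
  refine DfnM.ballLt (f := fun y : Γ × A.C => w y.1) (P := fun y p => ∀ B, B < w y.1 →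
    (Mem (pr y.2 (pr p B)) (w y.1) → (Pos L y.2 p ∧
    ∀ B', B' < w y.1 → (B = B' + 1 → ∀ k ∈ Reqs L, ∀ a, a < y.2 → ∀ b, b < y.2 →
      ∃ p', p' < w y.1 ∧ ((∀ i, Mem i p → Mem i p') ∧ Ans L (Has p') k a b y.2 ∧
        Mem (pr (y.2 + 1) (pr p' B')) (w y.1)))))) (by fun_prop) ?_
  refine DfnM.ballLt (f := fun y : (Γ × A.C) × A.C => w y.1.1) (P := fun y B =>
    (Mem (pr y.1.2 (pr y.2 B)) (w y.1.1) → (Pos L y.1.2 y.2 ∧
    ∀ B', B' < w y.1.1 → (B = B' + 1 → ∀ k ∈ Reqs L, ∀ a, a < y.1.2 → ∀ b, b < y.1.2 →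
      ∃ p', p' < w y.1.1 ∧ ((∀ i, Mem i y.2 → Mem i p') ∧ Ans L (Has p') k a b y.1.2 ∧
        Mem (pr (y.1.2 + 1) (pr p' B')) (w y.1.1)))))) (by fun_prop) ?_
  refine DfnM.imp (by fun_prop) (DfnM.and (Pos.dfn L (by fun_prop) (by fun_prop)) ?_)
  refine DfnM.ballLt (f := fun y : ((Γ × A.C) × A.C) × A.C => w y.1.1.1) (P := fun y B' =>
    (y.2 = B' + 1 → ∀ k ∈ Reqs L, ∀ a, a < y.1.1.2 → ∀ b, b < y.1.1.2 →
      ∃ p', p' < w y.1.1.1 ∧ ((∀ i, Mem i y.1.2 → Mem i p') ∧ Ans L (Has p') k a b y.1.1.2 ∧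
        Mem (pr (y.1.1.2 + 1) (pr p' B')) (w y.1.1.1)))) (by fun_prop) ?_
  refine DfnM.imp (by fun_prop) ?_
  refine dfn_ball_list _ fun k _ => ?_
  refine DfnM.ballLt (f := fun y : (((Γ × A.C) × A.C) × A.C) × A.C => y.1.1.1.2)
    (P := fun y a => ∀ b, b < y.1.1.1.2 →
      ∃ p', p' < w y.1.1.1.1 ∧ ((∀ i, Mem i y.1.1.2 → Mem i p') ∧
        Ans L (Has p') k a b y.1.1.1.2 ∧
        Mem (pr (y.1.1.1.2 + 1) (pr p' y.2)) (w y.1.1.1.1))) (by fun_prop) ?_
  refine DfnM.ballLt (f := fun y : ((((Γ × A.C) × A.C) × A.C) × A.C) × A.C => y.1.1.1.1.2)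
    (P := fun y b =>
      ∃ p', p' < w y.1.1.1.1.1 ∧ ((∀ i, Mem i y.1.1.1.2 → Mem i p') ∧
        Ans L (Has p') k y.2 b y.1.1.1.1.2 ∧
        Mem (pr (y.1.1.1.1.2 + 1) (pr p' y.1.2)) (w y.1.1.1.1.1))) (by fun_prop) ?_
  refine DfnM.bexLt (f := fun y : (((((Γ × A.C) × A.C) × A.C) × A.C) × A.C) × A.C =>
      w y.1.1.1.1.1.1)
    (P := fun y p' => ((∀ i, Mem i y.1.1.1.1.2 → Mem i p') ∧
        Ans L (Has p') k y.1.2 y.2 y.1.1.1.1.1.2 ∧
        Mem (pr (y.1.1.1.1.1.2 + 1) (pr p' y.1.1.2)) (w y.1.1.1.1.1.1))) (by fun_prop) ?_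
  refine DfnM.and ?_ (DfnM.and (Ans.dfn L k (by fun_prop) (by fun_prop) (by fun_prop)
    (by fun_prop)) (by fun_prop))
  exact dfn_ball_mem (p := fun y : ((((((Γ × A.C) × A.C) × A.C) × A.C) × A.C) × A.C) × A.C =>
    y.1.1.1.1.1.2) (P := fun y i => Mem i y.2) (by fun_prop) (by fun_prop)

end Pool.Agent.Work.MP_de7025_lc.F
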