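import Pool.Agent.Work.MP_de7025_lc.F.G1
import Pool.Agent.Work.MP_de7025_lc.F.E3

set_option autoImplicit false

/-!
# F/G2 (M): `Win` is definable

PROOF. `sup_lt`: `i = pr s (pr k (pr a b)) ≤ pr 1 (pr (cmax L) (pr c c))` by `pr_mono`, and `<` the same plus `1`. So a position `(c', p')` with `c' ≤ S` has `p' < ex (pr 1 (pr (cmax L) (pr S S)) + 1)` (`lt_ex_iff`).
`win_bd`: `←` trivial. `→`: given the family `w` with the triple `(c, p, B)`, let `S = c + B` and let `w'` be the set of all codes `pr c' (pr p' B')` in `w` with `c' + B' ≤ S` (`compr'`; definable: the components are bounded by the code).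
`w'` is a family: an answer of `(c', p', B' + 1)` is a triple `(c' + 1, p'', B')` with the same sum. Every code in `w'` is at most `pr S (pr p' S)` with `p'` as above, so `w' < ex (Tb L S)`.
`Win.dfn`: by `win_bd`, `DfnM.bexLt`, `Fam.dfn`.
-/

namespace Pool.Agent.Work.MP_de7025_lc.F

variable {A : ArStr.{0}} [IsE A] {Γ : Type} [Ctx A Γ]

/-- bound for facts about elements `< c` -/
noncomputable def fb (L : List RT) (c : A.C) : A.C := pr 1 (pr (cmax L : A.C) (pr c c)) + 1

/-- bound for triples with sum `≤ S` -/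
noncomputable def Tb (L : List RT) (S : A.C) : A.C := pr S (pr (ex (fb L S)) S) + 1

theorem sup_lt {L : List RT} {c i : A.C} (h : Sup L c i) : i < fb L c := by
  obtain ⟨s, hs, k, hk, a, ha, b, hb, rfl⟩ := h
  exact (lt_add_one_iff' _ _).2 (pr_mono hs (pr_mono hk (pr_mono ha.le hb.le)))

theorem fb_mono (L : List RT) {c d : A.C} (h : c ≤ d) : fb L c ≤ fb L d := by
  unfold fb
  have h1 : pr 1 (pr (cmax L : A.C) (pr c c)) ≤ pr 1 (pr (cmax L : A.C) (pr d d)) :=
    pr_mono le_rfl (pr_mono le_rfl (pr_mono h h))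
  exact add_le_add h1 le_rfl

theorem pos_lt {L : List RT} {c p : A.C} (h : ∀ i, Mem i p → Sup L c i) : p < ex (fb L c) :=
  (lt_ex_iff _ _).2 fun i hi => sup_lt (h i hi)

theorem win_bd (L : List RT) (c p B : A.C) : Win L c p B ↔
    ∃ w, w < ex (Tb L (c + B)) ∧ Fam L w ∧ Mem (pr c (pr p B)) w := by
  constructor
  · rintro ⟨w, hF, hm⟩
    let P : A.C → Prop := fun i => Mem i w ∧ ∃ c', c' ≤ i ∧ ∃ p', p' ≤ i ∧ ∃ B', B' ≤ i ∧
      (i = pr c' (pr p' B') ∧ c' + B' ≤ c + B)
    have hP : DfnM A P := by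
      refine DfnM.and (by fun_prop) ?_
      refine DfnM.bexLe (by fun_prop) ?_
      refine DfnM.bexLe (by fun_prop) ?_
      refine DfnM.bexLe (by fun_prop) ?_
      fun_prop
    have hb : ∀ i, P i → i < Tb L (c + B) := by
      rintro i ⟨hi, c', -, p', -, B', -, rfl, hS⟩
      have h1 := (hF c' p' B' hi).1
      have hc : c' ≤ c + B := le_trans le_self_add hS
      have hB : B' ≤ c + B := le_trans le_add_self hS
      have h2 : p' ≤ ex (fb L (c + B)) :=
        le_trans (pos_lt h1.sup).le (ex_le_ex (fb_mono L hc))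
      exact (lt_add_one_iff' _ _).2 (pr_mono hc (pr_mono h2 hB))
    obtain ⟨w', hwb, hw'⟩ := compr' hP (Tb L (c + B)) hb
    refine ⟨w', hwb, ?_, ?_⟩
    · intro c1 p1 B1 h1
      obtain ⟨h2, c2, -, p2, -, B2, -, he, hS⟩ := (hw' _).1 h1
      obtain ⟨rfl, he'⟩ := pr_inj he
      obtain ⟨rfl, rfl⟩ := pr_inj he'
      obtain ⟨h3, h4⟩ := hF _ _ _ h2
      refine ⟨h3, ?_⟩
      intro B' hB' k hk a b ha hb'
      obtain ⟨p', h5, h6, h7⟩ := h4 B' hB' k hk a b ha hb'
      refine ⟨p', h5, h6, (hw' _).2 ⟨h7, c1 + 1, le_pr_left _ _, p',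
        le_trans (le_pr_left _ _) (le_pr_right _ _), B',
        le_trans (le_pr_right _ _) (le_pr_right _ _), rfl, ?_⟩⟩
      rw [hB'] at hS
      have e : c1 + 1 + B' = c1 + (B' + 1) := by ring
      rw [e]
      exact hS
    · exact (hw' _).2 ⟨hm, c, le_pr_left _ _, p, le_trans (le_pr_left _ _) (le_pr_right _ _), B,
        le_trans (le_pr_right _ _) (le_pr_right _ _), rfl, le_rfl⟩
  · rintro ⟨w, -, hF, hm⟩
    exact ⟨w, hF, hm⟩

@[fun_prop]
theorem fb.dfn (L : List RT) {c : Γ → A.C} (hc : DfnM A c) : DfnM A (fun x => fb L (c x)) := by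
  unfold fb
  fun_prop

@[fun_prop]
theorem Tb.dfn (L : List RT) {c : Γ → A.C} (hc : DfnM A c) : DfnM A (fun x => Tb L (c x)) := by
  unfold Tb
  fun_prop

theorem Win.dfn (L : List RT) {c p B : Γ → A.C} (hc : DfnM A c) (hp : DfnM A p)
    (hB : DfnM A B) : DfnM A (fun x => Win L (c x) (p x) (B x)) := by
  have h : (fun x => Win L (c x) (p x) (B x)) = fun x => ∃ w, w < ex (Tb L (c x + B x)) ∧
      (Fam L w ∧ Mem (pr (c x) (pr (p x) (B x))) w) := by
    funext x
    exact propext (win_bd L _ _ _)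
  rw [h]
  refine DfnM.bexLt (by fun_prop) ?_
  refine DfnM.and (Fam.dfn L (by fun_prop)) ?_
  fun_prop

end Pool.Agent.Work.MP_de7025_lc.F
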