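import Pool.Agent.Work.MP_de7025_lc.F.G2

set_option autoImplicit false

/-!
# F/G3 (M): recursion for `Win`

PROOF. `win_zero`: `→` from a family. `←`: the family `{(c, p, 0)}` (`0 = B' + 1` is impossible). `win_succ`: `→` from a family. `←`: with `S = c + (B + 1)` let `w` be the set of all codes of triples `(c', p', B')` with
`c' + B' ≤ S` and `Win L c' p' B'`, together with the triple `(c, p, B + 1)` (`compr'` with the bound `Tb L S`, `Win.dfn`, `pos_lt`; members of a family are positions). It is a family: for a triple with `Win` use `→` (the answer has the same sum),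
for `(c, p, B + 1)` use the hypothesis. `Win.mono`: induction on `d` (predicate `∀ c ≤ S, ∀ p < ex (fb L S), ...` or simply prove `Win L c p (B + 1) → Win L c p B` by induction on `B` with bounded quantifiers over `c, p`, then induction on `d`).
-/

namespace Pool.Agent.Work.MP_de7025_lc.F

variable {A : ArStr.{0}} [IsE A]

theorem Win.toPos {L : List RT} {c p B : A.C} (h : Win L c p B) : Pos L c p := by
  obtain ⟨w, hw, hm⟩ := h
  exact (hw c p B hm).1

theorem win_zero (L : List RT) (c p : A.C) : Win L c p 0 ↔ Pos L c p := by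
  refine ⟨Win.toPos, fun h => ?_⟩
  obtain ⟨w, hw⟩ := exists_ins (pr c (pr p 0)) (0 : A.C)
  refine ⟨w, ?_, (hw _).2 (Or.inr rfl)⟩
  intro c' p' B' hm
  rcases (hw _).1 hm with h1 | h1
  · exact absurd h1 (not_mem_zero _)
  · obtain ⟨rfl, h2⟩ := pr_inj h1
    obtain ⟨rfl, rfl⟩ := pr_inj h2
    refine ⟨h, fun B'' hB => ?_⟩
    exact absurd hB.symm (by
      intro h3
      have h4 : (0 : A.C) < B'' + 1 := (pos_iff_exists _).2 ⟨B'', rfl⟩
      rw [h3] at h4
      exact lt_irrefl _ h4)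

private theorem win_succ_mp {L : List RT} {c p B : A.C} (h : Win L c p (B + 1)) : Pos L c p ∧
    ∀ k ∈ Reqs L, ∀ a b, a < c → b < c → ∃ p', (∀ i, Mem i p → Mem i p') ∧
      Ans L (Has p') k a b c ∧ Win L (c + 1) p' B := by
  obtain ⟨w, hw, hm⟩ := h
  refine ⟨(hw _ _ _ hm).1, fun k hk a b ha hb => ?_⟩
  obtain ⟨p', h1, h2, h3⟩ := (hw _ _ _ hm).2 B rfl k hk a b ha hb
  exact ⟨p', h1, h2, w, hw, h3⟩

theorem win_succ (L : List RT) (c p B : A.C) : Win L c p (B + 1) ↔ Pos L c p ∧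
    ∀ k ∈ Reqs L, ∀ a b, a < c → b < c → ∃ p', (∀ i, Mem i p → Mem i p') ∧
      Ans L (Has p') k a b c ∧ Win L (c + 1) p' B := by
  refine ⟨win_succ_mp, ?_⟩
  rintro ⟨hpos, H⟩
  have hd : DfnM A (fun i : A.C => ∃ c', c' ≤ i ∧ ∃ p', p' ≤ i ∧ ∃ B', B' ≤ i ∧
      ((i = pr c' (pr p' B') ∧ c' + B' ≤ c + (B + 1)) ∧ Win L c' p' B')) := by
    refine DfnM.bexLe (f := fun i : A.C => i) (P := fun i c' => ∃ p', p' ≤ i ∧ ∃ B', B' ≤ i ∧
      ((i = pr c' (pr p' B') ∧ c' + B' ≤ c + (B + 1)) ∧ Win L c' p' B')) (by fun_prop) ?_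
    refine DfnM.bexLe (f := fun y : A.C × A.C => y.1) (P := fun y p' => ∃ B', B' ≤ y.1 ∧
      ((y.1 = pr y.2 (pr p' B') ∧ y.2 + B' ≤ c + (B + 1)) ∧ Win L y.2 p' B')) (by fun_prop) ?_
    refine DfnM.bexLe (f := fun z : (A.C × A.C) × A.C => z.1.1) (P := fun z B' =>
      ((z.1.1 = pr z.1.2 (pr z.2 B') ∧ z.1.2 + B' ≤ c + (B + 1)) ∧ Win L z.1.2 z.2 B'))
      (by fun_prop) ?_
    exact DfnM.and (by fun_prop) (Win.dfn L (by fun_prop) (by fun_prop) (by fun_prop))
  obtain ⟨w0, -, hw0⟩ := compr' hd (Tb L (c + (B + 1))) (by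
    rintro i ⟨c', -, p', -, B', -, ⟨rfl, h2⟩, h3⟩
    have hc' : c' ≤ c + (B + 1) := le_trans le_self_add h2
    have hB' : B' ≤ c + (B + 1) := le_trans le_add_self h2
    have hp' : p' ≤ ex (fb L (c + (B + 1))) :=
      le_trans (pos_lt h3.toPos.sup).le (ex_le_ex (fb_mono L hc'))
    unfold Tb
    rw [lt_add_one_iff']
    exact pr_mono hc' (pr_mono hp' hB'))
  have hmem : ∀ c' p' B' : A.C, c' + B' ≤ c + (B + 1) → Win L c' p' B' →
      Mem (pr c' (pr p' B')) w0 := by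
    intro c' p' B' h1 h2
    refine (hw0 _).2 ⟨c', le_pr_left _ _, p', ?_, B', ?_, ⟨rfl, h1⟩, h2⟩
    · exact le_trans (le_pr_left _ _) (le_pr_right _ _)
    · exact le_trans (le_pr_right _ _) (le_pr_right _ _)
  obtain ⟨w, hw⟩ := exists_ins (pr c (pr p (B + 1))) w0
  refine ⟨w, ?_, (hw _).2 (Or.inr rfl)⟩
  intro c1 p1 B1 hm
  rcases (hw _).1 hm with h1 | h1
  · obtain ⟨c', -, p', -, B', -, ⟨h2, h3⟩, h4⟩ := (hw0 _).1 h1
    obtain ⟨rfl, h5⟩ := pr_inj h2
    obtain ⟨rfl, rfl⟩ := pr_inj h5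
    refine ⟨h4.toPos, ?_⟩
    rintro B2 rfl k hk a b ha hb
    obtain ⟨p', h5, h6, h7⟩ := (win_succ_mp h4).2 k hk a b ha hb
    refine ⟨p', h5, h6, (hw _).2 (Or.inl (hmem _ _ _ ?_ h7))⟩
    calc c1 + 1 + B2 = c1 + (B2 + 1) := by ring
      _ ≤ _ := h3
  · obtain ⟨rfl, h2⟩ := pr_inj h1
    obtain ⟨rfl, rfl⟩ := pr_inj h2
    refine ⟨hpos, fun B2 hB2 k hk a b ha hb => ?_⟩
    have hB : B = B2 := add_right_cancel hB2
    subst hB
    obtain ⟨p', h5, h6, h7⟩ := H k hk a b ha hb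
    refine ⟨p', h5, h6, (hw _).2 (Or.inl (hmem _ _ _ ?_ h7))⟩
    exact le_of_eq (by ring)

private theorem win_pred {L : List RT} {c p B : A.C} (h : Win L c p (B + 1)) : Win L c p B := by
  have key : ∀ T B : A.C, ∀ c, c ≤ T → ∀ p, p < ex (fb L T) → (c + B ≤ T → Win L c p (B + 1) →
      Win L c p B) := by
    intro T B
    refine dind (P := fun B => ∀ c, c ≤ T → ∀ p, p < ex (fb L T) →
      (c + B ≤ T → Win L c p (B + 1) → Win L c p B)) ?_ ?_ ?_ B
    · refine DfnM.ballLe (f := fun _ => T) (P := fun B c => ∀ p, p < ex (fb L T) →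
        (c + B ≤ T → Win L c p (B + 1) → Win L c p B)) (by fun_prop) ?_
      refine DfnM.ballLt (f := fun _ => ex (fb L T)) (P := fun (y : A.C × A.C) p =>
        (y.2 + y.1 ≤ T → Win L y.2 p (y.1 + 1) → Win L y.2 p y.1)) (by fun_prop) ?_
      refine DfnM.imp (by fun_prop) (DfnM.imp ?_ ?_)
      · exact Win.dfn L (by fun_prop) (by fun_prop) (by fun_prop)
      · exact Win.dfn L (by fun_prop) (by fun_prop) (by fun_prop)
    · intro c _ p _ _ h
      exact (win_zero L c p).2 h.toPos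
    · intro B ih c _ p _ hT h
      have hT' : c + 1 + B ≤ T := by
        calc c + 1 + B = c + (B + 1) := by ring
          _ ≤ T := hT
      have hcT : c + 1 ≤ T := le_trans le_self_add hT'
      obtain ⟨h1, h2⟩ := (win_succ L c p (B + 1)).1 h
      refine (win_succ L c p B).2 ⟨h1, fun k hk a b ha hb => ?_⟩
      obtain ⟨p', h3, h4, h5⟩ := h2 k hk a b ha hb
      refine ⟨p', h3, h4, ih _ hcT _ ?_ hT' h5⟩
      exact lt_of_lt_of_le (pos_lt h5.toPos.sup) (ex_le_ex (fb_mono L hcT))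
  refine key (c + B) B c le_self_add p ?_ le_rfl h
  exact lt_of_lt_of_le (pos_lt h.toPos.sup) (ex_le_ex (fb_mono L le_self_add))

theorem Win.mono {L : List RT} {c p B B' : A.C} (h : Win L c p B) (hB : B' ≤ B) :
    Win L c p B' := by
  obtain ⟨d, rfl⟩ := (le_iff_ex _ _).1 hB
  refine dind (P := fun d => Win L c p (B' + d) → Win L c p B') ?_ ?_ ?_ d h
  · refine DfnM.imp ?_ ?_
    · exact Win.dfn L (by fun_prop) (by fun_prop) (by fun_prop)
    · exact Win.dfn L (by fun_prop) (by fun_prop) (by fun_prop)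
  · intro h
    rwa [add_zero] at h
  · intro d ih h
    apply ih
    apply win_pred
    rwa [add_assoc]

end Pool.Agent.Work.MP_de7025_lc.F
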