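import Pool.Agent.Work.MP_de7025_lc.F.G3

set_option autoImplicit false

/-!
# F/G4 (M-L): homomorphisms of positions

PROOF of `win_hom`. First replace `g` by its part with `a < c`, `a' < c'` (`compr'`), which is `< ex (pr c c' + 1)`. Fix `S, S'` and prove by induction on `B` (`dind`, with bounded quantifiers; `Win.dfn`, `G1`): for all `c, c', p, p', g` with
`c + B ≤ S`, `c' + B ≤ S'`, `p < ex (fb L S)`, `p' < ex (fb L S')`, `g < ex (pr S S' + 1)`: if `0 < c`, `p` is supported on `c`, `Hom L c p c' p' g` and `Win L c' p' B` then `Win L c p B`.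
`Pos L c p`: a violated clause of `p` with the values `v i < c` would be mapped to a violated clause of `p'` (choose images; all facts of the clauses of `OK L` are about terms of `L` — for the atoms use that they are in `L` —, so the hypothesis `hat`).
`B + 1`: a request `(k, a, b)` on `(c, p)`: let `a', b'` be the images, `p''` the answer to `(k, a', b')` with the new element `c'`. Let `g' = g ∪ {(c, c')}` (`exists_ins`; `(c, x)` is not in the old `g`) and `q` = the set of all facts `fc s t x y` with `t ∈ L`,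
`x, y < c + 1` whose image under `g'` is in `p''`, together with `p`. Then `q` is supported on `c + 1`, contains `p`, answers `(k, a, b)` with `c`, and `g'` is a homomorphism of `(c + 1, q)` to `(c' + 1, p'')`; use the induction hypothesis.
-/

namespace Pool.Agent.Work.MP_de7025_lc.F

variable {A : ArStr.{0}} [IsE A]

private theorem fc_inj {s s' : Bool} {t t' : RT} {a b a' b' : A.C}
    (h : fc s t a b = fc s' t' a' b') : s = s' ∧ t = t' ∧ a = a' ∧ b = b' := by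
  unfold fc at h
  obtain ⟨h1, h2⟩ := pr_inj h
  obtain ⟨h3, h4⟩ := pr_inj h2
  obtain ⟨h5, h6⟩ := pr_inj h4
  refine ⟨?_, code_inj (Nat.cast_injective h3), h5, h6⟩
  cases s <;> cases s' <;> simp at h1 ⊢

private theorem ax_atoms : ∀ cl ∈ axCl, ∀ f ∈ cl, ∃ i, f.t = RT.atom i := by
  intro cl hcl f hf
  have h : ∀ cl ∈ axCl, ∀ f ∈ cl, f.t ∈ atomsL := by decide
  have h1 := h cl hcl f hf
  simp only [atomsL, List.mem_cons, List.not_mem_nil, or_false] at h1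
  rcases h1 with h1 | h1 | h1 | h1 | h1 | h1 | h1 <;> exact ⟨_, h1⟩

private theorem restr (g c c' : A.C) : ∃ g0 : A.C,
    (∀ a a', Mem (pr a a') g0 ↔ a < c ∧ a' < c' ∧ Mem (pr a a') g) ∧
    ∀ i, Mem i g0 → ∃ a a', a < c ∧ a' < c' ∧ i = pr a a' := by
  have hd : DfnM A (fun i : A.C => ∃ a, a < c ∧ ∃ a', a' < c' ∧ (i = pr a a' ∧ Mem i g)) := by
    refine DfnM.bexLt (f := fun _ : A.C => c) (P := fun i a => ∃ a', a' < c' ∧
      (i = pr a a' ∧ Mem i g)) (by fun_prop) ?_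
    refine DfnM.bexLt (f := fun _ : A.C × A.C => c') (P := fun y a' =>
      (y.1 = pr y.2 a' ∧ Mem y.1 g)) (by fun_prop) ?_
    fun_prop
  obtain ⟨g0, -, h0⟩ := compr' hd g (by
    rintro i ⟨a, -, a', -, -, h⟩
    exact lt_of_mem h)
  refine ⟨g0, fun a a' => ?_, ?_⟩
  · rw [h0]
    constructor
    · rintro ⟨x, hx, y, hy, he, h⟩
      obtain ⟨rfl, rfl⟩ := pr_inj he
      exact ⟨hx, hy, h⟩
    · rintro ⟨h1, h2, h3⟩
      exact ⟨a, h1, a', h2, rfl, h3⟩
  · intro i hi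
    obtain ⟨a, ha, a', ha', he, -⟩ := (h0 i).1 hi
    exact ⟨a, a', ha, ha', he⟩

private theorem hom_iff (L : List RT) (c p c' p' g : A.C) : Hom L c p c' p' g ↔
    ((∀ a, a < c → ∃ a', a' < c' ∧ Mem (pr a a') g) ∧
    (∀ a, a < g → ∀ a', a' < g → ∀ a'', a'' < g → (Mem (pr a a') g → Mem (pr a a'') g →
      a' = a''))) ∧
    (∀ s ∈ [true, false], ∀ t ∈ L, ∀ a, a < c → ∀ b, b < c → ∀ a', a' < g → ∀ b', b' < g →
      (Mem (pr a a') g → Mem (pr b b') g → Has p s t a b → Has p' s t a' b')) := by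
  have hl : ∀ a a' : A.C, Mem (pr a a') g → a < g := fun a a' h =>
    lt_of_le_of_lt (le_pr_left _ _) (lt_of_mem h)
  have hr : ∀ a a' : A.C, Mem (pr a a') g → a' < g := fun a a' h =>
    lt_of_le_of_lt (le_pr_right _ _) (lt_of_mem h)
  constructor
  · intro h
    refine ⟨⟨h.tot, fun a _ a' _ a'' _ h1 h2 => h.fn a a' a'' h1 h2⟩, ?_⟩
    intro s _ t ht a ha b hb a' _ b' _ h1 h2 h3
    exact h.map s t ht a b a' b' ha hb h1 h2 h3
  · rintro ⟨⟨h1, h2⟩, h3⟩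
    refine ⟨h1, fun a a' a'' h4 h5 => h2 a (hl _ _ h4) a' (hr _ _ h4) a'' (hr _ _ h5) h4 h5, ?_⟩
    intro s t ht a b a' b' ha hb h4 h5 h6
    refine h3 s (by cases s <;> simp) t ht a ha b hb a' (hr _ _ h4) b' (hr _ _ h5) h4 h5 h6

private theorem Hom.dfn {Γ : Type} [Ctx A Γ] (L : List RT) {c p c' p' g : Γ → A.C}
    (hc : DfnM A c) (hp : DfnM A p) (hc' : DfnM A c') (hp' : DfnM A p') (hg : DfnM A g) :
    DfnM A (fun x => Hom L (c x) (p x) (c' x) (p' x) (g x)) := by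
  have e : (fun x => Hom L (c x) (p x) (c' x) (p' x) (g x)) = fun x =>
      ((∀ a, a < c x → ∃ a', a' < c' x ∧ Mem (pr a a') (g x)) ∧
      (∀ a, a < g x → ∀ a', a' < g x → ∀ a'', a'' < g x → (Mem (pr a a') (g x) →
        Mem (pr a a'') (g x) → a' = a''))) ∧
      (∀ s ∈ [true, false], ∀ t ∈ L, ∀ a, a < c x → ∀ b, b < c x → ∀ a', a' < g x →
        ∀ b', b' < g x → (Mem (pr a a') (g x) → Mem (pr b b') (g x) → Has (p x) s t a b →
          Has (p' x) s t a' b')) := by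
    funext x
    exact propext (hom_iff L _ _ _ _ _)
  rw [e]
  refine DfnM.and (DfnM.and ?_ ?_) ?_
  · refine DfnM.ballLt (by fun_prop) ?_
    refine DfnM.bexLt (by fun_prop) ?_
    fun_prop
  · refine DfnM.ballLt (by fun_prop) ?_
    refine DfnM.ballLt (by fun_prop) ?_
    refine DfnM.ballLt (by fun_prop) ?_
    fun_prop
  · refine dfn_ball_list _ fun s _ => ?_
    refine dfn_ball_list _ fun t _ => ?_
    refine DfnM.ballLt (by fun_prop) ?_
    refine DfnM.ballLt (by fun_prop) ?_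
    refine DfnM.ballLt (by fun_prop) ?_
    refine DfnM.ballLt (by fun_prop) ?_
    fun_prop

private theorem ok_hom {L : List RT} (hat : ∀ i, .atom i ∈ L)
    (hcl : ∀ t ∈ L, ∀ cl ∈ tmCl t, ∀ f ∈ cl, f.t ∈ L)
    {c p c' p' g : A.C} (h : Hom L c p c' p' g) (hok : OK L (Has p') (fun a => a < c')) :
    OK L (Has p) (fun a => a < c) := by
  intro cl hm
  have hin : ∀ f ∈ cl, f.t ∈ L := by
    intro f hf
    rcases List.mem_append.1 hm with h1 | h1
    · obtain ⟨i, hi⟩ := ax_atoms cl h1 f hf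
      rw [hi]
      exact hat i
    · obtain ⟨t, ht, h2⟩ := List.mem_flatMap.1 h1
      exact hcl t ht cl h2 f hf
  rintro ⟨v, hv, hf⟩
  refine hok cl hm ?_
  choose v' hv' using fun i => h.tot (v i) (hv i)
  exact ⟨v', fun i => (hv' i).1, fun f hfm => h.map f.s f.t (hin f hfm) _ _ _ _ (hv _) (hv _)
    (hv' _).2 (hv' _).2 (hf f hfm)⟩

private theorem fc_sup {L : List RT} {s : Bool} {t : RT} (ht : t ∈ L) {c x y : A.C} (hx : x < c)
    (hy : y < c) : Sup L c (fc s t x y) := by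
  refine ⟨_, ?_, _, ?_, x, hx, y, hy, rfl⟩
  · cases s
    · simp
    · simp
  · have h1 : t.code ≤ cmax L := List.single_le_sum (by simp) _ (List.mem_map_of_mem ht)
    exact Nat.mono_cast h1

private theorem step {L : List RT} (hat : ∀ i, .atom i ∈ L)
    (hcl : ∀ t ∈ L, ∀ cl ∈ tmCl t, ∀ f ∈ cl, f.t ∈ L)
    {S S' c p c' p' g p'' a b a' b' : A.C} {k : ℕ}
    (hS : c + 1 ≤ S) (hS' : c' + 1 ≤ S')
    (hs : ∀ i, Mem i p → Sup L c i) (h : Hom L c p c' p' g)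
    (hsub : ∀ i, Mem i p' → Mem i p'') (ha : a < c) (hb : b < c)
    (hga : Mem (pr a a') g) (hgb : Mem (pr b b') g) (ha' : a' < c') (hb' : b' < c')
    (hans : Ans L (Has p'') k a' b' c') :
    ∃ q g', q < ex (fb L S) ∧ g' < ex (pr S S' + 1) ∧ (∀ i, Mem i p → Mem i q) ∧
      (∀ i, Mem i q → Sup L (c + 1) i) ∧ Ans L (Has q) k a b c ∧
      Hom L (c + 1) q (c' + 1) p'' g' := by
  obtain ⟨g0, hg0, hg1⟩ := restr g c c'
  obtain ⟨g', hg'⟩ := exists_ins (pr c c') g0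
  have hmem : ∀ x x', Mem (pr x x') g' ↔ (x < c ∧ x' < c' ∧ Mem (pr x x') g) ∨
      (x = c ∧ x' = c') := by
    intro x x'
    rw [hg', hg0]
    refine or_congr Iff.rfl ⟨fun h => pr_inj h, ?_⟩
    rintro ⟨rfl, rfl⟩
    rfl
  have hlt : ∀ x x', Mem (pr x x') g' → x < c + 1 ∧ x' < c' + 1 := by
    intro x x' hx
    rcases (hmem x x').1 hx with ⟨h1, h2, -⟩ | ⟨rfl, rfl⟩
    · exact ⟨(lt_add_one_iff' _ _).2 h1.le, (lt_add_one_iff' _ _).2 h2.le⟩
    · exact ⟨(lt_add_one_iff' _ _).2 le_rfl, (lt_add_one_iff' _ _).2 le_rfl⟩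
  have hfn : ∀ x x' x'', Mem (pr x x') g' → Mem (pr x x'') g' → x' = x'' := by
    intro x x' x'' h1 h2
    rcases (hmem _ _).1 h1 with ⟨h3, -, h4⟩ | ⟨h3, h4⟩
    · rcases (hmem _ _).1 h2 with ⟨-, -, h5⟩ | ⟨h5, -⟩
      · exact h.fn x x' x'' h4 h5
      · exact absurd h5 h3.ne
    · rcases (hmem _ _).1 h2 with ⟨h5, -, -⟩ | ⟨-, h6⟩
      · exact absurd h3 h5.ne
      · rw [h4, h6]
  let P : A.C → Prop := fun i => Mem i p ∨ (∃ s ∈ [true, false], ∃ t ∈ L, ∃ x, x < c + 1 ∧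
    ∃ y, y < c + 1 ∧ ∃ x', x' < c' + 1 ∧ ∃ y', y' < c' + 1 ∧ (i = fc s t x y ∧
      (Mem (pr x x') g' ∧ Mem (pr y y') g' ∧ Has p'' s t x' y')))
  have hP : DfnM A P := by
    refine DfnM.or (by fun_prop) ?_
    refine dfn_bex_list _ fun s _ => ?_
    refine dfn_bex_list _ fun t _ => ?_
    refine DfnM.bexLt (by fun_prop) ?_
    refine DfnM.bexLt (by fun_prop) ?_
    refine DfnM.bexLt (by fun_prop) ?_
    refine DfnM.bexLt (by fun_prop) ?_
    fun_prop
  have hPs : ∀ i, P i → Sup L (c + 1) i := by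
    rintro i (hi | ⟨s, -, t, ht, x, hx, y, hy, -, -, -, -, rfl, -⟩)
    · obtain ⟨s, hs1, k1, hk1, x, hx, y, hy, he⟩ := hs i hi
      have hcc : c < c + 1 := (lt_add_one_iff' _ _).2 le_rfl
      exact ⟨s, hs1, k1, hk1, x, hx.trans hcc, y, hy.trans hcc, he⟩
    · exact fc_sup ht hx hy
  obtain ⟨q, hq, hqm⟩ := compr' hP (fb L S) (fun i hi =>
    lt_of_lt_of_le (sup_lt (hPs i hi)) (fb_mono L hS))
  have tr : ∀ s, ∀ t ∈ L, ∀ x y x' y', Mem (pr x x') g' → Mem (pr y y') g' →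
      Has p'' s t x' y' → Has q s t x y := by
    intro s t ht x y x' y' h1 h2 h3
    refine (hqm _).2 (Or.inr ⟨s, by cases s <;> simp, t, ht, x, (hlt _ _ h1).1, y, (hlt _ _ h2).1,
      x', (hlt _ _ h1).2, y', (hlt _ _ h2).2, rfl, h1, h2, h3⟩)
  have ga : Mem (pr a a') g' := (hmem _ _).2 (Or.inl ⟨ha, ha', hga⟩)
  have gb : Mem (pr b b') g' := (hmem _ _).2 (Or.inl ⟨hb, hb', hgb⟩)
  have gc : Mem (pr c c') g' := (hmem _ _).2 (Or.inr ⟨rfl, rfl⟩)
  refine ⟨q, g', hq, ?_, fun i hi => (hqm i).2 (Or.inl hi), fun i hi => hPs i ((hqm i).1 hi),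
    ?_, ?_⟩
  · rw [lt_ex_iff]
    intro i hi
    have hcS : c ≤ S := le_trans le_self_add hS
    have hcS' : c' ≤ S' := le_trans le_self_add hS'
    rw [lt_add_one_iff']
    rcases (hg' i).1 hi with h1 | rfl
    · obtain ⟨x, x', hx, hx', rfl⟩ := hg1 i h1
      exact pr_mono (hx.le.trans hcS) (hx'.le.trans hcS')
    · exact pr_mono hcS hcS'
  · obtain ⟨h1, h2, h3, h4⟩ := hans
    refine ⟨?_, ?_, ?_, ?_⟩
    · intro t ht hk
      rcases h1 t ht hk with h5 | ⟨h5, h6⟩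
      · exact Or.inl (tr _ t ht _ _ _ _ ga gb h5)
      · refine Or.inr ⟨tr _ t ht _ _ _ _ ga gb h5, ?_⟩
        intro u v htuv
        obtain ⟨h7, h8⟩ := h6 u v htuv
        subst htuv
        have hu : u ∈ L := hcl _ ht [⟨false, .comp u v, 0, 1⟩, ⟨true, u, 0, 2⟩, ⟨true, v, 2, 1⟩]
          (by simp [tmCl]) ⟨true, u, 0, 2⟩ (by simp)
        have hv : v ∈ L := hcl _ ht [⟨false, .comp u v, 0, 1⟩, ⟨true, u, 0, 2⟩, ⟨true, v, 2, 1⟩]
          (by simp [tmCl]) ⟨true, v, 2, 1⟩ (by simp)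
        exact ⟨tr _ u hu _ _ _ _ ga gc h7, tr _ v hv _ _ _ _ gc gb h8⟩
    · intro i hi hk
      exact tr _ _ (hat i) _ _ _ _ ga gc (h2 i hi hk)
    · intro hk
      exact ⟨tr _ _ (hat 1) _ _ _ _ gc ga (h3 hk).1, tr _ _ (hat 2) _ _ _ _ gc gb (h3 hk).2⟩
    · intro hk
      rcases h4 hk with h5 | h5
      · exact Or.inl (tr _ _ (hat 3) _ _ _ _ ga ga h5)
      · exact Or.inr (tr _ _ (hat 4) _ _ _ _ gc ga h5)
  · refine ⟨?_, hfn, ?_⟩
    · intro x hx
      rcases lt_or_eq_of_le ((lt_add_one_iff' _ _).1 hx) with h1 | rfl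
      · obtain ⟨x', h2, h3⟩ := h.tot x h1
        exact ⟨x', (lt_add_one_iff' _ _).2 h2.le, (hmem _ _).2 (Or.inl ⟨h1, h2, h3⟩)⟩
      · exact ⟨c', (lt_add_one_iff' _ _).2 le_rfl, gc⟩
    · intro s t ht x y x' y' _ _ h1 h2 h3
      rcases (hqm _).1 h3 with h4 | ⟨s2, -, t2, -, x2, -, y2, -, x2', -, y2', -, he, h5, h6, h7⟩
      · obtain ⟨s3, -, k3, -, x3, hx3, y3, hy3, he⟩ := hs _ h4
        obtain ⟨-, he2⟩ := pr_inj he
        obtain ⟨-, he3⟩ := pr_inj he2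
        obtain ⟨rfl, rfl⟩ := pr_inj he3
        rcases (hmem _ _).1 h1 with ⟨-, -, h8⟩ | ⟨h8, -⟩
        · rcases (hmem _ _).1 h2 with ⟨-, -, h9⟩ | ⟨h9, -⟩
          · exact hsub _ (h.map s t ht _ _ _ _ hx3 hy3 h8 h9 h4)
          · exact absurd h9 hy3.ne
        · exact absurd h8 hx3.ne
      · obtain ⟨rfl, rfl, rfl, rfl⟩ := fc_inj he
        obtain rfl := hfn _ _ _ h1 h5
        obtain rfl := hfn _ _ _ h2 h6
        exact h7

theorem win_hom {L : List RT} (hat : ∀ i, .atom i ∈ L) (hcl : ∀ t ∈ L, ∀ cl ∈ tmCl t, ∀ f ∈ cl, f.t ∈ L)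
    {c p c' p' g B : A.C} (hc : 0 < c) (hs : ∀ i, Mem i p → Sup L c i)
    (h : Hom L c p c' p' g) (hw : Win L c' p' B) : Win L c p B := by
  have key : ∀ S S' B : A.C, ∀ c, c ≤ S → ∀ c', c' ≤ S' → ∀ p, p < ex (fb L S) →
      ∀ p', p' < ex (fb L S') → ∀ g, g < ex (pr S S' + 1) →
      (c + B ≤ S → c' + B ≤ S' → 0 < c → (∀ i, Mem i p → Sup L c i) → Hom L c p c' p' g →
        Win L c' p' B → Win L c p B) := by
    intro S S' B
    refine dind (P := fun B => ∀ c, c ≤ S → ∀ c', c' ≤ S' → ∀ p, p < ex (fb L S) →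
      ∀ p', p' < ex (fb L S') → ∀ g, g < ex (pr S S' + 1) →
      (c + B ≤ S → c' + B ≤ S' → 0 < c → (∀ i, Mem i p → Sup L c i) → Hom L c p c' p' g →
        Win L c' p' B → Win L c p B)) ?_ ?_ ?_ B
    · refine DfnM.ballLe (by fun_prop) ?_
      refine DfnM.ballLe (by fun_prop) ?_
      refine DfnM.ballLt (by fun_prop) ?_
      refine DfnM.ballLt (by fun_prop) ?_
      refine DfnM.ballLt (by fun_prop) ?_
      refine DfnM.imp (by fun_prop) (DfnM.imp (by fun_prop) (DfnM.imp (by fun_prop)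
        (DfnM.imp ?_ (DfnM.imp ?_ (DfnM.imp ?_ ?_)))))
      · exact dfn_ball_mem (by fun_prop) (Sup.dfn L (by fun_prop) (by fun_prop))
      · exact Hom.dfn L (by fun_prop) (by fun_prop) (by fun_prop) (by fun_prop) (by fun_prop)
      · exact Win.dfn L (by fun_prop) (by fun_prop) (by fun_prop)
      · exact Win.dfn L (by fun_prop) (by fun_prop) (by fun_prop)
    · intro c _ c' _ p _ p' _ g _ _ _ hc hs h hw
      exact (win_zero L c p).2 ⟨hc, hs, ok_hom hat hcl h hw.toPos.ok⟩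
    · intro B ih c _ c' _ p _ p' _ g _ hS hS' hc hs h hw
      obtain ⟨hpos, H⟩ := (win_succ L c' p' B).1 hw
      have e1 : c + 1 + B ≤ S := by
        calc c + 1 + B = c + (B + 1) := by ring
          _ ≤ S := hS
      have e2 : c' + 1 + B ≤ S' := by
        calc c' + 1 + B = c' + (B + 1) := by ring
          _ ≤ S' := hS'
      have e3 : c + 1 ≤ S := le_trans le_self_add e1
      have e4 : c' + 1 ≤ S' := le_trans le_self_add e2
      refine (win_succ L c p B).2 ⟨⟨hc, hs, ok_hom hat hcl h hpos.ok⟩, ?_⟩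
      intro k hk a b ha hb
      obtain ⟨a', ha', hga⟩ := h.tot a ha
      obtain ⟨b', hb', hgb⟩ := h.tot b hb
      obtain ⟨p'', h1, h2, h3⟩ := H k hk a' b' ha' hb'
      obtain ⟨q, g', h4, h5, h6, h7, h8, h9⟩ := step (S := S) (S' := S') hat hcl e3 e4 hs h h1 ha hb
        hga hgb ha' hb' h2
      refine ⟨q, h6, h8, ih _ e3 _ e4 _ h4 _ ?_ _ h5 e1 e2 ?_ h7 h9 h3⟩
      · exact lt_of_lt_of_le (pos_lt h3.toPos.sup) (ex_le_ex (fb_mono L e4))
      · exact (lt_add_one_iff' _ _).2 zero_le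
  obtain ⟨g0, hg0, hg1⟩ := restr g c c'
  refine key (c + B) (c' + B) B c le_self_add c' le_self_add p ?_ p' ?_ g0 ?_ le_rfl le_rfl hc hs
    ?_ hw
  · exact lt_of_lt_of_le (pos_lt hs) (ex_le_ex (fb_mono L le_self_add))
  · exact lt_of_lt_of_le (pos_lt hw.toPos.sup) (ex_le_ex (fb_mono L le_self_add))
  · rw [lt_ex_iff]
    intro i hi
    obtain ⟨x, x', hx, hx', rfl⟩ := hg1 i hi
    rw [lt_add_one_iff']
    exact pr_mono (hx.le.trans le_self_add) (hx'.le.trans le_self_add)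
  · refine ⟨?_, ?_, ?_⟩
    · intro a ha
      obtain ⟨a', h1, h2⟩ := h.tot a ha
      exact ⟨a', h1, (hg0 _ _).2 ⟨ha, h1, h2⟩⟩
    · intro a a' a'' h1 h2
      exact h.fn a a' a'' ((hg0 _ _).1 h1).2.2 ((hg0 _ _).1 h2).2.2
    · intro s t ht a b a' b' ha hb h1 h2 h3
      exact h.map s t ht a b a' b' ha hb ((hg0 _ _).1 h1).2.2 ((hg0 _ _).1 h2).2.2 h3

end Pool.Agent.Work.MP_de7025_lc.F
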