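import Pool.Agent.Work.MP_de7025_lc.F.G3
import Pool.Agent.Work.MP_de7025_lc.F.U1

set_option autoImplicit false

/-!
# F/G6 (M-L): the game for the atoms

A valuation: `g` codes a function of `{a < c}` to `{x < V}`; it is good for `p` if every fact `± R i a b` of `p` (`i ≤ 6`, `a, b < c`) is true (false) for the values: `NR i (g a) (g b)`.
PROOF of `win_base`. Fix `S`. By induction on `B` (bounded quantifiers; `NR i` is definable because its witnesses are bounded by `a`): for all `j` with `j + B = S`, all `c ≤ 1 + j`, all `p` supported on `c` and all `g` which code a valuation with values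
`< ex (ex (2 * j + 3))` good for `p`: `Win atomsL c p B`. `Pos`: a violated clause of `p` would be a violated clause for the numbers (`num_UAx`, the clauses `axCl`; the clauses `[+ t, - t]` are clear).
`B + 1`: for a request choose the value `x` of the new element `c`: for `kf i` the value of the function `R i` at `g a` (`num_UAx.tot`), for `kp` the number `pr (g a) (g b)`, for `kd` the predecessor of `g a` if `g a ≠ 0`, otherwise `0`; for the code of
`R i`: `0`. `x ≤ pr V V ≤ 8 V ^ 2 < ex (ex (2 (j + 1) + 3))` where `V = ex (ex (2 j + 3))` (`ex (ex (2 j + 5)) = V ^ 4`). `p'` = `p` together with all true facts needed: simplest: all facts `± R i a b`, `a, b < c + 1`, which are true for the new valuation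
(`compr'`), it contains `p`. Start: `c = 1`, `p = 0`, `g = {(0, 0)}`, `j = 0`, `B = S`.
-/

namespace Pool.Agent.Work.MP_de7025_lc.F

variable {A : ArStr.{0}} [IsE A]

/-! ### the relations `NR` are definable -/

private def P1 (d x : A.C) : Prop := (∃ y, d = pr x y) ∨ (x = 0 ∧ ¬ ∃ x' y', d = pr x' y')

private def P2 (d y : A.C) : Prop := (∃ x, d = pr x y) ∨ (y = 0 ∧ ¬ ∃ x' y', d = pr x' y')

private theorem isPr_dfn : DfnM A (fun q : A.C × A.C => ∃ x' y', q.1 = pr x' y') := by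
  have h : (fun q : A.C × A.C => ∃ x' y', q.1 = pr x' y') = fun q : A.C × A.C =>
      ∃ x', x' ≤ q.1 ∧ ∃ y', y' ≤ q.1 ∧ q.1 = pr x' y' := by
    funext q
    apply propext
    constructor
    · rintro ⟨x', y', e⟩
      exact ⟨x', by rw [e]; exact le_pr_left _ _, y', by rw [e]; exact le_pr_right _ _, e⟩
    · rintro ⟨x', -, y', -, e⟩
      exact ⟨x', y', e⟩
  rw [h]
  refine DfnM.bexLe (P := fun (q : A.C × A.C) x' => ∃ y', y' ≤ q.1 ∧ q.1 = pr x' y') (by fun_prop) ?_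
  exact DfnM.bexLe (f := fun g : (A.C × A.C) × A.C => g.1.1)
    (P := fun g y' => g.1.1 = pr g.2 y') (by fun_prop) (by fun_prop)

private theorem P1_dfn : DfnM A (fun q : A.C × A.C => P1 q.1 q.2) := by
  have h : (fun q : A.C × A.C => P1 q.1 q.2) = fun q : A.C × A.C =>
      (∃ y, y ≤ q.1 ∧ q.1 = pr q.2 y) ∨ (q.2 = 0 ∧ ¬ ∃ x' y', q.1 = pr x' y') := by
    funext q
    apply propext
    refine or_congr ⟨?_, ?_⟩ Iff.rfl
    · rintro ⟨y, e⟩
      exact ⟨y, by rw [e]; exact le_pr_right _ _, e⟩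
    · rintro ⟨y, -, e⟩
      exact ⟨y, e⟩
  rw [h]
  have h1 : DfnM A (fun q : A.C × A.C => ∃ y, y ≤ q.1 ∧ q.1 = pr q.2 y) :=
    DfnM.bexLe (P := fun (q : A.C × A.C) y => q.1 = pr q.2 y) (by fun_prop) (by fun_prop)
  have h2 := isPr_dfn (A := A)
  exact DfnM.or h1 (DfnM.and (by fun_prop) (DfnM.not h2))

private theorem P2_dfn : DfnM A (fun q : A.C × A.C => P2 q.1 q.2) := by
  have h : (fun q : A.C × A.C => P2 q.1 q.2) = fun q : A.C × A.C =>
      (∃ x, x ≤ q.1 ∧ q.1 = pr x q.2) ∨ (q.2 = 0 ∧ ¬ ∃ x' y', q.1 = pr x' y') := by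
    funext q
    apply propext
    refine or_congr ⟨?_, ?_⟩ Iff.rfl
    · rintro ⟨y, e⟩
      exact ⟨y, by rw [e]; exact le_pr_left _ _, e⟩
    · rintro ⟨y, -, e⟩
      exact ⟨y, e⟩
  rw [h]
  have h1 : DfnM A (fun q : A.C × A.C => ∃ y, y ≤ q.1 ∧ q.1 = pr y q.2) :=
    DfnM.bexLe (P := fun (q : A.C × A.C) y => q.1 = pr y q.2) (by fun_prop) (by fun_prop)
  have h2 := isPr_dfn (A := A)
  exact DfnM.or h1 (DfnM.and (by fun_prop) (DfnM.not h2))

private theorem P1_le {d x : A.C} (h : P1 d x) : x ≤ d := by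
  rcases h with ⟨y, e⟩ | ⟨e, -⟩
  · rw [e]
    exact le_pr_left _ _
  · rw [e]
    exact zero_le

private theorem P2_le {d x : A.C} (h : P2 d x) : x ≤ d := by
  rcases h with ⟨y, e⟩ | ⟨e, -⟩
  · rw [e]
    exact le_pr_right _ _
  · rw [e]
    exact zero_le

private theorem P12_ex (d : A.C) : ∃ x y, P1 d x ∧ P2 d y := by
  by_cases h : ∃ x' y', d = pr x' y'
  · obtain ⟨x, y, e⟩ := h
    exact ⟨x, y, Or.inl ⟨y, e⟩, Or.inl ⟨x, e⟩⟩
  · exact ⟨0, 0, Or.inr ⟨rfl, h⟩, Or.inr ⟨rfl, h⟩⟩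

private theorem P12_pr (x y : A.C) : P1 (pr x y) x ∧ P2 (pr x y) y :=
  ⟨Or.inl ⟨y, rfl⟩, Or.inl ⟨x, rfl⟩⟩

private theorem op_dfn {F : A.C → A.C → A.C}
    (hF : DfnM A (fun q : A.C × A.C => F q.1 q.2)) :
    DfnM A (fun q : A.C × A.C => ∃ x y, P1 q.1 x ∧ P2 q.1 y ∧ q.2 = F x y) := by
  have h : (fun q : A.C × A.C => ∃ x y, P1 q.1 x ∧ P2 q.1 y ∧ q.2 = F x y) =
      fun q : A.C × A.C => ∃ x, x ≤ q.1 ∧ ∃ y, y ≤ q.1 ∧
        (P1 q.1 x ∧ P2 q.1 y ∧ q.2 = F x y) := by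
    funext q
    apply propext
    constructor
    · rintro ⟨x, y, h1, h2, e⟩
      exact ⟨x, P1_le h1, y, P2_le h2, h1, h2, e⟩
    · rintro ⟨x, -, y, -, h1⟩
      exact ⟨x, y, h1⟩
  rw [h]
  refine DfnM.bexLe (P := fun (q : A.C × A.C) x => ∃ y, y ≤ q.1 ∧
        (P1 q.1 x ∧ P2 q.1 y ∧ q.2 = F x y)) (by fun_prop) ?_
  refine DfnM.bexLe (f := fun g : (A.C × A.C) × A.C => g.1.1)
    (P := fun g y => (P1 g.1.1 g.2 ∧ P2 g.1.1 y ∧ g.1.2 = F g.2 y)) (by fun_prop) ?_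
  refine DfnM.and (P1_dfn.comp (f := fun r : ((A.C × A.C) × A.C) × A.C => (r.1.1.1, r.1.2))
    (by fun_prop)) (DfnM.and (P2_dfn.comp (f := fun r : ((A.C × A.C) × A.C) × A.C =>
    (r.1.1.1, r.2)) (by fun_prop)) (DfnM.eq (by fun_prop) ?_))
  exact hF.comp (f := fun r : ((A.C × A.C) × A.C) × A.C => (r.1.2, r.2)) (by fun_prop)

private theorem NR_dfn (i : Fin 7) : DfnM A (fun q : A.C × A.C => NR i q.1 q.2) := by
  match i with
  | 0 =>
    show DfnM A (fun q : A.C × A.C => q.1 = q.2)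
    fun_prop
  | 1 => exact P1_dfn
  | 2 => exact P2_dfn
  | 3 =>
    show DfnM A (fun q : A.C × A.C => q.2 = 0)
    fun_prop
  | 4 =>
    show DfnM A (fun q : A.C × A.C => q.2 = q.1 + 1)
    fun_prop
  | 5 => exact op_dfn (F := fun x y => x + y) (by fun_prop)
  | 6 => exact op_dfn (F := fun x y => x * y) (by fun_prop)

private def Tr (s : Bool) (i : Fin 7) (x y : A.C) : Prop :=
  if s = true then NR i x y else ¬ NR i x y

private theorem Tr_dfn (s : Bool) (i : Fin 7) : DfnM A (fun q : A.C × A.C => Tr s i q.1 q.2) := by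
  cases s with
  | true =>
    have h : (fun q : A.C × A.C => Tr true i q.1 q.2) = fun q : A.C × A.C => NR i q.1 q.2 := by
      funext q
      exact if_pos rfl
    rw [h]
    exact NR_dfn i
  | false =>
    have h : (fun q : A.C × A.C => Tr false i q.1 q.2) = fun q : A.C × A.C => ¬ NR i q.1 q.2 := by
      funext q
      exact if_neg (by decide)
    rw [h]
    exact DfnM.not (NR_dfn i)

/-! ### true facts -/

private def qL : List (Bool × Fin 7) := ([true, false] : List Bool) ×ˢ List.finRange 7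

private theorem mem_qL (q : Bool × Fin 7) : q ∈ qL := by
  obtain ⟨s, i⟩ := q
  rw [qL, List.mem_product]
  refine ⟨?_, List.mem_finRange i⟩
  cases s <;> simp

private def TF (c V g j : A.C) : Prop :=
  ∃ q ∈ qL, ∃ a, a < c ∧ ∃ b, b < c ∧ ∃ x, x < V ∧ ∃ y, y < V ∧
    (Mem (pr a x) g ∧ Mem (pr b y) g ∧ j = fc q.1 (.atom q.2) a b ∧ Tr q.1 q.2 x y)

private theorem TF_dfn : DfnM A (fun r : A.C × A.C × A.C × A.C => TF r.1 r.2.1 r.2.2.1 r.2.2.2) := by
  refine dfn_bex_list (A := A) qL (P := fun q (r : A.C × A.C × A.C × A.C) =>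
    ∃ a, a < r.1 ∧ ∃ b, b < r.1 ∧ ∃ x, x < r.2.1 ∧ ∃ y, y < r.2.1 ∧
    (Mem (pr a x) r.2.2.1 ∧ Mem (pr b y) r.2.2.1 ∧ r.2.2.2 = fc q.1 (.atom q.2) a b ∧
      Tr q.1 q.2 x y)) fun q _ => ?_
  refine DfnM.bexLt (P := fun (r : A.C × A.C × A.C × A.C) a =>
    ∃ b, b < r.1 ∧ ∃ x, x < r.2.1 ∧ ∃ y, y < r.2.1 ∧
    (Mem (pr a x) r.2.2.1 ∧ Mem (pr b y) r.2.2.1 ∧ r.2.2.2 = fc q.1 (.atom q.2) a b ∧
      Tr q.1 q.2 x y)) (by fun_prop) ?_
  refine DfnM.bexLt (f := fun r : (A.C × A.C × A.C × A.C) × A.C => r.1.1)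
    (P := fun r b => ∃ x, x < r.1.2.1 ∧ ∃ y, y < r.1.2.1 ∧
    (Mem (pr r.2 x) r.1.2.2.1 ∧ Mem (pr b y) r.1.2.2.1 ∧ r.1.2.2.2 = fc q.1 (.atom q.2) r.2 b ∧
      Tr q.1 q.2 x y)) (by fun_prop) ?_
  refine DfnM.bexLt (f := fun r : ((A.C × A.C × A.C × A.C) × A.C) × A.C => r.1.1.2.1)
    (P := fun r x => ∃ y, y < r.1.1.2.1 ∧
    (Mem (pr r.1.2 x) r.1.1.2.2.1 ∧ Mem (pr r.2 y) r.1.1.2.2.1 ∧
      r.1.1.2.2.2 = fc q.1 (.atom q.2) r.1.2 r.2 ∧ Tr q.1 q.2 x y)) (by fun_prop) ?_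
  refine DfnM.bexLt (f := fun r : (((A.C × A.C × A.C × A.C) × A.C) × A.C) × A.C => r.1.1.1.2.1)
    (P := fun r y => (Mem (pr r.1.1.2 r.2) r.1.1.1.2.2.1 ∧ Mem (pr r.1.2 y) r.1.1.1.2.2.1 ∧
      r.1.1.1.2.2.2 = fc q.1 (.atom q.2) r.1.1.2 r.1.2 ∧ Tr q.1 q.2 r.2 y)) (by fun_prop) ?_
  refine DfnM.and (by fun_prop) (DfnM.and (by fun_prop) (DfnM.and (by fun_prop) ?_))
  exact (Tr_dfn q.1 q.2).comp
    (f := fun r : ((((A.C × A.C × A.C × A.C) × A.C) × A.C) × A.C) × A.C => (r.1.2, r.2))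
    (by fun_prop)

/-- `g` codes a map of `{a < c}` to `{x < V}` -/
private structure Val (c V g : A.C) : Prop where
  tot : ∀ a, a < c → ∃ x, x < V ∧ Mem (pr a x) g
  sup : ∀ j, Mem j g → ∃ a, a < c ∧ ∃ x, x < V ∧ j = pr a x
  uni : ∀ a, a < c → ∀ x, x < V → ∀ x', x' < V → Mem (pr a x) g → Mem (pr a x') g → x = x'

private theorem Val_dfn : DfnM A (fun r : A.C × A.C × A.C => Val r.1 r.2.1 r.2.2) := by
  have h : (fun r : A.C × A.C × A.C => Val r.1 r.2.1 r.2.2) = fun r : A.C × A.C × A.C =>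
      (∀ a, a < r.1 → ∃ x, x < r.2.1 ∧ Mem (pr a x) r.2.2) ∧
      (∀ j, Mem j r.2.2 → ∃ a, a < r.1 ∧ ∃ x, x < r.2.1 ∧ j = pr a x) ∧
      (∀ a, a < r.1 → ∀ x, x < r.2.1 → ∀ x', x' < r.2.1 → Mem (pr a x) r.2.2 →
        Mem (pr a x') r.2.2 → x = x') := by
    funext r
    apply propext
    exact ⟨fun h => ⟨h.tot, h.sup, h.uni⟩, fun h => ⟨h.1, h.2.1, h.2.2⟩⟩
  rw [h]
  refine DfnM.and ?_ (DfnM.and ?_ ?_)
  · refine DfnM.ballLt (P := fun (r : A.C × A.C × A.C) a => ∃ x, x < r.2.1 ∧ Mem (pr a x) r.2.2)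
      (by fun_prop) ?_
    exact DfnM.bexLt (f := fun r : (A.C × A.C × A.C) × A.C => r.1.2.1)
      (P := fun r x => Mem (pr r.2 x) r.1.2.2) (by fun_prop) (by fun_prop)
  · refine dfn_ball_mem (p := fun r : A.C × A.C × A.C => r.2.2)
      (P := fun (r : A.C × A.C × A.C) j => ∃ a, a < r.1 ∧ ∃ x, x < r.2.1 ∧ j = pr a x)
      (by fun_prop) ?_
    refine DfnM.bexLt (f := fun r : (A.C × A.C × A.C) × A.C => r.1.1)
      (P := fun r a => ∃ x, x < r.1.2.1 ∧ r.2 = pr a x) (by fun_prop) ?_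
    exact DfnM.bexLt (f := fun r : ((A.C × A.C × A.C) × A.C) × A.C => r.1.1.2.1)
      (P := fun r x => r.1.2 = pr r.2 x) (by fun_prop) (by fun_prop)
  · refine DfnM.ballLt (P := fun (r : A.C × A.C × A.C) a => ∀ x, x < r.2.1 → ∀ x', x' < r.2.1 →
      Mem (pr a x) r.2.2 → Mem (pr a x') r.2.2 → x = x') (by fun_prop) ?_
    refine DfnM.ballLt (f := fun r : (A.C × A.C × A.C) × A.C => r.1.2.1)
      (P := fun r x => ∀ x', x' < r.1.2.1 →
      Mem (pr r.2 x) r.1.2.2 → Mem (pr r.2 x') r.1.2.2 → x = x') (by fun_prop) ?_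
    exact DfnM.ballLt (f := fun r : ((A.C × A.C × A.C) × A.C) × A.C => r.1.1.2.1)
      (P := fun r x' => Mem (pr r.1.2 r.2) r.1.1.2.2 → Mem (pr r.1.2 x') r.1.1.2.2 → r.2 = x')
      (by fun_prop) (by fun_prop)

private noncomputable def Vb (c : A.C) : A.C := ex (ex (c + c))

@[fun_prop]
private theorem Vb_dfn {Γ : Type} [Ctx A Γ] {f : Γ → A.C} (hf : DfnM A f) :
    DfnM A (fun x => Vb (f x)) := by
  unfold Vb
  fun_prop

private theorem Vb_mono {c d : A.C} (h : c ≤ d) : Vb c ≤ Vb d :=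
  ex_le_ex (ex_le_ex (add_le_add h h))

private theorem Vb_lt (c : A.C) : Vb c < Vb (c + 1) := by
  refine ex_lt_ex (ex_lt_ex ?_)
  have h : c < c + 1 := (lt_add_one_iff' _ _).2 le_rfl
  exact add_lt_add h h

private theorem two_le_Vb (c : A.C) : 1 + 1 ≤ Vb c := by
  have h1 : Vb (0 : A.C) = 1 + 1 := by
    have e : ex (1 : A.C) = 1 + 1 := by
      have e1 := ex_add_one (0 : A.C)
      rwa [zero_add, ex_zero] at e1
    rw [Vb, add_zero, ex_zero, e]
  rw [← h1]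
  exact Vb_mono zero_le

private theorem Vb_succ (c : A.C) : Vb (c + 1) = Vb c * Vb c * (Vb c * Vb c) := by
  have h1 : (c + 1) + (c + 1) = c + c + 1 + 1 := by ring
  rw [Vb, h1, ex_add_one, ex_add_one, ex_add, ex_add]
  rfl

private theorem Vb_sq (c : A.C) : Vb c + Vb c ≤ Vb c * Vb c := by
  calc Vb c + Vb c = (1 + 1) * Vb c := by ring
    _ ≤ Vb c * Vb c := mul_le_mul' (two_le_Vb c) le_rfl

private theorem lt_four {c z x y : A.C} (hx : x < Vb c) (hy : y < Vb c)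
    (hz : z < (x + y + 1) * (x + y + 1)) : z < Vb (c + 1) := by
  have h1 : x + y + 1 ≤ Vb c + Vb c := by
    calc x + y + 1 ≤ x + y + 1 + 1 := le_self_add
      _ = (x + 1) + (y + 1) := by ring
      _ ≤ Vb c + Vb c := add_le_add ((add_one_le_iff' _ _).2 hx) ((add_one_le_iff' _ _).2 hy)
  have h2 := h1.trans (Vb_sq c)
  rw [Vb_succ]
  exact hz.trans_le (mul_le_mul' h2 h2)

private theorem sq_lt (u v : A.C) (h : v ≤ u) : u * u + v < (u + 1) * (u + 1) := by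
  have e : (u + 1) * (u + 1) = u * u + u + (u + 1) := by ring
  rw [e]
  refine lt_of_le_of_lt (add_le_add le_rfl h) ?_
  exact lt_add_of_pos_right _ ((lt_add_one_iff' _ _).2 zero_le)

/-- the answers for the numbers -/
private theorem ans_ex {c x y : A.C} (hx : x < Vb c) (hy : y < Vb c) (k : ℕ) :
    ∃ z, z < Vb (c + 1) ∧ (∀ i : Fin 7, i ≠ 0 → k = kf i.val → NR i x z) ∧
      (k = kp → NR 1 z x ∧ NR 2 z y) ∧ (k = kd → NR 3 x x ∨ NR 4 z x) := by
  have hV0 : (0 : A.C) < Vb (c + 1) :=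
    lt_four (z := 0) hx hy (mul_pos ((lt_add_one_iff' _ _).2 zero_le)
      ((lt_add_one_iff' _ _).2 zero_le))
  have hle : ∀ z, z ≤ x → z < Vb (c + 1) := by
    intro z hz
    refine lt_of_le_of_lt hz (hx.trans_le (Vb_mono ?_))
    exact le_self_add
  by_cases h1 : k = kp
  · refine ⟨pr x y, ?_, ?_, ?_, ?_⟩
    · exact lt_four hx hy (sq_lt (x + y) y le_add_self)
    · intro i _ h2
      exact absurd (h2.symm.trans h1) (kf_ne_kp _)
    · intro _
      exact P12_pr x y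
    · intro h2
      exact absurd (h1.symm.trans h2) kp_ne_kd
  by_cases h2 : k = kd
  · rcases eq_or_ne x 0 with h3 | h3
    · refine ⟨0, hV0, ?_, fun h => absurd h h1, fun _ => Or.inl h3⟩
      intro i _ h4
      exact absurd (h4.symm.trans h2) (kf_ne_kd _)
    · obtain ⟨w, hw⟩ := (pos_iff_exists x).1 (pos_iff_ne_zero.2 h3)
      refine ⟨w, hle w (by rw [hw]; exact le_self_add), ?_, fun h => absurd h h1,
        fun _ => Or.inr hw⟩
      intro i _ h4
      exact absurd (h4.symm.trans h2) (kf_ne_kd _)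
  by_cases h3 : ∃ i : Fin 7, i ≠ 0 ∧ k = kf i.val
  · obtain ⟨i, hi, h4⟩ := h3
    have key : ∃ z, z < Vb (c + 1) ∧ NR i x z := by
      obtain ⟨u, v, hu, hv⟩ := P12_ex x
      have hu1 := P1_le hu
      have hv1 := P2_le hv
      match i with
      | 0 => exact absurd rfl hi
      | 1 => exact ⟨u, hle u hu1, hu⟩
      | 2 => exact ⟨v, hle v hv1, hv⟩
      | 3 => exact ⟨0, hV0, rfl⟩
      | 4 => exact ⟨x + 1, lt_of_le_of_lt ((add_one_le_iff' _ _).2 hx) (Vb_lt c), rfl⟩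
      | 5 =>
        refine ⟨u + v, ?_, u, v, hu, hv, rfl⟩
        refine lt_four hx hx (lt_of_le_of_lt ?_ (sq_lt (x + x) (x + x) le_rfl))
        exact (add_le_add hu1 hv1).trans le_add_self
      | 6 =>
        refine ⟨u * v, ?_, u, v, hu, hv, rfl⟩
        refine lt_four hx hx (lt_of_le_of_lt ?_ (sq_lt (x + x) (x + x) le_rfl))
        refine (mul_le_mul' hu1 hv1).trans (le_trans ?_ le_self_add)
        exact mul_le_mul' le_self_add le_self_add
    obtain ⟨z, hz, h5⟩ := key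
    refine ⟨z, hz, ?_, fun h => absurd h h1, fun h => absurd h h2⟩
    intro i' _ h6
    have h7 : i = i' := Fin.ext (kf_inj (h4.symm.trans h6))
    rw [← h7]
    exact h5
  · refine ⟨0, hV0, ?_, fun h => absurd h h1, fun h => absurd h h2⟩
    intro i hi h4
    exact absurd ⟨i, hi, h4⟩ h3


private theorem fc_inj {s s' : Bool} {t t' : RT} {a b a' b' : A.C}
    (h : fc s t a b = fc s' t' a' b') : s = s' ∧ t = t' ∧ a = a' ∧ b = b' := by
  obtain ⟨h1, h2⟩ := pr_inj h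
  obtain ⟨h3, h4⟩ := pr_inj h2
  obtain ⟨h5, h6⟩ := pr_inj h4
  refine ⟨?_, code_inj (Nat.cast_injective h3), h5, h6⟩
  cases s <;> cases s'
  · rfl
  · simp at h1
  · simp at h1
  · rfl

private theorem TF_iff {c V g : A.C} (hg : Val c V g) {s : Bool} {t : RT} {a b : A.C}
    (h : TF c V g (fc s t a b)) : ∃ i : Fin 7, t = .atom i ∧ a < c ∧ b < c ∧
      ∀ x y, x < V → y < V → Mem (pr a x) g → Mem (pr b y) g → Tr s i x y := by
  obtain ⟨⟨s', i⟩, -, a', ha, b', hb, x', hx', y', hy', h1, h2, h3, h4⟩ := h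
  obtain ⟨e1, e2, e3, e4⟩ := fc_inj h3
  simp only at e1 e2 h4
  subst e1 e2 e3 e4
  refine ⟨i, rfl, ha, hb, fun x y hx hy h5 h6 => ?_⟩
  rw [hg.uni a ha x hx x' hx' h5 h1, hg.uni b hb y hy y' hy' h6 h2]
  exact h4

private theorem TF_Sup {c V g j : A.C} (h : TF c V g j) : Sup atomsL c j := by
  obtain ⟨⟨s, i⟩, -, a, ha, b, hb, x, -, y, -, -, -, h3, -⟩ := h
  refine ⟨if s = true then 1 else 0, ?_, ((RT.atom i).code : A.C), ?_, a, ha, b, hb, h3⟩
  · cases s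
    · simp
    · simp
  · have h4 : ∀ i : Fin 7, (RT.atom i).code ≤ cmax atomsL := by decide
    exact Nat.cast_le.2 (h4 i)

private theorem tf_pos {c V g p : A.C} (hc : 0 < c) (hg : Val c V g)
    (hp : ∀ j, Mem j p → TF c V g j) : Pos atomsL c p where
  pos := hc
  sup i hi := TF_Sup (hp i hi)
  ok := by
    intro cl hcl hv
    obtain ⟨v, hv1, hv2⟩ := hv
    choose x hx1 hx2 using fun i => hg.tot (v i) (hv1 i)
    rw [List.mem_append] at hcl
    rcases hcl with hcl | hcl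
    · refine num_UAx.uni cl hcl ⟨x, fun _ => trivial, fun f hf => ?_⟩
      obtain ⟨i, h1, -, -, h2⟩ := TF_iff hg (hp _ (hv2 f hf))
      have h3 := h2 (x f.i) (x f.j) (hx1 _) (hx1 _) (hx2 _) (hx2 _)
      rw [h1]
      exact h3
    · rw [List.mem_flatMap] at hcl
      obtain ⟨t, ht, hcl⟩ := hcl
      have h0 : ∃ i : Fin 7, t = .atom i := by
        simp only [atomsL, List.mem_cons, List.not_mem_nil, or_false] at ht
        rcases ht with h | h | h | h | h | h | h <;> exact ⟨_, h⟩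
      obtain ⟨i, rfl⟩ := h0
      have hcl' : cl = [⟨true, .atom i, 0, 1⟩, ⟨false, .atom i, 0, 1⟩] := by
        simpa [tmCl] using hcl
      subst hcl'
      have h1 := hv2 ⟨true, .atom i, 0, 1⟩ (by simp)
      have h2 := hv2 ⟨false, .atom i, 0, 1⟩ (by simp)
      obtain ⟨i1, e1, -, -, h3⟩ := TF_iff hg (hp _ h1)
      obtain ⟨i2, e2, -, -, h4⟩ := TF_iff hg (hp _ h2)
      have h5 : Tr true i1 (x 0) (x 1) := h3 (x 0) (x 1) (hx1 _) (hx1 _) (hx2 _) (hx2 _)
      have h6 : Tr false i2 (x 0) (x 1) := h4 (x 0) (x 1) (hx1 _) (hx1 _) (hx2 _) (hx2 _)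
      injection e1 with e1
      injection e2 with e2
      subst e1
      subst e2
      rw [Tr, if_pos rfl] at h5
      rw [Tr, if_neg (by decide)] at h6
      exact h6 h5

private theorem TF_mono {c V V' g g' j : A.C} (hV : V ≤ V') (hg : ∀ i, Mem i g → Mem i g')
    (h : TF c V g j) : TF (c + 1) V' g' j := by
  obtain ⟨q, hq, a, ha, b, hb, x, hx, y, hy, h1, h2, h3, h4⟩ := h
  have hc : c ≤ c + 1 := le_self_add
  exact ⟨q, hq, a, ha.trans_le hc, b, hb.trans_le hc, x, hx.trans_le hV, y, hy.trans_le hV,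
    hg _ h1, hg _ h2, h3, h4⟩

private theorem val_step {c V V' z g g' : A.C} (hV : V ≤ V') (hz : z < V') (hg : Val c V g)
    (hg' : ∀ j, Mem j g' ↔ Mem j g ∨ j = pr c z) : Val (c + 1) V' g' where
  tot a ha := by
    rcases ((lt_add_one_iff' a c).1 ha).lt_or_eq with h | h
    · obtain ⟨x, hx, h1⟩ := hg.tot a h
      exact ⟨x, hx.trans_le hV, (hg' _).2 (Or.inl h1)⟩
    · exact ⟨z, hz, (hg' _).2 (Or.inr (by rw [h]))⟩
  sup j hj := by
    have hc : c < c + 1 := (lt_add_one_iff' _ _).2 le_rfl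
    rcases (hg' _).1 hj with h | h
    · obtain ⟨a, ha, x, hx, h1⟩ := hg.sup j h
      exact ⟨a, ha.trans hc, x, hx.trans_le hV, h1⟩
    · exact ⟨c, hc, z, hz, h⟩
  uni a ha x hx x' hx' h1 h2 := by
    rcases (hg' _).1 h1 with h3 | h3 <;> rcases (hg' _).1 h2 with h4 | h4
    · obtain ⟨a1, ha1, y1, hy1, e1⟩ := hg.sup _ h3
      obtain ⟨a2, ha2, y2, hy2, e2⟩ := hg.sup _ h4
      obtain ⟨e3, e4⟩ := pr_inj e1
      obtain ⟨e5, e6⟩ := pr_inj e2
      refine hg.uni a (by rw [e3]; exact ha1) x (by rw [e4]; exact hy1) x'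
        (by rw [e6]; exact hy2) h3 h4
    · obtain ⟨a1, ha1, y1, hy1, e1⟩ := hg.sup _ h3
      obtain ⟨e3, -⟩ := pr_inj e1
      obtain ⟨e5, -⟩ := pr_inj h4
      rw [← e3, e5] at ha1
      exact absurd ha1 (lt_irrefl _)
    · obtain ⟨a1, ha1, y1, hy1, e1⟩ := hg.sup _ h4
      obtain ⟨e3, -⟩ := pr_inj e1
      obtain ⟨e5, -⟩ := pr_inj h3
      rw [← e3, e5] at ha1
      exact absurd ha1 (lt_irrefl _)
    · rw [(pr_inj h3).2, (pr_inj h4).2]

/-- one step of the game -/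
private theorem tf_step {c g p : A.C} (hg : Val c (Vb c) g)
    (hp : ∀ j, Mem j p → TF c (Vb c) g j) (k : ℕ) {a b : A.C} (ha : a < c) (hb : b < c) :
    ∃ g' p', Val (c + 1) (Vb (c + 1)) g' ∧ (∀ j, Mem j p' → TF (c + 1) (Vb (c + 1)) g' j) ∧
      (∀ i, Mem i p → Mem i p') ∧ Ans atomsL (Has p') k a b c := by
  obtain ⟨x, hx, hax⟩ := hg.tot a ha
  obtain ⟨y, hy, hby⟩ := hg.tot b hb
  obtain ⟨z, hz, h1, h2, h3⟩ := ans_ex hx hy k
  obtain ⟨g', hg'⟩ := exists_ins (pr c z) g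
  have hV : Vb c ≤ Vb (c + 1) := (Vb_lt c).le
  have hval := val_step hV hz hg hg'
  have hsub : ∀ i, Mem i g → Mem i g' := fun i hi => (hg' i).2 (Or.inl hi)
  obtain ⟨p', -, hp'⟩ := compr' (P := fun j => TF (c + 1) (Vb (c + 1)) g' j)
    (TF_dfn.comp (f := fun j : A.C => (c + 1, Vb (c + 1), g', j)) (by fun_prop))
    (fb atomsL (c + 1)) (fun i hi => sup_lt (TF_Sup hi))
  have hc : c < c + 1 := (lt_add_one_iff' _ _).2 le_rfl
  have hmk : ∀ (s : Bool) (i : Fin 7) (a' b' x' y' : A.C), a' < c + 1 → b' < c + 1 →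
      x' < Vb (c + 1) → y' < Vb (c + 1) → Mem (pr a' x') g' → Mem (pr b' y') g' → Tr s i x' y' →
      Has p' s (.atom i) a' b' := by
    intro s i a' b' x' y' k1 k2 k3 k4 k5 k6 k7
    exact (hp' _).2 ⟨(s, i), mem_qL _, a', k1, b', k2, x', k3, y', k4, k5, k6, rfl, k7⟩
  have hcz : Mem (pr c z) g' := (hg' _).2 (Or.inr rfl)
  have ha' := ha.trans hc
  have hb' := hb.trans hc
  have hx' := hx.trans_le hV
  have hy' := hy.trans_le hV
  refine ⟨g', p', hval, fun j hj => (hp' j).1 hj, fun i hi => (hp' i).2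
    (TF_mono hV hsub (hp i hi)), ?_, ?_, ?_, ?_⟩
  · intro t ht _
    have h0 : ∃ i : Fin 7, t = .atom i := by
      simp only [atomsL, List.mem_cons, List.not_mem_nil, or_false] at ht
      rcases ht with h | h | h | h | h | h | h <;> exact ⟨_, h⟩
    obtain ⟨i, rfl⟩ := h0
    by_cases h4 : NR i x y
    · refine Or.inr ⟨hmk true i a b x y ha' hb' hx' hy' (hsub _ hax) (hsub _ hby)
        (by rw [Tr, if_pos rfl]; exact h4), ?_⟩
      intro u v h5
      exact absurd h5 (by simp)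
    · exact Or.inl (hmk false i a b x y ha' hb' hx' hy' (hsub _ hax) (hsub _ hby)
        (by rw [Tr, if_neg (by decide)]; exact h4))
  · intro i hi hk
    exact hmk true i a c x z ha' hc hx' hz (hsub _ hax) hcz
      (by rw [Tr, if_pos rfl]; exact h1 i hi hk)
  · intro hk
    exact ⟨hmk true 1 c a z x hc ha' hz hx' hcz (hsub _ hax)
      (by rw [Tr, if_pos rfl]; exact (h2 hk).1), hmk true 2 c b z y hc hb' hz hy' hcz (hsub _ hby)
      (by rw [Tr, if_pos rfl]; exact (h2 hk).2)⟩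
  · intro hk
    rcases h3 hk with h4 | h4
    · exact Or.inl (hmk true 3 a a x x ha' ha' hx' hx' (hsub _ hax) (hsub _ hax)
        (by rw [Tr, if_pos rfl]; exact h4))
    · exact Or.inr (hmk true 4 c a z x hc ha' hz hx' hcz (hsub _ hax)
        (by rw [Tr, if_pos rfl]; exact h4))

/-- the positions of the strategy -/
private def WP (S G c p B : A.C) : Prop :=
  0 < c ∧ c + B = S ∧ ∃ g, g < G ∧ (Val c (Vb c) g ∧ ∀ j, Mem j p → TF c (Vb c) g j)

private theorem WP_dfn (S G : A.C) :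
    DfnM A (fun r : A.C × A.C × A.C => WP S G r.1 r.2.1 r.2.2) := by
  refine DfnM.and (by fun_prop) (DfnM.and (by fun_prop) ?_)
  refine DfnM.bexLt (f := fun _ : A.C × A.C × A.C => G)
    (P := fun (r : A.C × A.C × A.C) g => (Val r.1 (Vb r.1) g ∧
      ∀ j, Mem j r.2.1 → TF r.1 (Vb r.1) g j)) (by fun_prop) ?_
  refine DfnM.and ?_ ?_
  · exact Val_dfn.comp (f := fun r : (A.C × A.C × A.C) × A.C => (r.1.1, Vb r.1.1, r.2))
      (by fun_prop)
  · refine dfn_ball_mem (p := fun r : (A.C × A.C × A.C) × A.C => r.1.2.1)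
      (P := fun r j => TF r.1.1 (Vb r.1.1) r.2 j) (by fun_prop) ?_
    exact TF_dfn.comp (f := fun r : ((A.C × A.C × A.C) × A.C) × A.C =>
      (r.1.1.1, Vb r.1.1.1, r.1.2, r.2)) (by fun_prop)

private theorem g_bd {S c g : A.C} (hc : c ≤ S) (hg : Val c (Vb c) g) :
    g < ex (pr S (Vb S)) := by
  rw [lt_ex_iff]
  intro j hj
  obtain ⟨a, ha, x, hx, e⟩ := hg.sup j hj
  rw [e]
  exact pr_lt (ha.le.trans hc) (hx.trans_le (Vb_mono hc))

theorem win_base (B : A.C) : Win atomsL (1 : A.C) 0 B := by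
  let S : A.C := 1 + B
  let G : A.C := ex (pr S (Vb S))
  have hdef : DfnM A (fun i : A.C => ∃ c, c ≤ i ∧ ∃ p, p ≤ i ∧ ∃ B', B' ≤ i ∧
      (i = pr c (pr p B') ∧ WP S G c p B')) := by
    refine DfnM.bexLe (f := fun i : A.C => i) (P := fun (i : A.C) c => ∃ p, p ≤ i ∧ ∃ B', B' ≤ i ∧
      (i = pr c (pr p B') ∧ WP S G c p B')) (by fun_prop) ?_
    refine DfnM.bexLe (f := fun r : A.C × A.C => r.1) (P := fun r p => ∃ B', B' ≤ r.1 ∧
      (r.1 = pr r.2 (pr p B') ∧ WP S G r.2 p B')) (by fun_prop) ?_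
    refine DfnM.bexLe (f := fun r : (A.C × A.C) × A.C => r.1.1) (P := fun r B' =>
      (r.1.1 = pr r.1.2 (pr r.2 B') ∧ WP S G r.1.2 r.2 B')) (by fun_prop) ?_
    refine DfnM.and (by fun_prop) ?_
    exact (WP_dfn S G).comp (f := fun r : ((A.C × A.C) × A.C) × A.C => (r.1.1.2, r.1.2, r.2))
      (by fun_prop)
  have hWPpos : ∀ c p B', WP S G c p B' → c ≤ S ∧ B' ≤ S ∧ Pos atomsL c p := by
    rintro c p B' ⟨h1, h2, g, -, h3, h4⟩
    exact ⟨by rw [← h2]; exact le_self_add, by rw [← h2]; exact le_add_self, tf_pos h1 h3 h4⟩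
  obtain ⟨w, -, hw⟩ := compr' hdef (pr S (pr (ex (fb atomsL S)) S) + 1) (by
    rintro i ⟨c, -, p, -, B', -, e, h⟩
    obtain ⟨h1, h2, h3⟩ := hWPpos c p B' h
    rw [e, lt_add_one_iff']
    refine pr_mono h1 (pr_mono ?_ h2)
    exact (pos_lt h3.sup).le.trans (ex_le_ex (fb_mono atomsL h1)))
  have hmem : ∀ c p B', Mem (pr c (pr p B')) w ↔ WP S G c p B' := by
    intro c p B'
    rw [hw]
    constructor
    · rintro ⟨c', -, p', -, B'', -, e, h⟩
      obtain ⟨e1, e2⟩ := pr_inj e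
      obtain ⟨e3, e4⟩ := pr_inj e2
      rw [e1, e3, e4]
      exact h
    · intro h
      exact ⟨c, le_pr_left _ _, p, (le_pr_left _ _).trans (le_pr_right _ _), B',
        (le_pr_right _ _).trans (le_pr_right _ _), rfl, h⟩
  refine ⟨w, ?_, ?_⟩
  · intro c p B1 h
    rw [hmem] at h
    refine ⟨(hWPpos c p B1 h).2.2, ?_⟩
    rintro B' rfl k _ a b ha hb
    obtain ⟨h1, h2, g, -, h3, h4⟩ := h
    obtain ⟨g', p', k1, k2, k3, k4⟩ := tf_step h3 h4 k ha hb
    refine ⟨p', k3, k4, ?_⟩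
    rw [hmem]
    have h5 : c + 1 + B' = S := by rw [← h2]; ring
    refine ⟨(lt_add_one_iff' _ _).2 zero_le, h5, g', ?_, k1, k2⟩
    exact g_bd (by rw [← h5]; exact le_self_add) k1
  · rw [hmem]
    obtain ⟨g, hg⟩ := exists_ins (pr (0 : A.C) 0) 0
    have hV : (0 : A.C) < Vb 1 := ex_pos _
    have h1 : Val (1 : A.C) (Vb 1) g := by
      have h2 := val_step (c := (0 : A.C)) (V := 0) (V' := Vb 1) (z := 0) (g := 0) (g' := g)
        zero_le hV ⟨fun a ha => absurd ha not_lt_zero, fun j hj => absurd hj (not_mem_zero j),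
          fun a ha => absurd ha not_lt_zero⟩ hg
      rwa [zero_add] at h2
    exact ⟨zero_lt_one, rfl, g, g_bd le_self_add h1, h1, fun j hj => absurd hj (not_mem_zero j)⟩

end Pool.Agent.Work.MP_de7025_lc.F
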