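import Pool.Agent.Work.MP_de7025_lc.F.Mem

set_option autoImplicit false

/-!
# F/Game: positions, families, the game (fixed file)

A position `(c, p)`: the elements are `0, ..., c - 1`, `p` codes a set of signed facts about them. `Win L c p B`: starting at `(c, p)` one can answer `B` requests, each with one new element,
without ever violating a clause of `L`.
-/

namespace Pool.Agent.Work.MP_de7025_lc.F

variable {A : ArStr.{0}} [IsE A]

/-- code of the fact `± t a b` -/
noncomputable def fc (s : Bool) (t : RT) (a b : A.C) : A.C :=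
  pr (if s = true then 1 else 0) (pr (t.code : A.C) (pr a b))

/-- the fact `± t a b` is in `p` -/
def Has (p : A.C) (s : Bool) (t : RT) (a b : A.C) : Prop := Mem (fc s t a b) p

/-- a bound for the codes of the terms of `L` -/
def cmax (L : List RT) : ℕ := (L.map RT.code).sum

/-- `i` looks like the code of a fact about elements `< c` -/
def Sup (L : List RT) (c i : A.C) : Prop :=
  ∃ s, s ≤ 1 ∧ ∃ k, k ≤ (cmax L : A.C) ∧ ∃ a, a < c ∧ ∃ b, b < c ∧ i = pr s (pr k (pr a b))

/-- positions -/
structure Pos (L : List RT) (c p : A.C) : Prop where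
  pos : 0 < c
  sup : ∀ i, Mem i p → Sup L c i
  ok : OK L (Has p) (fun a => a < c)

/-- `w` codes a family of triples `(c, p, B)` closed under answers -/
def Fam (L : List RT) (w : A.C) : Prop :=
  ∀ c p B, Mem (pr c (pr p B)) w → Pos L c p ∧
    ∀ B', B = B' + 1 → ∀ k ∈ Reqs L, ∀ a b, a < c → b < c →
      ∃ p', (∀ i, Mem i p → Mem i p') ∧ Ans L (Has p') k a b c ∧
        Mem (pr (c + 1) (pr p' B')) w

/-- one can answer `B` requests -/
def Win (L : List RT) (c p B : A.C) : Prop := ∃ w, Fam L w ∧ Mem (pr c (pr p B)) w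

/-- `g` codes a map of the position `(c, p)` to the position `(c', p')` -/
structure Hom (L : List RT) (c p c' p' g : A.C) : Prop where
  tot : ∀ a, a < c → ∃ a', a' < c' ∧ Mem (pr a a') g
  fn : ∀ a a' a'', Mem (pr a a') g → Mem (pr a a'') g → a' = a''
  map : ∀ s, ∀ t ∈ L, ∀ a b a' b', a < c → b < c → Mem (pr a a') g → Mem (pr b b') g →
    Has p s t a b → Has p' s t a' b'

/-- `q` is `p` with the two facts `+ u a e`, `+ v e b` -/
def Ext (p q : A.C) (u v : RT) (a b e : A.C) : Prop :=
  ∀ i, Mem i q ↔ Mem i p ∨ i = fc true u a e ∨ i = fc true v e b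

/-- the atoms -/
def atomsL : List RT := [.atom 0, .atom 1, .atom 2, .atom 3, .atom 4, .atom 5, .atom 6]

/-- lists obtained from the atoms by adding terms one after another -/
inductive Built : List RT → Prop
  | atoms : Built atomsL
  | nand {L : List RT} {u v : RT} : Built L → u ∈ L → v ∈ L → .nand u v ∉ L →
      Built (L ++ [.nand u v])
  | comp {L : List RT} {u v : RT} : Built L → u ∈ L → v ∈ L → .comp u v ∉ L →
      Built (L ++ [.comp u v])
  | conv {L : List RT} {u : RT} : Built L → u ∈ L → .conv u ∉ L → Built (L ++ [.conv u])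

/-- the table coded by `t` -/
def TT (t k a b : A.C) : Prop := Mem (pr k (pr a b)) t

/-- the relations `R i` on the numbers -/
def NR {N : Type} [CommSemiring N] (i : Fin 7) (a b : N) : Prop :=
  let P1 : N → N → Prop := fun d x => (∃ y, d = pr x y) ∨ (x = 0 ∧ ¬ ∃ x' y', d = pr x' y')
  let P2 : N → N → Prop := fun d y => (∃ x, d = pr x y) ∨ (y = 0 ∧ ¬ ∃ x' y', d = pr x' y')
  match i with
  | 0 => a = b
  | 1 => P1 a b
  | 2 => P2 a b
  | 3 => b = 0
  | 4 => b = a + 1
  | 5 => ∃ x y, P1 a x ∧ P2 a y ∧ b = x + y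
  | 6 => ∃ x y, P1 a x ∧ P2 a y ∧ b = x * y

/-- the numbers as a structure for `U` -/
def numStr (N : Type) [CommSemiring N] : UStr where
  C := N
  R := NR
  ne := ⟨0⟩

end Pool.Agent.Work.MP_de7025_lc.F
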