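import Pool.Agent.Work.MP_de7025_lc.F.Defs

set_option autoImplicit false

/-!
# F/Mem: membership of a number in (the set coded by) a number (fixed file)
-/

namespace Pool.Agent.Work.MP_de7025_lc.F

variable {A : ArStr.{0}} [IsE A]

/-- the binary digit of `x` at the position `i` is `1` -/
def Mem (i x : A.C) : Prop := ∃ q r, x = q * ex (i + 1) + ex i + r ∧ r < ex i

end Pool.Agent.Work.MP_de7025_lc.F
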