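import Pool.Agent.Work.MP_de7025_lc.F.T7
import Pool.Agent.Work.MP_de7025_lc.F.T4

set_option autoImplicit false

/-!
# F/R0 (M): the numerals of `A` in the structure `KT` (fixed definition `RdF`)

`RdF S Rep f`: for `i ≤ b` the element `hh J i` of `KT` (the value `v` of the graph `g` at `i`) represents the element `f i` of `A'`.
PROOF of `exists_rdf`. First, for `i ≤ b` the value `v` of `g` at `i` is in the domain: the predicate `i ≤ b → ∃ v, v < G ∧ Mem (pr i v) g ∧ TT t J.dom.code v v` is definable (`DfnM.imp`, `DfnM.bexLt`; `TT` is `Mem (pr ..) t`); `J.dom ∈ L`; by `KT_truth` `TT t J.dom.code v v ↔ J.dom.eval KT v v ↔ ∃ n, Rep v n`.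
`i = 0`: `HG.zero`, `KT_num`. `i + 1`: `HG.step`, `KT_num` (the values are `< G` by `Setup.tot` and `HG.fn`, so below the cut by `cut_self`). Then `f i` := the `n` with `Rep v n` (choice; `0` for `i > b`); uniqueness `DefU.fn`, `HG.fn`. `f 0 = 0`, `f (i + 1) = f i + 1` by `KT_num` (`succ_eq`, `A'.zero = 0` is `rfl`).
-/

namespace Pool.Agent.Work.MP_de7025_lc.F

variable {A : ArStr.{0}} [IsE A]

structure RdF {J : RInt} {L : List RT} {t z b g G : A.C} (S : Setup J L t z b g G)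
    {A' : ArStr.{0}} [IsE A'] (Rep : (KT t G S.big).C → A'.C → Prop) (f : A.C → A'.C) : Prop where
  rep : ∀ i v, i ≤ b → Mem (pr i v) g → ∃ hv : cut G v, Rep ⟨v, hv⟩ (f i)
  zero : f 0 = 0
  succ : ∀ i, i < b → f (i + 1) = f i + 1

theorem exists_rdf {J : RInt} {L : List RT} {t z b g G : A.C} (S : Setup J L t z b g G)
    {A' : ArStr.{0}} [IsE A'] {Rep : (KT t G S.big).C → A'.C → Prop}
    (hJ : DefU J (KT t G S.big) A' Rep) : ∃ f : A.C → A'.C, RdF S Rep f := by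
  classical
  obtain ⟨hU, htr⟩ := KT_truth S
  obtain ⟨hn0, hn1⟩ := KT_num S hJ
  have hdomL : J.dom ∈ L := S.need _ (by simp [needL])
  have hdom : ∀ v (hv : cut G v), TT t (J.dom.code : A.C) v v ↔ ∃ n, Rep ⟨v, hv⟩ n := fun v hv =>
    (htr J.dom hdomL ⟨v, hv⟩ ⟨v, hv⟩).symm.trans (hJ.dom ⟨v, hv⟩)
  have hlt : ∀ i v, i ≤ b → Mem (pr i v) g → v < G := by
    intro i v hi hm
    obtain ⟨v', hv', hm'⟩ := S.tot i hi
    rwa [S.hg.fn i v v' hm hm']
  have key : ∀ i, i ≤ b → ∃ v, v < G ∧ (Mem (pr i v) g ∧ TT t (J.dom.code : A.C) v v) := by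
    intro i
    refine dind (P := fun i => i ≤ b →
      ∃ v, v < G ∧ (Mem (pr i v) g ∧ TT t (J.dom.code : A.C) v v)) ?_ ?_ ?_ i
    · refine DfnM.imp (by fun_prop) ?_
      refine DfnM.bexLt (f := fun _ : A.C => G)
        (P := fun i v => Mem (pr i v) g ∧ TT t (J.dom.code : A.C) v v) (by fun_prop) ?_
      exact DfnM.and (Mem.dfn (pr.dfn (by fun_prop) (by fun_prop)) (by fun_prop))
        (Mem.dfn (pr.dfn (by fun_prop) (pr.dfn (by fun_prop) (by fun_prop))) (by fun_prop))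
    · intro h0
      have hm := S.hg.zero
      have hv := hlt _ _ h0 hm
      exact ⟨_, hv, hm, (hdom _ (cut_self hv)).mpr ⟨_, hn0 (cut_self hv)⟩⟩
    · intro i ih hi
      have hi' : i < b := lt_of_lt_of_le ((lt_add_one_iff' i i).mpr le_rfl) hi
      obtain ⟨v, hv, hm, hd⟩ := ih hi'.le
      have hm' := S.hg.step i v hi' hm
      have hv' := hlt _ _ hi hm'
      obtain ⟨n, hn⟩ := (hdom v (cut_self hv)).mp hd
      exact ⟨_, hv', hm', (hdom _ (cut_self hv')).mpr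
        ⟨_, hn1 ⟨v, cut_self hv⟩ n (cut_self hv') hn⟩⟩
  have key2 : ∀ i, i ≤ b → ∃ n : A'.C, ∀ v, Mem (pr i v) g → ∃ hv : cut G v, Rep ⟨v, hv⟩ n := by
    intro i hi
    obtain ⟨v, hv, hm, hd⟩ := key i hi
    obtain ⟨n, hn⟩ := (hdom v (cut_self hv)).mp hd
    refine ⟨n, fun v' hm' => ?_⟩
    have e := S.hg.fn i v v' hm hm'
    subst e
    exact ⟨cut_self hv, hn⟩
  let f : A.C → A'.C := fun i => if h : i ≤ b then (key2 i h).choose else 0
  have hf : ∀ i, i ≤ b → ∀ v, Mem (pr i v) g → ∃ hv : cut G v, Rep ⟨v, hv⟩ (f i) := by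
    intro i hi
    have e : f i = (key2 i hi).choose := dif_pos hi
    rw [e]
    exact (key2 i hi).choose_spec
  have h0b : (0 : A.C) ≤ b := zero_le
  refine ⟨f, fun i v hi hm => hf i hi v hm, ?_, ?_⟩
  · obtain ⟨hv, hr⟩ := hf 0 h0b _ S.hg.zero
    exact hJ.fn _ _ _ hr (hn0 hv)
  · intro i hi
    have hi' : i + 1 ≤ b := by
      by_contra hc
      rw [not_le, lt_add_one_iff'] at hc
      exact absurd hi (not_lt.mpr hc)
    obtain ⟨v, hv, hm, -⟩ := key i hi.le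
    obtain ⟨hv1, hr1⟩ := hf i hi.le v hm
    obtain ⟨hv2, hr2⟩ := hf (i + 1) hi' _ (S.hg.step i v hi hm)
    rw [hJ.fn _ _ _ hr2 (hn1 ⟨v, hv1⟩ _ hv2 hr1), succ_eq]

end Pool.Agent.Work.MP_de7025_lc.F
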