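import Pool.Agent.Work.MP_de7025_lc.F.R0

set_option autoImplicit false

/-!
# F/R1 (M): `f (i + j) = f i + f j`

PROOF. Fix `i ≤ b` with the value `v` of `g`. Induction on `j` for the definable predicate `i + j ≤ b → ∃ w, w < G ∧ Mem (pr j w) g ∧ ∃ s, s < G ∧ Mem (pr (i + j) s) g ∧ TT t J.add.code (W kp v w) s`.
Meaning: `d = W kp v w` is an element of `KT` with `P d v`, `Q d w` (`KT_pair`, `cut_W`), so by `KT_truth` (`J.add ∈ L`) and `DefU.add` the last part says `f i + f j = f (i + j)`. `j = 0`: `f i + 0 = f i`. Step: `RdF.succ`.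
-/

namespace Pool.Agent.Work.MP_de7025_lc.F

variable {A : ArStr.{0}} [IsE A]

/-- the relation term `J.add` on the elements for `i`, `j`, `k` -/
private theorem rdf_add_iff {J : RInt} {L : List RT} {t z b g G : A.C} (S : Setup J L t z b g G)
    {A' : ArStr.{0}} [IsE A'] {Rep : (KT t G S.big).C → A'.C → Prop}
    (hJ : DefU J (KT t G S.big) A' Rep) {f : A.C → A'.C} (hf : RdF S Rep f) {i j k v w s : A.C}
    (hi : i ≤ b) (hj : j ≤ b) (hk : k ≤ b) (hv : Mem (pr i v) g) (hw : Mem (pr j w) g)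
    (hs : Mem (pr k s) g) :
    TT t (J.add.code : A.C) (W (kp : A.C) v w) s ↔ f i + f j = f k := by
  obtain ⟨cv, rv⟩ := hf.rep i v hi hv
  obtain ⟨cw, rw'⟩ := hf.rep j w hj hw
  obtain ⟨cs, rs⟩ := hf.rep k s hk hs
  obtain ⟨d, hd, h1, h2⟩ := KT_pair S ⟨v, cv⟩ ⟨w, cw⟩
  have h3 := hJ.add d ⟨v, cv⟩ ⟨w, cw⟩ ⟨s, cs⟩ (f i) (f j) (f k) h1 h2 rv rw' rs
  have h4 := (KT_truth S).2 J.add (S.need _ (by simp [needL])) d ⟨s, cs⟩
  rw [hd] at h4
  exact h4.symm.trans h3

theorem rdf_add {J : RInt} {L : List RT} {t z b g G : A.C} (S : Setup J L t z b g G)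
    {A' : ArStr.{0}} [IsE A'] {Rep : (KT t G S.big).C → A'.C → Prop}
    (hJ : DefU J (KT t G S.big) A' Rep) {f : A.C → A'.C} (hf : RdF S Rep f) (i j : A.C)
    (h : i + j ≤ b) : f (i + j) = f i + f j := by
  have hi : i ≤ b := le_self_add.trans h
  obtain ⟨v, hvG, hv⟩ := S.tot i hi
  have key : ∀ j : A.C, i + j ≤ b → ∃ w, w < G ∧ (Mem (pr j w) g ∧ ∃ s, s < G ∧
      (Mem (pr (i + j) s) g ∧
        Mem (pr (J.add.code : A.C) (pr (W (kp : A.C) v w) s)) t)) := by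
    intro j
    refine dind (P := fun j => i + j ≤ b → ∃ w, w < G ∧ (Mem (pr j w) g ∧ ∃ s, s < G ∧
      (Mem (pr (i + j) s) g ∧
        Mem (pr (J.add.code : A.C) (pr (W (kp : A.C) v w) s)) t))) ?_ ?_ ?_ j
    · refine DfnM.imp (by fun_prop) (DfnM.bexLt (f := fun _ => G) (P := fun j w =>
        (Mem (pr j w) g ∧ ∃ s, s < G ∧ (Mem (pr (i + j) s) g ∧
        Mem (pr (J.add.code : A.C) (pr (W (kp : A.C) v w) s)) t))) (by fun_prop)
        (DfnM.and (by fun_prop) ?_))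
      exact DfnM.bexLt (f := fun _ : A.C × A.C => G) (P := fun p s =>
        (Mem (pr (i + p.1) s) g ∧
        Mem (pr (J.add.code : A.C) (pr (W (kp : A.C) v p.2) s)) t)) (by fun_prop) (by fun_prop)
    · intro _
      obtain ⟨w, hwG, hw⟩ := S.tot 0 (zero_le (a := b))
      refine ⟨w, hwG, hw, v, hvG, ?_, ?_⟩
      · rw [add_zero]
        exact hv
      · refine (rdf_add_iff S hJ hf hi (zero_le (a := b)) hi hv hw hv).2 ?_
        rw [hf.zero, add_zero]
    · intro j ih hj1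
      have e1 : i + (j + 1) = (i + j) + 1 := (add_assoc i j 1).symm
      have hlt : i + j < b := by
        rw [e1] at hj1
        exact (add_one_le_iff' _ _).1 hj1
      obtain ⟨w', -, hw', s', -, hs', h'⟩ := ih hlt.le
      have hjlt : j < b := lt_of_le_of_lt le_add_self hlt
      have h5 : f i + f j = f (i + j) :=
        (rdf_add_iff S hJ hf hi hjlt.le hlt.le hv hw' hs').1 h'
      obtain ⟨w, hwG, hw⟩ := S.tot (j + 1) ((add_one_le_iff' _ _).2 hjlt)
      obtain ⟨s, hsG, hs⟩ := S.tot (i + (j + 1)) hj1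
      refine ⟨w, hwG, hw, s, hsG, hs, ?_⟩
      refine (rdf_add_iff S hJ hf hi ((add_one_le_iff' _ _).2 hjlt) hj1 hv hw hs).2 ?_
      rw [e1, hf.succ _ hlt, hf.succ _ hjlt, ← h5, add_assoc]
  obtain ⟨w, -, hw, s, -, hs, h'⟩ := key j h
  exact ((rdf_add_iff S hJ hf hi (le_add_self.trans h) h hv hw hs).1 h').symm

end Pool.Agent.Work.MP_de7025_lc.F
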