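import Pool.Agent.Work.MP_de7025_lc.F.R1

set_option autoImplicit false

/-!
# F/R2 (M): `f (i * j) = f i * f j`

PROOF. As in `R1`: fix `i ≤ b`; induction on `j` for the definable predicate `j ≤ b → i * j ≤ b → ∃ w, w < G ∧ Mem (pr j w) g ∧ ∃ s, s < G ∧ Mem (pr (i * j) s) g ∧ TT t J.mul.code (W kp v w) s`. Step: `i * (j + 1) = i * j + i ≤ b`, so `i * j ≤ b`,
`f (i * j + i) = f (i * j) + f i` (`rdf_add`), `f (j + 1) = f j + 1`.
-/

namespace Pool.Agent.Work.MP_de7025_lc.F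

variable {A : ArStr.{0}} [IsE A]

private theorem key_mul {J : RInt} {L : List RT} {t z b g G : A.C} (S : Setup J L t z b g G)
    {A' : ArStr.{0}} [IsE A'] {Rep : (KT t G S.big).C → A'.C → Prop}
    (hJ : DefU J (KT t G S.big) A' Rep) {f : A.C → A'.C} (hf : RdF S Rep f) {i j k v w s : A.C}
    (hi : i ≤ b) (hj : j ≤ b) (hk : k ≤ b) (h1 : Mem (pr i v) g) (h2 : Mem (pr j w) g)
    (h3 : Mem (pr k s) g) :
    TT t (J.mul.code : A.C) (W (kp : A.C) v w) s ↔ f i * f j = f k := by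
  obtain ⟨hv, rv⟩ := hf.rep i v hi h1
  obtain ⟨hw, rw'⟩ := hf.rep j w hj h2
  obtain ⟨hs, rs⟩ := hf.rep k s hk h3
  have hd : cut G (W (kp : A.C) v w) := cut_W S.big kp hv hw
  have hk' : kp ∈ Reqs L := List.mem_append_right _ (by simp)
  have h4 := (S.tab.ans kp hk' v w (S.long _ hv) (S.long _ hw) (S.long _ hd)).2.2.1 rfl
  have h5 := (KT_truth S).2 J.mul (S.need _ (by simp [needL])) ⟨_, hd⟩ ⟨s, hs⟩
  rw [← h5]
  exact hJ.mul ⟨_, hd⟩ ⟨v, hv⟩ ⟨w, hw⟩ ⟨s, hs⟩ _ _ _ h4.1 h4.2 rv rw' rs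

theorem rdf_mul {J : RInt} {L : List RT} {t z b g G : A.C} (S : Setup J L t z b g G)
    {A' : ArStr.{0}} [IsE A'] {Rep : (KT t G S.big).C → A'.C → Prop}
    (hJ : DefU J (KT t G S.big) A' Rep) {f : A.C → A'.C} (hf : RdF S Rep f) (i j : A.C)
    (hi : i ≤ b) (hj : j ≤ b) (h : i * j ≤ b) : f (i * j) = f i * f j := by
  obtain ⟨v, -, hv⟩ := S.tot i hi
  let P : A.C → Prop := fun j => j ≤ b → i * j ≤ b → ∃ w, w < G ∧ (Mem (pr j w) g ∧
    ∃ s, s < G ∧ (Mem (pr (i * j) s) g ∧ Mem (pr (J.mul.code : A.C) (pr (W (kp : A.C) v w) s)) t))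
  have hP : DfnM A P := by
    refine DfnM.imp (by fun_prop) (DfnM.imp (by fun_prop) (DfnM.bexLt (by fun_prop) ?_))
    exact DfnM.and (by fun_prop) (DfnM.bexLt (by fun_prop) (by fun_prop))
  have hPQ : ∀ j, P j ↔ (j ≤ b → i * j ≤ b → f i * f j = f (i * j)) := by
    intro j
    constructor
    · intro h1 h2 h3
      obtain ⟨w, -, h4, s, -, h5, h6⟩ := h1 h2 h3
      exact (key_mul S hJ hf hi h2 h3 hv h4 h5).1 h6
    · intro h1 h2 h3
      obtain ⟨w, hw, h4⟩ := S.tot j h2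
      obtain ⟨s, hs, h5⟩ := S.tot (i * j) h3
      exact ⟨w, hw, h4, s, hs, h5, (key_mul S hJ hf hi h2 h3 hv h4 h5).2 (h1 h2 h3)⟩
  have main : ∀ j, P j := by
    refine dind hP ?_ ?_
    · rw [hPQ]
      intro _ _
      rw [mul_zero, hf.zero, mul_zero]
    · intro j ih
      rw [hPQ] at ih ⊢
      intro h1 h2
      have h3 : j < b := (add_one_le_iff' _ _).1 h1
      have h4 : i * j + i ≤ b := by
        rw [← mul_add_one]
        exact h2
      have h5 : i * j ≤ b := le_self_add.trans h4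
      rw [mul_add_one, rdf_add S hJ hf _ _ h4, hf.succ j h3, mul_add_one, ih h3.le h5]
  exact ((hPQ j).1 (main j) hj h).symm

end Pool.Agent.Work.MP_de7025_lc.F
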