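import Pool.Agent.Work.MP_de7025_lc.F.Dfn

set_option autoImplicit false
set_option linter.unusedSectionVars false

/-!
# F/Ring: a model of EFA is a discretely ordered commutative semiring (fixed file, proved)

After this file one works with the usual notation: `0, 1, +, *, ≤, <, ex x`.
`ex x = 2 ^ x`. `Nat.cast : ℕ → A.C` gives the numerals.
-/

namespace Pool.Agent.Work.MP_de7025_lc.F

/-- `A` is a model of EFA (class form) -/
class IsE (A : ArStr.{0}) : Prop where
  out : EFA A

section raw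

variable {A : ArStr.{0}} (hA : EFA A)

include hA

private theorem r_zero_add (x : A.C) : A.add A.zero x = x := by
  refine efa_ind hA (P := fun x => A.add A.zero x = x) (by fun_prop) (hA.add_zero _) ?_ x
  intro x hx
  simp only [hA.add_succ, hx]

private theorem r_succ_add (x y : A.C) : A.add (A.succ x) y = A.succ (A.add x y) := by
  refine efa_ind hA (P := fun y => A.add (A.succ x) y = A.succ (A.add x y)) (by fun_prop) ?_ ?_ y
  · simp only [hA.add_zero]
  · intro y hy
    simp only [hA.add_succ, hy]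

private theorem r_add_comm (x y : A.C) : A.add x y = A.add y x := by
  refine efa_ind hA (P := fun y => A.add x y = A.add y x) (by fun_prop) ?_ ?_ y
  · simp only [hA.add_zero, r_zero_add hA]
  · intro y hy
    simp only [hA.add_succ, r_succ_add hA, hy]

private theorem r_add_assoc (x y z : A.C) : A.add (A.add x y) z = A.add x (A.add y z) := by
  refine efa_ind hA (P := fun z => A.add (A.add x y) z = A.add x (A.add y z)) (by fun_prop) ?_ ?_ z
  · simp only [hA.add_zero]
  · intro z hz
    simp only [hA.add_succ, hz]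

private theorem r_zero_mul (x : A.C) : A.mul A.zero x = A.zero := by
  refine efa_ind hA (P := fun x => A.mul A.zero x = A.zero) (by fun_prop) (hA.mul_zero _) ?_ x
  intro x hx
  simp only [hA.mul_succ, hx, hA.add_zero]

private theorem r_succ_mul (x y : A.C) : A.mul (A.succ x) y = A.add (A.mul x y) y := by
  refine efa_ind hA (P := fun y => A.mul (A.succ x) y = A.add (A.mul x y) y) (by fun_prop) ?_ ?_ y
  · simp only [hA.mul_zero, hA.add_zero]
  · intro y hy
    simp only [hA.mul_succ, hA.add_succ, hy]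
    rw [r_add_assoc hA, r_add_comm hA y x, ← r_add_assoc hA]

private theorem r_mul_comm (x y : A.C) : A.mul x y = A.mul y x := by
  refine efa_ind hA (P := fun y => A.mul x y = A.mul y x) (by fun_prop) ?_ ?_ y
  · simp only [hA.mul_zero, r_zero_mul hA]
  · intro y hy
    simp only [hA.mul_succ, r_succ_mul hA, hy]

private theorem r_mul_add (x y z : A.C) : A.mul x (A.add y z) = A.add (A.mul x y) (A.mul x z) := by
  refine efa_ind hA (P := fun z => A.mul x (A.add y z) = A.add (A.mul x y) (A.mul x z))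
    (by fun_prop) ?_ ?_ z
  · simp only [hA.add_zero, hA.mul_zero]
  · intro z hz
    simp only [hA.add_succ, hA.mul_succ, hz, r_add_assoc hA]

private theorem r_mul_assoc (x y z : A.C) : A.mul (A.mul x y) z = A.mul x (A.mul y z) := by
  refine efa_ind hA (P := fun z => A.mul (A.mul x y) z = A.mul x (A.mul y z)) (by fun_prop) ?_ ?_ z
  · simp only [hA.mul_zero]
  · intro z hz
    simp only [hA.mul_succ, r_mul_add hA, hz]

private theorem r_add_right_cancel (x y z : A.C) (h : A.add x z = A.add y z) : x = y := by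
  have key : ¬ (A.add x z = A.add y z ∧ ¬ x = y) := by
    refine efa_ind hA (P := fun z => ¬ (A.add x z = A.add y z ∧ ¬ x = y)) (by fun_prop) ?_ ?_ z
    · simp only [hA.add_zero]
      tauto
    · intro z hz
      simp only [hA.add_succ]
      rintro ⟨h1, h2⟩
      exact hz ⟨hA.succ_inj _ _ h1, h2⟩
  by_contra h3
  exact key ⟨h, h3⟩

private theorem r_add_eq_zero (x y : A.C) (h : A.add x y = A.zero) : y = A.zero := by
  by_contra h1
  obtain ⟨w, rfl⟩ := hA.pred y h1
  rw [hA.add_succ] at h
  exact hA.succ_ne _ h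

private theorem r_le_total (x y : A.C) : A.le x y ∨ A.le y x := by
  have h : ¬ (¬ A.le x y ∧ ¬ A.le y x) := by
    refine efa_ind hA (P := fun y => ¬ (¬ A.le x y ∧ ¬ A.le y x)) (by fun_prop) ?_ ?_ y
    · rintro ⟨-, h⟩
      exact h ((hA.le_iff _ _).mpr ⟨x, r_zero_add hA x⟩)
    · intro y hy
      rintro ⟨h1, h2⟩
      apply hy
      constructor
      · intro h3
        obtain ⟨z, hz⟩ := (hA.le_iff _ _).mp h3
        exact h1 ((hA.le_iff _ _).mpr ⟨A.succ z, by rw [hA.add_succ, hz]⟩)
      · intro h3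
        obtain ⟨z, hz⟩ := (hA.le_iff _ _).mp h3
        by_cases h4 : z = A.zero
        · rw [h4, hA.add_zero] at hz
          exact h1 ((hA.le_iff _ _).mpr ⟨A.succ A.zero, by rw [hA.add_succ, hA.add_zero, hz]⟩)
        · obtain ⟨w, rfl⟩ := hA.pred z h4
          exact h2 ((hA.le_iff _ _).mpr ⟨w, by
            rw [hA.add_succ] at hz
            rw [r_succ_add hA, hz]⟩)
  tauto

private theorem r_le_antisymm (x y : A.C) (h1 : A.le x y) (h2 : A.le y x) : x = y := by
  obtain ⟨z, hz⟩ := (hA.le_iff _ _).mp h1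
  obtain ⟨w, hw⟩ := (hA.le_iff _ _).mp h2
  have h3 : A.add x (A.add z w) = A.add x A.zero := by
    rw [← r_add_assoc hA, hz, hw, hA.add_zero]
  have h4 : A.add z w = A.zero := by
    rw [r_add_comm hA x, r_add_comm hA x] at h3
    exact r_add_right_cancel hA _ _ _ h3
  have h5 : z = A.zero := by
    rw [r_add_comm hA] at h4
    exact r_add_eq_zero hA _ _ h4
  rw [h5, hA.add_zero] at hz
  exact hz

private theorem r_le_trans (x y z : A.C) (h1 : A.le x y) (h2 : A.le y z) : A.le x z := by
  obtain ⟨u, hu⟩ := (hA.le_iff _ _).mp h1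
  obtain ⟨v, hv⟩ := (hA.le_iff _ _).mp h2
  exact (hA.le_iff _ _).mpr ⟨A.add u v, by rw [← r_add_assoc hA, hu, hv]⟩

end raw

section inst

variable {A : ArStr.{0}} [hI : IsE A]

noncomputable instance instZero : Zero A.C := ⟨A.zero⟩

noncomputable instance instOne : One A.C := ⟨A.succ A.zero⟩

noncomputable instance instAdd : Add A.C := ⟨A.add⟩

noncomputable instance instMul : Mul A.C := ⟨A.mul⟩

noncomputable instance instCS : CommSemiring A.C where
  add := (· + ·)
  zero := 0
  mul := (· * ·)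
  one := 1
  nsmul := nsmulRec
  add_assoc := r_add_assoc hI.out
  zero_add := r_zero_add hI.out
  add_zero := hI.out.add_zero
  add_comm := r_add_comm hI.out
  left_distrib := r_mul_add hI.out
  right_distrib := fun x y z => by
    change A.mul (A.add x y) z = A.add (A.mul x z) (A.mul y z)
    rw [r_mul_comm hI.out, r_mul_add hI.out, r_mul_comm hI.out z x, r_mul_comm hI.out z y]
  zero_mul := r_zero_mul hI.out
  mul_zero := hI.out.mul_zero
  mul_assoc := r_mul_assoc hI.out
  one_mul := fun x => by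
    change A.mul (A.succ A.zero) x = x
    rw [r_mul_comm hI.out, hI.out.mul_succ, hI.out.mul_zero, r_zero_add hI.out]
  mul_one := fun x => by
    change A.mul x (A.succ A.zero) = x
    rw [hI.out.mul_succ, hI.out.mul_zero, r_zero_add hI.out]
  mul_comm := r_mul_comm hI.out

noncomputable instance instLO : LinearOrder A.C where
  le := A.le
  le_refl := fun x => (hI.out.le_iff x x).mpr ⟨A.zero, hI.out.add_zero x⟩
  le_trans := r_le_trans hI.out
  le_antisymm := r_le_antisymm hI.out
  le_total := r_le_total hI.out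
  toDecidableLE := Classical.decRel _

/-- `2 ^ x` -/
def ex (x : A.C) : A.C := A.exp x

theorem succ_eq (x : A.C) : A.succ x = x + 1 := by
  change A.succ x = A.add x (A.succ A.zero)
  rw [hI.out.add_succ, hI.out.add_zero]

theorem le_iff_ex (x y : A.C) : x ≤ y ↔ ∃ z, x + z = y := hI.out.le_iff x y

instance instIsOrderedAdd : IsOrderedCancelAddMonoid A.C where
  add_le_add_left := fun x y h z => by
    obtain ⟨w, rfl⟩ := (le_iff_ex _ _).mp h
    exact (le_iff_ex _ _).mpr ⟨w, by ring⟩
  le_of_add_le_add_left := fun x y z h => by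
    obtain ⟨w, hw⟩ := (le_iff_ex _ _).mp h
    refine (le_iff_ex _ _).mpr ⟨w, r_add_right_cancel hI.out _ _ x ?_⟩
    change y + w + x = z + x
    rw [add_comm z x, ← hw]
    ring

instance instCanon : CanonicallyOrderedAdd A.C where
  exists_add_of_le := fun {a b} h => by
    obtain ⟨c, hc⟩ := (le_iff_ex a b).mp h
    exact ⟨c, hc.symm⟩
  le_add_self := fun a b => (le_iff_ex _ _).mpr ⟨b, by ring⟩
  le_self_add := fun a b => (le_iff_ex _ _).mpr ⟨b, rfl⟩

theorem lt_add_one_iff' (x y : A.C) : x < y + 1 ↔ x ≤ y := by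
  constructor
  · intro h
    by_contra hn
    rw [not_le] at hn
    obtain ⟨z, hz⟩ := (le_iff_ex _ _).mp hn.le
    have hz0 : z ≠ A.zero := by
      rintro rfl
      have : y + 0 = x := hz
      rw [add_zero] at this
      exact absurd this hn.ne
    obtain ⟨w, rfl⟩ := hI.out.pred z hz0
    rw [succ_eq] at hz
    have : y + 1 ≤ x := (le_iff_ex _ _).mpr ⟨w, by rw [← hz]; ring⟩
    exact absurd (lt_of_lt_of_le h this) (lt_irrefl _)
  · intro h
    refine lt_of_le_of_ne (h.trans ((le_iff_ex _ _).mpr ⟨1, rfl⟩)) ?_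
    rintro rfl
    have h2 : y + 1 = y := le_antisymm h ((le_iff_ex _ _).mpr ⟨1, rfl⟩)
    have h3 : (1 : A.C) + y = 0 + y := by rw [add_comm, h2, zero_add]
    exact hI.out.succ_ne _ (r_add_right_cancel hI.out _ _ y h3)

theorem one_ne_zero' : (1 : A.C) ≠ 0 := hI.out.succ_ne _

instance instNontriv : Nontrivial A.C := ⟨⟨1, 0, one_ne_zero'⟩⟩

theorem pos_iff_exists (x : A.C) : 0 < x ↔ ∃ y, x = y + 1 := by
  constructor
  · intro h
    obtain ⟨w, hw⟩ := hI.out.pred x (by rintro rfl; exact absurd h (lt_irrefl _))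
    exact ⟨w, by rw [hw, succ_eq]⟩
  · rintro ⟨y, rfl⟩
    exact (lt_add_one_iff' _ _).mpr zero_le

instance instSOR : IsStrictOrderedRing A.C where
  zero_le_one := zero_le
  mul_lt_mul_of_pos_left := fun {a} ha b c h => by
    obtain ⟨d, rfl⟩ := (le_iff_ex _ _).mp h.le
    obtain ⟨a', rfl⟩ := (pos_iff_exists a).mp ha
    have hd : 0 < d := by
      by_contra hn
      rw [not_lt] at hn
      have : d = 0 := le_antisymm hn zero_le
      rw [this, add_zero] at h
      exact lt_irrefl _ h
    obtain ⟨d', rfl⟩ := (pos_iff_exists d).mp hd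
    have e : (a' + 1) * (b + (d' + 1)) = (a' + 1) * b + (a' * (d' + 1) + d') + 1 := by ring
    rw [e]
    exact (lt_add_one_iff' _ _).mpr ((le_iff_ex _ _).mpr ⟨a' * (d' + 1) + d', rfl⟩)
  mul_lt_mul_of_pos_right := fun {a} ha b c h => by
    obtain ⟨d, rfl⟩ := (le_iff_ex _ _).mp h.le
    obtain ⟨a', rfl⟩ := (pos_iff_exists a).mp ha
    have hd : 0 < d := by
      by_contra hn
      rw [not_lt] at hn
      have : d = 0 := le_antisymm hn zero_le
      rw [this, add_zero] at h
      exact lt_irrefl _ h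
    obtain ⟨d', rfl⟩ := (pos_iff_exists d).mp hd
    have e : (b + (d' + 1)) * (a' + 1) = b * (a' + 1) + (a' * (d' + 1) + d') + 1 := by ring
    rw [e]
    exact (lt_add_one_iff' _ _).mpr ((le_iff_ex _ _).mpr ⟨a' * (d' + 1) + d', rfl⟩)

theorem ex_zero : ex (0 : A.C) = 1 := hI.out.exp_zero

theorem ex_add_one (x : A.C) : ex (x + 1) = ex x + ex x := by
  rw [← succ_eq]
  exact hI.out.exp_succ x

end inst

/-! ### definability with the notation of the semiring -/

section dfn

variable {A : ArStr.{0}} [IsE A] {Γ : Type} [Ctx A Γ]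

@[fun_prop]
theorem DfnM.add' {f g : Γ → A.C} (hf : DfnM A f) (hg : DfnM A g) :
    DfnM A (fun x => f x + g x) := DfnM.add hf hg

@[fun_prop]
theorem DfnM.mul' {f g : Γ → A.C} (hf : DfnM A f) (hg : DfnM A g) :
    DfnM A (fun x => f x * g x) := DfnM.mul hf hg

@[fun_prop]
theorem DfnM.ex' {f : Γ → A.C} (hf : DfnM A f) : DfnM A (fun x => ex (f x)) := DfnM.exp hf

@[fun_prop]
theorem DfnM.le' {f g : Γ → A.C} (hf : DfnM A f) (hg : DfnM A g) :
    DfnM A (fun x => f x ≤ g x) := DfnM.le hf hg

@[fun_prop]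
theorem DfnM.lt' {f g : Γ → A.C} (hf : DfnM A f) (hg : DfnM A g) :
    DfnM A (fun x => f x < g x) := by
  have : (fun x => f x < g x) = fun x => ¬ (g x ≤ f x) := by
    funext x
    rw [not_le]
  rw [this]
  exact DfnM.not (DfnM.le' hg hf)

@[fun_prop]
theorem DfnM.or {P Q : Γ → Prop} (hP : DfnM A P) (hQ : DfnM A Q) :
    DfnM A (fun x => P x ∨ Q x) := by
  have : (fun x => P x ∨ Q x) = fun x => ¬ (¬ P x ∧ ¬ Q x) := by
    funext x
    rw [← not_or, not_not]
  rw [this]
  exact DfnM.not (DfnM.and (DfnM.not hP) (DfnM.not hQ))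

@[fun_prop]
theorem DfnM.imp {P Q : Γ → Prop} (hP : DfnM A P) (hQ : DfnM A Q) :
    DfnM A (fun x => P x → Q x) := by
  have : (fun x => P x → Q x) = fun x => ¬ (P x ∧ ¬ Q x) := by
    funext x
    simp only [not_and, not_not]
  rw [this]
  exact DfnM.not (DfnM.and hP (DfnM.not hQ))

@[fun_prop]
theorem DfnM.iff {P Q : Γ → Prop} (hP : DfnM A P) (hQ : DfnM A Q) :
    DfnM A (fun x => P x ↔ Q x) := by
  have : (fun x => P x ↔ Q x) = fun x => (P x → Q x) ∧ (Q x → P x) := by
    funext x
    rw [iff_iff_implies_and_implies]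
  rw [this]
  exact DfnM.and (DfnM.imp hP hQ) (DfnM.imp hQ hP)

theorem DfnM.ballLe {f : Γ → A.C} {P : Γ → A.C → Prop} (hf : DfnM A f)
    (hP : DfnM A (fun g : Γ × A.C => P g.1 g.2)) : DfnM A (fun x => ∀ y, y ≤ f x → P x y) :=
  DfnM.ball hf hP

theorem DfnM.ballLt {f : Γ → A.C} {P : Γ → A.C → Prop} (hf : DfnM A f)
    (hP : DfnM A (fun g : Γ × A.C => P g.1 g.2)) : DfnM A (fun x => ∀ y, y < f x → P x y) := by
  have : (fun x => ∀ y, y < f x → P x y) = fun x => ∀ y, y ≤ f x → y < f x → P x y := by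
    funext x
    exact propext ⟨fun h y _ hy => h y hy, fun h y hy => h y hy.le hy⟩
  rw [this]
  exact DfnM.ball hf (DfnM.imp (by fun_prop) hP)

theorem DfnM.bexLe {f : Γ → A.C} {P : Γ → A.C → Prop} (hf : DfnM A f)
    (hP : DfnM A (fun g : Γ × A.C => P g.1 g.2)) : DfnM A (fun x => ∃ y, y ≤ f x ∧ P x y) := by
  have : (fun x => ∃ y, y ≤ f x ∧ P x y) = fun x => ¬ ∀ y, y ≤ f x → ¬ P x y := by
    funext x
    simp only [not_forall, not_not, exists_prop]
  rw [this]
  exact DfnM.not (DfnM.ball hf (DfnM.not hP))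

theorem DfnM.bexLt {f : Γ → A.C} {P : Γ → A.C → Prop} (hf : DfnM A f)
    (hP : DfnM A (fun g : Γ × A.C => P g.1 g.2)) : DfnM A (fun x => ∃ y, y < f x ∧ P x y) := by
  have : (fun x => ∃ y, y < f x ∧ P x y) = fun x => ¬ ∀ y, y < f x → ¬ P x y := by
    funext x
    simp only [not_forall, not_not, exists_prop]
  rw [this]
  exact DfnM.not (DfnM.ballLt hf (DfnM.not hP))

/-- induction for definable predicates -/
theorem dind {P : A.C → Prop} (hP : DfnM A P) (h0 : P 0) (hs : ∀ x, P x → P (x + 1)) (x : A.C) :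
    P x := by
  refine efa_ind (IsE.out (A := A)) hP h0 (fun x hx => ?_) x
  rw [succ_eq]
  exact hs x hx

end dfn

end Pool.Agent.Work.MP_de7025_lc.F
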