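import Pool.Agent.Work.MP_de7025_lc.F.Game

set_option autoImplicit false

/-!
# F/Tab0: the predicate `TblX` (tables for a coded list of terms), fixed file

`J` is an interpretation of EFA in models of `U`. The element `hh J i` of a table represents the numeral `i`.
-/

namespace Pool.Agent.Work.MP_de7025_lc.F

/-- `z1 c b ↔ c` is in the domain and represents zero -/
def z1 (J : RInt) : RT := .and (.diag J.dom) (.diag J.zero)

/-- there is a representative of zero -/
def tZ (J : RInt) : RT := .comp .one (z1 J)

/-- `s1 a c ↔ c` is in the domain and represents the successor of `a` -/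
def s1 (J : RInt) : RT := .and J.succ (.conv (.diag J.dom))

/-- there is a representative of the successor -/
def tS (J : RInt) : RT := .comp (s1 J) .one

/-- the element of a table which represents the numeral `i` -/
def hh (J : RInt) : ℕ → ℕ
  | 0 => W (tZ J).code 0 0
  | i + 1 => W (tS J).code (hh J i) (hh J i)

/-- paths: `(pth i).eval K a x ↔ x = p (q ^ i a)` -/
def pth : ℕ → RT
  | 0 => .atom 1
  | i + 1 => .comp (.atom 2) (pth i)

/-- the instructions for the terms of `L` -/
def instr (L : List RT) (r : RT) : List ℕ :=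
  L.flatMap (fun t => match t with
    | .atom _ => []
    | .nand u v => [pr 0 (pr t.code (pr u.code v.code))]
    | .comp u v => [pr 1 (pr t.code (pr u.code v.code))]
    | .conv u => [pr 2 (pr t.code u.code)]) ++ [pr 3 r.code]

/-- `n` codes the list `L` with the root `r` -/
def IsCode (n : ℕ) (L : List RT) (r : RT) : Prop := ∀ i, n.testBit i = true ↔ i ∈ instr L r

variable {A : ArStr.{0}} [IsE A]

/-- `g` codes the graph of the function `hh J` on `{0, ..., b}` -/
structure HG (J : RInt) (g b : A.C) : Prop where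
  fn : ∀ i v v', Mem (pr i v) g → Mem (pr i v') g → v = v'
  zero : Mem (pr 0 (W ((tZ J).code : A.C) 0 0)) g
  step : ∀ i v, i < b → Mem (pr i v) g → Mem (pr (i + 1) (W ((tS J).code : A.C) v v)) g

/-- `t` codes a table of length `y` for the list coded by `x`, and the root holds at the element for the numeral `x` -/
def TblX (J : RInt) (x t y : A.C) : Prop :=
  (∀ k u v, Mem (pr 0 (pr k (pr u v))) x → ∀ a b, a < y → b < y →
    (TT t k a b ↔ ¬ (TT t u a b ∧ TT t v a b))) ∧
  (∀ k u v, Mem (pr 1 (pr k (pr u v))) x → ∀ a b, a < y → b < y →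
    (∀ c, c < y → TT t u a c → TT t v c b → TT t k a b) ∧
    (TT t k a b → W k a b < y → TT t u a (W k a b) ∧ TT t v (W k a b) b)) ∧
  (∀ k u, Mem (pr 2 (pr k u)) x → ∀ a b, a < y → b < y → (TT t k a b ↔ TT t u b a)) ∧
  (∀ cl ∈ axCl, ¬ Viol (sg (TT t)) (fun a => a < y) cl) ∧
  (∀ k ∈ Reqs [], ∀ a b, a < y → b < y → W (k : A.C) a b < y →
    Ans [] (sg (TT t)) k a b (W (k : A.C) a b)) ∧
  (∀ k, Mem (pr 3 k) x → ∀ g v, HG J g x → Mem (pr x v) g → v < y → TT t k v v)

/-- the elements smaller than some power of `G` with a standard exponent -/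
def cut (G a : A.C) : Prop := ∃ j : ℕ, a < G ^ j

/-- the terms needed for reading -/
def needL (J : RInt) : List RT :=
  [tZ J, tS J, J.dom, J.eq, J.zero, J.succ, J.add, J.mul, J.le]

/-- a long table in `A`, and the graph `g` of `hh J` on `{0, ..., b}` -/
structure Setup (J : RInt) (L : List RT) (t z b g G : A.C) : Prop where
  built : Built L
  need : ∀ r ∈ needL J, r ∈ L
  tab : Tab L (TT t) (fun a => a < z)
  hg : HG J g b
  tot : ∀ i, i ≤ b → ∃ v, v < G ∧ Mem (pr i v) g
  big : ∀ m : ℕ, (m : A.C) < G
  long : ∀ a, cut G a → a < z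

theorem cut_ne {G : A.C} (h : ∀ m : ℕ, (m : A.C) < G) : ∃ a, cut G a :=
  ⟨0, 1, by simpa using h 0⟩

/-- the structure of the elements below the cut -/
noncomputable def KT (t G : A.C) (h : ∀ m : ℕ, (m : A.C) < G) : UStr := tabStr (TT t) (cut G) (cut_ne h)

end Pool.Agent.Work.MP_de7025_lc.F
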