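import Pool.Agent.Work.MP_de7025_lc.ThyQ
import Pool.Agent.Work.MP_de7025_lc.F.Tab0

set_option autoImplicit false

/-!
# F/S0: definitions for block S (fixed file)
-/

namespace Pool.Agent.Work.MP_de7025_lc.F

/-- `q` makes the model `K` of `U` into the model `A` of Q (the quotient by `E`) -/
structure IsQM (K : UStr) (A : QStr) (q : K.C → A.C) : Prop where
  qax : QAx A
  sur : ∀ x, ∃ a, q a = x
  r0 : ∀ a b, K.R 0 a b ↔ q a = q b
  r3 : ∀ a b, K.R 3 a b ↔ q b = A.zero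
  r4 : ∀ a b, K.R 4 a b ↔ A.succ (q a) = q b
  r5 : ∀ d a b c, K.R 1 d a → K.R 2 d b → (K.R 5 d c ↔ A.add (q a) (q b) = q c)
  r6 : ∀ d a b c, K.R 1 d a → K.R 2 d b → (K.R 6 d c ↔ A.mul (q a) (q b) = q c)

/-- the element `a` of `K` codes the assignment `E` -/
def Cod (K : UStr) {A : QStr} (q : K.C → A.C) (a : K.C) (E : ℕ → A.C) : Prop :=
  ∀ i, ∃ x, (pth i).eval K a x ∧ q x = E i

/-- a vector followed by an assignment -/
def catE {A : QStr} {m : ℕ} (w : Fin m → A.C) (E : ℕ → A.C) : ℕ → A.C :=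
  fun i => if h : i < m then w ⟨i, h⟩ else E (i - m)

end Pool.Agent.Work.MP_de7025_lc.F
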