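import Pool.Agent.Work.MP_de7025_lc.F.U2

set_option autoImplicit false

/-!
# F/TR (M): translation of first-order formulas into relation terms

An element `a` of `K` codes the assignment `e` up to `m` if for `i < m` the element `x = p (q ^ i a)` (`(pth i).eval K a x`) represents `e i`.
PROOF. Terms first: for every `AT` `s` there is `g : RT` with `g.eval K a x ↔ Rep x (s.val A e)` for all `a` coding `e` up to `m` (`s.bd m`) and all `x` with `Rep x n` for some `n` (i.e. `x` in the domain).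
`var i`: `comp (pth i) J.eq` (and `J.dom` at `x` is given); careful: `∃ y, (pth i) a y ∧ J.eq y x`: any `y` with `(pth i) a y` is equal (`E`) to the given one (`UAx.fn`, induction on `i` with `eval_congr`), so represents `e i` (`DefU.congr`).
`zero`: `conv (diag J.zero)`. `succ s`: `comp (g_s ∧ in the domain) J.succ`, i.e. `∃ y, g_s a y ∧ dom y ∧ J.succ y x`; there is such a `y` (`DefU.ex`). `exp` the same. `add s t`: `∃ d, (∃ y, g_s a y ∧ dom y ∧ P d y) ∧ (∃ y, g_t a y ∧ dom y ∧ Q d y) ∧ J.add d x`: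
`comp (and (comp (and g_s (conv (diag J.dom))) (conv (atom 1))) (comp (and g_t (conv (diag J.dom))) (conv (atom 2)))) J.add`; such `d` exists (`UAx.pair`). `mul` the same.
Formulas: `eq s t`: `diag` of `comp (and g_s D) (conv g_t)` with `D a y ↔ dom y`, i.e. `∃ y, g_s a y ∧ dom y ∧ g_t a y`. `le s t`: `∃ y z, g_s a y ∧ dom y ∧ J.le y z ∧ dom z ∧ g_t a z`. `neg`, `and`: `RT.neg`, `RT.and`.
`all φ`: `neg (comp (conv (atom 2)) (and (comp (atom 1) (diag J.dom)) (neg r_φ)))`: no `a'` with `q a' = a`, `p a'` in the domain and not `φ`. If `R 2 a' a`, `R 1 a' x`, `Rep x n` then `a'` codes `consE n e` up to `m + 1` (`pth (i + 1) a' y` because of `R 2 a' a` and `pth i a y`);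
for every `n` there is such an `a'` (`DefU.ex`, `UAx.pair`).
-/

namespace Pool.Agent.Work.MP_de7025_lc.F

private theorem pth_fn {K : UStr} (hK : UAx K) (i : ℕ) : ∀ {a x y : K.C},
    (pth i).eval K a x → (pth i).eval K a y → K.R 0 x y := by
  induction i with
  | zero => intro a x y h1 h2; exact hK.fn (i := 1) (by decide) h1 h2
  | succ i ih =>
    rintro a x y ⟨c, hc1, hc2⟩ ⟨c', hc1', hc2'⟩
    have h1 : K.R 0 c c' := hK.fn (i := 2) (by decide) hc1 hc1'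
    exact ih (eval_congr hK _ h1 (hK.refl x) hc2) hc2'

private theorem D_eval {J : RInt} {K : UStr} (hK : UAx K) {A : ArStr.{0}}
    {Rep : K.C → A.C → Prop} (hJ : DefU J K A Rep) (a y : K.C) :
    (RT.conv J.dom.diag).eval K a y ↔ ∃ n, Rep y n :=
  (eval_diag hK _ _ _).trans (hJ.dom y)

private theorem DD_eval {J : RInt} {K : UStr} (hK : UAx K) {A : ArStr.{0}}
    {Rep : K.C → A.C → Prop} (hJ : DefU J K A Rep) (g : RT) (a : K.C) (v : A.C)
    (hg : ∀ (x : K.C) (n : A.C), Rep x n → (g.eval K a x ↔ n = v)) (y : K.C) :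
    (g.and (.conv J.dom.diag)).eval K a y ↔ Rep y v := by
  rw [eval_and, D_eval hK hJ]
  constructor
  · rintro ⟨h1, n, hn⟩
    rw [← (hg y n hn).1 h1]
    exact hn
  · intro h
    exact ⟨(hg y v h).2 rfl, v, h⟩

private theorem tr_term (J : RInt) (s : AT) : ∃ g : RT, ∀ (K : UStr), UAx K → ∀ (A : ArStr.{0})
    (Rep : K.C → A.C → Prop), DefU J K A Rep → ∀ (m : ℕ), s.bd m → ∀ (e : Env A) (a : K.C),
    (∀ i, i < m → ∃ x, (pth i).eval K a x ∧ Rep x (e i)) →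
    ∀ (x : K.C) (n : A.C), Rep x n → (g.eval K a x ↔ n = s.val A e) := by
  induction s with
  | var i =>
    refine ⟨.comp (pth i) J.eq, ?_⟩
    intro K hK A Rep hJ m hm e a hc x n hx
    obtain ⟨z, hz1, hz2⟩ := hc i hm
    constructor
    · rintro ⟨y, hy1, hy2⟩
      have h1 : Rep y (e i) := DefU.congr hK hJ (pth_fn hK i hz1 hy1) hz2
      exact ((hJ.eq y x _ _ h1 hx).1 hy2).symm
    · intro h
      exact ⟨z, hz1, (hJ.eq z x _ _ hz2 hx).2 h.symm⟩
  | zero =>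
    refine ⟨.conv J.zero.diag, ?_⟩
    intro K hK A Rep hJ m hm e a hc x n hx
    exact (eval_diag hK _ _ _).trans (hJ.zero x n hx)
  | succ s ih =>
    obtain ⟨g, hg⟩ := ih
    refine ⟨.comp (g.and (.conv J.dom.diag)) J.succ, ?_⟩
    intro K hK A Rep hJ m hm e a hc x n hx
    have hD := DD_eval hK hJ g a _ (hg K hK A Rep hJ m hm e a hc)
    constructor
    · rintro ⟨y, hy1, hy2⟩
      exact ((hJ.succ y x _ _ ((hD y).1 hy1) hx).1 hy2).symm
    · intro h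
      obtain ⟨y, hy⟩ := hJ.ex (s.val A e)
      exact ⟨y, (hD y).2 hy, (hJ.succ y x _ _ hy hx).2 h.symm⟩
  | exp s ih =>
    obtain ⟨g, hg⟩ := ih
    refine ⟨.comp (g.and (.conv J.dom.diag)) J.exp, ?_⟩
    intro K hK A Rep hJ m hm e a hc x n hx
    have hD := DD_eval hK hJ g a _ (hg K hK A Rep hJ m hm e a hc)
    constructor
    · rintro ⟨y, hy1, hy2⟩
      exact ((hJ.exp y x _ _ ((hD y).1 hy1) hx).1 hy2).symm
    · intro h
      obtain ⟨y, hy⟩ := hJ.ex (s.val A e)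
      exact ⟨y, (hD y).2 hy, (hJ.exp y x _ _ hy hx).2 h.symm⟩
  | add s t ihs iht =>
    obtain ⟨g, hg⟩ := ihs
    obtain ⟨g', hg'⟩ := iht
    refine ⟨.comp (RT.and (.comp (g.and (.conv J.dom.diag)) (.conv (.atom 1)))
      (.comp (g'.and (.conv J.dom.diag)) (.conv (.atom 2)))) J.add, ?_⟩
    intro K hK A Rep hJ m hm e a hc x n hx
    have hD := DD_eval hK hJ g a _ (hg K hK A Rep hJ m hm.1 e a hc)
    have hD' := DD_eval hK hJ g' a _ (hg' K hK A Rep hJ m hm.2 e a hc)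
    constructor
    · rintro ⟨d, hd1, hd2⟩
      rw [eval_and] at hd1
      obtain ⟨⟨y, hy1, hy2⟩, ⟨z, hz1, hz2⟩⟩ := hd1
      exact ((hJ.add d y z x _ _ _ hy2 hz2 ((hD y).1 hy1) ((hD' z).1 hz1) hx).1 hd2).symm
    · intro h
      obtain ⟨y, hy⟩ := hJ.ex (s.val A e)
      obtain ⟨z, hz⟩ := hJ.ex (t.val A e)
      obtain ⟨d, hd1, hd2⟩ := hK.pair y z
      exact ⟨d, (eval_and K _ _ _ _).2 ⟨⟨y, (hD y).2 hy, hd1⟩, ⟨z, (hD' z).2 hz, hd2⟩⟩,
        (hJ.add d y z x _ _ _ hd1 hd2 hy hz hx).2 h.symm⟩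
  | mul s t ihs iht =>
    obtain ⟨g, hg⟩ := ihs
    obtain ⟨g', hg'⟩ := iht
    refine ⟨.comp (RT.and (.comp (g.and (.conv J.dom.diag)) (.conv (.atom 1)))
      (.comp (g'.and (.conv J.dom.diag)) (.conv (.atom 2)))) J.mul, ?_⟩
    intro K hK A Rep hJ m hm e a hc x n hx
    have hD := DD_eval hK hJ g a _ (hg K hK A Rep hJ m hm.1 e a hc)
    have hD' := DD_eval hK hJ g' a _ (hg' K hK A Rep hJ m hm.2 e a hc)
    constructor
    · rintro ⟨d, hd1, hd2⟩
      rw [eval_and] at hd1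
      obtain ⟨⟨y, hy1, hy2⟩, ⟨z, hz1, hz2⟩⟩ := hd1
      exact ((hJ.mul d y z x _ _ _ hy2 hz2 ((hD y).1 hy1) ((hD' z).1 hz1) hx).1 hd2).symm
    · intro h
      obtain ⟨y, hy⟩ := hJ.ex (s.val A e)
      obtain ⟨z, hz⟩ := hJ.ex (t.val A e)
      obtain ⟨d, hd1, hd2⟩ := hK.pair y z
      exact ⟨d, (eval_and K _ _ _ _).2 ⟨⟨y, (hD y).2 hy, hd1⟩, ⟨z, (hD' z).2 hz, hd2⟩⟩,
        (hJ.mul d y z x _ _ _ hd1 hd2 hy hz hx).2 h.symm⟩

theorem exists_tr (J : RInt) (φ : AF) : ∃ r : RT, ∀ (K : UStr), UAx K → ∀ (A : ArStr.{0})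
    (Rep : K.C → A.C → Prop), DefU J K A Rep → ∀ (m : ℕ), φ.bd m → ∀ (e : Env A) (a : K.C),
    (∀ i, i < m → ∃ x, (pth i).eval K a x ∧ Rep x (e i)) →
    ∀ b, r.eval K a b ↔ φ.Holds A e := by
  induction φ with
  | eq s t =>
    obtain ⟨g, hg⟩ := tr_term J s
    obtain ⟨g', hg'⟩ := tr_term J t
    refine ⟨RT.diag (.comp (g.and (.conv J.dom.diag)) (.conv g')), ?_⟩
    intro K hK A Rep hJ m hm e a hc b
    have hD := DD_eval hK hJ g a _ (hg K hK A Rep hJ m hm.1 e a hc)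
    have hg2 := hg' K hK A Rep hJ m hm.2 e a hc
    rw [eval_diag hK]
    constructor
    · rintro ⟨y, hy1, hy2⟩
      exact (hg2 y _ ((hD y).1 hy1)).1 hy2
    · intro h
      obtain ⟨y, hy⟩ := hJ.ex (s.val A e)
      exact ⟨y, (hD y).2 hy, (hg2 y _ hy).2 h⟩
  | le s t =>
    obtain ⟨g, hg⟩ := tr_term J s
    obtain ⟨g', hg'⟩ := tr_term J t
    refine ⟨RT.diag (.comp (.comp (g.and (.conv J.dom.diag)) J.le)
      (.conv (g'.and (.conv J.dom.diag)))), ?_⟩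
    intro K hK A Rep hJ m hm e a hc b
    have hD := DD_eval hK hJ g a _ (hg K hK A Rep hJ m hm.1 e a hc)
    have hD' := DD_eval hK hJ g' a _ (hg' K hK A Rep hJ m hm.2 e a hc)
    rw [eval_diag hK]
    constructor
    · rintro ⟨z, ⟨y, hy1, hy2⟩, hz⟩
      exact (hJ.le y z _ _ ((hD y).1 hy1) ((hD' z).1 hz)).1 hy2
    · intro h
      obtain ⟨y, hy⟩ := hJ.ex (s.val A e)
      obtain ⟨z, hz⟩ := hJ.ex (t.val A e)
      exact ⟨z, ⟨y, (hD y).2 hy, (hJ.le y z _ _ hy hz).2 h⟩, (hD' z).2 hz⟩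
  | neg φ ih =>
    obtain ⟨r, hr⟩ := ih
    refine ⟨r.neg, ?_⟩
    intro K hK A Rep hJ m hm e a hc b
    rw [eval_neg, hr K hK A Rep hJ m hm e a hc b]
    rfl
  | and φ ψ ihφ ihψ =>
    obtain ⟨r, hr⟩ := ihφ
    obtain ⟨r', hr'⟩ := ihψ
    refine ⟨r.and r', ?_⟩
    intro K hK A Rep hJ m hm e a hc b
    rw [eval_and, hr K hK A Rep hJ m hm.1 e a hc b, hr' K hK A Rep hJ m hm.2 e a hc b]
    rfl
  | all φ ih =>
    obtain ⟨r, hr⟩ := ih
    refine ⟨RT.neg (.comp (.conv (.atom 2)) (RT.and (.comp (.atom 1) J.dom.diag) r.neg)), ?_⟩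
    intro K hK A Rep hJ m hm e a hc b
    have key : ∀ (a' x : K.C) (n : A.C), K.R 2 a' a → K.R 1 a' x → Rep x n →
        (r.eval K a' b ↔ φ.Holds A (consE n e)) := by
      intro a' x n h2 h1 hx
      refine hr K hK A Rep hJ (m + 1) hm (consE n e) a' ?_ b
      intro i hi
      cases i with
      | zero => exact ⟨x, h1, hx⟩
      | succ i =>
        obtain ⟨y, hy1, hy2⟩ := hc i (by omega)
        exact ⟨y, ⟨a, h2, hy1⟩, hy2⟩
    rw [eval_neg]
    constructor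
    · intro h n
      by_contra hcon
      obtain ⟨x, hx⟩ := hJ.ex n
      obtain ⟨a', h1, h2⟩ := hK.pair x a
      apply h
      refine ⟨a', h2, (eval_and K _ _ _ _).2 ⟨⟨x, h1, ?_⟩, ?_⟩⟩
      · exact (eval_diag hK _ _ _).2 ((hJ.dom x).2 ⟨n, hx⟩)
      · rw [eval_neg, key a' x n h2 h1 hx]
        exact hcon
    · rintro h ⟨a', h2, h3⟩
      rw [eval_and, eval_neg] at h3
      obtain ⟨⟨x, h1, hx⟩, h4⟩ := h3
      obtain ⟨n, hn⟩ := (hJ.dom x).1 ((eval_diag hK _ _ _).1 hx)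
      exact h4 ((key a' x n h2 h1 hn).2 (h n))

end Pool.Agent.Work.MP_de7025_lc.F
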