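import Pool.Agent.Work.MP_de7025_lc.F.S0
import Pool.Agent.Work.MP_de7025_lc.F.TR

set_option autoImplicit false

/-!
# F/S2 (S-M): translation of the formulas of the language of Q into relation terms

PROOF. Let `B` be the `ArStr` with the operations of `A` and `exp x = zero`, `J0` the `RInt` with `dom = one`, `eq = atom 0`, `zero = atom 3`, `succ = atom 4`, `add = atom 5`, `mul = atom 6`, `exp = atom 3`, `le = comp (conv (atom 1)) (atom 5)` (`∃ d, R 1 d a ∧ R 5 d b`; the second component of `d`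
is the `z` of the axiom for `≤`; `UAx.tot` for `R 2`, `UAx.pair`). `DefU J0 K B (fun a n => q a = n)`. Translate `QFm` to `AF` (`ex φ` to `neg (all (neg φ'))`), with the same truth, and every `AF` has a bound `m` (`AF.bd` is monotone in `m`). Use `exists_tr`.
-/

namespace Pool.Agent.Work.MP_de7025_lc.F

private def s2B (A : QStr) : ArStr.{0} where
  C := A.C
  zero := A.zero
  succ := A.succ
  add := A.add
  mul := A.mul
  exp := fun _ => A.zero
  le := A.le

private def s2J : RInt where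
  dom := RT.one
  eq := .atom 0
  zero := .atom 3
  succ := .atom 4
  add := .atom 5
  mul := .atom 6
  exp := .atom 3
  le := .comp (.conv (.atom 1)) (.atom 5)

private theorem s2_def {K : UStr} (hK : UAx K) {A : QStr} {q : K.C → A.C} (h : IsQM K A q) :
    DefU s2J K (s2B A) (fun a n => q a = n) where
  ex n := h.sur n
  fn a n m h1 h2 := h1.symm.trans h2
  dom a := ⟨fun _ => ⟨q a, rfl⟩, fun _ => eval_one K a a⟩
  eq a b n m h1 h2 := by
    subst h1; subst h2
    exact h.r0 a b
  zero a n h1 := by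
    subst h1
    exact h.r3 a a
  succ a b n m h1 h2 := by
    subst h1; subst h2
    exact h.r4 a b
  add d a b c n m l hd1 hd2 h1 h2 h3 := by
    subst h1; subst h2; subst h3
    exact h.r5 d a b c hd1 hd2
  mul d a b c n m l hd1 hd2 h1 h2 h3 := by
    subst h1; subst h2; subst h3
    exact h.r6 d a b c hd1 hd2
  exp a b n m h1 h2 := by
    subst h1; subst h2
    exact (h.r3 a b).trans eq_comm
  le a b n m h1 h2 := by
    subst h1; subst h2
    constructor
    · rintro ⟨d, hd1, hd2⟩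
      obtain ⟨z, hz⟩ := hK.tot 2 (by decide) d
      exact (h.qax.le_iff _ _).2 ⟨q z, (h.r5 d a z b hd1 hz).1 hd2⟩
    · intro hle
      obtain ⟨z, hz⟩ := (h.qax.le_iff _ _).1 hle
      obtain ⟨z', rfl⟩ := h.sur z
      obtain ⟨d, hd1, hd2⟩ := hK.pair a z'
      exact ⟨d, hd1, (h.r5 d a z' b hd1 hd2).2 hz⟩

private def s2T : QTm → AT
  | .var i => .var i
  | .zero => .zero
  | .succ t => .succ (s2T t)
  | .add t s => .add (s2T t) (s2T s)
  | .mul t s => .mul (s2T t) (s2T s)

private def s2F : QFm → AF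
  | .eq t s => .eq (s2T t) (s2T s)
  | .le t s => .le (s2T t) (s2T s)
  | .neg φ => .neg (s2F φ)
  | .and φ ψ => .and (s2F φ) (s2F ψ)
  | .ex φ => .neg (.all (.neg (s2F φ)))

private theorem s2T_val (A : QStr) (E : ℕ → A.C) (t : QTm) :
    (s2T t).val (s2B A) E = t.val A E := by
  induction t with
  | var i => rfl
  | zero => rfl
  | succ t ih => simp only [s2T, AT.val, QTm.val, ih]; rfl
  | add t s iht ihs => simp only [s2T, AT.val, QTm.val, iht, ihs]; rfl
  | mul t s iht ihs => simp only [s2T, AT.val, QTm.val, iht, ihs]; rfl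

private theorem s2F_holds (A : QStr) (φ : QFm) : ∀ E : ℕ → A.C,
    (s2F φ).Holds (s2B A) E ↔ φ.Holds A E := by
  induction φ with
  | eq t s =>
    intro E
    simp only [s2F, AF.Holds, QFm.Holds, s2T_val]
    rfl
  | le t s =>
    intro E
    simp only [s2F, AF.Holds, QFm.Holds, s2T_val]
    rfl
  | neg φ ih =>
    intro E
    simp only [s2F, AF.Holds, QFm.Holds, ih]
  | and φ ψ ih1 ih2 =>
    intro E
    simp only [s2F, AF.Holds, QFm.Holds, ih1, ih2]
  | ex φ ih =>
    intro E
    have hc : ∀ x : A.C, (consE (A := s2B A) x E) = (fun i => Nat.casesOn i x E : ℕ → A.C) := by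
      intro x
      funext i
      cases i <;> rfl
    simp only [s2F, AF.Holds, QFm.Holds, not_forall, not_not]
    constructor
    · rintro ⟨x, hx⟩
      refine ⟨x, ?_⟩
      rw [← ih, ← hc]
      exact hx
    · rintro ⟨x, hx⟩
      refine ⟨x, ?_⟩
      rw [← ih, ← hc] at hx
      exact hx

private theorem s2T_mono (t : AT) : ∀ {m n : ℕ}, m ≤ n → t.bd m → t.bd n := by
  induction t with
  | var i => intro m n h h1; exact lt_of_lt_of_le h1 h
  | zero => intro m n h h1; trivial
  | succ t ih => intro m n h h1; exact ih h h1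
  | add t s iht ihs => intro m n h h1; exact ⟨iht h h1.1, ihs h h1.2⟩
  | mul t s iht ihs => intro m n h h1; exact ⟨iht h h1.1, ihs h h1.2⟩
  | exp t ih => intro m n h h1; exact ih h h1

private theorem s2T_bd (t : AT) : ∃ m, t.bd m := by
  induction t with
  | var i => exact ⟨i + 1, Nat.lt_succ_self i⟩
  | zero => exact ⟨0, trivial⟩
  | succ t ih => exact ih
  | add t s iht ihs =>
    obtain ⟨m, hm⟩ := iht
    obtain ⟨n, hn⟩ := ihs
    exact ⟨max m n, s2T_mono t (le_max_left _ _) hm, s2T_mono s (le_max_right _ _) hn⟩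
  | mul t s iht ihs =>
    obtain ⟨m, hm⟩ := iht
    obtain ⟨n, hn⟩ := ihs
    exact ⟨max m n, s2T_mono t (le_max_left _ _) hm, s2T_mono s (le_max_right _ _) hn⟩
  | exp t ih => exact ih

private theorem s2F_mono (φ : AF) : ∀ {m n : ℕ}, m ≤ n → φ.bd m → φ.bd n := by
  induction φ with
  | eq t s => intro m n h h1; exact ⟨s2T_mono t h h1.1, s2T_mono s h h1.2⟩
  | le t s => intro m n h h1; exact ⟨s2T_mono t h h1.1, s2T_mono s h h1.2⟩
  | neg φ ih => intro m n h h1; exact ih h h1
  | and φ ψ ih1 ih2 => intro m n h h1; exact ⟨ih1 h h1.1, ih2 h h1.2⟩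
  | all φ ih =>
    intro m n h h1
    have h2 : φ.bd (m + 1) := h1
    exact (ih (Nat.succ_le_succ h) h2 : φ.bd (n + 1))

private theorem s2F_bd (φ : AF) : ∃ m, φ.bd m := by
  induction φ with
  | eq t s =>
    obtain ⟨m, hm⟩ := s2T_bd t
    obtain ⟨n, hn⟩ := s2T_bd s
    exact ⟨max m n, s2T_mono t (le_max_left _ _) hm, s2T_mono s (le_max_right _ _) hn⟩
  | le t s =>
    obtain ⟨m, hm⟩ := s2T_bd t
    obtain ⟨n, hn⟩ := s2T_bd s
    exact ⟨max m n, s2T_mono t (le_max_left _ _) hm, s2T_mono s (le_max_right _ _) hn⟩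
  | neg φ ih => exact ih
  | and φ ψ ih1 ih2 =>
    obtain ⟨m, hm⟩ := ih1
    obtain ⟨n, hn⟩ := ih2
    exact ⟨max m n, s2F_mono φ (le_max_left _ _) hm, s2F_mono ψ (le_max_right _ _) hn⟩
  | all φ ih =>
    obtain ⟨m, hm⟩ := ih
    exact ⟨m, (s2F_mono φ (Nat.le_succ m) hm : φ.bd (m + 1))⟩

theorem exists_trQ (φ : QFm) : ∃ r : RT, ∀ (K : UStr), UAx K → ∀ (A : QStr) (q : K.C → A.C),
    IsQM K A q → ∀ (E : ℕ → A.C) (a : K.C), Cod K q a E → ∀ b, (r.eval K a b ↔ φ.Holds A E) := by
  obtain ⟨r, hr⟩ := exists_tr s2J (s2F φ)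
  obtain ⟨m, hm⟩ := s2F_bd (s2F φ)
  refine ⟨r, ?_⟩
  intro K hK A q h E a ha b
  rw [← s2F_holds]
  exact hr K hK (s2B A) (fun a n => q a = n) (s2_def hK h) m hm E a (fun i _ => ha i) b

end Pool.Agent.Work.MP_de7025_lc.F
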