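import Pool.Agent.Work.MP_de7025_lc.F.S0

set_option autoImplicit false

/-!
# F/S5 (S-M): renaming, blocks of quantifiers, finitely many variables

PROOF. `exists_ren`: induction on `φ` (under `ex` rename with `0 ↦ 0`, `i + 1 ↦ ρ i + 1`); terms first. `exists_exN`: `m` times `ex`, after a renaming if the order of the variables does not fit (or directly: `catE (m + 1 vector) E` = `catE` of the tail ... ; the innermost quantifier binds variable `0`, so
`exN (m + 1) φ = ex (exN m φ)`-style formulas give the vector in the reversed or shifted order; correct by `exists_ren`). `exists_bd`: induction: `∃ m, ∀ A E E', (∀ i < m, E i = E' i) → (φ.Holds A E ↔ φ.Holds A E')`, finite conjunctions `exists_andN`.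
-/

namespace Pool.Agent.Work.MP_de7025_lc.F

private def tren (ρ : ℕ → ℕ) : QTm → QTm
  | .var i => .var (ρ i)
  | .zero => .zero
  | .succ t => .succ (tren ρ t)
  | .add t s => .add (tren ρ t) (tren ρ s)
  | .mul t s => .mul (tren ρ t) (tren ρ s)

private theorem tren_val (ρ : ℕ → ℕ) (A : QStr) (E : ℕ → A.C) (t : QTm) :
    (tren ρ t).val A E = t.val A (fun i => E (ρ i)) := by
  induction t with
  | var i => rfl
  | zero => rfl
  | succ t ih => simp only [tren, QTm.val, ih]
  | add t s ih1 ih2 => simp only [tren, QTm.val, ih1, ih2]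
  | mul t s ih1 ih2 => simp only [tren, QTm.val, ih1, ih2]

private def fren : (ℕ → ℕ) → QFm → QFm
  | ρ, .eq t s => .eq (tren ρ t) (tren ρ s)
  | ρ, .le t s => .le (tren ρ t) (tren ρ s)
  | ρ, .neg φ => .neg (fren ρ φ)
  | ρ, .and φ ψ => .and (fren ρ φ) (fren ρ ψ)
  | ρ, .ex φ => .ex (fren (fun i => Nat.casesOn i 0 (fun i => ρ i + 1)) φ)

private theorem fren_holds (φ : QFm) : ∀ (ρ : ℕ → ℕ) (A : QStr) (E : ℕ → A.C),
    (fren ρ φ).Holds A E ↔ φ.Holds A (fun i => E (ρ i)) := by
  induction φ with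
  | eq t s => intro ρ A E; simp only [fren, QFm.Holds, tren_val]
  | le t s => intro ρ A E; simp only [fren, QFm.Holds, tren_val]
  | neg φ ih => intro ρ A E; simp only [fren, QFm.Holds, ih]
  | and φ ψ ih1 ih2 => intro ρ A E; simp only [fren, QFm.Holds, ih1, ih2]
  | ex φ ih =>
    intro ρ A E
    simp only [fren, QFm.Holds, ih]
    have key : ∀ x : A.C, (fun i : ℕ => (Nat.casesOn (motive := fun _ => A.C)
        (Nat.casesOn (motive := fun _ => ℕ) i 0 (fun i => ρ i + 1)) x E : A.C)) =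
        fun i => (Nat.casesOn (motive := fun _ => A.C) i x (fun i => E (ρ i)) : A.C) := by
      intro x
      funext i
      cases i <;> rfl
    simp only [key]

theorem exists_ren (ρ : ℕ → ℕ) (φ : QFm) : ∃ ψ : QFm, ∀ (A : QStr) (E : ℕ → A.C),
    ψ.Holds A E ↔ φ.Holds A (fun i => E (ρ i)) :=
  ⟨fren ρ φ, fren_holds φ ρ⟩

private theorem catE_cons {A : QStr} {m : ℕ} (w : Fin (m + 1) → A.C) (E : ℕ → A.C) :
    catE w E = fun i => (Nat.casesOn (motive := fun _ => A.C) i (w 0)
      (catE (fun i : Fin m => w i.succ) E) : A.C) := by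
  funext i
  cases i with
  | zero => simp [catE]
  | succ i =>
    simp only [catE]
    by_cases h : i < m
    · rw [dif_pos h, dif_pos (by omega)]
      rfl
    · rw [dif_neg h, dif_neg (by omega)]
      congr 1
      omega

theorem exists_exN (m : ℕ) (φ : QFm) : ∃ ψ : QFm, ∀ (A : QStr) (E : ℕ → A.C),
    ψ.Holds A E ↔ ∃ w : Fin m → A.C, φ.Holds A (catE w E) := by
  induction m generalizing φ with
  | zero =>
    refine ⟨φ, fun A E => ?_⟩
    have h : ∀ w : Fin 0 → A.C, catE w E = E := by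
      intro w
      funext i
      simp [catE]
    simp only [h]
    exact ⟨fun h => ⟨Fin.elim0, h⟩, fun ⟨_, h⟩ => h⟩
  | succ m ih =>
    obtain ⟨ψ, hψ⟩ := ih (.ex φ)
    refine ⟨ψ, fun A E => ?_⟩
    rw [hψ]
    constructor
    · rintro ⟨v, x, h⟩
      refine ⟨Fin.cons x v, ?_⟩
      rw [catE_cons]
      simpa using h
    · rintro ⟨w, h⟩
      rw [catE_cons] at h
      exact ⟨fun i => w i.succ, w 0, h⟩

private theorem tbd (t : QTm) : ∃ m : ℕ, ∀ (A : QStr) (E E' : ℕ → A.C),
    (∀ i, i < m → E i = E' i) → t.val A E = t.val A E' := by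
  induction t with
  | var i => exact ⟨i + 1, fun A E E' h => h i (Nat.lt_succ_self i)⟩
  | zero => exact ⟨0, fun A E E' _ => rfl⟩
  | succ t ih =>
    obtain ⟨m, h⟩ := ih
    exact ⟨m, fun A E E' hE => by simp only [QTm.val, h A E E' hE]⟩
  | add t s ih1 ih2 =>
    obtain ⟨m1, h1⟩ := ih1
    obtain ⟨m2, h2⟩ := ih2
    refine ⟨max m1 m2, fun A E E' hE => ?_⟩
    simp only [QTm.val, h1 A E E' fun i hi => hE i (lt_of_lt_of_le hi (le_max_left _ _)),
      h2 A E E' fun i hi => hE i (lt_of_lt_of_le hi (le_max_right _ _))]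
  | mul t s ih1 ih2 =>
    obtain ⟨m1, h1⟩ := ih1
    obtain ⟨m2, h2⟩ := ih2
    refine ⟨max m1 m2, fun A E E' hE => ?_⟩
    simp only [QTm.val, h1 A E E' fun i hi => hE i (lt_of_lt_of_le hi (le_max_left _ _)),
      h2 A E E' fun i hi => hE i (lt_of_lt_of_le hi (le_max_right _ _))]

theorem exists_bd (φ : QFm) : ∃ m : ℕ, ∀ (A : QStr) (E E' : ℕ → A.C),
    (∀ i, i < m → E i = E' i) → (φ.Holds A E ↔ φ.Holds A E') := by
  induction φ with
  | eq t s =>
    obtain ⟨m1, h1⟩ := tbd t
    obtain ⟨m2, h2⟩ := tbd s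
    refine ⟨max m1 m2, fun A E E' hE => ?_⟩
    simp only [QFm.Holds, h1 A E E' fun i hi => hE i (lt_of_lt_of_le hi (le_max_left _ _)),
      h2 A E E' fun i hi => hE i (lt_of_lt_of_le hi (le_max_right _ _))]
  | le t s =>
    obtain ⟨m1, h1⟩ := tbd t
    obtain ⟨m2, h2⟩ := tbd s
    refine ⟨max m1 m2, fun A E E' hE => ?_⟩
    simp only [QFm.Holds, h1 A E E' fun i hi => hE i (lt_of_lt_of_le hi (le_max_left _ _)),
      h2 A E E' fun i hi => hE i (lt_of_lt_of_le hi (le_max_right _ _))]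
  | neg φ ih =>
    obtain ⟨m, h⟩ := ih
    exact ⟨m, fun A E E' hE => by simp only [QFm.Holds, h A E E' hE]⟩
  | and φ ψ ih1 ih2 =>
    obtain ⟨m1, h1⟩ := ih1
    obtain ⟨m2, h2⟩ := ih2
    refine ⟨max m1 m2, fun A E E' hE => ?_⟩
    simp only [QFm.Holds, h1 A E E' fun i hi => hE i (lt_of_lt_of_le hi (le_max_left _ _)),
      h2 A E E' fun i hi => hE i (lt_of_lt_of_le hi (le_max_right _ _))]
  | ex φ ih =>
    obtain ⟨m, h⟩ := ih
    refine ⟨m, fun A E E' hE => ?_⟩
    simp only [QFm.Holds]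
    refine exists_congr fun x => h A _ _ fun i hi => ?_
    cases i with
    | zero => rfl
    | succ i => exact hE i (by omega)

theorem exists_andN (n : ℕ) (φ : ℕ → QFm) : ∃ ψ : QFm, ∀ (A : QStr) (E : ℕ → A.C),
    ψ.Holds A E ↔ ∀ k, k < n → (φ k).Holds A E := by
  induction n with
  | zero =>
    refine ⟨.eq .zero .zero, fun A E => ?_⟩
    simp [QFm.Holds]
  | succ n ih =>
    obtain ⟨ψ, hψ⟩ := ih
    refine ⟨.and ψ (φ n), fun A E => ?_⟩
    simp only [QFm.Holds, hψ]
    constructor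
    · rintro ⟨h1, h2⟩ k hk
      rcases Nat.lt_succ_iff_lt_or_eq.1 hk with h | rfl
      · exact h1 k h
      · exact h2
    · intro h
      exact ⟨fun k hk => h k (by omega), h n (by omega)⟩

end Pool.Agent.Work.MP_de7025_lc.F
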