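import Pool.Agent.Work.MP_de7025_lc.F.S5

set_option autoImplicit false

/-!
# F/S6 (M-L): translation of formulas of `L_BL` into formulas of the language of Q

The block of the object variable `i` is at the positions `σO i, ..., σO i + dO - 1` of `E`, the block of the variable `i` of the sort `Rel n` at `σR n i, ...`.
PROOF. Induction on `φ` for all layouts `σO, σR`; all formulas exist by `S5` (`exists_ren`, `exists_exN`, `exists_andN`) and `DefR`. `eq (var i) (var j)`: `eqO` renamed. `eq (ext i) (var j)` and `eq (var j) (ext i)`: `ext` renamed. `eq (ext i) (ext j)`: a new object block `x` (`exists_exN dO`, layout shifted by `dO`)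
with `domO x`, `ext (X_i, x)`, `ext (X_j, x)`. `rel n i t`: `(n + 1) * dO` new variables, blocks `y_0, ..., y_n`, with `domO y_k`, `y_k = t_k` (`eqO` if `t_k` is a variable, `ext` if `t_k = ext j`) for all `k ≤ n`, and `app n (X_i, y_0, ..., y_n)`.
`ex φ`: a new object block: `domO` and the translation of `φ` for the layout `σO' 0 = 0`, `σO' (i + 1) = σO i + dO`, `σR' n i = σR n i + dO`. `exR m φ`: a new block of length `dR m`: `domR m` and the translation for `σR' m 0 = 0`, `σR' m (i + 1) = σR m i + dR m`, all others shifted by `dR m`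
(`Asg.consR` is a `Function.update`). Every object and relation has a representing tuple (`surO`, `surR`) and a tuple in the domain represents exactly one (`fnO`, `fnR`).
-/

namespace Pool.Agent.Work.MP_de7025_lc.F

private theorem S6_cat_ge {A : QStr} {m : ℕ} (w : Fin m → A.C) (E : ℕ → A.C) (a j : ℕ) :
    catE w E (a + m + j) = E (a + j) := by
  unfold catE
  rw [dif_neg (by omega)]
  congr 1
  omega

private theorem S6_cat_lt {A : QStr} {m : ℕ} (w : Fin m → A.C) (E : ℕ → A.C) (i : Fin m) :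
    catE w E i = w i := by
  unfold catE
  rw [dif_pos i.2]

/-- the layout `σO, σR` is correct -/
private def Lay (ι : BLI) (A : QStr) (M : Str.{0}) (rO : (Fin ι.dO → A.C) → M.Obj → Prop)
    (rR : ∀ n, (Fin (ι.dR n) → A.C) → M.Rel n → Prop) (σO : ℕ → ℕ) (σR : ℕ → ℕ → ℕ)
    (v : Asg M) (E : ℕ → A.C) : Prop :=
  (∀ i, rO (fun j => E (σO i + j)) (v.o i)) ∧ (∀ n i, rR n (fun j => E (σR n i + j)) (v.r n i))

private theorem Lay.shift {ι : BLI} {A : QStr} {M : Str.{0}} {rO : (Fin ι.dO → A.C) → M.Obj → Prop}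
    {rR : ∀ n, (Fin (ι.dR n) → A.C) → M.Rel n → Prop} {σO : ℕ → ℕ} {σR : ℕ → ℕ → ℕ}
    {v : Asg M} {E : ℕ → A.C} (h : Lay ι A M rO rR σO σR v E) {N : ℕ} (w : Fin N → A.C) :
    Lay ι A M rO rR (fun i => σO i + N) (fun n i => σR n i + N) v (catE w E) := by
  refine ⟨fun i => ?_, fun n i => ?_⟩
  · have : (fun j : Fin ι.dO => catE w E (σO i + N + j)) = fun j : Fin ι.dO => E (σO i + j) := by
      funext j
      exact S6_cat_ge w E _ _
    simp only [this]
    exact h.1 i
  · have : (fun j : Fin (ι.dR n) => catE w E (σR n i + N + j)) =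
        fun j : Fin (ι.dR n) => E (σR n i + j) := by
      funext j
      exact S6_cat_ge w E _ _
    simp only [this]
    exact h.2 n i

/-- the block at `p` represents the value of the term `t` -/
private theorem S6_tm (ι : BLI) (t : Tm) (σO : ℕ → ℕ) (σR : ℕ → ℕ → ℕ) (p : ℕ) : ∃ ψ : QFm,
    ∀ (A : QStr) (M : Str.{0}) (rO : (Fin ι.dO → A.C) → M.Obj → Prop)
      (rR : ∀ n, (Fin (ι.dR n) → A.C) → M.Rel n → Prop), DefR ι A M rO rR →
    ∀ (v : Asg M) (E : ℕ → A.C), Lay ι A M rO rR σO σR v E →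
      (ψ.Holds A E ↔ rO (fun j => E (p + j)) (t.val v)) := by
  obtain ⟨d, hd⟩ := exists_ren (fun x => p + x) ι.domO
  have hd' : ∀ (A : QStr) (M : Str.{0}) (rO : (Fin ι.dO → A.C) → M.Obj → Prop)
      (rR : ∀ n, (Fin (ι.dR n) → A.C) → M.Rel n → Prop), DefR ι A M rO rR →
      ∀ E : ℕ → A.C, (d.Holds A E ↔ ∃ o, rO (fun j => E (p + j)) o) := by
    intro A M rO rR hR E
    rw [hd]
    exact hR.domO _ _ fun j => rfl
  cases t with
  | var i =>
    obtain ⟨e, he⟩ := exists_ren (fun x => if x < ι.dO then σO i + x else p + (x - ι.dO)) ι.eqO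
    refine ⟨.and d e, ?_⟩
    intro A M rO rR hR v E hL
    have key : ∀ o, rO (fun j => E (p + j)) o → (e.Holds A E ↔ v.o i = o) := by
      intro o ho
      rw [he]
      refine hR.eqO _ (fun j => E (σO i + j)) (fun j => E (p + j)) _ _ ?_ ?_ (hL.1 i) ho
      · intro j
        simp only [if_pos j.2]
      · intro j
        have h1 : ¬ (ι.dO + (j : ℕ) < ι.dO) := by omega
        simp only [if_neg h1, Nat.add_sub_cancel_left]
    change (d.Holds A E ∧ e.Holds A E) ↔ rO _ (v.o i)
    rw [hd' A M rO rR hR]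
    constructor
    · rintro ⟨⟨o, ho⟩, h2⟩
      rw [(key o ho).1 h2]
      exact ho
    · intro h
      exact ⟨⟨_, h⟩, (key _ h).2 rfl⟩
  | ext i =>
    obtain ⟨e, he⟩ := exists_ren
      (fun x => if x < ι.dR 0 then σR 0 i + x else p + (x - ι.dR 0)) ι.ext
    refine ⟨.and d e, ?_⟩
    intro A M rO rR hR v E hL
    have key : ∀ o, rO (fun j => E (p + j)) o → (e.Holds A E ↔ M.ext (v.r 0 i) = o) := by
      intro o ho
      rw [he]
      refine hR.ext _ (fun j => E (σR 0 i + j)) (fun j => E (p + j)) _ _ ?_ ?_ (hL.2 0 i) ho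
      · intro j
        simp only [if_pos j.2]
      · intro j
        have h1 : ¬ (ι.dR 0 + (j : ℕ) < ι.dR 0) := by omega
        simp only [if_neg h1, Nat.add_sub_cancel_left]
    change (d.Holds A E ∧ e.Holds A E) ↔ rO _ (M.ext (v.r 0 i))
    rw [hd' A M rO rR hR]
    constructor
    · rintro ⟨⟨o, ho⟩, h2⟩
      rw [(key o ho).1 h2]
      exact ho
    · intro h
      exact ⟨⟨_, h⟩, (key _ h).2 rfl⟩

private theorem S6_main (ι : BLI) (φ : Fm) : ∀ (σO : ℕ → ℕ) (σR : ℕ → ℕ → ℕ), ∃ ψ : QFm,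
    ∀ (A : QStr) (M : Str.{0}) (rO : (Fin ι.dO → A.C) → M.Obj → Prop)
      (rR : ∀ n, (Fin (ι.dR n) → A.C) → M.Rel n → Prop), DefR ι A M rO rR →
    ∀ (v : Asg M) (E : ℕ → A.C), Lay ι A M rO rR σO σR v E → (ψ.Holds A E ↔ φ.Holds v) := by
  induction φ with
  | eq t s =>
    intro σO σR
    obtain ⟨a, ha⟩ := S6_tm ι t (fun i => σO i + ι.dO) (fun n i => σR n i + ι.dO) 0
    obtain ⟨b, hb⟩ := S6_tm ι s (fun i => σO i + ι.dO) (fun n i => σR n i + ι.dO) 0
    obtain ⟨ψ, hψ⟩ := exists_exN ι.dO (.and a b)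
    refine ⟨ψ, ?_⟩
    intro A M rO rR hR v E hL
    rw [hψ]
    have key : ∀ (w : Fin ι.dO → A.C), (QFm.and a b).Holds A (catE w E) ↔
        (rO w (t.val v) ∧ rO w (s.val v)) := by
      intro w
      have hw : (fun j : Fin ι.dO => catE w E (0 + j)) = w := by
        funext j
        rw [Nat.zero_add]
        exact S6_cat_lt w E j
      change (a.Holds A (catE w E) ∧ b.Holds A (catE w E)) ↔ _
      rw [ha A M rO rR hR v _ (hL.shift w), hb A M rO rR hR v _ (hL.shift w), hw]
    constructor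
    · rintro ⟨w, hw⟩
      obtain ⟨h1, h2⟩ := (key w).1 hw
      exact hR.fnO _ _ _ h1 h2
    · intro h
      obtain ⟨w, hw⟩ := hR.surO (t.val v)
      refine ⟨w, (key w).2 ⟨hw, ?_⟩⟩
      have h' : t.val v = s.val v := h
      rw [← h']
      exact hw
  | rel n i t =>
    intro σO σR
    have H : ∀ k : ℕ, ∃ ψ : QFm, ∀ (hk : k < n + 1) (A : QStr) (M : Str.{0})
        (rO : (Fin ι.dO → A.C) → M.Obj → Prop)
        (rR : ∀ n, (Fin (ι.dR n) → A.C) → M.Rel n → Prop), DefR ι A M rO rR →
        ∀ (v : Asg M) (E : ℕ → A.C), Lay ι A M rO rR (fun i => σO i + (n + 1) * ι.dO)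
          (fun m i => σR m i + (n + 1) * ι.dO) v E →
          (ψ.Holds A E ↔ rO (fun j => E (k * ι.dO + j)) ((t ⟨k, hk⟩).val v)) := by
      intro k
      by_cases hk : k < n + 1
      · obtain ⟨ψ, hψ⟩ := S6_tm ι (t ⟨k, hk⟩) (fun i => σO i + (n + 1) * ι.dO)
          (fun m i => σR m i + (n + 1) * ι.dO) (k * ι.dO)
        exact ⟨ψ, fun _ => hψ⟩
      · exact ⟨.eq .zero .zero, fun h => absurd h hk⟩
    choose f hf using H
    obtain ⟨g, hg⟩ := exists_andN (n + 1) f
    obtain ⟨e, he⟩ := exists_ren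
      (fun x => if x < ι.dR n then σR n i + (n + 1) * ι.dO + x else x - ι.dR n) (ι.app n)
    obtain ⟨ψ, hψ⟩ := exists_exN ((n + 1) * ι.dO) (.and g e)
    refine ⟨ψ, ?_⟩
    intro A M rO rR hR v E hL
    rw [hψ]
    have key : ∀ (w : Fin ((n + 1) * ι.dO) → A.C), (QFm.and g e).Holds A (catE w E) ↔
        ((∀ k : Fin (n + 1), rO (fun j => catE w E (k * ι.dO + j)) ((t k).val v)) ∧
          M.app (v.r n i) fun k => (t k).val v) := by
      intro w
      have h1 : g.Holds A (catE w E) ↔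
          ∀ k : Fin (n + 1), rO (fun j => catE w E (k * ι.dO + j)) ((t k).val v) := by
        rw [hg]
        constructor
        · intro h k
          exact (hf k k.2 A M rO rR hR v _ (hL.shift w)).1 (h k k.2)
        · intro h k hk
          exact (hf k hk A M rO rR hR v _ (hL.shift w)).2 (h ⟨k, hk⟩)
      change (g.Holds A (catE w E) ∧ e.Holds A (catE w E)) ↔ _
      rw [h1]
      refine and_congr_right fun h2 => ?_
      rw [he]
      refine hR.app n _ (fun j => catE w E (σR n i + (n + 1) * ι.dO + j))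
        (fun k j => catE w E (k * ι.dO + j)) _ _ ?_ ?_ ((hL.shift w).2 n i) h2
      · intro j
        simp only [if_pos j.2]
      · intro k j
        have h3 : ¬ (ι.dR n + (k : ℕ) * ι.dO + (j : ℕ) < ι.dR n) := by omega
        simp only [if_neg h3]
        congr 1
        omega
    constructor
    · rintro ⟨w, hw⟩
      exact ((key w).1 hw).2
    · intro h
      have h1 : ∀ k : Fin (n + 1), ∃ x, rO x ((t k).val v) := fun k => hR.surO _
      choose x hx using h1
      let w : Fin ((n + 1) * ι.dO) → A.C :=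
        fun a => x (finProdFinEquiv.symm a).1 (finProdFinEquiv.symm a).2
      refine ⟨w, (key w).2 ⟨fun k => ?_, h⟩⟩
      have h2 : (fun j : Fin ι.dO => catE w E (k * ι.dO + j)) = x k := by
        funext j
        have h3 : (k : ℕ) * ι.dO + (j : ℕ) = ((finProdFinEquiv (k, j) : Fin _) : ℕ) := by
          rw [finProdFinEquiv_apply_val]
          simp only
          rw [Nat.mul_comm, Nat.add_comm]
        rw [h3, S6_cat_lt w E]
        simp only [w, Equiv.symm_apply_apply]
      rw [h2]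
      exact hx k
  | neg φ ih =>
    intro σO σR
    obtain ⟨ψ, hψ⟩ := ih σO σR
    refine ⟨.neg ψ, ?_⟩
    intro A M rO rR hR v E hL
    exact not_congr (hψ A M rO rR hR v E hL)
  | and φ φ' ih ih' =>
    intro σO σR
    obtain ⟨ψ, hψ⟩ := ih σO σR
    obtain ⟨ψ', hψ'⟩ := ih' σO σR
    refine ⟨.and ψ ψ', ?_⟩
    intro A M rO rR hR v E hL
    exact and_congr (hψ A M rO rR hR v E hL) (hψ' A M rO rR hR v E hL)
  | ex φ ih =>
    intro σO σR
    obtain ⟨a, ha⟩ := ih (fun i => Nat.casesOn i 0 (fun i => σO i + ι.dO))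
      (fun n i => σR n i + ι.dO)
    obtain ⟨ψ, hψ⟩ := exists_exN ι.dO (.and ι.domO a)
    refine ⟨ψ, ?_⟩
    intro A M rO rR hR v E hL
    rw [hψ]
    have hlay : ∀ (w : Fin ι.dO → A.C) (o : M.Obj), rO w o →
        Lay ι A M rO rR (fun i => Nat.casesOn i 0 (fun i => σO i + ι.dO))
          (fun n i => σR n i + ι.dO) (v.consO o) (catE w E) := by
      intro w o ho
      refine ⟨fun i => ?_, fun n i => (hL.shift w).2 n i⟩
      cases i with
      | zero =>
        have hw : (fun j : Fin ι.dO => catE w E (0 + j)) = w := by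
          funext j
          rw [Nat.zero_add]
          exact S6_cat_lt w E j
        change rO (fun j : Fin ι.dO => catE w E (0 + j)) o
        rw [hw]
        exact ho
      | succ i => exact (hL.shift w).1 i
    have hdom : ∀ (w : Fin ι.dO → A.C), ι.domO.Holds A (catE w E) ↔ ∃ o, rO w o :=
      fun w => hR.domO _ _ fun j => S6_cat_lt w E j
    constructor
    · rintro ⟨w, h1, h2⟩
      obtain ⟨o, ho⟩ := (hdom w).1 h1
      exact ⟨o, (ha A M rO rR hR _ _ (hlay w o ho)).1 h2⟩
    · rintro ⟨o, ho⟩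
      obtain ⟨w, hw⟩ := hR.surO o
      exact ⟨w, (hdom w).2 ⟨o, hw⟩, (ha A M rO rR hR _ _ (hlay w o hw)).2 ho⟩
  | exR m φ ih =>
    intro σO σR
    obtain ⟨a, ha⟩ := ih (fun i => σO i + ι.dR m)
      (Function.update (fun n i => σR n i + ι.dR m) m
        (fun i => Nat.casesOn i 0 (fun i => σR m i + ι.dR m)))
    obtain ⟨ψ, hψ⟩ := exists_exN (ι.dR m) (.and (ι.domR m) a)
    refine ⟨ψ, ?_⟩
    intro A M rO rR hR v E hL
    rw [hψ]
    have hlay : ∀ (w : Fin (ι.dR m) → A.C) (R : M.Rel m), rR m w R →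
        Lay ι A M rO rR (fun i => σO i + ι.dR m)
          (Function.update (fun n i => σR n i + ι.dR m) m
            (fun i => Nat.casesOn i 0 (fun i => σR m i + ι.dR m))) (v.consR m R) (catE w E) := by
      intro w R hR'
      refine ⟨fun i => (hL.shift w).1 i, fun n i => ?_⟩
      by_cases hn : n = m
      · subst hn
        simp only [Asg.consR, Function.update_self]
        cases i with
        | zero =>
          have hw : (fun j : Fin (ι.dR n) => catE w E (0 + j)) = w := by
            funext j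
            rw [Nat.zero_add]
            exact S6_cat_lt w E j
          change rR n (fun j : Fin (ι.dR n) => catE w E (0 + j)) R
          rw [hw]
          exact hR'
        | succ i => exact (hL.shift w).2 n i
      · simp only [Asg.consR, Function.update_of_ne hn]
        exact (hL.shift w).2 n i
    have hdom : ∀ (w : Fin (ι.dR m) → A.C), (ι.domR m).Holds A (catE w E) ↔ ∃ R, rR m w R :=
      fun w => hR.domR m _ _ fun j => S6_cat_lt w E j
    constructor
    · rintro ⟨w, h1, h2⟩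
      obtain ⟨R, hR'⟩ := (hdom w).1 h1
      exact ⟨R, (ha A M rO rR hR _ _ (hlay w R hR')).1 h2⟩
    · rintro ⟨R, hR'⟩
      obtain ⟨w, hw⟩ := hR.surR m R
      exact ⟨w, (hdom w).2 ⟨R, hw⟩, (ha A M rO rR hR _ _ (hlay w R hw)).2 hR'⟩

theorem exists_trB (ι : BLI) (φ : Fm) : ∀ (σO : ℕ → ℕ) (σR : ℕ → ℕ → ℕ), ∃ ψ : QFm,
    ∀ (A : QStr) (M : Str.{0}) (rO : (Fin ι.dO → A.C) → M.Obj → Prop)
      (rR : ∀ n, (Fin (ι.dR n) → A.C) → M.Rel n → Prop), DefR ι A M rO rR →
    ∀ (v : Asg M) (E : ℕ → A.C), (∀ i, rO (fun j => E (σO i + j)) (v.o i)) →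
      (∀ n i, rR n (fun j => E (σR n i + j)) (v.r n i)) → (ψ.Holds A E ↔ φ.Holds v) := by
  intro σO σR
  obtain ⟨ψ, hψ⟩ := S6_main ι φ σO σR
  exact ⟨ψ, fun A M rO rR hR v E h1 h2 => hψ A M rO rR hR v E ⟨h1, h2⟩⟩

end Pool.Agent.Work.MP_de7025_lc.F
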