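import Pool.Agent.Work.MP_de7025_lc.F.S6

set_option autoImplicit false

/-!
# F/S7 (M): closing the formula

PROOF. `S n := r * dO + ∑ k < n, (dR k + 1)` (blocks padded by one, so that `n ≤ S n` and the positions `S n + j`, `j < dR n`, are pairwise different for different `(n, j)` and all `≥ r * dO`).
Apply `exists_trB` with the layout `σO i = i * dO` for `i < r`, `σO i = 0` for `i ≥ r`, and `σR n i = S n` for all `i`. Let `ψ` be the formula obtained, `m` its bound (`exists_bd`), so all positions `< m` are `< S m`; `T := ∑ k < m, (dR k + 1)`.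
`χ` := `∃ w : Fin T → A.C` (`exists_exN`) of (`domR n` at the block at `S n` for all `n < m` (`exists_andN`) and `ψ`), renamed (`exists_ren`) by `p ↦ T + p` for `p < r * dO`, `p ↦ p - r * dO` for `p ≥ r * dO`: so the blocks of the sorts `n < m` are read from `w`, the object blocks from `E`.
If `χ` holds at `E`, with `w`: the blocks for `n < m` represent relations `R_n` (`domR`); for `n ≥ m` take any `R_n` (`Str.neR`) and a tuple representing it (`surR`). Let `E'` agree with `E` below `r * dO`, with `w` (`p ↦ w (p - r * dO)`) on `r * dO ≤ p < S m`, and have the chosen tuples in the blocks `n ≥ m`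
(`Function.extend` of the injective map `(n, j) ↦ S n + j`, or `Nat.find`). `ψ` holds at `E'` since `E'` agrees below `m`. With `v.o i = o i` for `i < r`, `o 0` for `i ≥ r` and `v.r n i = R_n`: `φ.Holds v`, hence `X`. Conversely, if `X`, choose all `R_n` and tuples arbitrarily: `φ.Holds v`, so `ψ` at `E'`, and `w` is read off from `E'`.
-/

namespace Pool.Agent.Work.MP_de7025_lc.F

private def S7_S (ι : BLI) (r : ℕ) : ℕ → ℕ
  | 0 => r * ι.dO
  | n + 1 => S7_S ι r n + ι.dR n + 1

private theorem S7_step (ι : BLI) (r : ℕ) {n k : ℕ} (h : n < k) :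
    S7_S ι r n + ι.dR n + 1 ≤ S7_S ι r k := by
  induction k with
  | zero => omega
  | succ k ih =>
    rcases Nat.lt_succ_iff_lt_or_eq.1 h with h1 | h1
    · have := ih h1
      simp only [S7_S]
      omega
    · subst h1
      simp only [S7_S]
      omega

private theorem S7_mono (ι : BLI) (r : ℕ) {n k : ℕ} (h : n ≤ k) : S7_S ι r n ≤ S7_S ι r k := by
  rcases Nat.lt_or_eq_of_le h with h1 | h1
  · have := S7_step ι r h1
    omega
  · rw [h1]

private theorem S7_le (ι : BLI) (r : ℕ) (n : ℕ) : n ≤ S7_S ι r n := by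
  induction n with
  | zero => omega
  | succ n ih =>
    simp only [S7_S]
    omega

private noncomputable def S7_E (ι : BLI) (r : ℕ) {C : Type} (E D : ℕ → C)
    (tup : ∀ n, Fin (ι.dR n) → C) (p : ℕ) : C :=
  if p < S7_S ι r 0 then E p else
    if h : p - S7_S ι r (Nat.findGreatest (fun n => S7_S ι r n ≤ p) p) <
        ι.dR (Nat.findGreatest (fun n => S7_S ι r n ≤ p) p) then tup _ ⟨_, h⟩ else D p

private theorem S7_E_lt (ι : BLI) (r : ℕ) {C : Type} (E D : ℕ → C)
    (tup : ∀ n, Fin (ι.dR n) → C) {p : ℕ} (h : p < r * ι.dO) : S7_E ι r E D tup p = E p := by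
  have h' : p < S7_S ι r 0 := h
  unfold S7_E
  rw [if_pos h']

private theorem S7_E_blk (ι : BLI) (r : ℕ) {C : Type} (E D : ℕ → C)
    (tup : ∀ n, Fin (ι.dR n) → C) (n : ℕ) (j : Fin (ι.dR n)) :
    S7_E ι r E D tup (S7_S ι r n + j) = tup n j := by
  have h0 : S7_S ι r 0 ≤ S7_S ι r n := S7_mono ι r (Nat.zero_le n)
  have h1 : Nat.findGreatest (fun k => S7_S ι r k ≤ S7_S ι r n + j) (S7_S ι r n + j) = n := by
    rw [Nat.findGreatest_eq_iff]
    refine ⟨?_, fun _ => Nat.le_add_right _ _, ?_⟩
    · have := S7_le ι r n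
      omega
    · intro k hk _ h2
      have := S7_step ι r hk
      have := j.2
      omega
  have key : ∀ N, N = n → ∀ (y : C), (if h : S7_S ι r n + j - S7_S ι r N < ι.dR N then
      tup N ⟨_, h⟩ else y) = tup n j := by
    rintro N rfl y
    have h2 : S7_S ι r N + (j : ℕ) - S7_S ι r N < ι.dR N := by
      have := j.2
      omega
    rw [dif_pos h2]
    congr 1
    apply Fin.ext
    simp
  unfold S7_E
  rw [if_neg (by omega)]
  exact key _ h1 _

private theorem S7_E_eq (ι : BLI) (r : ℕ) {C : Type} (E D : ℕ → C)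
    (tup : ∀ n, Fin (ι.dR n) → C) (F : ℕ → C) {m p : ℕ} (h0 : r * ι.dO ≤ p)
    (hp : p < S7_S ι r m) (hD : D p = F p)
    (ht : ∀ n, n < m → ∀ j : Fin (ι.dR n), tup n j = F (S7_S ι r n + j)) :
    S7_E ι r E D tup p = F p := by
  have h1 : S7_S ι r (Nat.findGreatest (fun n => S7_S ι r n ≤ p) p) ≤ p :=
    Nat.findGreatest_spec (P := fun n => S7_S ι r n ≤ p) (m := 0) (Nat.zero_le _) h0
  have h2 : Nat.findGreatest (fun n => S7_S ι r n ≤ p) p < m := by
    by_contra hc
    have := S7_mono ι r (Nat.le_of_not_lt hc)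
    omega
  unfold S7_E
  rw [if_neg (by
    change ¬ p < r * ι.dO
    omega)]
  by_cases h : p - S7_S ι r (Nat.findGreatest (fun n => S7_S ι r n ≤ p) p) <
      ι.dR (Nat.findGreatest (fun n => S7_S ι r n ≤ p) p)
  · rw [dif_pos h, ht _ h2]
    congr 1
    simp only
    omega
  · rw [dif_neg h, hD]

private theorem S7_cat_ge {C : QStr} {m : ℕ} (w : Fin m → C.C) (E : ℕ → C.C) (p : ℕ) :
    catE w E (m + p) = E p := by
  unfold catE
  rw [dif_neg (by omega)]
  congr 1
  omega

private theorem S7_cat_lt {C : QStr} {m : ℕ} (w : Fin m → C.C) (E : ℕ → C.C) {i : ℕ} (h : i < m) :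
    catE w E i = w ⟨i, h⟩ := by
  unfold catE
  rw [dif_pos h]

theorem exists_closed (ι : BLI) (φ : Fm) (r : ℕ) (hr : 1 ≤ r) : ∃ χ : QFm,
    ∀ (A : QStr) (M : Str.{0}) (rO : (Fin ι.dO → A.C) → M.Obj → Prop)
      (rR : ∀ n, (Fin (ι.dR n) → A.C) → M.Rel n → Prop), DefR ι A M rO rR →
    ∀ (E : ℕ → A.C) (o : ℕ → M.Obj) (X : Prop),
      (∀ k, k < r → rO (fun j => E (k * ι.dO + j)) (o k)) →
      (∀ v : Asg M, (∀ k, k < r → v.o k = o k) → (φ.Holds v ↔ X)) → (χ.Holds A E ↔ X) := by
  obtain ⟨ψ, hψ⟩ := exists_trB ι φ (fun i => if i < r then i * ι.dO else 0)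
    (fun n _ => S7_S ι r n)
  obtain ⟨m, hm⟩ := exists_bd ψ
  have H : ∀ n : ℕ, ∃ f : QFm, ∀ (A : QStr) (E : ℕ → A.C),
      f.Holds A E ↔ (ι.domR n).Holds A (fun x => E (S7_S ι r n - r * ι.dO + x)) :=
    fun n => exists_ren _ _
  choose f hf using H
  obtain ⟨g, hg⟩ := exists_andN m f
  obtain ⟨e, he⟩ := exists_ren
    (fun p => if p < r * ι.dO then (S7_S ι r m - r * ι.dO) + p else p - r * ι.dO) ψ
  obtain ⟨χ, hχ⟩ := exists_exN (S7_S ι r m - r * ι.dO) (.and g e)
  refine ⟨χ, ?_⟩
  intro A M rO rR hR E o X hE hX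
  rw [hχ]
  have hmS : m ≤ S7_S ι r m := S7_le ι r m
  have hS0 : ∀ n, r * ι.dO ≤ S7_S ι r n := fun n => S7_mono ι r (Nat.zero_le n)
  -- the main equivalence for all full assignments
  have main : ∀ (D : ℕ → A.C) (tup : ∀ n, Fin (ι.dR n) → A.C) (R : ∀ n, M.Rel n),
      (∀ n, rR n (tup n) (R n)) → (ψ.Holds A (S7_E ι r E D tup) ↔ X) := by
    intro D tup R ht
    have h1 : ∀ k, k < r → ∀ j : Fin ι.dO,
        S7_E ι r E D tup (k * ι.dO + j) = E (k * ι.dO + j) := by
      intro k hk j
      apply S7_E_lt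
      calc k * ι.dO + (j : ℕ) < k * ι.dO + ι.dO := Nat.add_lt_add_left j.2 _
        _ = (k + 1) * ι.dO := by rw [Nat.succ_mul]
        _ ≤ r * ι.dO := Nat.mul_le_mul_right _ hk
    have h2 := hψ A M rO rR hR ⟨fun i => if i < r then o i else o 0, fun n _ => R n⟩
      (S7_E ι r E D tup) ?_ ?_
    · rw [h2]
      exact hX _ fun k hk => if_pos hk
    · intro i
      by_cases hi : i < r
      · simp only [if_pos hi]
        have h3 : (fun j : Fin ι.dO => S7_E ι r E D tup (i * ι.dO + j)) =
            fun j : Fin ι.dO => E (i * ι.dO + j) := funext (h1 i hi)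
        rw [h3]
        exact hE i hi
      · simp only [if_neg hi]
        have h3 : (fun j : Fin ι.dO => S7_E ι r E D tup (0 + j)) =
            fun j : Fin ι.dO => E (0 * ι.dO + j) := by
          funext j
          have := h1 0 (by omega) j
          simpa only [Nat.zero_mul] using this
        rw [h3]
        exact hE 0 (by omega)
    · intro n i
      have h3 : (fun j : Fin (ι.dR n) => S7_E ι r E D tup (S7_S ι r n + j)) = tup n :=
        funext fun j => S7_E_blk ι r E D tup n j
      simp only [h3]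
      exact ht n
  constructor
  · rintro ⟨w, h1, h2⟩
    rw [hg] at h1
    rw [he] at h2
    set F : ℕ → A.C := fun p => catE w E (p - r * ι.dO) with hF
    have h3 : ∀ n, ∃ (t : Fin (ι.dR n) → A.C) (R : M.Rel n), rR n t R ∧
        (n < m → ∀ j : Fin (ι.dR n), t j = F (S7_S ι r n + j)) := by
      intro n
      by_cases hn : n < m
      · have h4 := (hf n A _).1 (h1 n hn)
        obtain ⟨R, hR'⟩ := (hR.domR n _ (fun j => catE w E (S7_S ι r n - r * ι.dO + j))
          fun j => rfl).1 h4
        refine ⟨_, R, hR', fun _ j => ?_⟩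
        simp only [hF]
        congr 1
        have := hS0 n
        omega
      · obtain ⟨R⟩ := M.neR n
        obtain ⟨t, ht⟩ := hR.surR n R
        exact ⟨t, R, ht, fun h => absurd h hn⟩
    choose tup R ht ht' using h3
    have h5 := main F tup R ht
    rw [← h5]
    rw [hm A (S7_E ι r E F tup) _ ?_]
    · exact h2
    · intro p hp
      by_cases hp0 : p < r * ι.dO
      · simp only [if_pos hp0]
        rw [S7_E_lt ι r E F tup hp0, S7_cat_ge w E]
      · simp only [if_neg hp0]
        exact S7_E_eq ι r E F tup F (m := m) (by omega) (by omega) rfl ht'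
  · intro hXX
    have h3 : ∀ n, ∃ (t : Fin (ι.dR n) → A.C) (R : M.Rel n), rR n t R := by
      intro n
      obtain ⟨R⟩ := M.neR n
      obtain ⟨t, ht⟩ := hR.surR n R
      exact ⟨t, R, ht⟩
    choose tup R ht using h3
    have h5 := (main E tup R ht).2 hXX
    refine ⟨fun a => S7_E ι r E E tup (r * ι.dO + a), ?_, ?_⟩
    · rw [hg]
      intro n hn
      rw [hf]
      refine (hR.domR n _ (tup n) fun j => ?_).2 ⟨R n, ht n⟩
      have h6 := S7_step ι r hn
      have h7 := hS0 n
      have h8 := j.2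
      have h9 : S7_S ι r n - r * ι.dO + (j : ℕ) < S7_S ι r m - r * ι.dO := by omega
      rw [S7_cat_lt _ _ h9]
      rw [← S7_E_blk ι r E E tup n j]
      simp only
      congr 1
      omega
    · rw [he]
      rw [hm A _ (S7_E ι r E E tup) ?_]
      · exact h5
      · intro p hp
        by_cases hp0 : p < r * ι.dO
        · simp only [if_pos hp0]
          rw [S7_E_lt ι r E E tup hp0, S7_cat_ge]
        · simp only [if_neg hp0]
          have h9 : p - r * ι.dO < S7_S ι r m - r * ι.dO := by omega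
          rw [S7_cat_lt _ _ h9]
          simp only
          congr 1
          omega

end Pool.Agent.Work.MP_de7025_lc.F
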