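import Pool.Agent.Work.MP_de7025_lc.F.U2
import Pool.Agent.Work.MP_de7025_lc.F.E4

/-!
# F/T1 (M): truth lemma

PROOF. Let `K = tabStr T H h`. By induction on `t ∈ L` (subterms are in `L`): `t.eval K a b ↔ T t.code a b`. Atoms: definition. `nand`, `conv`: the clauses of `tmCl t` (if not, an assignment of the nine variables violates a clause; variables `0, 1` are `a, b`, the others
anything in `H`, for instance `a`). `comp u v`: `→`: the clause `- t 0 1, + u 0 2, + v 2 1`; `←`: `Tab.ans` for `k = t.code` with the element `W t.code a b` of `H` (`hW`): `Ans` gives `D false t a b` (impossible) or the two facts.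
`UAx`: `uni` from `Tab.ok` (`axCl`; atoms are in `L`). `tot`: `Tab.ans` for `k = kf i` (`kf i ∈ Reqs L` for `i = 1, ..., 6`), `pair`: `k = kp`, `pred`: `k = kd`.
-/

set_option autoImplicit false

namespace Pool.Agent.Work.MP_de7025_lc.F

private theorem t1_atoms : ∀ cl ∈ axCl, ∀ f ∈ cl, ∃ i : Fin 7, f.t = RT.atom i := by
  decide

theorem tab_truth {N : Type} [Add N] [Mul N] [One N] [NatCast N] {L : List RT} (hL : Closed L)
    {T : N → N → N → Prop} {H : N → Prop} (h : ∃ a, H a) (hT : Tab L T H)
    (hW : ∀ k ∈ Reqs L, ∀ a b, H a → H b → H (W (k : N) a b)) :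
    UAx (tabStr T H h) ∧ ∀ t ∈ L, ∀ a b : (tabStr T H h).C,
      t.eval (tabStr T H h) a b ↔ T (t.code : N) a.1 b.1 := by
  classical
  have hcl : ∀ t ∈ L, ∀ cl ∈ tmCl t, ¬ Viol (sg T) H cl := by
    intro t ht cl hc
    exact hT.ok cl (List.mem_append_right _ (List.mem_flatMap.2 ⟨t, ht, hc⟩))
  have htruth : ∀ t ∈ L, ∀ a b : (tabStr T H h).C,
      t.eval (tabStr T H h) a b ↔ T (t.code : N) a.1 b.1 := by
    intro t
    induction t with
    | atom i =>
      intro _ a b
      exact Iff.rfl
    | nand u v ihu ihv =>
      intro ht a b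
      obtain ⟨hu, hv⟩ := hL.nandL u v ht
      have e1 := ihu hu a b
      have e2 := ihv hv a b
      show ¬ (u.eval (tabStr T H h) a b ∧ v.eval (tabStr T H h) a b) ↔ _
      rw [e1, e2]
      have hH : ∀ i : Fin 9, H ((fun i : Fin 9 => if i = 0 then a.1 else b.1) i) := by
        intro i
        show H (if i = 0 then a.1 else b.1)
        split_ifs
        · exact a.2
        · exact b.2
      constructor
      · intro h1
        by_contra h2
        apply h1
        constructor
        · by_contra h3
          refine hcl _ ht [⟨false, .nand u v, 0, 1⟩, ⟨false, u, 0, 1⟩] (by simp [tmCl])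
            ⟨fun i => if i = 0 then a.1 else b.1, hH, ?_⟩
          intro f hf
          simp only [List.mem_cons, List.not_mem_nil, or_false] at hf
          rcases hf with rfl | rfl
          · exact h2
          · exact h3
        · by_contra h3
          refine hcl _ ht [⟨false, .nand u v, 0, 1⟩, ⟨false, v, 0, 1⟩] (by simp [tmCl])
            ⟨fun i => if i = 0 then a.1 else b.1, hH, ?_⟩
          intro f hf
          simp only [List.mem_cons, List.not_mem_nil, or_false] at hf
          rcases hf with rfl | rfl
          · exact h2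
          · exact h3
      · rintro h1 ⟨h2, h3⟩
        refine hcl _ ht [⟨true, .nand u v, 0, 1⟩, ⟨true, u, 0, 1⟩, ⟨true, v, 0, 1⟩] (by simp [tmCl])
          ⟨fun i => if i = 0 then a.1 else b.1, hH, ?_⟩
        intro f hf
        simp only [List.mem_cons, List.not_mem_nil, or_false] at hf
        rcases hf with rfl | rfl | rfl
        · exact h1
        · exact h2
        · exact h3
    | comp u v ihu ihv =>
      intro ht a b
      obtain ⟨hu, hv⟩ := hL.compL u v ht
      show (∃ c, u.eval (tabStr T H h) a c ∧ v.eval (tabStr T H h) c b) ↔ _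
      constructor
      · rintro ⟨c, h1, h2⟩
        by_contra h3
        rw [ihu hu] at h1
        rw [ihv hv] at h2
        refine hcl _ ht [⟨false, .comp u v, 0, 1⟩, ⟨true, u, 0, 2⟩, ⟨true, v, 2, 1⟩]
          (by simp [tmCl])
          ⟨fun i => if i = 0 then a.1 else if i = 1 then b.1 else c.1, ?_, ?_⟩
        · intro i
          show H (if i = 0 then a.1 else if i = 1 then b.1 else c.1)
          split_ifs
          · exact a.2
          · exact b.2
          · exact c.2
        · intro f hf
          simp only [List.mem_cons, List.not_mem_nil, or_false] at hf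
          rcases hf with rfl | rfl | rfl
          · exact h3
          · exact h1
          · exact h2
      · intro h1
        have hk : (RT.comp u v).code ∈ Reqs L :=
          List.mem_append_left _ (List.mem_map.2 ⟨_, ht, rfl⟩)
        have h2 := hW _ hk a.1 b.1 a.2 b.2
        rcases (hT.ans _ hk a.1 b.1 a.2 b.2 h2).1 _ ht rfl with h3 | ⟨-, h3⟩
        · exact absurd h1 h3
        · obtain ⟨h4, h5⟩ := h3 u v rfl
          exact ⟨⟨_, h2⟩, (ihu hu _ _).2 h4, (ihv hv _ _).2 h5⟩
    | conv u ihu =>
      intro ht a b
      have hu := hL.convL u ht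
      show u.eval (tabStr T H h) b a ↔ _
      rw [ihu hu]
      have hH : ∀ i : Fin 9, H ((fun i : Fin 9 => if i = 0 then a.1 else b.1) i) := by
        intro i
        show H (if i = 0 then a.1 else b.1)
        split_ifs
        · exact a.2
        · exact b.2
      constructor
      · intro h1
        by_contra h2
        refine hcl _ ht [⟨false, .conv u, 0, 1⟩, ⟨true, u, 1, 0⟩] (by simp [tmCl])
          ⟨fun i => if i = 0 then a.1 else b.1, hH, ?_⟩
        intro f hf
        simp only [List.mem_cons, List.not_mem_nil, or_false] at hf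
        rcases hf with rfl | rfl
        · exact h2
        · exact h1
      · intro h1
        by_contra h2
        refine hcl _ ht [⟨true, .conv u, 0, 1⟩, ⟨false, u, 1, 0⟩] (by simp [tmCl])
          ⟨fun i => if i = 0 then a.1 else b.1, hH, ?_⟩
        intro f hf
        simp only [List.mem_cons, List.not_mem_nil, or_false] at hf
        rcases hf with rfl | rfl
        · exact h1
        · exact h2
  refine ⟨⟨?_, ?_, ?_, ?_⟩, htruth⟩
  · rintro cl hc ⟨v, -, hv⟩
    refine hT.ok cl (List.mem_append_left _ hc) ⟨fun i => (v i).1, fun i => (v i).2, ?_⟩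
    intro f hf
    obtain ⟨i, hi⟩ := t1_atoms cl hc f hf
    have h1 := hv f hf
    have h2 := htruth f.t (by rw [hi]; exact hL.atoms i) (v f.i) (v f.j)
    rcases hs : f.s with _ | _
    · rw [hs] at h1
      have h3 : ¬ f.t.eval (tabStr T H h) (v f.i) (v f.j) := by simpa using h1
      show ¬ _
      rw [← h2]
      exact h3
    · rw [hs] at h1
      have h3 : f.t.eval (tabStr T H h) (v f.i) (v f.j) := by simpa using h1
      exact h2.1 h3
  · intro i hi a
    have hk : kf i.val ∈ Reqs L := by
      refine List.mem_append_right _ ?_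
      fin_cases i
      · exact absurd rfl hi
      all_goals simp
    have h2 := hW _ hk a.1 a.1 a.2 a.2
    have h3 := (hT.ans _ hk a.1 a.1 a.2 a.2 h2).2.1 i hi rfl
    exact ⟨⟨_, h2⟩, h3⟩
  · intro a b
    have hk : kp ∈ Reqs L := List.mem_append_right _ (by simp)
    have h2 := hW _ hk a.1 b.1 a.2 b.2
    obtain ⟨h3, h4⟩ := (hT.ans _ hk a.1 b.1 a.2 b.2 h2).2.2.1 rfl
    exact ⟨⟨_, h2⟩, h3, h4⟩
  · intro a
    have hk : kd ∈ Reqs L := List.mem_append_right _ (by simp)
    have h2 := hW _ hk a.1 a.1 a.2 a.2
    rcases (hT.ans _ hk a.1 a.1 a.2 a.2 h2).2.2.2 rfl with h3 | h3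
    · exact Or.inl h3
    · exact Or.inr ⟨⟨_, h2⟩, h3⟩

end Pool.Agent.Work.MP_de7025_lc.F
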