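import Pool.Agent.Work.MP_de7025_lc.F.U2
import Pool.Agent.Work.MP_de7025_lc.F.E4

set_option autoImplicit false

/-!
# F/T3 (M): tables of a real structure; numerals in named structures

PROOF of `henkin`. Define `ν : ℕ → K.C` by strong recursion: `ν 0` arbitrary. If `n = 1 + pr k (pr a b)` with `k ∈ Reqs L` (then `k, a, b` are unique by `pr_inj_nat`, and `a, b < n`), `ν n` is chosen as an element `c` with: if `k = t.code`, `t = comp u v ∈ L` and
`t.eval K (ν a) (ν b)`: `u (ν a) c` and `v c (ν b)`; if `k = kf i`, `i = 1..6`: `R i (ν a) c`; if `k = kp`: `R 1 c (ν a) ∧ R 2 c (ν b)`; if `k = kd`: `R 3 (ν a) (ν a)` or `R 4 c (ν a)` (`UAx`). Otherwise arbitrary. (Existence of the whole `ν`: `Nat.strongRec` or a general lemma: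
if for every `n` and every `f : ℕ → K.C` there is `c` with `Q n f c`, where `Q n f c` depends only on the values of `f` below `n`, then there is `f` with `Q n f (f n)` for all `n`.) `T k a b := ∃ t ∈ L, t.code = k ∧ t.eval K (ν a) (ν b)` (`code_inj`).
`num_step`: `(tZ J).eval K x y` is true for all `x, y` (`DefU.ex`, `eval_one`, `eval_diag`); so `T (tZ J).code a b` and `Tab.ans` gives `T (z1 J).code c b` for `c = W (tZ J).code a b`; `z1 J ∈ L` (`Closed.compL`), so `(z1 J).eval K (ν c) (ν b)`, i.e. `ν c` is in the domain and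
represents zero. The second statement in the same way with `tS J`.
-/

namespace Pool.Agent.Work.MP_de7025_lc.F

private theorem exists_rec {X : Type} [Nonempty X] (P : ℕ → (ℕ → X) → X → Prop)
    (hloc : ∀ n f g c, (∀ m < n, f m = g m) → P n f c → P n g c)
    (hex : ∀ n f, ∃ c, P n f c) : ∃ f : ℕ → X, ∀ n, P n f (f n) := by
  classical
  choose step hstep using hex
  obtain ⟨x0⟩ := ‹Nonempty X›
  let F : (n : ℕ) → ((m : ℕ) → m < n → X) → X :=
    fun n ih => step n (fun m => if h : m < n then ih m h else x0)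
  let ν : ℕ → X := fun n => WellFounded.fix Nat.lt_wfRel.wf F n
  have hν : ∀ n, ν n = step n (fun m => if m < n then ν m else x0) := by
    intro n
    have h1 : ν n = F n (fun m _ => ν m) := WellFounded.fix_eq Nat.lt_wfRel.wf F n
    rw [h1]
    show step n _ = _
    congr 1
  refine ⟨ν, fun n => ?_⟩
  have h2 := hstep n (fun m => if m < n then ν m else x0)
  rw [← hν n] at h2
  refine hloc n _ _ _ (fun m hm => ?_) h2
  rw [if_pos hm]

private theorem lt_W_left (k a b : ℕ) : a < W k a b := by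
  have h1 := le_pr_left_nat a b
  have h2 := le_pr_right_nat k (pr a b)
  unfold W
  omega

private theorem lt_W_right (k a b : ℕ) : b < W k a b := by
  have h1 := le_pr_right_nat a b
  have h2 := le_pr_right_nat k (pr a b)
  unfold W
  omega

private theorem W_inj {k a b k' a' b' : ℕ} (h : W k a b = W k' a' b') : k = k' ∧ a = a' ∧ b = b' := by
  unfold W at h
  obtain ⟨h1, h2⟩ := pr_inj_nat (Nat.add_left_cancel h)
  exact ⟨h1, pr_inj_nat h2⟩

/-- the element `c` answers the request `k` at `(x, y)` -/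
private def Gd (L : List RT) (K : UStr) (k : ℕ) (x y c : K.C) : Prop :=
  (∀ u v, .comp u v ∈ L → (RT.comp u v).code = k → (RT.comp u v).eval K x y →
    u.eval K x c ∧ v.eval K c y) ∧
  (∀ i : Fin 7, i ≠ 0 → k = kf i.val → K.R i x c) ∧
  (k = kp → K.R 1 c x ∧ K.R 2 c y) ∧
  (k = kd → K.R 3 x x ∨ K.R 4 c x)

private theorem gd_ex (L : List RT) {K : UStr} (hK : UAx K) (k : ℕ) (x y : K.C) :
    ∃ c, Gd L K k x y c := by
  by_cases h1 : ∃ u v, .comp u v ∈ L ∧ (RT.comp u v).code = k ∧ (RT.comp u v).eval K x y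
  · obtain ⟨u, v, -, rfl, c, hu, hv⟩ := h1
    refine ⟨c, fun u' v' _ e _ => ?_, fun i _ e => ?_, fun e => ?_, fun e => ?_⟩
    · have e1 := code_inj e
      injection e1 with e2 e3
      rw [e2, e3]
      exact ⟨hu, hv⟩
    · exact absurd e (code_ne_kf _ _)
    · exact absurd e (code_ne_kp _)
    · exact absurd e (code_ne_kd _)
  · have h2 : ∀ c : K.C, ∀ u v, .comp u v ∈ L → (RT.comp u v).code = k →
        (RT.comp u v).eval K x y → u.eval K x c ∧ v.eval K c y :=
      fun c u v a1 a2 a3 => absurd ⟨u, v, a1, a2, a3⟩ h1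
    by_cases h3 : ∃ i : Fin 7, i ≠ 0 ∧ k = kf i.val
    · obtain ⟨i, hi, rfl⟩ := h3
      obtain ⟨c, hc⟩ := hK.tot i hi x
      refine ⟨c, h2 c, fun j _ e => ?_, fun e => ?_, fun e => ?_⟩
      · rw [← Fin.ext (kf_inj e)]
        exact hc
      · exact absurd e (kf_ne_kp _)
      · exact absurd e (kf_ne_kd _)
    · have h4 : ∀ c : K.C, ∀ i : Fin 7, i ≠ 0 → k = kf i.val → K.R i x c :=
        fun c i a1 a2 => absurd ⟨i, a1, a2⟩ h3
      by_cases h5 : k = kp
      · obtain ⟨c, hc⟩ := hK.pair x y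
        refine ⟨c, h2 c, h4 c, fun _ => hc, fun e => ?_⟩
        rw [h5] at e
        exact absurd e kp_ne_kd
      · rcases hK.pred x with h6 | ⟨c, hc⟩
        · exact ⟨x, h2 x, h4 x, fun e => absurd e h5, fun _ => Or.inl h6⟩
        · exact ⟨c, h2 c, h4 c, fun e => absurd e h5, fun _ => Or.inr hc⟩

private theorem ax_atoms : ∀ cl ∈ axCl, ∀ f ∈ cl, ∃ i, f.t = .atom i := by
  simp [axCl, pp, mm]

theorem henkin {L : List RT} (hL : Closed L) (K : UStr) (hK : UAx K) :
    ∃ (T : ℕ → ℕ → ℕ → Prop) (ν : ℕ → K.C), Tab L T (fun _ => True) ∧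
      ∀ t ∈ L, ∀ a b, T t.code a b ↔ t.eval K (ν a) (ν b) := by
  have := K.ne
  obtain ⟨ν, hν⟩ := exists_rec (X := K.C)
    (fun n f c => ∀ k a b, n = W k a b → Gd L K k (f a) (f b) c)
    (by
      intro n f g c hfg h k a b e
      have ha : a < n := by rw [e]; exact lt_W_left k a b
      have hb : b < n := by rw [e]; exact lt_W_right k a b
      rw [← hfg a ha, ← hfg b hb]
      exact h k a b e)
    (by
      intro n f
      by_cases h : ∃ k a b, n = W k a b
      · obtain ⟨k, a, b, rfl⟩ := h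
        obtain ⟨c, hc⟩ := gd_ex L hK k (f a) (f b)
        refine ⟨c, fun k' a' b' e => ?_⟩
        obtain ⟨e1, e2, e3⟩ := W_inj e
        rw [← e1, ← e2, ← e3]
        exact hc
      · obtain ⟨c⟩ := K.ne
        exact ⟨c, fun k a b e => absurd ⟨k, a, b, e⟩ h⟩)
  let T : ℕ → ℕ → ℕ → Prop := fun k a b => ∃ t ∈ L, t.code = k ∧ t.eval K (ν a) (ν b)
  have hT : ∀ t ∈ L, ∀ a b, T t.code a b ↔ t.eval K (ν a) (ν b) := by
    intro t ht a b
    constructor
    · rintro ⟨t', -, e, h⟩
      rwa [code_inj e] at h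
    · intro h
      exact ⟨t, ht, rfl, h⟩
  have hD : ∀ s, ∀ t ∈ L, ∀ a b, sg T s t a b ↔
      if s = true then t.eval K (ν a) (ν b) else ¬ t.eval K (ν a) (ν b) := by
    intro s t ht a b
    cases s with
    | true => rw [if_pos rfl]; exact hT t ht a b
    | false =>
      rw [if_neg Bool.false_ne_true]
      exact not_congr (hT t ht a b)
  have hDt : ∀ t ∈ L, ∀ a b, t.eval K (ν a) (ν b) → sg T true t a b :=
    fun t ht a b h => (hT t ht a b).2 h
  refine ⟨T, ν, ⟨fun cl hcl => ?_, fun k hk a b _ _ _ => ?_⟩, hT⟩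
  · rintro ⟨v, -, hv⟩
    rcases List.mem_append.1 hcl with h | h
    · refine hK.uni cl h ⟨fun i => ν (v i), fun _ => trivial, fun f hf => ?_⟩
      obtain ⟨i, hi⟩ := ax_atoms cl h f hf
      have hm : f.t ∈ L := by rw [hi]; exact hL.atoms i
      exact (hD f.s f.t hm _ _).1 (hv f hf)
    · obtain ⟨t, ht, hcl'⟩ := List.mem_flatMap.1 h
      have d1 : ∀ t ∈ L, ∀ a b, sg T true t a b ↔ t.eval K (ν a) (ν b) := hT
      have d2 : ∀ t ∈ L, ∀ a b, sg T false t a b ↔ ¬ t.eval K (ν a) (ν b) :=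
        fun t ht a b => not_congr (hT t ht a b)
      rcases List.mem_cons.1 hcl' with e | h'
      · subst e
        have h1 := hv ⟨true, t, 0, 1⟩ (by simp)
        have h2 := hv ⟨false, t, 0, 1⟩ (by simp)
        exact h2 h1
      · cases t with
        | atom i => exact absurd h' (List.not_mem_nil)
        | nand x y =>
          obtain ⟨hx, hy⟩ := hL.nandL x y ht
          simp only [List.mem_cons, List.not_mem_nil, or_false] at h'
          rcases h' with rfl | rfl | rfl
          · have h1 := (d1 _ ht _ _).1 (hv ⟨true, .nand x y, 0, 1⟩ (by simp))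
            have h2 := (d1 _ hx _ _).1 (hv ⟨true, x, 0, 1⟩ (by simp))
            have h3 := (d1 _ hy _ _).1 (hv ⟨true, y, 0, 1⟩ (by simp))
            exact h1 ⟨h2, h3⟩
          · have h1 := (d2 _ ht _ _).1 (hv ⟨false, .nand x y, 0, 1⟩ (by simp))
            have h2 := (d2 _ hx _ _).1 (hv ⟨false, x, 0, 1⟩ (by simp))
            exact h1 (fun h => h2 h.1)
          · have h1 := (d2 _ ht _ _).1 (hv ⟨false, .nand x y, 0, 1⟩ (by simp))
            have h2 := (d2 _ hy _ _).1 (hv ⟨false, y, 0, 1⟩ (by simp))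
            exact h1 (fun h => h2 h.2)
        | comp x y =>
          obtain ⟨hx, hy⟩ := hL.compL x y ht
          simp only [List.mem_cons, List.not_mem_nil, or_false] at h'
          subst h'
          have h1 := (d2 _ ht _ _).1 (hv ⟨false, .comp x y, 0, 1⟩ (by simp))
          have h2 := (d1 _ hx _ _).1 (hv ⟨true, x, 0, 2⟩ (by simp))
          have h3 := (d1 _ hy _ _).1 (hv ⟨true, y, 2, 1⟩ (by simp))
          exact h1 ⟨_, h2, h3⟩
        | conv x =>
          have hx := hL.convL x ht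
          simp only [List.mem_cons, List.not_mem_nil, or_false] at h'
          rcases h' with rfl | rfl
          · have h1 := (d1 _ ht _ _).1 (hv ⟨true, .conv x, 0, 1⟩ (by simp))
            have h2 := (d2 _ hx _ _).1 (hv ⟨false, x, 1, 0⟩ (by simp))
            exact h2 h1
          · have h1 := (d2 _ ht _ _).1 (hv ⟨false, .conv x, 0, 1⟩ (by simp))
            have h2 := (d1 _ hx _ _).1 (hv ⟨true, x, 1, 0⟩ (by simp))
            exact h1 h2
  · have hg : Gd L K k (ν a) (ν b) (ν (W k a b)) := hν (W k a b) k a b rfl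
    show Ans L (sg T) k a b (W k a b)
    obtain ⟨g1, g2, g3, g4⟩ := hg
    refine ⟨fun t ht e => ?_, fun i hi e => ?_, fun e => ?_, fun e => ?_⟩
    · by_cases h : t.eval K (ν a) (ν b)
      · refine Or.inr ⟨hDt t ht a b h, ?_⟩
        rintro u v rfl
        obtain ⟨h1, h2⟩ := g1 u v ht e h
        obtain ⟨hu, hv⟩ := hL.compL u v ht
        exact ⟨hDt u hu _ _ h1, hDt v hv _ _ h2⟩
      · exact Or.inl ((hD false t ht a b).2 (by rwa [if_neg Bool.false_ne_true]))
    · exact hDt _ (hL.atoms i) _ _ (g2 i hi e)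
    · exact ⟨hDt _ (hL.atoms 1) _ _ (g3 e).1, hDt _ (hL.atoms 2) _ _ (g3 e).2⟩
    · rcases g4 e with h | h
      · exact Or.inl (hDt _ (hL.atoms 3) _ _ h)
      · exact Or.inr (hDt _ (hL.atoms 4) _ _ h)

theorem num_step {N : Type} [Add N] [Mul N] [One N] [NatCast N] {J : RInt} {L : List RT}
    (hL : Closed L) (hz : tZ J ∈ L) (hs : tS J ∈ L) {T : N → N → N → Prop} {H : N → Prop}
    (hT : Tab L T H) {K : UStr} (hK : UAx K) (ν : N → K.C)
    (hν : ∀ t ∈ L, ∀ a b, H a → H b → (T (t.code : N) a b ↔ t.eval K (ν a) (ν b)))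
    {A : ArStr.{0}} {Rep : K.C → A.C → Prop} (hJ : DefU J K A Rep) :
    (∀ a b, H a → H b → H (W ((tZ J).code : N) a b) → Rep (ν (W ((tZ J).code : N) a b)) A.zero) ∧
    (∀ a n, H a → H (W ((tS J).code : N) a a) → Rep (ν a) n →
      Rep (ν (W ((tS J).code : N) a a)) (A.succ n)) := by
  have key : ∀ u v, RT.comp u v ∈ L → ∀ a b, H a → H b →
      H (W ((RT.comp u v).code : N) a b) → (RT.comp u v).eval K (ν a) (ν b) →
      u.eval K (ν a) (ν (W ((RT.comp u v).code : N) a b)) ∧
        v.eval K (ν (W ((RT.comp u v).code : N) a b)) (ν b) := by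
    intro u v huv a b ha hb hc he
    have h1 : T ((RT.comp u v).code : N) a b := (hν _ huv a b ha hb).2 he
    have h2 := (hT.ans _ (List.mem_append_left _ (List.mem_map_of_mem huv)) a b ha hb hc).1 _ huv rfl
    obtain ⟨hu, hv⟩ := hL.compL u v huv
    rcases h2 with h2 | ⟨-, h2⟩
    · exact absurd h1 h2
    · obtain ⟨h3, h4⟩ := h2 u v rfl
      exact ⟨(hν u hu _ _ ha hc).1 h3, (hν v hv _ _ hc hb).1 h4⟩
  have ez : ∀ c b, (z1 J).eval K c b ↔ Rep c A.zero := by
    intro c b
    unfold z1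
    rw [eval_and, eval_diag hK, eval_diag hK, hJ.dom]
    constructor
    · rintro ⟨⟨n, hn⟩, h⟩
      rw [(hJ.zero c n hn).1 h] at hn
      exact hn
    · intro h
      exact ⟨⟨_, h⟩, (hJ.zero c _ h).2 rfl⟩
  have es : ∀ a c n, Rep a n → ((s1 J).eval K a c ↔ Rep c (A.succ n)) := by
    intro a c n ha
    unfold s1
    rw [eval_and]
    show _ ∧ (J.dom.diag).eval K c a ↔ _
    rw [eval_diag hK, hJ.dom]
    constructor
    · rintro ⟨h, m, hm⟩
      rw [(hJ.succ a c n m ha hm).1 h]
      exact hm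
    · intro h
      exact ⟨(hJ.succ a c n _ ha h).2 rfl, _, h⟩
  constructor
  · intro a b ha hb hc
    obtain ⟨c0, h0⟩ := hJ.ex A.zero
    exact (ez _ _).1 (key _ _ hz a b ha hb hc ⟨c0, eval_one K _ _, (ez c0 _).2 h0⟩).2
  · intro a n ha hc hn
    obtain ⟨c0, h0⟩ := hJ.ex (A.succ n)
    exact (es _ _ n hn).1 (key _ _ hs a a ha ha hc ⟨c0, (es _ c0 n hn).2 h0, eval_one K _ _⟩).1

/-- in a table structure on `ℕ` or a named structure the element `hh J i` represents `i` -/
theorem num_hh {J : RInt} {L : List RT} (hL : Closed L) (hz : tZ J ∈ L) (hs : tS J ∈ L)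
    {T : ℕ → ℕ → ℕ → Prop} (hT : Tab L T (fun _ => True)) {K : UStr} (hK : UAx K) (ν : ℕ → K.C)
    (hν : ∀ t ∈ L, ∀ a b, T t.code a b ↔ t.eval K (ν a) (ν b))
    {A : ArStr.{0}} [IsE A] {Rep : K.C → A.C → Prop} (hJ : DefU J K A Rep) (i : ℕ) :
    Rep (ν (hh J i)) (i : A.C) := by
  obtain ⟨h1, h2⟩ := num_step hL hz hs hT hK ν (fun t ht a b _ _ => hν t ht a b) hJ
  induction i with
  | zero =>
    rw [Nat.cast_zero]
    exact h1 0 0 trivial trivial trivial
  | succ i ih =>
    have h3 := h2 (hh J i) (i : A.C) trivial trivial ih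
    rw [Nat.cast_succ, ← succ_eq]
    exact h3

end Pool.Agent.Work.MP_de7025_lc.F
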