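import Pool.Agent.Work.MP_de7025_lc.F.Tab0
import Pool.Agent.Work.MP_de7025_lc.F.T1
import Pool.Agent.Work.MP_de7025_lc.F.T2
import Pool.Agent.Work.MP_de7025_lc.F.T3
import Pool.Agent.Work.MP_de7025_lc.F.E5

set_option autoImplicit false

/-!
# F/T7 (M): the cut and the structure `KT`

PROOF. `cut_W`: `a, b < G ^ j`, `k < G`: `W k a b = 1 + (k + P) ^ 2 + P`, `P = pr a b ≤ (2 G ^ j) ^ 2 + G ^ j`, everything `< G ^ (8 j + 8)` or so because `G` is larger than every numeral. `cut_lt_ex`: `G ^ j ≤ ex (G * G)`: `G ≤ ex G`, `G ^ j ≤ ex G ^ j = ex (G * j)` (`ex_add`, induction on `j`),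
`j ≤ G`. `KT_truth`: `tab_transfer` with `f = id` from `a < z` to the cut (`Setup.long`), then `tab_truth`. `KT_num`: `num_step` with `ν a = ⟨a, _⟩` if `cut G a` (a fixed element otherwise).
-/

namespace Pool.Agent.Work.MP_de7025_lc.F

variable {A : ArStr.{0}} [IsE A]

theorem cut_of_lt {G a b : A.C} (h : cut G b) (hab : a ≤ b) : cut G a := by
  obtain ⟨j, hj⟩ := h
  exact ⟨j, hab.trans_lt hj⟩

private theorem one_lt_G {G : A.C} (h : ∀ m : ℕ, (m : A.C) < G) : (1 : A.C) < G := by
  have h1 := h 1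
  rwa [Nat.cast_one] at h1

private theorem pow_mono' {G : A.C} (h : ∀ m : ℕ, (m : A.C) < G) {i j : ℕ} (hij : i ≤ j) :
    G ^ i ≤ G ^ j := pow_le_pow_right₀ (one_lt_G h).le hij

private theorem cut_add {G : A.C} (h : ∀ m : ℕ, (m : A.C) < G) {a b : A.C} (ha : cut G a)
    (hb : cut G b) : cut G (a + b) := by
  obtain ⟨i, hi⟩ := ha
  obtain ⟨j, hj⟩ := hb
  refine ⟨max i j + 1, ?_⟩
  have h1 : a < G ^ max i j := hi.trans_le (pow_mono' h (le_max_left _ _))
  have h2 : b < G ^ max i j := hj.trans_le (pow_mono' h (le_max_right _ _))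
  have h3 : (2 : A.C) ≤ G := by
    have h4 := (h 2).le
    rwa [Nat.cast_ofNat] at h4
  calc a + b < G ^ max i j + G ^ max i j := add_lt_add h1 h2
    _ = G ^ max i j * 2 := by ring
    _ ≤ G ^ max i j * G := mul_le_mul_of_nonneg_left h3 zero_le
    _ = G ^ (max i j + 1) := (pow_succ _ _).symm

private theorem cut_mul {G a b : A.C} (ha : cut G a) (hb : cut G b) : cut G (a * b) := by
  obtain ⟨i, hi⟩ := ha
  obtain ⟨j, hj⟩ := hb
  refine ⟨i + j, ?_⟩
  rw [pow_add]
  exact mul_lt_mul'' hi hj zero_le zero_le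

private theorem cut_pr {G : A.C} (h : ∀ m : ℕ, (m : A.C) < G) {a b : A.C} (ha : cut G a)
    (hb : cut G b) : cut G (pr a b) :=
  cut_add h (cut_mul (cut_add h ha hb) (cut_add h ha hb)) hb

private theorem cut_num {G : A.C} (h : ∀ m : ℕ, (m : A.C) < G) (m : ℕ) : cut G (m : A.C) :=
  ⟨1, by rw [pow_one]; exact h m⟩

theorem cut_W {G : A.C} (h : ∀ m : ℕ, (m : A.C) < G) (k : ℕ) {a b : A.C} (ha : cut G a)
    (hb : cut G b) : cut G (W (k : A.C) a b) := by
  unfold W
  have h1 := cut_num h 1
  rw [Nat.cast_one] at h1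
  exact cut_add h h1 (cut_pr h (cut_num h k) (cut_pr h ha hb))

theorem cut_lt_ex {G : A.C} (h : ∀ m : ℕ, (m : A.C) < G) {a : A.C} (ha : cut G a) :
    a < ex (G * G) := by
  obtain ⟨j, hj⟩ := ha
  have h1 : ∀ j : ℕ, G ^ j ≤ ex (G * (j : A.C)) := by
    intro j
    induction j with
    | zero => rw [pow_zero, Nat.cast_zero, mul_zero, ex_zero]
    | succ j ih =>
      rw [pow_succ, Nat.cast_succ, mul_add, mul_one, ex_add]
      exact mul_le_mul' ih (lt_ex G).le
  exact hj.trans_le ((h1 j).trans (ex_le_ex (mul_le_mul_of_nonneg_left (h j).le zero_le)))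

theorem cut_self {G a : A.C} (h : a < G) : cut G a := ⟨1, by rwa [pow_one]⟩

private theorem mem_app {L : List RT} {t x : RT} (h : x ∈ L) : x ∈ L ++ [t] :=
  List.mem_append_left _ h

private theorem mem_last (L : List RT) (t : RT) : t ∈ L ++ [t] := by
  rw [List.mem_append, List.mem_singleton]
  exact Or.inr rfl

private theorem built_closed {L : List RT} (h : Built L) : Closed L := by
  induction h with
  | atoms =>
    refine ⟨?_, ?_, ?_, ?_⟩
    · intro i
      fin_cases i <;> simp [atomsL]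
    · intro u v h
      simp [atomsL] at h
    · intro u v h
      simp [atomsL] at h
    · intro u h
      simp [atomsL] at h
  | @nand L u v hL hu hv hn ih =>
    refine ⟨fun i => mem_app (ih.atoms i), fun a b hab => ?_, fun a b hab => ?_, fun a hab => ?_⟩
    · rw [List.mem_append, List.mem_singleton] at hab
      rcases hab with h | h
      · exact ⟨mem_app (ih.nandL a b h).1, mem_app (ih.nandL a b h).2⟩
      · injection h with h1 h2
        rw [h1, h2]
        exact ⟨mem_app hu, mem_app hv⟩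
    · rw [List.mem_append, List.mem_singleton] at hab
      rcases hab with h | h
      · exact ⟨mem_app (ih.compL a b h).1, mem_app (ih.compL a b h).2⟩
      · exact RT.noConfusion h
    · rw [List.mem_append, List.mem_singleton] at hab
      rcases hab with h | h
      · exact mem_app (ih.convL a h)
      · exact RT.noConfusion h
  | @comp L u v hL hu hv hn ih =>
    refine ⟨fun i => mem_app (ih.atoms i), fun a b hab => ?_, fun a b hab => ?_, fun a hab => ?_⟩
    · rw [List.mem_append, List.mem_singleton] at hab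
      rcases hab with h | h
      · exact ⟨mem_app (ih.nandL a b h).1, mem_app (ih.nandL a b h).2⟩
      · exact RT.noConfusion h
    · rw [List.mem_append, List.mem_singleton] at hab
      rcases hab with h | h
      · exact ⟨mem_app (ih.compL a b h).1, mem_app (ih.compL a b h).2⟩
      · injection h with h1 h2
        rw [h1, h2]
        exact ⟨mem_app hu, mem_app hv⟩
    · rw [List.mem_append, List.mem_singleton] at hab
      rcases hab with h | h
      · exact mem_app (ih.convL a h)
      · exact RT.noConfusion h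
  | @conv L u hL hu hn ih =>
    refine ⟨fun i => mem_app (ih.atoms i), fun a b hab => ?_, fun a b hab => ?_, fun a hab => ?_⟩
    · rw [List.mem_append, List.mem_singleton] at hab
      rcases hab with h | h
      · exact ⟨mem_app (ih.nandL a b h).1, mem_app (ih.nandL a b h).2⟩
      · exact RT.noConfusion h
    · rw [List.mem_append, List.mem_singleton] at hab
      rcases hab with h | h
      · exact ⟨mem_app (ih.compL a b h).1, mem_app (ih.compL a b h).2⟩
      · exact RT.noConfusion h
    · rw [List.mem_append, List.mem_singleton] at hab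
      rcases hab with h | h
      · exact mem_app (ih.convL a h)
      · injection h with h1
        rw [h1]
        exact mem_app hu

private theorem KT_tab {J : RInt} {L : List RT} {t z b g G : A.C} (S : Setup J L t z b g G) :
    Tab L (TT t) (cut G) :=
  tab_transfer (built_closed S.built) (T1 := TT t) (T2 := TT t) (H1 := cut G) (H2 := fun a => a < z)
    (fun a => a) S.long (fun _ _ _ _ _ _ => Iff.rfl) (fun _ _ _ _ _ _ _ => rfl) S.tab

theorem KT_truth {J : RInt} {L : List RT} {t z b g G : A.C} (S : Setup J L t z b g G) :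
    UAx (KT t G S.big) ∧ ∀ r ∈ L, ∀ x y : (KT t G S.big).C,
      r.eval (KT t G S.big) x y ↔ TT t (r.code : A.C) x.1 y.1 :=
  tab_truth (built_closed S.built) (cut_ne S.big) (KT_tab S) (fun k _ _ _ ha hb => cut_W S.big k ha hb)

open scoped Classical in
theorem KT_num {J : RInt} {L : List RT} {t z b g G : A.C} (S : Setup J L t z b g G)
    {A' : ArStr.{0}} {Rep : (KT t G S.big).C → A'.C → Prop} (hJ : DefU J (KT t G S.big) A' Rep) :
    (∀ hc : cut G (W ((tZ J).code : A.C) 0 0), Rep ⟨W ((tZ J).code : A.C) 0 0, hc⟩ A'.zero) ∧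
    (∀ (x : (KT t G S.big).C) (n : A'.C) (hc : cut G (W ((tS J).code : A.C) x.1 x.1)), Rep x n →
      Rep ⟨W ((tS J).code : A.C) x.1 x.1, hc⟩ (A'.succ n)) := by
  let ν : A.C → (KT t G S.big).C := fun a => if h : cut G a then ⟨a, h⟩ else
    ⟨(cut_ne S.big).choose, (cut_ne S.big).choose_spec⟩
  have hν0 : ∀ a (h : cut G a), ν a = ⟨a, h⟩ := fun a h => dif_pos h
  obtain ⟨hU, htr⟩ := KT_truth S
  have hν : ∀ r ∈ L, ∀ a b, cut G a → cut G b →
      (TT t (r.code : A.C) a b ↔ r.eval (KT t G S.big) (ν a) (ν b)) := by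
    intro r hr a b ha hb
    rw [hν0 a ha, hν0 b hb]
    exact (htr r hr ⟨a, ha⟩ ⟨b, hb⟩).symm
  obtain ⟨h1, h2⟩ := num_step (built_closed S.built) (S.need _ (by simp [needL])) (S.need _ (by simp [needL]))
    (KT_tab S) hU ν hν hJ
  have h0 : cut G (0 : A.C) := by
    have h3 := cut_num S.big 0
    rwa [Nat.cast_zero] at h3
  constructor
  · intro hc
    have h3 := h1 0 0 h0 h0 hc
    rw [hν0 _ hc] at h3
    exact h3
  · intro x n hc hx
    have h3 := h2 x.1 n x.2 hc (by rw [hν0 _ x.2]; exact hx)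
    rw [hν0 _ hc] at h3
    exact h3

/-- answers to the request for a pair -/
theorem KT_pair {J : RInt} {L : List RT} {t z b g G : A.C} (S : Setup J L t z b g G)
    (x y : (KT t G S.big).C) : ∃ d : (KT t G S.big).C, d.1 = W (kp : A.C) x.1 y.1 ∧
      (KT t G S.big).R 1 d x ∧ (KT t G S.big).R 2 d y := by
  have hc : cut G (W (kp : A.C) x.1 y.1) := cut_W S.big kp x.2 y.2
  have hk : kp ∈ Reqs L := by
    unfold Reqs
    simp
  have h := ((KT_tab S).ans kp hk x.1 y.1 x.2 y.2 hc).2.2.1 rfl
  exact ⟨⟨_, hc⟩, rfl, h.1, h.2⟩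

end Pool.Agent.Work.MP_de7025_lc.F
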